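import Pool.Agent.Lib.MP_bda2fe_al.Defs

/-!
# Extension of scalars for nuclei

`k` is a field, `Φ` a commutative `k`-algebra; `BC j c` says that `j : A → A'` makes the `Φ`-algebra `A'` the extension of scalars of the
`k`-algebra `A`; `c l` applies the linear form `l` of `Φ`.
-/

set_option linter.unusedSectionVars false

namespace Pool.Agent.Lib.MP_bda2fe_al

section
variable (k Φ A A' : Type) [Field k] [CommRing Φ] [Algebra k Φ]
  [NonUnitalNonAssocRing A] [Module k A] [SMulCommClass k A A] [IsScalarTower k A A]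
  [NonUnitalNonAssocRing A'] [Module Φ A'] [SMulCommClass Φ A' A'] [IsScalarTower Φ A' A']

/-- `A'` is the extension of scalars of `A`. -/
structure BC (j : A → A') (c : (Φ →ₗ[k] k) → A' → A) : Prop where
  jadd : ∀ a b, j (a + b) = j a + j b
  jmul : ∀ a b, j (a * b) = j a * j b
  jsmul : ∀ (r : k) a, j (r • a) = algebraMap k Φ r • j a
  ind : ∀ p : A' → Prop, p 0 → (∀ u v, p u → p v → p (u + v)) → (∀ (f : Φ) a, p (f • j a)) → ∀ u, p u
  cadd : ∀ l u v, c l (u + v) = c l u + c l v
  cgen : ∀ l (f : Φ) a, c l (f • j a) = l f • a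

end

variable {k Φ A A' : Type} [Field k] [CommRing Φ] [Algebra k Φ]
  [NonUnitalNonAssocRing A] [Module k A] [SMulCommClass k A A] [IsScalarTower k A A]
  [NonUnitalNonAssocRing A'] [Module Φ A'] [SMulCommClass Φ A' A'] [IsScalarTower Φ A' A']
  {j : A → A'} {c : (Φ →ₗ[k] k) → A' → A}

namespace BC

variable (h : BC k Φ A A' j c)
include h

theorem c0 (l : Φ →ₗ[k] k) : c l 0 = 0 := by
  have h1 := h.cgen l 0 0
  rwa [zero_smul, smul_zero] at h1

theorem j0 : j 0 = 0 := by
  have h1 := h.jsmul 0 0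
  rwa [zero_smul, map_zero, zero_smul] at h1

theorem cneg (l : Φ →ₗ[k] k) (u : A') : c l (-u) = -c l u := by
  have h1 := h.cadd l u (-u)
  rw [add_neg_cancel, h.c0] at h1
  exact (neg_eq_of_add_eq_zero_right h1.symm).symm

theorem csub (l : Φ →ₗ[k] k) (u v : A') : c l (u - v) = c l u - c l v := by
  rw [sub_eq_add_neg, h.cadd, h.cneg, ← sub_eq_add_neg]

theorem cj (l : Φ →ₗ[k] k) (a : A) : c l (j a) = l 1 • a := by
  have h1 := h.cgen l 1 a
  rwa [one_smul] at h1

theorem cmulr (l : Φ →ₗ[k] k) (u : A') (a : A) : c l (u * j a) = c l u * a := by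
  refine h.ind (fun u => c l (u * j a) = c l u * a) ?_ ?_ ?_ u
  · rw [zero_mul, h.c0, zero_mul]
  · intro u v hu hv
    rw [add_mul, h.cadd, hu, hv, h.cadd, add_mul]
  · intro f b
    rw [smul_mul_assoc, ← h.jmul, h.cgen, h.cgen, smul_mul_assoc]

theorem cmull (l : Φ →ₗ[k] k) (u : A') (a : A) : c l (j a * u) = a * c l u := by
  refine h.ind (fun u => c l (j a * u) = a * c l u) ?_ ?_ ?_ u
  · rw [mul_zero, h.c0, mul_zero]
  · intro u v hu hv
    rw [mul_add, h.cadd, hu, hv, h.cadd, mul_add]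
  · intro f b
    rw [mul_smul_comm, ← h.jmul, h.cgen, h.cgen, mul_smul_comm]

theorem csmul (l : Φ →ₗ[k] k) (f : Φ) (u : A') : c l (f • u) = c (l.comp (LinearMap.mulLeft k f)) u := by
  refine h.ind (fun u => c l (f • u) = c (l.comp (LinearMap.mulLeft k f)) u) ?_ ?_ ?_ u
  · rw [smul_zero, h.c0, h.c0]
  · intro u v hu hv
    rw [smul_add, h.cadd, hu, hv, h.cadd]
  · intro g b
    rw [smul_smul, h.cgen, h.cgen, LinearMap.comp_apply, LinearMap.mulLeft_apply]

theorem exp (u : A') : ∃ s : Finset (Module.Basis.ofVectorSpaceIndex k Φ),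
    (∀ i, i ∉ s → c ((Module.Basis.ofVectorSpace k Φ).coord i) u = 0) ∧
    u = ∑ i ∈ s, (Module.Basis.ofVectorSpace k Φ) i • j (c ((Module.Basis.ofVectorSpace k Φ).coord i) u) := by
  classical
  set b := Module.Basis.ofVectorSpace k Φ with hb
  have ext : ∀ (u : A') (s t : Finset (Module.Basis.ofVectorSpaceIndex k Φ)), s ⊆ t → (∀ i, i ∉ s → c (b.coord i) u = 0) →
      u = ∑ i ∈ s, b i • j (c (b.coord i) u) → u = ∑ i ∈ t, b i • j (c (b.coord i) u) := by
    intro u s t hst h0 hu
    rw [← Finset.sum_subset hst]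
    · exact hu
    · intro i _ hi
      rw [h0 i hi, h.j0, smul_zero]
  refine h.ind (fun u => ∃ s : Finset (Module.Basis.ofVectorSpaceIndex k Φ), (∀ i, i ∉ s → c (b.coord i) u = 0) ∧
    u = ∑ i ∈ s, b i • j (c (b.coord i) u)) ?_ ?_ ?_ u
  · exact ⟨∅, fun i _ => h.c0 _, by simp⟩
  · rintro u v ⟨s, hs0, hs⟩ ⟨t, ht0, ht⟩
    refine ⟨s ∪ t, fun i hi => ?_, ?_⟩
    · rw [Finset.mem_union, not_or] at hi
      rw [h.cadd, hs0 i hi.1, ht0 i hi.2, add_zero]
    · have h1 := ext u s (s ∪ t) Finset.subset_union_left hs0 hs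
      have h2 := ext v t (s ∪ t) Finset.subset_union_right ht0 ht
      simp only [h.cadd, h.jadd, smul_add, Finset.sum_add_distrib]
      rw [← h1, ← h2]
  · intro f a
    refine ⟨(b.repr f).support, fun i hi => ?_, ?_⟩
    · rw [h.cgen, Module.Basis.coord_apply, Finsupp.notMem_support_iff.1 hi, zero_smul]
    · have h1 : (b.repr f).sum (fun i r => r • b i) = f := by
        have h2 := b.linearCombination_repr f
        rwa [Finsupp.linearCombination_apply] at h2
      conv_lhs => rw [← h1]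
      rw [Finsupp.sum, Finset.sum_smul]
      refine Finset.sum_congr rfl fun i _ => ?_
      rw [h.cgen, Module.Basis.coord_apply, h.jsmul, smul_smul, Algebra.smul_def, mul_comm]

theorem sep (u : A') (hu : ∀ l, c l u = 0) : u = 0 := by
  obtain ⟨s, _, hs⟩ := h.exp u
  rw [hs]
  refine Finset.sum_eq_zero fun i _ => ?_
  rw [hu, h.j0, smul_zero]

/-- The extension of scalars of a submodule. -/
def bc (C : Submodule k A) : Submodule Φ A' where
  carrier := {u | ∀ l, c l u ∈ C}
  add_mem' := fun hu hv l => by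
    rw [h.cadd]
    exact add_mem (hu l) (hv l)
  zero_mem' := fun l => by
    rw [h.c0]
    exact zero_mem C
  smul_mem' := fun f u hu l => by
    rw [h.csmul]
    exact hu _

theorem mem_bc {C : Submodule k A} {u : A'} : u ∈ h.bc C ↔ ∀ l, c l u ∈ C := Iff.rfl

theorem j_mem {C : Submodule k A} {a : A} (ha : a ∈ C) : j a ∈ h.bc C := fun l => by
  rw [h.cj]
  exact C.smul_mem _ ha

theorem of_j_mem [Nontrivial Φ] {C : Submodule k A} {a : A} (ha : j a ∈ h.bc C) : a ∈ C := by
  obtain ⟨g, hg⟩ := LinearMap.exists_leftInverse_of_injective (Algebra.linearMap k Φ)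
    (LinearMap.ker_eq_bot.2 (algebraMap k Φ).injective)
  have h1 : g 1 = 1 := by
    have h2 := LinearMap.congr_fun hg 1
    simpa using h2
  have h3 := ha g
  rwa [h.cj, h1, one_smul] at h3

theorem bc_le {C : Submodule k A} {M : Submodule Φ A'} (hM : ∀ a ∈ C, j a ∈ M) : h.bc C ≤ M := by
  intro u hu
  obtain ⟨s, _, hs⟩ := h.exp u
  rw [hs]
  exact Submodule.sum_mem _ fun i _ => M.smul_mem _ (hM _ (hu _))

/-- The preimage of a submodule. -/
def pre (M : Submodule Φ A') : Submodule k A where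
  carrier := {a | j a ∈ M}
  add_mem' := fun ha hb => by
    change j _ ∈ M
    rw [h.jadd]
    exact add_mem ha hb
  zero_mem' := by
    change j 0 ∈ M
    rw [h.j0]
    exact zero_mem M
  smul_mem' := fun r a ha => by
    change j _ ∈ M
    rw [h.jsmul]
    exact M.smul_mem _ ha

theorem mem_pre {M : Submodule Φ A'} {a : A} : a ∈ h.pre M ↔ j a ∈ M := Iff.rfl

theorem bc_sub {C : Submodule k A} (hC : IsSub C) : IsSub (h.bc C) := by
  intro u hu v hv
  obtain ⟨s, _, hs⟩ := h.exp v
  rw [hs, Finset.mul_sum]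
  refine Submodule.sum_mem _ fun i _ => ?_
  rw [mul_smul_comm]
  refine Submodule.smul_mem _ _ fun l => ?_
  rw [h.cmulr]
  exact hC _ (hu l) _ (hv _)

theorem bc_id {C : Submodule k A} (hC : IsId C) : IsId (h.bc C) := by
  intro u hu v
  obtain ⟨s, _, hs⟩ := h.exp v
  rw [hs, Finset.mul_sum, Finset.sum_mul]
  constructor
  · refine Submodule.sum_mem _ fun i _ => ?_
    rw [smul_mul_assoc]
    refine Submodule.smul_mem _ _ fun l => ?_
    rw [h.cmull]
    exact (hC _ (hu l) _).1
  · refine Submodule.sum_mem _ fun i _ => ?_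
    rw [mul_smul_comm]
    refine Submodule.smul_mem _ _ fun l => ?_
    rw [h.cmulr]
    exact (hC _ (hu l) _).2

theorem pre_sub {M : Submodule Φ A'} (hM : IsSub M) : IsSub (h.pre M) := by
  intro a ha b hb
  rw [mem_pre, h.jmul]
  exact hM _ ha _ hb

theorem pre_id {M : Submodule Φ A'} (hM : IsId M) : IsId (h.pre M) := by
  intro a ha b
  rw [mem_pre, mem_pre, h.jmul, h.jmul]
  exact hM _ ha _

/-- The nucleus commutes with the extension of scalars. -/
theorem nucleus_eq : nucleus Φ A' = h.bc (nucleus k A) := by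
  refine le_antisymm ?_ ?_
  · intro u hu l a b
    obtain ⟨h1, h2, h3⟩ := hu (j a) (j b)
    refine ⟨?_, ?_, ?_⟩
    · have h4 := congrArg (c l) h1
      rwa [h.cmulr, h.cmulr, ← h.jmul, h.cmulr] at h4
    · have h4 := congrArg (c l) h2
      rwa [h.cmulr, h.cmull, h.cmull, h.cmulr] at h4
    · have h4 := congrArg (c l) h3
      rwa [← h.jmul, h.cmull, h.cmull, h.cmull] at h4
  · refine h.bc_le fun n hn => ?_
    have hz : ∀ (u : A') (a : A), j n * u * j a = j n * (u * j a) ∧ u * j n * j a = u * (j n * j a) ∧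
        u * j a * j n = u * (j a * j n) := by
      intro u a
      refine h.ind (fun u => j n * u * j a = j n * (u * j a) ∧ u * j n * j a = u * (j n * j a) ∧
        u * j a * j n = u * (j a * j n)) ?_ ?_ ?_ u
      · simp only [mul_zero, zero_mul, and_self]
      · rintro u v ⟨hu1, hu2, hu3⟩ ⟨hv1, hv2, hv3⟩
        simp only [mul_add, add_mul, hu1, hu2, hu3, hv1, hv2, hv3, and_self]
      · intro f b
        obtain ⟨h1, h2, h3⟩ := hn b a
        simp only [mul_smul_comm, smul_mul_assoc, ← h.jmul]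
        rw [h1, h2, h3]
        exact ⟨rfl, rfl, rfl⟩
    intro u v
    refine h.ind (fun v => j n * u * v = j n * (u * v) ∧ u * j n * v = u * (j n * v) ∧ u * v * j n = u * (v * j n)) ?_ ?_ ?_ v
    · simp only [mul_zero, zero_mul, and_self]
    · rintro v w ⟨hu1, hu2, hu3⟩ ⟨hv1, hv2, hv3⟩
      simp only [mul_add, add_mul, hu1, hu2, hu3, hv1, hv2, hv3, and_self]
    · intro f a
      obtain ⟨h1, h2, h3⟩ := hz u a
      simp only [mul_smul_comm, smul_mul_assoc, h1, h2, h3, and_self]

/-- The center commutes with the extension of scalars. -/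
theorem cent_eq : cent Φ A' = h.bc (cent k A) := by
  refine le_antisymm ?_ ?_
  · rintro u ⟨hu, huc⟩ l
    refine ⟨?_, fun a => ?_⟩
    · rw [h.nucleus_eq] at hu
      exact hu l
    · have h4 := congrArg (c l) (huc (j a))
      rwa [h.cmulr, h.cmull] at h4
  · refine h.bc_le fun n hn => ⟨?_, fun u => ?_⟩
    · rw [h.nucleus_eq]
      exact h.j_mem hn.1
    · refine h.ind (fun u => j n * u = u * j n) ?_ ?_ ?_ u
      · rw [mul_zero, zero_mul]
      · intro u v hu hv
        rw [mul_add, add_mul, hu, hv]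
      · intro f a
        rw [mul_smul_comm, smul_mul_assoc, ← h.jmul, ← h.jmul, hn.2]

end BC

section
variable {R B : Type} [CommRing R] [NonUnitalNonAssocRing B] [Module R B] [SMulCommClass R B B] [IsScalarTower R B B]

theorem ZN_id : IsId (ZN R B) := by
  intro a ha b
  unfold ZN at *
  rw [Submodule.mem_sInf] at *
  rw [Submodule.mem_sInf]
  exact ⟨fun I hI => (hI.1 a (ha I hI) b).1, fun I hI => (hI.1 a (ha I hI) b).2⟩

theorem ZN_mem {n : B} (hn : n ∈ nucleus R B) (a : B) : n * a - a * n ∈ ZN R B := by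
  unfold ZN
  rw [Submodule.mem_sInf]
  exact fun I hI => hI.2 n hn a

theorem ZN_le {I : Submodule R B} (hI : IsId I) (h : ∀ n ∈ nucleus R B, ∀ a, n * a - a * n ∈ I) : ZN R B ≤ I :=
  sInf_le ⟨hI, h⟩

theorem sup_id {I J : Submodule R B} (hI : IsId I) (hJ : IsId J) : IsId (I ⊔ J) := by
  intro a ha b
  obtain ⟨x, hx, y, hy, rfl⟩ := Submodule.mem_sup.1 ha
  rw [mul_add, add_mul]
  exact ⟨add_mem (Submodule.mem_sup_left (hI x hx b).1) (Submodule.mem_sup_right (hJ y hy b).1),
    add_mem (Submodule.mem_sup_left (hI x hx b).2) (Submodule.mem_sup_right (hJ y hy b).2)⟩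

theorem U_le : U R B ≤ nucleus R B := sSup_le fun _ hI => hI.2

theorem le_U {I : Submodule R B} (hI : IsId I) (h : I ≤ nucleus R B) : I ≤ U R B := le_sSup ⟨hI, h⟩

theorem U_id : IsId (U R B) := by
  intro a ha b
  have h1 : DirectedOn (· ≤ ·) {I : Submodule R B | IsId I ∧ I ≤ nucleus R B} := fun I hI J hJ =>
    ⟨I ⊔ J, ⟨sup_id hI.1 hJ.1, sup_le hI.2 hJ.2⟩, le_sup_left, le_sup_right⟩
  have h2 : ({I : Submodule R B | IsId I ∧ I ≤ nucleus R B}).Nonempty := by
    refine ⟨⊥, ?_, bot_le⟩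
    intro x hx y
    rw [Submodule.mem_bot] at hx
    rw [hx, mul_zero, zero_mul]
    exact ⟨zero_mem _, zero_mem _⟩
  unfold U at ha
  obtain ⟨I, hI, haI⟩ := (Submodule.mem_sSup_of_directed h2 h1).1 ha
  exact ⟨le_U hI.1 hI.2 (hI.1 a haI b).1, le_U hI.1 hI.2 (hI.1 a haI b).2⟩

end

namespace BC

variable (h : BC k Φ A A' j c)
include h

theorem ZN_eq : ZN Φ A' = h.bc (ZN k A) := by
  refine le_antisymm (ZN_le (h.bc_id ZN_id) ?_) (h.bc_le fun a ha => ?_)
  · intro n hn u
    rw [h.nucleus_eq] at hn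
    refine h.ind (fun u => n * u - u * n ∈ h.bc (ZN k A)) ?_ ?_ ?_ u
    · rw [mul_zero, zero_mul, sub_zero]
      exact zero_mem _
    · intro u v hu hv
      have h1 : n * (u + v) - (u + v) * n = (n * u - u * n) + (n * v - v * n) := by
        rw [mul_add, add_mul]
        abel
      rw [h1]
      exact add_mem hu hv
    · intro f a
      rw [mul_smul_comm, smul_mul_assoc, ← smul_sub]
      refine Submodule.smul_mem _ _ fun l => ?_
      rw [h.csub, h.cmulr, h.cmull]
      exact ZN_mem (hn l) a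
  · have h1 : ZN k A ≤ h.pre (ZN Φ A') := by
      refine ZN_le (h.pre_id ZN_id) ?_
      intro n hn b
      have h2 : j (n * b - b * n) = j n * j b - j b * j n := by
        have h3 := h.jadd (n * b - b * n) (b * n)
        rw [sub_add_cancel, h.jmul, h.jmul] at h3
        rw [h3, add_sub_cancel_right]
      rw [mem_pre, h2]
      refine ZN_mem ?_ _
      rw [h.nucleus_eq]
      exact h.j_mem hn
    exact h1 ha

theorem U_eq : U Φ A' = h.bc (U k A) := by
  refine le_antisymm ?_ (le_U (h.bc_id U_id) ?_)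
  · intro u hu l
    let J : Submodule k A := Submodule.span k {a | ∃ (l : Φ →ₗ[k] k) (u : A'), u ∈ U Φ A' ∧ a = c l u}
    have hJ : IsId J := by
      intro a ha b
      refine Submodule.span_induction (p := fun a _ => b * a ∈ J ∧ a * b ∈ J) ?_ ?_ ?_ ?_ ha
      · rintro a ⟨l, u, hu, rfl⟩
        refine ⟨Submodule.subset_span ⟨l, j b * u, (U_id u hu (j b)).1, (h.cmull l u b).symm⟩,
          Submodule.subset_span ⟨l, u * j b, (U_id u hu (j b)).2, (h.cmulr l u b).symm⟩⟩
      · rw [mul_zero, zero_mul]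
        exact ⟨zero_mem _, zero_mem _⟩
      · intro x y _ _ hx hy
        rw [mul_add, add_mul]
        exact ⟨add_mem hx.1 hy.1, add_mem hx.2 hy.2⟩
      · intro r x _ hx
        rw [mul_smul_comm, smul_mul_assoc]
        exact ⟨J.smul_mem r hx.1, J.smul_mem r hx.2⟩
    have hJN : J ≤ nucleus k A := by
      refine Submodule.span_le.2 ?_
      rintro a ⟨l, u, hu, rfl⟩
      have h1 := U_le hu
      rw [h.nucleus_eq] at h1
      exact h1 l
    exact le_U hJ hJN (Submodule.subset_span ⟨l, u, hu, rfl⟩)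
  · intro u hu
    rw [h.nucleus_eq]
    exact fun l => U_le (hu l)

end BC

end Pool.Agent.Lib.MP_bda2fe_al
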