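import Pool.Agent.Lib.MP_bda2fe_al.Lift

/-!
# Decomposition into the objects over the cyclic modules

`k` is a principal ideal domain.
-/

set_option linter.unusedSectionVars false

namespace Pool.Agent.Lib.MP_bda2fe_al

open TensorProduct

/-- A finitely generated module over a principal ideal domain is a finite direct sum of cyclic modules. -/
theorem cyc {k P : Type} [CommRing k] [IsDomain k] [IsPrincipalIdealRing k] [AddCommGroup P] [Module k P] [Module.Finite k P] :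
    ∃ (T : Type) (_ : Fintype T) (c : T → k) (e : ∀ t, (k ⧸ Ideal.span {c t}) →ₗ[k] P) (q : ∀ t, P →ₗ[k] (k ⧸ Ideal.span {c t})),
      ∀ u, u = ∑ t, e t (q t u) := by
  classical
  obtain ⟨n, ι, _, p, _, m, ⟨f⟩⟩ := Module.equiv_free_prod_directSum k P
  refine ⟨Fin n ⊕ ι, inferInstance, Sum.elim (fun _ => 0) (fun i => p i ^ m i), ?_⟩
  let b0 : k →ₗ[k] (k ⧸ Ideal.span {(0 : k)}) := Submodule.mkQ _
  let b1 : (k ⧸ Ideal.span {(0 : k)}) →ₗ[k] k := Submodule.liftQ _ LinearMap.id (by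
    intro x hx
    simpa using hx)
  have hb : ∀ x, b1 (b0 x) = x := fun x => rfl
  refine ⟨fun t => match t with
    | Sum.inl i => f.symm.toLinearMap ∘ₗ LinearMap.inl k _ _ ∘ₗ Finsupp.lsingle i ∘ₗ b1
    | Sum.inr i => f.symm.toLinearMap ∘ₗ LinearMap.inr k _ _ ∘ₗ DirectSum.lof k ι (fun i => k ⧸ Ideal.span {p i ^ m i}) i,
    fun t => match t with
    | Sum.inl i => b0 ∘ₗ Finsupp.lapply i ∘ₗ LinearMap.fst k _ _ ∘ₗ f.toLinearMap
    | Sum.inr i => DirectSum.component k ι (fun i => k ⧸ Ideal.span {p i ^ m i}) i ∘ₗ LinearMap.snd k _ _ ∘ₗ f.toLinearMap, ?_⟩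
  intro u
  rw [Fintype.sum_sum_type]
  apply f.injective
  rw [map_add, map_sum, map_sum]
  have e1 : ∀ i : Fin n, f ((f.symm.toLinearMap ∘ₗ LinearMap.inl k _ (DirectSum ι fun i => k ⧸ Ideal.span {p i ^ m i}) ∘ₗ Finsupp.lsingle i ∘ₗ b1)
      ((b0 ∘ₗ Finsupp.lapply i ∘ₗ LinearMap.fst k _ _ ∘ₗ f.toLinearMap) u)) = (Finsupp.single i ((f u).1 i), 0) := by
    intro i
    change f (f.symm _) = _
    rw [LinearEquiv.apply_symm_apply]
    rfl
  have e2 : ∀ i : ι, f ((f.symm.toLinearMap ∘ₗ LinearMap.inr k (Fin n →₀ k) _ ∘ₗ DirectSum.lof k ι (fun i => k ⧸ Ideal.span {p i ^ m i}) i)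
      ((DirectSum.component k ι (fun i => k ⧸ Ideal.span {p i ^ m i}) i ∘ₗ LinearMap.snd k _ _ ∘ₗ f.toLinearMap) u)) =
      (0, DirectSum.lof k ι (fun i => k ⧸ Ideal.span {p i ^ m i}) i ((f u).2 i)) := by
    intro i
    change f (f.symm _) = _
    rw [LinearEquiv.apply_symm_apply]
    rfl
  have e3 : f u = ∑ i : Fin n, ((Finsupp.single i ((f u).1 i), 0) : (Fin n →₀ k) × DirectSum ι fun i => k ⧸ Ideal.span {p i ^ m i}) +
      ∑ i : ι, ((0, DirectSum.lof k ι (fun i => k ⧸ Ideal.span {p i ^ m i}) i ((f u).2 i)) :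
        (Fin n →₀ k) × DirectSum ι fun i => k ⧸ Ideal.span {p i ^ m i}) := by
    refine Prod.ext ?_ ?_
    · rw [Prod.fst_add, Prod.fst_sum, Prod.fst_sum]
      simp only [Finset.sum_const_zero, add_zero]
      exact (Finsupp.univ_sum_single _).symm
    · rw [Prod.snd_add, Prod.snd_sum, Prod.snd_sum]
      simp only [Finset.sum_const_zero, zero_add]
      refine DirectSum.ext fun i => ?_
      rw [DFinsupp.finsetSum_apply, Finset.sum_eq_single i]
      · exact (DirectSum.lof_apply (R := k) (M := fun i => k ⧸ Ideal.span {p i ^ m i}) i _).symm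
      · intro j _ hj
        exact DirectSum.of_eq_of_ne _ _ _ hj.symm
      · intro h
        exact absurd (Finset.mem_univ i) h
  refine e3.trans ?_
  congr 1
  · exact Finset.sum_congr rfl fun i _ => (e1 i).symm
  · exact Finset.sum_congr rfl fun i _ => (e2 i).symm

theorem lr_comm {k P Q N M : Type} [CommRing k] [AddCommGroup P] [Module k P] [AddCommGroup Q] [Module k Q]
    [AddCommGroup N] [Module k N] [AddCommGroup M] [Module k M] (g : P →ₗ[k] Q) (L : N →ₗ[k] M) (v : P ⊗[k] N) :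
    LinearMap.lTensor Q L (LinearMap.rTensor N g v) = LinearMap.rTensor M g (LinearMap.lTensor P L v) := by
  induction v using TensorProduct.induction_on with
  | zero => simp only [map_zero]
  | add v v' hv hv' => simp only [map_add, hv, hv']
  | tmul p n => rw [LinearMap.rTensor_tmul, LinearMap.lTensor_tmul, LinearMap.lTensor_tmul, LinearMap.rTensor_tmul]

/-- Elements killed by two linear maps come from the cyclic modules. -/
theorem dec0 {k Φ N M : Type} [CommRing k] [IsDomain k] [IsPrincipalIdealRing k] [AddCommGroup Φ] [Module k Φ]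
    [AddCommGroup N] [Module k N] [AddCommGroup M] [Module k M] (L1 L2 : N →ₗ[k] M) (v : Φ ⊗[k] N)
    (h1 : LinearMap.lTensor Φ L1 v = 0) (h2 : LinearMap.lTensor Φ L2 v = 0) :
    ∃ (T : Type) (_ : Fintype T) (c : T → k) (e : ∀ t, (k ⧸ Ideal.span {c t}) →ₗ[k] Φ) (w : ∀ t, (k ⧸ Ideal.span {c t}) ⊗[k] N),
      (∀ t, LinearMap.lTensor _ L1 (w t) = 0 ∧ LinearMap.lTensor _ L2 (w t) = 0) ∧ v = ∑ t, LinearMap.rTensor N (e t) (w t) := by
  obtain ⟨P, hP, v1, rfl⟩ := TensorProduct.exists_of_fg v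
  rw [lr_comm] at h1 h2
  obtain ⟨Q1, hPQ1, hQ1, hz1⟩ := TensorProduct.eq_zero_of_fg_of_subtype_eq_zero hP h1
  obtain ⟨Q2, hPQ2, hQ2, hz2⟩ := TensorProduct.eq_zero_of_fg_of_subtype_eq_zero hP h2
  have hQ : (Q1 ⊔ Q2).FG := hQ1.sup hQ2
  have : Module.Finite k ↥(Q1 ⊔ Q2) := Module.Finite.iff_fg.2 hQ
  obtain ⟨T, _, c, e, q, heq⟩ := cyc (k := k) (P := ↥(Q1 ⊔ Q2))
  have hPQ : P ≤ Q1 ⊔ Q2 := hPQ1.trans le_sup_left
  let v2 : ↥(Q1 ⊔ Q2) ⊗[k] N := LinearMap.rTensor N (Submodule.inclusion hPQ) v1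
  have k1 : LinearMap.lTensor _ L1 v2 = 0 := by
    change LinearMap.lTensor _ L1 (LinearMap.rTensor N (Submodule.inclusion hPQ) v1) = 0
    have e1 : Submodule.inclusion hPQ = Submodule.inclusion (le_sup_left : Q1 ≤ Q1 ⊔ Q2) ∘ₗ Submodule.inclusion hPQ1 := rfl
    rw [lr_comm, e1, LinearMap.rTensor_comp_apply, hz1, map_zero]
  have k2 : LinearMap.lTensor _ L2 v2 = 0 := by
    change LinearMap.lTensor _ L2 (LinearMap.rTensor N (Submodule.inclusion hPQ) v1) = 0
    have e1 : Submodule.inclusion hPQ = Submodule.inclusion (le_sup_right : Q2 ≤ Q1 ⊔ Q2) ∘ₗ Submodule.inclusion hPQ2 := rfl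
    rw [lr_comm, e1, LinearMap.rTensor_comp_apply, hz2, map_zero]
  refine ⟨T, inferInstance, c, fun t => (Q1 ⊔ Q2).subtype ∘ₗ e t, fun t => LinearMap.rTensor N (q t) v2, fun t => ⟨?_, ?_⟩, ?_⟩
  · rw [lr_comm, k1, map_zero]
  · rw [lr_comm, k2, map_zero]
  · have e2 : LinearMap.rTensor N P.subtype v1 = LinearMap.rTensor N (Q1 ⊔ Q2).subtype v2 := by
      have e1 : P.subtype = (Q1 ⊔ Q2).subtype ∘ₗ Submodule.inclusion hPQ := rfl
      rw [e1, LinearMap.rTensor_comp_apply]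
    have e3 : v2 = ∑ t, LinearMap.rTensor N (e t) (LinearMap.rTensor N (q t) v2) := by
      induction v2 using TensorProduct.induction_on with
      | zero => simp only [map_zero, Finset.sum_const_zero]
      | add u u' hu hu' =>
        simp only [map_add, Finset.sum_add_distrib]
        rw [← hu, ← hu']
      | tmul p n =>
        simp only [LinearMap.rTensor_tmul]
        rw [← TensorProduct.sum_tmul, ← heq]
    rw [e2]
    conv_lhs => rw [e3]
    rw [map_sum]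
    refine Finset.sum_congr rfl fun t _ => ?_
    rw [LinearMap.rTensor_comp_apply]

section

variable {k A Φ : Type} [CommRing k] [NonUnitalNonAssocRing A] [Module k A] [SMulCommClass k A A] [IsScalarTower k A A]
  [CommRing Φ] [Algebra k Φ] {x : ℕ → A}

theorem im'_lift {B : Submodule k A} {u : Φ ⊗[k] A} (hu : u ∈ im' Φ B) : ∃ v : Φ ⊗[k] B, LinearMap.lTensor Φ B.subtype v = u := by
  have key : ∀ f : Φ, ∃ v : Φ ⊗[k] B, LinearMap.lTensor Φ B.subtype v = f • u := by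
    refine Submodule.span_induction (p := fun u _ => ∀ f : Φ, ∃ v : Φ ⊗[k] B, LinearMap.lTensor Φ B.subtype v = f • u) ?_ ?_ ?_ ?_ hu
    · rintro _ ⟨a, ha, rfl⟩ f
      refine ⟨f ⊗ₜ[k] (⟨a, ha⟩ : B), ?_⟩
      rw [LinearMap.lTensor_tmul, TensorProduct.smul_tmul', smul_eq_mul, mul_one]
      rfl
    · intro f
      exact ⟨0, by rw [map_zero, smul_zero]⟩
    · intro u v _ _ hu hv f
      obtain ⟨w, hw⟩ := hu f
      obtain ⟨w', hw'⟩ := hv f
      exact ⟨w + w', by rw [map_add, hw, hw', smul_add]⟩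
    · intro r u _ hu f
      obtain ⟨w, hw⟩ := hu (f * r)
      exact ⟨w, by rw [hw, smul_smul]⟩
  obtain ⟨v, hv⟩ := key 1
  exact ⟨v, by rw [hv, one_smul]⟩

theorem lTensor_mem {B : Submodule k A} (v : Φ ⊗[k] B) : LinearMap.lTensor Φ B.subtype v ∈ im' Φ B := by
  induction v using TensorProduct.induction_on with
  | zero =>
    rw [map_zero]
    exact zero_mem _
  | add u v hu hv =>
    rw [map_add]
    exact add_mem hu hv
  | tmul f b =>
    rw [LinearMap.lTensor_tmul]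
    have h1 : f ⊗ₜ[k] (B.subtype b) = f • ((1 : Φ) ⊗ₜ[k] (B.subtype b)) := by
      rw [TensorProduct.smul_tmul', smul_eq_mul, mul_one]
    rw [h1]
    exact Submodule.smul_mem _ _ (mem_im' b.2)

/-- Elements of `Φ ⊗ B` killed by two linear maps come from the cyclic modules. -/
theorem dec1 [IsDomain k] [IsPrincipalIdealRing k] {B : Submodule k A} (L1 L2 : A →ₗ[k] A) {u : Φ ⊗[k] A} (hu : u ∈ im' Φ B)
    (h1 : LinearMap.lTensor Φ L1 u = 0) (h2 : LinearMap.lTensor Φ L2 u = 0) :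
    ∃ (T : Type) (_ : Fintype T) (c : T → k) (e : ∀ t, (k ⧸ Ideal.span {c t}) →ₗ[k] Φ) (w : ∀ t, (k ⧸ Ideal.span {c t}) ⊗[k] A),
      (∀ t, w t ∈ im' _ B ∧ LinearMap.lTensor _ L1 (w t) = 0 ∧ LinearMap.lTensor _ L2 (w t) = 0) ∧ u = ∑ t, tm A (e t) (w t) := by
  obtain ⟨v, rfl⟩ := im'_lift hu
  rw [← LinearMap.lTensor_comp_apply] at h1 h2
  obtain ⟨T, _, c, e, w, hw, hv⟩ := dec0 _ _ v h1 h2
  refine ⟨T, inferInstance, c, e, fun t => LinearMap.lTensor _ B.subtype (w t), fun t => ⟨lTensor_mem _, ?_, ?_⟩, ?_⟩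
  · rw [← LinearMap.lTensor_comp_apply]
    exact (hw t).1
  · rw [← LinearMap.lTensor_comp_apply]
    exact (hw t).2
  · conv_lhs => rw [hv]
    rw [map_sum]
    refine Finset.sum_congr rfl fun t _ => ?_
    exact lr_comm _ _ _

theorem W_j (hA : IsFreeAlt k A x) {r : ℕ} : im' Φ (W k x r) ≤ W Φ (fun i => (1 : Φ) ⊗ₜ[k] x i) r := by
  refine Submodule.span_le.2 ?_
  rintro _ ⟨a, ha, rfl⟩
  intro φ ψ h
  obtain ⟨θ, hθ, _⟩ := hA.lift A hA.alt fun i => if i < r then x i else 0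
  have h1 : θ a = a := ha θ (NonUnitalAlgHom.id k A) fun i hi => by
    rw [hθ, if_pos hi]
    rfl
  have h2 : (fun a => φ ((1 : Φ) ⊗ₜ[k] θ a)) = fun a => ψ ((1 : Φ) ⊗ₜ[k] θ a) := by
    refine hom_eq (Φ := Φ) hA (alt_tensor hA.alt) ⟨fun a b => ?_, fun a b => ?_, fun r a => ?_⟩ ⟨fun a b => ?_, fun a b => ?_, fun r a => ?_⟩
      fun m => ?_
    · rw [map_add, TensorProduct.tmul_add, map_add]
    · rw [← map_mul, Algebra.TensorProduct.tmul_mul_tmul, one_mul, map_mul θ]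
    · rw [map_smul θ, TensorProduct.tmul_smul, ← map_smul, algebraMap_smul]
    · rw [map_add, TensorProduct.tmul_add, map_add]
    · rw [← map_mul, Algebra.TensorProduct.tmul_mul_tmul, one_mul, map_mul θ]
    · rw [map_smul θ, TensorProduct.tmul_smul, ← map_smul, algebraMap_smul]
    · rw [hθ]
      by_cases hm : m < r
      · rw [if_pos hm]
        exact h m hm
      · rw [if_neg hm, TensorProduct.tmul_zero, map_zero, map_zero]
  have h3 : φ ((1 : Φ) ⊗ₜ[k] θ a) = ψ ((1 : Φ) ⊗ₜ[k] θ a) := congrFun h2 a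
  rw [h1] at h3
  exact h3

theorem asL_t (b c : A) (w : Φ ⊗[k] A) :
    asL Φ ((1 : Φ) ⊗ₜ[k] b) ((1 : Φ) ⊗ₜ[k] c) w = LinearMap.lTensor Φ (asL k b c) w := by
  induction w using TensorProduct.induction_on with
  | zero => simp only [map_zero]
  | add u v hu hv => simp only [map_add, hu, hv]
  | tmul f a =>
    rw [LinearMap.lTensor_tmul]
    change f ⊗ₜ[k] a * (1 : Φ) ⊗ₜ[k] b * (1 : Φ) ⊗ₜ[k] c - f ⊗ₜ[k] a * ((1 : Φ) ⊗ₜ[k] b * (1 : Φ) ⊗ₜ[k] c) = f ⊗ₜ[k] (a * b * c - a * (b * c))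
    simp only [Algebra.TensorProduct.tmul_mul_tmul, mul_one, TensorProduct.tmul_sub]

theorem coL_t (b : A) (w : Φ ⊗[k] A) : coL Φ ((1 : Φ) ⊗ₜ[k] b) w = LinearMap.lTensor Φ (coL k b) w := by
  induction w using TensorProduct.induction_on with
  | zero => simp only [map_zero]
  | add u v hu hv => simp only [map_add, hu, hv]
  | tmul f a =>
    rw [LinearMap.lTensor_tmul]
    change f ⊗ₜ[k] a * (1 : Φ) ⊗ₜ[k] b - (1 : Φ) ⊗ₜ[k] b * f ⊗ₜ[k] a = f ⊗ₜ[k] (a * b - b * a)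
    simp only [Algebra.TensorProduct.tmul_mul_tmul, mul_one, one_mul, TensorProduct.tmul_sub]

theorem muL_t (b : A) (w : Φ ⊗[k] A) : muL Φ ((1 : Φ) ⊗ₜ[k] b) w = LinearMap.lTensor Φ (muL k b) w := by
  induction w using TensorProduct.induction_on with
  | zero => simp only [map_zero]
  | add u v hu hv => simp only [map_add, hu, hv]
  | tmul f a =>
    rw [LinearMap.lTensor_tmul]
    change f ⊗ₜ[k] a * (1 : Φ) ⊗ₜ[k] b = f ⊗ₜ[k] (a * b)
    simp only [Algebra.TensorProduct.tmul_mul_tmul, mul_one]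

end

end Pool.Agent.Lib.MP_bda2fe_al
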