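import Mathlib

/-!
# Free alternative algebras: definitions

`Φ` is a commutative ring, `A` a `Φ`-algebra (neither unital nor associative in general). The nucleus, the center, the ideal `ZN` and the
largest nuclear ideal `U` of `A`, completely characteristic subalgebras and T-ideals, finite generation.
-/

namespace Pool.Agent.Lib.MP_bda2fe_al

/-- `A` is an alternative ring: `(a, a, b) = 0 = (b, a, a)`. -/
structure IsAlt (A : Type) [NonUnitalNonAssocRing A] : Prop where
  left : ∀ a b : A, a * a * b = a * (a * b)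
  right : ∀ a b : A, b * a * a = b * (a * a)

section
variable (Φ A : Type) [CommRing Φ] [NonUnitalNonAssocRing A] [Module Φ A] [SMulCommClass Φ A A] [IsScalarTower Φ A A]

/-- `A` is the free alternative `Φ`-algebra on the letters `x 0, x 1, …` (by its universal property). -/
structure IsFreeAlt (x : ℕ → A) : Prop where
  alt : IsAlt A
  lift : ∀ (B : Type) [NonUnitalNonAssocRing B] [Module Φ B] [SMulCommClass Φ B B] [IsScalarTower Φ B B], IsAlt B →
    ∀ f : ℕ → B, ∃! φ : A →ₙₐ[Φ] B, ∀ i, φ (x i) = f i

/-- The associative nucleus `N(A)`. -/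
def nucleus : Submodule Φ A where
  carrier := {n | ∀ a b, n * a * b = n * (a * b) ∧ a * n * b = a * (n * b) ∧ a * b * n = a * (b * n)}
  add_mem' := by
    intro m n hm hn a b
    obtain ⟨h1, h2, h3⟩ := hm a b
    obtain ⟨h4, h5, h6⟩ := hn a b
    simp only [add_mul, mul_add, h1, h2, h3, h4, h5, h6, and_self]
  zero_mem' := by
    intro a b
    simp only [zero_mul, mul_zero, and_self]
  smul_mem' := by
    intro r n hn a b
    obtain ⟨h1, h2, h3⟩ := hn a b
    simp only [smul_mul_assoc, mul_smul_comm, h1, h2, h3, and_self]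

/-- The center `Z(A)`. -/
def cent : Submodule Φ A where
  carrier := {z | z ∈ nucleus Φ A ∧ ∀ a, z * a = a * z}
  add_mem' := by
    intro m n hm hn
    exact ⟨add_mem hm.1 hn.1, fun a => by rw [add_mul, mul_add, hm.2, hn.2]⟩
  zero_mem' := ⟨zero_mem _, fun a => by rw [zero_mul, mul_zero]⟩
  smul_mem' := by
    intro r n hn
    exact ⟨Submodule.smul_mem _ r hn.1, fun a => by rw [smul_mul_assoc, mul_smul_comm, hn.2]⟩

variable {Φ A}

/-- `C` is a subalgebra. -/
def IsSub (C : Submodule Φ A) : Prop := ∀ a ∈ C, ∀ b ∈ C, a * b ∈ C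

/-- `C` is a two-sided ideal. -/
def IsId (C : Submodule Φ A) : Prop := ∀ c ∈ C, ∀ a, a * c ∈ C ∧ c * a ∈ C

/-- `C` is mapped into itself by every endomorphism of `A`. -/
def Stable (C : Submodule Φ A) : Prop := ∀ φ : A →ₙₐ[Φ] A, ∀ c ∈ C, φ c ∈ C

variable (Φ A)

/-- `ZN(A)`, the two-sided ideal generated by `[N(A), A]`. -/
def ZN : Submodule Φ A := sInf {I | IsId I ∧ ∀ n ∈ nucleus Φ A, ∀ a, n * a - a * n ∈ I}

/-- `U(A)`, the sum of the two-sided ideals contained in `N(A)` (it is the largest such ideal). -/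
def U : Submodule Φ A := sSup {I | IsId I ∧ I ≤ nucleus Φ A}

variable {Φ A}

/-- `B` is generated, as a completely characteristic subalgebra, by a finite set `S`: it is the smallest completely characteristic
subalgebra containing `S`. -/
def FinGenSub (B : Submodule Φ A) : Prop :=
  ∃ S : Finset A, IsLeast {C : Submodule Φ A | IsSub C ∧ Stable C ∧ ∀ s ∈ S, s ∈ C} B

/-- `B` is generated, as a T-ideal, by a finite set `S`: it is the smallest T-ideal containing `S`. -/
def FinGenIdeal (B : Submodule Φ A) : Prop :=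
  ∃ S : Finset A, IsLeast {C : Submodule Φ A | IsId C ∧ Stable C ∧ ∀ s ∈ S, s ∈ C} B

end

end Pool.Agent.Lib.MP_bda2fe_al
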