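import Pool.Agent.Lib.MP_bda2fe_al.Fg

/-!
# The free alternative algebras: existence and extension of scalars
-/

set_option linter.unusedSectionVars false

namespace Pool.Agent.Lib.MP_bda2fe_al

open TensorProduct

section
variable {k Φ A A' : Type} [Field k] [CommRing Φ] [Algebra k Φ]
  [NonUnitalNonAssocRing A] [Module k A] [SMulCommClass k A A] [IsScalarTower k A A]
  [NonUnitalNonAssocRing A'] [Module Φ A'] [SMulCommClass Φ A' A'] [IsScalarTower Φ A' A'] {x : ℕ → A} {x' : ℕ → A'}

theorem exists_bc (hA : IsFreeAlt k A x) (hA' : IsFreeAlt Φ A' x') :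
    ∃ (j : A → A') (c : (Φ →ₗ[k] k) → A' → A), BC k Φ A A' j c ∧ ∀ i, j (x i) = x' i := by
  obtain ⟨j, hj, hjx, _⟩ := exists_unique_hom (Φ := Φ) hA hA'.alt x'
  obtain ⟨α, hα, _⟩ := hA'.lift (Φ ⊗[k] A) (alt_tensor hA.alt) fun i => (1 : Φ) ⊗ₜ[k] x i
  have hαj : (fun a => α (j a)) = fun a => (1 : Φ) ⊗ₜ[k] a := by
    refine hom_eq (Φ := Φ) hA (alt_tensor hA.alt) ⟨fun a b => ?_, fun a b => ?_, fun r a => ?_⟩ ⟨fun a b => ?_, fun a b => ?_, fun r a => ?_⟩
      fun i => ?_
    · rw [hj.add, map_add]
    · rw [hj.mul, map_mul]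
    · rw [hj.smul, map_smul]
    · exact TensorProduct.tmul_add _ _ _
    · rw [Algebra.TensorProduct.tmul_mul_tmul, one_mul]
    · rw [algebraMap_smul, TensorProduct.tmul_smul]
    · rw [hjx, hα]
  have hα1 : ∀ (f : Φ) (a : A), α (f • j a) = f ⊗ₜ[k] a := by
    intro f a
    rw [map_smul]
    have h1 : α (j a) = (1 : Φ) ⊗ₜ[k] a := congrFun hαj a
    rw [h1, TensorProduct.smul_tmul', smul_eq_mul, mul_one]
  have hspan : ∀ u : A', u ∈ Submodule.span Φ (Set.range j) := by
    let N : NonUnitalSubalgebra Φ A' :=
      { Submodule.span Φ (Set.range j) with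
        mul_mem' := by
          intro a b ha hb
          change a * b ∈ Submodule.span Φ (Set.range j)
          refine Submodule.span_induction (p := fun a _ => a * b ∈ Submodule.span Φ (Set.range j)) ?_ ?_ ?_ ?_ ha
          · rintro _ ⟨a', rfl⟩
            refine Submodule.span_induction (p := fun b _ => j a' * b ∈ Submodule.span Φ (Set.range j)) ?_ ?_ ?_ ?_ hb
            · rintro _ ⟨b', rfl⟩
              rw [← hj.mul]
              exact Submodule.subset_span ⟨_, rfl⟩
            · rw [mul_zero]
              exact zero_mem _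
            · intro u v _ _ hu hv
              rw [mul_add]
              exact add_mem hu hv
            · intro r u _ hu
              rw [mul_smul_comm]
              exact Submodule.smul_mem _ r hu
          · rw [zero_mul]
            exact zero_mem _
          · intro u v _ _ hu hv
            rw [add_mul]
            exact add_mem hu hv
          · intro r u _ hu
            rw [smul_mul_assoc]
            exact Submodule.smul_mem _ r hu }
    have hx' : ∀ i, x' i ∈ N := fun i => Submodule.subset_span ⟨x i, hjx i⟩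
    have haltN : IsAlt N := ⟨fun a b => Subtype.ext (hA'.alt.left a.1 b.1), fun a b => Subtype.ext (hA'.alt.right a.1 b.1)⟩
    obtain ⟨φ, hφ, _⟩ := hA'.lift N haltN fun i => ⟨x' i, hx' i⟩
    obtain ⟨ι, hι, hu⟩ := hA'.lift A' hA'.alt x'
    have h1 : (NonUnitalSubalgebraClass.subtype N).comp φ = ι := hu _ fun i => by
      rw [NonUnitalAlgHom.comp_apply, hφ]
      rfl
    have h2 : NonUnitalAlgHom.id Φ A' = ι := hu _ fun i => rfl
    intro u
    have h3 : (φ u : A') = u := by
      have h4 := DFunLike.congr_fun (h1.trans h2.symm) u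
      exact h4
    rw [← h3]
    exact (φ u).2
  refine ⟨j, fun l u => TensorProduct.lid k A (LinearMap.rTensor A l (α u)), ⟨hj.add, hj.mul, hj.smul, ?_, ?_, ?_⟩, hjx⟩
  · intro p h0 hadd hgen u
    have h1 : ∀ f : Φ, p (f • u) := by
      refine Submodule.span_induction (p := fun u _ => ∀ f : Φ, p (f • u)) ?_ ?_ ?_ ?_ (hspan u)
      · rintro _ ⟨a, rfl⟩ f
        exact hgen f a
      · intro f
        rw [smul_zero]
        exact h0
      · intro u v _ _ hu hv f
        rw [smul_add]
        exact hadd _ _ (hu f) (hv f)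
      · intro r u _ hu f
        rw [smul_smul]
        exact hu _
    have h2 := h1 1
    rwa [one_smul] at h2
  · intro l u v
    simp only [map_add]
  · intro l f a
    rw [hα1, LinearMap.rTensor_tmul, TensorProduct.lid_tmul]

end

section existence

variable (R : Type) [CommRing R]

/-- the free nonassociative algebra -/
abbrev FreeN : Type := FreeNonUnitalNonAssocAlgebra R ℕ

/-- the ideal generated by the alternative laws -/
noncomputable def altI : Submodule R (FreeN R) :=
  sInf {I | IsId I ∧ ∀ a b : FreeN R, a * a * b - a * (a * b) ∈ I ∧ b * a * a - b * (a * a) ∈ I}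

theorem altI_id : IsId (altI R) := by
  intro a ha b
  unfold altI at *
  rw [Submodule.mem_sInf] at *
  rw [Submodule.mem_sInf]
  exact ⟨fun I hI => (hI.1 a (ha I hI) b).1, fun I hI => (hI.1 a (ha I hI) b).2⟩

theorem altI_rel (a b : FreeN R) : a * a * b - a * (a * b) ∈ altI R ∧ b * a * a - b * (a * a) ∈ altI R := by
  unfold altI
  rw [Submodule.mem_sInf, Submodule.mem_sInf]
  exact ⟨fun I hI => (hI.2 a b).1, fun I hI => (hI.2 a b).2⟩

/-- the congruence of the ideal -/
noncomputable def altCon : RingCon (FreeN R) where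
  r a b := a - b ∈ altI R
  iseqv := ⟨fun a => by
    rw [sub_self]
    exact zero_mem _, fun {a b} h => by
    rw [← neg_sub]
    exact neg_mem h, fun {a b c} h h' => by
    rw [← sub_add_sub_cancel a b c]
    exact add_mem h h'⟩
  mul' {a b c d} h h' := by
    have h1 : a * c - b * d = (a - b) * c + b * (c - d) := by
      rw [sub_mul, mul_sub, sub_add_sub_cancel]
    change a * c - b * d ∈ altI R
    rw [h1]
    exact add_mem (altI_id R _ h c).2 (altI_id R _ h' b).1
  add' {a b c d} h h' := by
    rw [add_sub_add_comm]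
    exact add_mem h h'

theorem exists_free : ∃ (A : Type) (_ : NonUnitalNonAssocRing A) (_ : Module R A) (_ : SMulCommClass R A A)
    (_ : IsScalarTower R A A) (x : ℕ → A), IsFreeAlt R A x := by
  let Q : Type := (altCon R).Quotient
  let mk : FreeN R → Q := fun a => (a : (altCon R).Quotient)
  have hmk : ∀ a b, mk a = mk b ↔ a - b ∈ altI R := fun a b => (altCon R).eq
  have hsurj : Function.Surjective mk := Quotient.mk_surjective
  let sm : SMul R Q := ⟨fun r q => Quotient.liftOn q (fun a => mk (r • a)) fun a b hab => by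
    rw [hmk, ← smul_sub]
    exact Submodule.smul_mem _ r hab⟩
  let mkh : FreeN R →+ Q := { toFun := mk, map_zero' := rfl, map_add' := fun _ _ => rfl }
  let md : Module R Q := Function.Surjective.module R mkh hsurj fun r a => rfl
  have hsm : ∀ (r : R) (a : FreeN R), r • mk a = mk (r • a) := fun r a => rfl
  have hml : ∀ a b : FreeN R, mk a * mk b = mk (a * b) := fun a b => rfl
  have c1 : SMulCommClass R Q Q := ⟨fun r a b => by
    obtain ⟨a, rfl⟩ := hsurj a
    obtain ⟨b, rfl⟩ := hsurj b
    change r • (mk a * mk b) = mk a * (r • mk b)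
    rw [hml, hsm, hsm, hml, mul_smul_comm]⟩
  have c2 : IsScalarTower R Q Q := ⟨fun r a b => by
    obtain ⟨a, rfl⟩ := hsurj a
    obtain ⟨b, rfl⟩ := hsurj b
    change (r • mk a) * mk b = r • (mk a * mk b)
    rw [hml, hsm, hsm, hml, smul_mul_assoc]⟩
  refine ⟨Q, inferInstance, md, c1, c2, fun i => mk (FreeNonUnitalNonAssocAlgebra.of R i), ⟨⟨?_, ?_⟩, ?_⟩⟩
  · intro a b
    obtain ⟨a, rfl⟩ := hsurj a
    obtain ⟨b, rfl⟩ := hsurj b
    rw [hml, hml, hml, hml, hmk]
    exact (altI_rel R a b).1
  · intro a b
    obtain ⟨a, rfl⟩ := hsurj a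
    obtain ⟨b, rfl⟩ := hsurj b
    rw [hml, hml, hml, hml, hmk]
    exact (altI_rel R a b).2
  · intro B _ _ _ _ hB f
    let F : FreeN R →ₙₐ[R] B := FreeNonUnitalNonAssocAlgebra.lift R f
    have hker : ∀ a ∈ altI R, F a = 0 := by
      intro a ha
      let I : Submodule R (FreeN R) :=
        { carrier := {a | F a = 0}
          add_mem' := fun {a b} ha hb => by
            change F (a + b) = 0
            rw [map_add, ha, hb, add_zero]
          zero_mem' := map_zero F
          smul_mem' := fun r a ha => by
            change F (r • a) = 0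
            rw [map_smul, ha, smul_zero] }
      have hI : altI R ≤ I := by
        refine sInf_le ⟨fun c hc a => ⟨?_, ?_⟩, fun a b => ⟨?_, ?_⟩⟩
        · change F (a * c) = 0
          rw [map_mul, hc, mul_zero]
        · change F (c * a) = 0
          rw [map_mul, hc, zero_mul]
        · change F (a * a * b - a * (a * b)) = 0
          rw [map_sub, map_mul, map_mul, map_mul, map_mul, hB.left, sub_self]
        · change F (b * a * a - b * (a * a)) = 0
          rw [map_sub, map_mul, map_mul, map_mul, map_mul, hB.right, sub_self]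
      exact hI ha
    have hwd : ∀ a b, mk a = mk b → F a = F b := by
      intro a b hab
      have h1 := hker _ ((hmk a b).1 hab)
      rwa [map_sub, sub_eq_zero] at h1
    let G : Q → B := fun q => Quotient.liftOn q F fun a b hab => hwd a b ((hmk a b).2 hab)
    have hG : ∀ a, G (mk a) = F a := fun a => rfl
    let φ : Q →ₙₐ[R] B :=
      { toFun := G
        map_smul' := fun r a => by
          obtain ⟨a, rfl⟩ := hsurj a
          change G (r • mk a) = r • G (mk a)
          rw [hsm, hG, hG, map_smul]
        map_zero' := by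
          change G (mk 0) = 0
          rw [hG, map_zero]
        map_add' := fun a b => by
          obtain ⟨a, rfl⟩ := hsurj a
          obtain ⟨b, rfl⟩ := hsurj b
          change G (mk (a + b)) = G (mk a) + G (mk b)
          rw [hG, hG, hG, map_add]
        map_mul' := fun a b => by
          obtain ⟨a, rfl⟩ := hsurj a
          obtain ⟨b, rfl⟩ := hsurj b
          change G (mk (a * b)) = G (mk a) * G (mk b)
          rw [hG, hG, hG, map_mul] }
    refine ⟨φ, fun i => ?_, fun ψ hψ => ?_⟩
    · change G (mk _) = f i
      rw [hG]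
      exact FreeNonUnitalNonAssocAlgebra.lift_of_apply R f i
    · let mkn : FreeN R →ₙₐ[R] Q :=
        { toFun := mk
          map_smul' := fun r a => rfl
          map_zero' := rfl
          map_add' := fun a b => rfl
          map_mul' := fun a b => rfl }
      have h1 : ψ.comp mkn = F := by
        refine FreeNonUnitalNonAssocAlgebra.hom_ext R ?_
        intro i
        have h2 : F (FreeNonUnitalNonAssocAlgebra.of R i) = f i := FreeNonUnitalNonAssocAlgebra.lift_of_apply R f i
        change ψ (mk (FreeNonUnitalNonAssocAlgebra.of R i)) = F (FreeNonUnitalNonAssocAlgebra.of R i)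
        rw [h2]
        exact hψ i
      ext q
      obtain ⟨a, rfl⟩ := hsurj q
      exact DFunLike.congr_fun h1 a

end existence

end Pool.Agent.Lib.MP_bda2fe_al
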