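import Pool.Agent.Lib.MP_bda2fe_al.Red
import Pool.Agent.Lib.MP_bda2fe_al.Free

/-!
# From rings to the fields they contain
-/

set_option linter.unusedSectionVars false

namespace Pool.Agent.Lib.MP_bda2fe_al

open TensorProduct MvPolynomial

variable {k A : Type} [Field k] [NonUnitalNonAssocRing A] [Module k A] [SMulCommClass k A A] [IsScalarTower k A A] {x : ℕ → A}

/-- The coefficients of all generic substitutions of `s` are in each completely characteristic subspace which contains finitely many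
of them. -/
theorem star (hA : IsFreeAlt k A x) (s : A) : ∃ S : Finset A,
    (∀ C : Submodule k A, Stable C → (∀ t ∈ S, t ∈ C) → ∀ J μ, kap (cf k μ) (T hA J s) ∈ C) ∧
      ∀ t ∈ S, ∃ J μ, t = kap (cf k μ) (T hA J s) := by
  classical
  obtain ⟨d, hd⟩ := deg_bound hA s
  obtain ⟨F, hF0, _⟩ := exp_mon (T hA (fun _ => Finset.range d) s)
  refine ⟨F.image fun μ => kap (cf k μ) (T hA (fun _ => Finset.range d) s), ?_, ?_⟩
  · intro C hC hS J μ
    obtain ⟨θ, ν, h⟩ := reduce hA s hd J μ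
    rw [h]
    refine hC θ _ ?_
    by_cases hν : ν ∈ F
    · exact hS _ (Finset.mem_image.2 ⟨ν, hν, rfl⟩)
    · rw [hF0 ν hν]
      exact zero_mem C
  · intro t ht
    obtain ⟨μ, _, rfl⟩ := Finset.mem_image.1 ht
    exact ⟨_, μ, rfl⟩

/-- The coefficients of generic substitutions stay in `B` if the extension of scalars of `B` to the polynomial ring is completely
characteristic. -/
theorem coeff_mem (hA : IsFreeAlt k A x) {B : Submodule k A}
    (hB : Stable ((bc_tensor (k := k) (A := A) (P := PV k)).bc B)) {s : A} (hs : s ∈ B) (J : ℕ → Finset ℕ) (l : PV k →ₗ[k] k) :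
    kap l (T hA J s) ∈ B := by
  obtain ⟨ψ, hψ, _⟩ := (free_tensor (PV k) hA).lift (PV k ⊗[k] A) (alt_tensor hA.alt) fun m => T hA J (x m)
  have h1 : (fun s => ψ ((1 : PV k) ⊗ₜ[k] s)) = fun s => T hA J s := by
    refine hom_eq (Φ := PV k) hA (alt_tensor hA.alt) ⟨fun a b => ?_, fun a b => ?_, fun r a => ?_⟩ ⟨fun a b => ?_, fun a b => ?_, fun r a => ?_⟩
      fun m => ?_
    · rw [TensorProduct.tmul_add, map_add]
    · rw [← map_mul, Algebra.TensorProduct.tmul_mul_tmul, one_mul]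
    · rw [TensorProduct.tmul_smul, ← map_smul, algebraMap_smul]
    · rw [map_add]
    · rw [map_mul]
    · rw [map_smul, algebraMap_smul]
    · exact hψ m
  have h2 : ψ ((1 : PV k) ⊗ₜ[k] s) = T hA J s := congrFun h1 s
  have h3 := hB ψ _ ((bc_tensor (k := k) (A := A) (P := PV k)).j_mem hs)
  rw [h2] at h3
  exact h3 l

variable {Φ A' : Type} [CommRing Φ] [Algebra k Φ] [NonUnitalNonAssocRing A'] [Module Φ A'] [SMulCommClass Φ A' A'] [IsScalarTower Φ A' A']
  {j : A → A'} {c : (Φ →ₗ[k] k) → A' → A} {x' : ℕ → A'}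

/-- Each element is a finite sum `∑ f i • j (a i)`. -/
theorem rep (h : BC k Φ A A' j c) (u : A') : ∃ (N : ℕ) (f : ℕ → Φ) (a : ℕ → A), u = ∑ i ∈ Finset.range N, f i • j (a i) := by
  refine h.ind (fun u => ∃ (N : ℕ) (f : ℕ → Φ) (a : ℕ → A), u = ∑ i ∈ Finset.range N, f i • j (a i)) ?_ ?_ ?_ u
  · exact ⟨0, fun _ => 0, fun _ => 0, by simp⟩
  · rintro u v ⟨N, f, a, rfl⟩ ⟨M, g, b, rfl⟩
    refine ⟨N + M, fun i => if i < N then f i else g (i - N), fun i => if i < N then a i else b (i - N), ?_⟩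
    rw [Finset.sum_range_add]
    congr 1
    · refine Finset.sum_congr rfl fun i hi => ?_
      beta_reduce
      rw [if_pos (Finset.mem_range.1 hi), if_pos (Finset.mem_range.1 hi)]
    · refine Finset.sum_congr rfl fun i _ => ?_
      beta_reduce
      rw [if_neg (by omega), if_neg (by omega), Nat.add_sub_cancel_left]
  · intro f a
    exact ⟨1, fun _ => f, fun _ => a, by simp⟩

theorem image_mem (h : BC k Φ A A' j c) (hA : IsFreeAlt k A x) (hA' : IsAlt A') {C : Submodule k A} (hC : Stable C) (s : A)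
    (hs : ∀ J μ, kap (cf k μ) (T hA J s) ∈ C) (ψ : A' →ₙₐ[Φ] A') : ψ (j s) ∈ h.bc C := by
  choose N f a hfa using fun m => rep h (ψ (j (x m)))
  obtain ⟨θ, hθ, _⟩ := hA.lift A hA.alt fun n => a n.unpair.1 n.unpair.2
  have h1 : (fun s => ψ (j s)) = fun s => evMap h (aeval fun v : ℕ × ℕ => f v.1 v.2)
      (LinearMap.lTensor (PV k) (θ : A →ₗ[k] A) (T hA (fun m => Finset.range (N m)) s)) := by
    have hm2 : ∀ u v : PV k ⊗[k] A, LinearMap.lTensor (PV k) (θ : A →ₗ[k] A) (u * v) =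
        LinearMap.lTensor (PV k) (θ : A →ₗ[k] A) u * LinearMap.lTensor (PV k) (θ : A →ₗ[k] A) v := by
      intro u v
      induction u using TensorProduct.induction_on with
      | zero => simp only [zero_mul, map_zero]
      | add u u' hu hu' => simp only [add_mul, map_add, hu, hu']
      | tmul p a =>
        induction v using TensorProduct.induction_on with
        | zero => simp only [mul_zero, map_zero]
        | add v v' hv hv' => simp only [mul_add, map_add, hv, hv']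
        | tmul q b =>
          rw [Algebra.TensorProduct.tmul_mul_tmul, LinearMap.lTensor_tmul, LinearMap.lTensor_tmul, LinearMap.lTensor_tmul,
            Algebra.TensorProduct.tmul_mul_tmul]
          congr 1
          exact map_mul θ a b
    refine hom_eq (Φ := Φ) hA hA' ⟨fun a b => ?_, fun a b => ?_, fun r a => ?_⟩ ⟨fun a b => ?_, fun a b => ?_, fun r a => ?_⟩ fun m => ?_
    · rw [h.jadd, map_add]
    · rw [h.jmul, map_mul]
    · rw [h.jsmul, map_smul]
    · rw [map_add, map_add, map_add]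
    · rw [map_mul, hm2, evMap_mul]
    · rw [map_smul, map_smul, evMap_smul]
    · rw [T_x, map_sum, map_sum]
      conv_lhs => rw [hfa m]
      refine Finset.sum_congr rfl fun i _ => ?_
      rw [LinearMap.lTensor_tmul, evMap_tmul, aeval_X]
      have h2 : (θ : A →ₗ[k] A) (x (Nat.pair m i)) = a m i := by
        have h3 := hθ (Nat.pair m i)
        rw [Nat.unpair_pair] at h3
        exact h3
      rw [h2]
  have h2 : ψ (j s) = evMap h (aeval fun v : ℕ × ℕ => f v.1 v.2)
      (LinearMap.lTensor (PV k) (θ : A →ₗ[k] A) (T hA (fun m => Finset.range (N m)) s)) := congrFun h1 s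
  rw [h2]
  obtain ⟨F, _, hF⟩ := exp_mon (T hA (fun m => Finset.range (N m)) s)
  rw [hF, map_sum, map_sum]
  refine Submodule.sum_mem _ fun μ _ => ?_
  rw [LinearMap.lTensor_tmul, evMap_tmul]
  exact Submodule.smul_mem _ _ (h.j_mem (hC θ _ (hs _ μ)))

/-- Finite generation over `Φ` implies finite generation over the field `k`. -/
theorem down [Nontrivial Φ] (h : BC k Φ A A' j c) (hA : IsFreeAlt k A x) (hA' : IsFreeAlt Φ A' x')
    (Pk : Submodule k A → Prop) (PΦ : Submodule Φ A' → Prop)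
    (h1 : ∀ C : Submodule k A, Pk C → ∀ M : Submodule Φ A', (∀ u, u ∈ M ↔ ∀ ψ : A' →ₙₐ[Φ] A', ψ u ∈ h.bc C) → PΦ M)
    (h2 : ∀ M, PΦ M → Pk (h.pre M)) (hs2 : ∀ M, Stable M → Stable (h.pre M)) (B : Submodule k A)
    (hB : Stable ((bc_tensor (k := k) (A := A) (P := PV k)).bc B)) :
    (∃ S : Finset A', IsLeast {C : Submodule Φ A' | PΦ C ∧ Stable C ∧ ∀ s ∈ S, s ∈ C} (h.bc B)) →
      ∃ S : Finset A, IsLeast {C : Submodule k A | Pk C ∧ Stable C ∧ ∀ s ∈ S, s ∈ C} B := by
  classical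
  have hpb : h.pre (h.bc B) = B := by
    ext a
    exact ⟨fun ha => h.of_j_mem ha, fun ha => h.j_mem ha⟩
  rintro ⟨S, ⟨hP, hSt, hS⟩, hmin⟩
  choose t ht0 ht using fun u => h.exp u
  choose st hst1 hst2 using fun s => star hA s
  let S1 : Finset A := S.biUnion fun s => (t s).image fun i => c ((Module.Basis.ofVectorSpace k Φ).coord i) s
  refine ⟨S1.biUnion st, ⟨?_, ?_, ?_⟩, ?_⟩
  · rw [← hpb]
    exact h2 _ hP
  · rw [← hpb]
    exact hs2 _ hSt
  · intro a ha
    obtain ⟨s, hs, ha⟩ := Finset.mem_biUnion.1 ha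
    obtain ⟨s', hs', hs⟩ := Finset.mem_biUnion.1 hs
    obtain ⟨i, _, rfl⟩ := Finset.mem_image.1 hs
    obtain ⟨J, μ, rfl⟩ := hst2 _ a ha
    exact coeff_mem hA hB (hS s' hs' _) J _
  · rintro C ⟨hC1, hC2, hC3⟩
    let M : Submodule Φ A' :=
      { carrier := {u | ∀ ψ : A' →ₙₐ[Φ] A', ψ u ∈ h.bc C}
        add_mem' := fun {u v} hu hv ψ => by
          rw [map_add]
          exact add_mem (hu ψ) (hv ψ)
        zero_mem' := fun ψ => by
          rw [map_zero]
          exact zero_mem _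
        smul_mem' := fun r u hu ψ => by
          rw [map_smul]
          exact Submodule.smul_mem _ r (hu ψ) }
    have hM1 : PΦ M := h1 C hC1 M fun u => Iff.rfl
    have hM2 : Stable M := fun φ u hu ψ => hu (ψ.comp φ)
    have hM3 : ∀ s ∈ S, s ∈ M := by
      intro s hs ψ
      rw [ht s, map_sum]
      refine Submodule.sum_mem _ fun i hi => ?_
      rw [map_smul]
      refine Submodule.smul_mem _ _ (image_mem h hA hA'.alt hC2 _ ?_ ψ)
      refine hst1 _ C hC2 fun a ha => hC3 a (Finset.mem_biUnion.2 ⟨_, ?_, ha⟩)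
      exact Finset.mem_biUnion.2 ⟨s, hs, Finset.mem_image.2 ⟨i, hi, rfl⟩⟩
    have h5 : h.bc B ≤ M := hmin ⟨hM1, hM2, hM3⟩
    intro a ha
    have h6 := h5 (h.j_mem ha) (NonUnitalAlgHom.id Φ A')
    exact h.of_j_mem h6

/-- Comparison of a non-zero ring with a field which it contains. -/
theorem field_iff [Nontrivial Φ] (hA : IsFreeAlt k A x) (hA' : IsFreeAlt Φ A' x') :
    (FinGenSub (nucleus Φ A') ↔ FinGenSub (nucleus k A)) ∧ (FinGenSub (cent Φ A') ↔ FinGenSub (cent k A)) ∧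
      (FinGenIdeal (ZN Φ A') ↔ FinGenIdeal (ZN k A)) ∧ (FinGenIdeal (U Φ A') ↔ FinGenIdeal (U k A)) := by
  obtain ⟨j, c, h, hj⟩ := exists_bc hA hA'
  obtain ⟨u1, u2, u3, u4⟩ := flat_up hA hA'
  have hfr := free_tensor (PV k) hA
  have hsub : ∀ C : Submodule k A, IsSub C → ∀ M : Submodule Φ A', (∀ u, u ∈ M ↔ ∀ ψ : A' →ₙₐ[Φ] A', ψ u ∈ h.bc C) → IsSub M := by
    intro C hC M hM u hu v hv
    rw [hM] at *
    intro ψ
    rw [map_mul]
    exact h.bc_sub hC _ (hu ψ) _ (hv ψ)
  have hid : ∀ C : Submodule k A, IsId C → ∀ M : Submodule Φ A', (∀ u, u ∈ M ↔ ∀ ψ : A' →ₙₐ[Φ] A', ψ u ∈ h.bc C) → IsId M := by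
    intro C hC M hM u hu v
    rw [hM] at *
    rw [hM]
    refine ⟨fun ψ => ?_, fun ψ => ?_⟩
    · rw [map_mul]
      exact (h.bc_id hC _ (hu ψ) _).1
    · rw [map_mul]
      exact (h.bc_id hC _ (hu ψ) _).2
  have hb := bc_tensor (k := k) (A := A) (P := PV k)
  refine ⟨⟨?_, u1⟩, ⟨?_, u2⟩, ⟨?_, u3⟩, ⟨?_, u4⟩⟩
  · rw [h.nucleus_eq]
    refine down h hA hA' IsSub IsSub hsub (fun _ hM => h.pre_sub hM) (fun _ hM => pre_stable h hj hA hA' hM) _ ?_
    rw [← (bc_tensor (k := k) (A := A) (P := PV k)).nucleus_eq]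
    exact nucleus_stable hfr
  · rw [h.cent_eq]
    refine down h hA hA' IsSub IsSub hsub (fun _ hM => h.pre_sub hM) (fun _ hM => pre_stable h hj hA hA' hM) _ ?_
    rw [← (bc_tensor (k := k) (A := A) (P := PV k)).cent_eq]
    exact cent_stable hfr
  · rw [h.ZN_eq]
    refine down h hA hA' IsId IsId hid (fun _ hM => h.pre_id hM) (fun _ hM => pre_stable h hj hA hA' hM) _ ?_
    rw [← (bc_tensor (k := k) (A := A) (P := PV k)).ZN_eq]
    exact ZN_stable hfr
  · rw [h.U_eq]
    refine down h hA hA' IsId IsId hid (fun _ hM => h.pre_id hM) (fun _ hM => pre_stable h hj hA hA' hM) _ ?_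
    rw [← (bc_tensor (k := k) (A := A) (P := PV k)).U_eq]
    exact U_stable hfr

end Pool.Agent.Lib.MP_bda2fe_al
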