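import Pool.Agent.Lib.MP_bda2fe_al.Lin

/-!
# Homomorphisms and extension of scalars
-/

set_option linter.unusedSectionVars false

namespace Pool.Agent.Lib.MP_bda2fe_al

open TensorProduct

variable {k Φ A A' : Type} [Field k] [CommRing Φ] [Algebra k Φ]
  [NonUnitalNonAssocRing A] [Module k A] [SMulCommClass k A A] [IsScalarTower k A A]
  [NonUnitalNonAssocRing A'] [Module Φ A'] [SMulCommClass Φ A' A'] [IsScalarTower Φ A' A']
  {j : A → A'} {c : (Φ →ₗ[k] k) → A' → A} {x : ℕ → A} {x' : ℕ → A'}

section maps

variable {P : Type} [CommRing P] [Algebra k P]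

/-- `p ⊗ a ↦ g p • j a` -/
noncomputable def evMap (h : BC k Φ A A' j c) (g : P →ₐ[k] Φ) : P ⊗[k] A →+ A' :=
  TensorProduct.liftAddHom
    { toFun := fun p =>
        { toFun := fun a => g p • j a
          map_zero' := by rw [h.j0, smul_zero]
          map_add' := fun a b => by rw [h.jadd, smul_add] }
      map_zero' := by
        ext a
        simp
      map_add' := fun p q => by
        ext a
        simp [add_smul] }
    (fun r p a => by
      change g (r • p) • j a = g p • j (r • a)
      rw [map_smul, h.jsmul, Algebra.smul_def, mul_comm, mul_smul])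

theorem evMap_tmul (h : BC k Φ A A' j c) (g : P →ₐ[k] Φ) (p : P) (a : A) : evMap h g (p ⊗ₜ[k] a) = g p • j a := rfl

theorem evMap_mul (h : BC k Φ A A' j c) (g : P →ₐ[k] Φ) (u v : P ⊗[k] A) : evMap h g (u * v) = evMap h g u * evMap h g v := by
  induction u using TensorProduct.induction_on with
  | zero => simp only [zero_mul, map_zero]
  | add u u' hu hu' => simp only [add_mul, map_add, hu, hu']
  | tmul p a =>
    induction v using TensorProduct.induction_on with
    | zero => simp only [mul_zero, map_zero]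
    | add v v' hv hv' => simp only [mul_add, map_add, hv, hv']
    | tmul q b =>
      rw [Algebra.TensorProduct.tmul_mul_tmul, evMap_tmul, evMap_tmul, evMap_tmul, map_mul, h.jmul, smul_mul_smul_comm]

theorem evMap_smul (h : BC k Φ A A' j c) (g : P →ₐ[k] Φ) (r : k) (u : P ⊗[k] A) :
    evMap h g (r • u) = algebraMap k Φ r • evMap h g u := by
  induction u using TensorProduct.induction_on with
  | zero => simp only [smul_zero, map_zero]
  | add u u' hu hu' => simp only [smul_add, map_add, hu, hu']
  | tmul p a => rw [TensorProduct.smul_tmul', evMap_tmul, evMap_tmul, map_smul, Algebra.smul_def, mul_smul]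

end maps

theorem pre_stable (h : BC k Φ A A' j c) (hj : ∀ i, j (x i) = x' i) (hA : IsFreeAlt k A x) (hA' : IsFreeAlt Φ A' x')
    {M : Submodule Φ A'} (hM : Stable M) : Stable (h.pre M) := by
  intro φ a ha
  obtain ⟨φ', hφ', _⟩ := hA'.lift A' hA'.alt fun i => j (φ (x i))
  have h1 : (fun a => φ' (j a)) = fun a => j (φ a) := by
    refine hom_eq (Φ := Φ) hA hA'.alt ⟨fun a b => ?_, fun a b => ?_, fun r a => ?_⟩ ⟨fun a b => ?_, fun a b => ?_, fun r a => ?_⟩ fun i => ?_
    · rw [h.jadd, map_add]
    · rw [h.jmul, map_mul]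
    · rw [h.jsmul, map_smul]
    · rw [map_add, h.jadd]
    · rw [map_mul, h.jmul]
    · rw [map_smul, h.jsmul]
    · rw [hj, hφ']
  have h2 : φ' (j a) = j (φ a) := congrFun h1 a
  rw [h.mem_pre, ← h2]
  exact hM φ' _ ha

end Pool.Agent.Lib.MP_bda2fe_al
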