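import Pool.Agent.Lib.MP_bda2fe_al.Test

/-!
# Finite generation over all rings: definitions

`O` stands for one of `nucleus`, `cent`, `ZN`, `U`.
-/

set_option linter.unusedSectionVars false

namespace Pool.Agent.Lib.MP_bda2fe_al

section

variable (O : ∀ (Φ A : Type) [CommRing Φ] [NonUnitalNonAssocRing A] [Module Φ A] [SMulCommClass Φ A A]
    [IsScalarTower Φ A A], Submodule Φ A) (k : Type) [CommRing k]

/-- `O` is finitely generated as a completely characteristic subalgebra over every commutative `k`-algebra `Φ`. -/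
def EverySub : Prop :=
  ∀ (Φ C : Type) [CommRing Φ] [Algebra k Φ] [NonUnitalNonAssocRing C] [Module Φ C] [SMulCommClass Φ C C]
    [IsScalarTower Φ C C] (z : ℕ → C), IsFreeAlt Φ C z → FinGenSub (O Φ C)

/-- `O` is finitely generated as a T-ideal over every commutative `k`-algebra `Φ`. -/
def EveryIdeal : Prop :=
  ∀ (Φ C : Type) [CommRing Φ] [Algebra k Φ] [NonUnitalNonAssocRing C] [Module Φ C] [SMulCommClass Φ C C]
    [IsScalarTower Φ C C] (z : ℕ → C), IsFreeAlt Φ C z → FinGenIdeal (O Φ C)

variable {A : Type} [NonUnitalNonAssocRing A] [Module k A] [SMulCommClass k A A] [IsScalarTower k A A] (x : ℕ → A)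

/-- There is a finite subset `S` of the free alternative `k`-algebra `A` such that for each commutative `k`-algebra `Φ` the image of `S`
generates `O Φ C` as a completely characteristic subalgebra of the free alternative `Φ`-algebra `C`; moreover `O Φ C` is the
`Φ`-submodule generated by the image of `O k A`. -/
def UniformSub : Prop :=
  ∃ S : Finset A, ∀ (Φ C : Type) [CommRing Φ] [Algebra k Φ] [NonUnitalNonAssocRing C] [Module Φ C] [SMulCommClass Φ C C]
    [IsScalarTower Φ C C] (z : ℕ → C), IsFreeAlt Φ C z → ∀ j : A → C, SHom k Φ A C j → (∀ i, j (x i) = z i) →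
      IsLeast {D : Submodule Φ C | IsSub D ∧ Stable D ∧ ∀ s ∈ S, j s ∈ D} (O Φ C) ∧
        O Φ C = Submodule.span Φ (j '' (O k A : Set A))

/-- There is a finite subset `S` of the free alternative `k`-algebra `A` such that for each commutative `k`-algebra `Φ` the image of `S`
generates `O Φ C` as a T-ideal of the free alternative `Φ`-algebra `C`; moreover `O Φ C` is the `Φ`-submodule generated by the image
of `O k A`. -/
def UniformIdeal : Prop :=
  ∃ S : Finset A, ∀ (Φ C : Type) [CommRing Φ] [Algebra k Φ] [NonUnitalNonAssocRing C] [Module Φ C] [SMulCommClass Φ C C]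
    [IsScalarTower Φ C C] (z : ℕ → C), IsFreeAlt Φ C z → ∀ j : A → C, SHom k Φ A C j → (∀ i, j (x i) = z i) →
      IsLeast {D : Submodule Φ C | IsId D ∧ Stable D ∧ ∀ s ∈ S, j s ∈ D} (O Φ C) ∧
        O Φ C = Submodule.span Φ (j '' (O k A : Set A))

end

variable {O : ∀ (Φ A : Type) [CommRing Φ] [NonUnitalNonAssocRing A] [Module Φ A] [SMulCommClass Φ A A]
    [IsScalarTower Φ A A], Submodule Φ A}
  {k A : Type} [CommRing k] [IsDomain k] [IsPrincipalIdealRing k] [NonUnitalNonAssocRing A] [Module k A]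
  [SMulCommClass k A A] [IsScalarTower k A A] {x : ℕ → A} {B : Type}
  [NonUnitalNonAssocRing B] [Module (TestRing k) B] [SMulCommClass (TestRing k) B B] [IsScalarTower (TestRing k) B B] {y : ℕ → B}

theorem tfae_sub (hO : Good false O) (hc : Cyclic O) (hA : IsFreeAlt k A x) (hB : IsFreeAlt (TestRing k) B y) :
    [FinGenSub (O (TestRing k) B), EverySub O k, UniformSub O k x].TFAE := by
  tfae_have 1 → 3 := (test_iff hO hc hA hB).1
  tfae_have 3 → 2 := by
    intro h Φ C _ _ _ _ _ _ z hC
    exact of_uniform (b := false) (O := O) hA h hC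
  tfae_have 2 → 1 := fun h => h (TestRing k) B y hB
  tfae_finish

theorem tfae_ideal (hO : Good true O) (hc : Cyclic O) (hA : IsFreeAlt k A x) (hB : IsFreeAlt (TestRing k) B y) :
    [FinGenIdeal (O (TestRing k) B), EveryIdeal O k, UniformIdeal O k x].TFAE := by
  tfae_have 1 → 3 := (test_iff hO hc hA hB).1
  tfae_have 3 → 2 := by
    intro h Φ C _ _ _ _ _ _ z hC
    exact of_uniform (b := true) (O := O) hA h hC
  tfae_have 2 → 1 := fun h => h (TestRing k) B y hB
  tfae_finish

theorem tfae_U (hA : IsFreeAlt k A x) (hB : IsFreeAlt (TestRing k) B y) :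
    [FinGenIdeal (U (TestRing k) B), EveryIdeal U k, UniformIdeal U k x].TFAE := by
  have h := tfae_ideal good_V cyclic_V hA hB
  have e1 : FinGenIdeal (U (TestRing k) B) ↔ FinGenIdeal (V (TestRing k) B) := by rw [U_eq_V hB.alt]
  have e2 : EveryIdeal U k ↔ EveryIdeal V k := by
    constructor
    · intro h Φ C _ _ _ _ _ _ z hC
      have h1 := h Φ C z hC
      rwa [U_eq_V hC.alt] at h1
    · intro h Φ C _ _ _ _ _ _ z hC
      have h1 := h Φ C z hC
      rwa [← U_eq_V hC.alt] at h1
  have e3 : UniformIdeal U k x ↔ UniformIdeal V k x := by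
    constructor
    · rintro ⟨S, hS⟩
      refine ⟨S, ?_⟩
      intro Φ C _ _ _ _ _ _ z hC j hj hjx
      have h1 := hS Φ C z hC j hj hjx
      rwa [U_eq_V hC.alt, U_eq_V hA.alt] at h1
    · rintro ⟨S, hS⟩
      refine ⟨S, ?_⟩
      intro Φ C _ _ _ _ _ _ z hC j hj hjx
      have h1 := hS Φ C z hC j hj hjx
      rwa [← U_eq_V hC.alt, ← U_eq_V hA.alt] at h1
  rw [e1, e2, e3]
  exact h

end Pool.Agent.Lib.MP_bda2fe_al
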