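import Pool.Agent.Lib.MP_bda2fe_al.UChar

/-!
# Flat extensions of scalars

`Φ` is a flat commutative `R`-algebra.
-/

set_option linter.unusedSectionVars false

namespace Pool.Agent.Lib.MP_bda2fe_al

open TensorProduct

section
variable {R A : Type} [CommRing R] [NonUnitalNonAssocRing A] [Module R A] [SMulCommClass R A A] [IsScalarTower R A A]

/-- The elements in which only the first `r` letters occur. -/
def W (R : Type) {A : Type} [CommRing R] [NonUnitalNonAssocRing A] [Module R A] [SMulCommClass R A A] [IsScalarTower R A A]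
    (x : ℕ → A) (r : ℕ) : Submodule R A where
  carrier := {u | ∀ φ ψ : A →ₙₐ[R] A, (∀ i < r, φ (x i) = ψ (x i)) → φ u = ψ u}
  add_mem' := fun {u v} hu hv φ ψ h => by rw [map_add, map_add, hu φ ψ h, hv φ ψ h]
  zero_mem' := fun φ ψ _ => by rw [map_zero, map_zero]
  smul_mem' := fun c u hu φ ψ h => by rw [map_smul, map_smul, hu φ ψ h]

theorem W_mono {x : ℕ → A} {r s : ℕ} (h : r ≤ s) : W R x r ≤ W R x s := fun _ hu φ ψ h' =>
  hu φ ψ fun i hi => h' i (lt_of_lt_of_le hi h)

/-- Substitution for the letters which do not occur. -/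
theorem W_fresh {x : ℕ → A} (hA : IsFreeAlt R A x) {r : ℕ} {a : A} (ha : a ∈ W R x r) (b : ℕ → A) :
    ∃ ψ : A →ₙₐ[R] A, ψ a = a ∧ ∀ i, ψ (x (r + i)) = b i := by
  obtain ⟨ψ, hψ, _⟩ := hA.lift A hA.alt fun i => if i < r then x i else b (i - r)
  refine ⟨ψ, ?_, fun i => ?_⟩
  · have h1 := ha ψ (NonUnitalAlgHom.id R A) fun i hi => by
      rw [hψ, if_pos hi]
      rfl
    exact h1
  · rw [hψ, if_neg (by omega), Nat.add_sub_cancel_left]

end

variable {R Φ A A' : Type} [CommRing R] [CommRing Φ] [Algebra R Φ]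
  [NonUnitalNonAssocRing A] [Module R A] [SMulCommClass R A A] [IsScalarTower R A A]
  [NonUnitalNonAssocRing A'] [Module Φ A'] [SMulCommClass Φ A' A'] [IsScalarTower Φ A' A'] {j : A → A'}
  {x : ℕ → A} {x' : ℕ → A'}

/-- `A'` is the extension of scalars of `A`. -/
structure EX (R Φ A A' : Type) [CommRing R] [CommRing Φ] [Algebra R Φ]
    [NonUnitalNonAssocRing A] [Module R A] [SMulCommClass R A A] [IsScalarTower R A A]
    [NonUnitalNonAssocRing A'] [Module Φ A'] [SMulCommClass Φ A' A'] [IsScalarTower Φ A' A'] (j : A → A')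
    (α : A' → Φ ⊗[R] A) : Prop where
  hom : SHom R Φ A A' j
  ind : ∀ p : A' → Prop, p 0 → (∀ u v, p u → p v → p (u + v)) → (∀ (f : Φ) a, p (f • j a)) → ∀ u, p u
  αadd : ∀ u v, α (u + v) = α u + α v
  αgen : ∀ (f : Φ) a, α (f • j a) = f ⊗ₜ[R] a

theorem exists_ex (hA : IsFreeAlt R A x) (hA' : IsFreeAlt Φ A' x') :
    ∃ (j : A → A') (α : A' → Φ ⊗[R] A), EX R Φ A A' j α ∧ ∀ i, j (x i) = x' i := by
  obtain ⟨j, hj, hjx, _⟩ := exists_unique_hom (Φ := Φ) hA hA'.alt x'
  obtain ⟨α, hα, _⟩ := hA'.lift (Φ ⊗[R] A) (alt_tensor hA.alt) fun i => (1 : Φ) ⊗ₜ[R] x i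
  have hαj : (fun a => α (j a)) = fun a => (1 : Φ) ⊗ₜ[R] a := by
    refine hom_eq (Φ := Φ) hA (alt_tensor hA.alt) ⟨fun a b => ?_, fun a b => ?_, fun r a => ?_⟩ ⟨fun a b => ?_, fun a b => ?_, fun r a => ?_⟩
      fun i => ?_
    · rw [hj.add, map_add]
    · rw [hj.mul, map_mul]
    · rw [hj.smul, map_smul]
    · exact TensorProduct.tmul_add _ _ _
    · rw [Algebra.TensorProduct.tmul_mul_tmul, one_mul]
    · rw [algebraMap_smul, TensorProduct.tmul_smul]
    · rw [hjx, hα]
  have hspan : ∀ u : A', u ∈ Submodule.span Φ (Set.range j) := by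
    let N : NonUnitalSubalgebra Φ A' :=
      { Submodule.span Φ (Set.range j) with
        mul_mem' := by
          intro a b ha hb
          change a * b ∈ Submodule.span Φ (Set.range j)
          refine Submodule.span_induction (p := fun a _ => a * b ∈ Submodule.span Φ (Set.range j)) ?_ ?_ ?_ ?_ ha
          · rintro _ ⟨a', rfl⟩
            refine Submodule.span_induction (p := fun b _ => j a' * b ∈ Submodule.span Φ (Set.range j)) ?_ ?_ ?_ ?_ hb
            · rintro _ ⟨b', rfl⟩
              rw [← hj.mul]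
              exact Submodule.subset_span ⟨_, rfl⟩
            · rw [mul_zero]
              exact zero_mem _
            · intro u v _ _ hu hv
              rw [mul_add]
              exact add_mem hu hv
            · intro r u _ hu
              rw [mul_smul_comm]
              exact Submodule.smul_mem _ r hu
          · rw [zero_mul]
            exact zero_mem _
          · intro u v _ _ hu hv
            rw [add_mul]
            exact add_mem hu hv
          · intro r u _ hu
            rw [smul_mul_assoc]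
            exact Submodule.smul_mem _ r hu }
    exact mem_of_gen hA' N fun i => Submodule.subset_span ⟨x i, hjx i⟩
  refine ⟨j, α, ⟨hj, ?_, fun u v => map_add α u v, ?_⟩, hjx⟩
  · intro p h0 hadd hgen u
    have h1 : ∀ f : Φ, p (f • u) := by
      refine Submodule.span_induction (p := fun u _ => ∀ f : Φ, p (f • u)) ?_ ?_ ?_ ?_ (hspan u)
      · rintro _ ⟨a, rfl⟩ f
        exact hgen f a
      · intro f
        rw [smul_zero]
        exact h0
      · intro u v _ _ hu hv f
        rw [smul_add]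
        exact hadd _ _ (hu f) (hv f)
      · intro r u _ hu f
        rw [smul_smul]
        exact hu _
    have h2 := h1 1
    rwa [one_smul] at h2
  · intro f a
    rw [map_smul]
    have h1 : α (j a) = (1 : Φ) ⊗ₜ[R] a := congrFun hαj a
    rw [h1, TensorProduct.smul_tmul', smul_eq_mul, mul_one]

namespace EX

variable {α : A' → Φ ⊗[R] A} (h : EX R Φ A A' j α)
include h

theorem j0 : j 0 = 0 := by
  have h1 := h.hom.smul 0 0
  rwa [zero_smul, map_zero, zero_smul] at h1

theorem jsub (a b : A) : j (a - b) = j a - j b := by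
  have h3 := h.hom.add (a - b) b
  rw [sub_add_cancel] at h3
  rw [h3, add_sub_cancel_right]

theorem α0 : α 0 = 0 := by
  have h1 := h.αgen 0 0
  rwa [zero_smul, TensorProduct.zero_tmul] at h1

/-- the inverse of `α` -/
noncomputable def β : Φ ⊗[R] A →+ A' :=
  TensorProduct.liftAddHom
    { toFun := fun p =>
        { toFun := fun a => p • j a
          map_zero' := by rw [h.j0, smul_zero]
          map_add' := fun a b => by rw [h.hom.add, smul_add] }
      map_zero' := by
        ext a
        simp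
      map_add' := fun p q => by
        ext a
        simp [add_smul] }
    (fun r p a => by
      change (r • p) • j a = p • j (r • a)
      rw [h.hom.smul, Algebra.smul_def, mul_comm, mul_smul])

theorem β_tmul (p : Φ) (a : A) : h.β (p ⊗ₜ[R] a) = p • j a := rfl

theorem βα (u : A') : h.β (α u) = u := by
  refine h.ind (fun u => h.β (α u) = u) ?_ ?_ ?_ u
  · rw [h.α0, map_zero]
  · intro u v hu hv
    rw [h.αadd, map_add, hu, hv]
  · intro f a
    rw [h.αgen, h.β_tmul]

/-- The `Φ`-submodule generated by the image of a submodule. -/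
def im (_ : EX R Φ A A' j α) (B : Submodule R A) : Submodule Φ A' := Submodule.span Φ (j '' (B : Set A))

theorem mem_im {B : Submodule R A} {a : A} (ha : a ∈ B) : j a ∈ h.im B := Submodule.subset_span ⟨a, ha, rfl⟩

theorem im_mono {B C : Submodule R A} (hBC : B ≤ C) : h.im B ≤ h.im C := Submodule.span_mono (Set.image_mono hBC)

theorem mem_W (u : A') (hA : IsFreeAlt R A x) : ∃ r, u ∈ h.im (W R x r) := by
  refine h.ind (fun u => ∃ r, u ∈ h.im (W R x r)) ?_ ?_ ?_ u
  · exact ⟨0, zero_mem _⟩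
  · rintro u v ⟨r, hr⟩ ⟨s, hs⟩
    exact ⟨max r s, add_mem (h.im_mono (W_mono (le_max_left _ _)) hr) (h.im_mono (W_mono (le_max_right _ _)) hs)⟩
  · intro f a
    obtain ⟨r, hr⟩ := fin_supp hA a
    exact ⟨r, Submodule.smul_mem _ f (h.mem_im hr)⟩

/-- Exactness. -/
theorem ker_im [Module.Flat R Φ] (B : Submodule R A) (M : A →ₗ[R] A) (M' : A' → A') (hadd : ∀ u v, M' (u + v) = M' u + M' v)
    (hgen : ∀ (f : Φ) a, M' (f • j a) = f • j (M a)) {u : A'} (hu : u ∈ h.im B) (h0 : M' u = 0) :
    u ∈ h.im (B ⊓ LinearMap.ker M) := by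
  have hM0 : M' 0 = 0 := by
    have h1 := hgen 0 0
    rwa [zero_smul, zero_smul] at h1
  -- `u` comes from `Φ ⊗ B`
  have h1 : ∃ v : Φ ⊗[R] B, LinearMap.lTensor Φ B.subtype v = α u := by
    have key : ∀ f : Φ, ∃ v : Φ ⊗[R] B, LinearMap.lTensor Φ B.subtype v = α (f • u) := by
      refine Submodule.span_induction (p := fun u _ => ∀ f : Φ, ∃ v : Φ ⊗[R] B, LinearMap.lTensor Φ B.subtype v = α (f • u))
        ?_ ?_ ?_ ?_ hu
      · rintro _ ⟨a, ha, rfl⟩ f
        refine ⟨f ⊗ₜ[R] (⟨a, ha⟩ : B), ?_⟩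
        rw [h.αgen, LinearMap.lTensor_tmul]
        rfl
      · intro f
        exact ⟨0, by rw [map_zero, smul_zero, h.α0]⟩
      · intro u v _ _ hu hv f
        obtain ⟨w, hw⟩ := hu f
        obtain ⟨w', hw'⟩ := hv f
        exact ⟨w + w', by rw [map_add, hw, hw', smul_add, h.αadd]⟩
      · intro r u _ hu f
        obtain ⟨w, hw⟩ := hu (f * r)
        exact ⟨w, by rw [hw, smul_smul]⟩
    obtain ⟨v, hv⟩ := key 1
    exact ⟨v, by rw [hv, one_smul]⟩
  obtain ⟨v, hv⟩ := h1
  -- `M` kills it
  have h2 : ∀ w : A', LinearMap.lTensor Φ M (α w) = α (M' w) := by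
    intro w
    refine h.ind (fun w => LinearMap.lTensor Φ M (α w) = α (M' w)) ?_ ?_ ?_ w
    · rw [h.α0, map_zero, hM0, h.α0]
    · intro w w' hw hw'
      rw [h.αadd, map_add, hw, hw', hadd, h.αadd]
    · intro f a
      rw [h.αgen, hgen, h.αgen, LinearMap.lTensor_tmul]
  have h3 : LinearMap.lTensor Φ (M ∘ₗ B.subtype) v = 0 := by
    rw [LinearMap.lTensor_comp, LinearMap.comp_apply, hv, h2, h0, h.α0]
  have h4 : Function.Exact (LinearMap.lTensor Φ (LinearMap.ker (M ∘ₗ B.subtype)).subtype) (LinearMap.lTensor Φ (M ∘ₗ B.subtype)) :=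
    Module.Flat.lTensor_exact Φ (LinearMap.exact_subtype_ker_map _)
  obtain ⟨w, hw⟩ := (h4 v).1 h3
  -- back to `A'`
  have h5 : ∀ w : Φ ⊗[R] (LinearMap.ker (M ∘ₗ B.subtype)),
      h.β (LinearMap.lTensor Φ B.subtype (LinearMap.lTensor Φ (LinearMap.ker (M ∘ₗ B.subtype)).subtype w)) ∈
        h.im (B ⊓ LinearMap.ker M) := by
    intro w
    induction w using TensorProduct.induction_on with
    | zero =>
      rw [map_zero, map_zero, map_zero]
      exact zero_mem _
    | add w w' hw hw' =>
      rw [map_add, map_add, map_add]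
      exact add_mem hw hw'
    | tmul f b =>
      rw [LinearMap.lTensor_tmul, LinearMap.lTensor_tmul, h.β_tmul]
      refine Submodule.smul_mem _ _ (h.mem_im ⟨?_, ?_⟩)
      · exact b.1.2
      · exact b.2
  have h6 := h5 w
  rw [hw, hv, h.βα] at h6
  exact h6

end EX

end Pool.Agent.Lib.MP_bda2fe_al
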