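import Pool.Agent.Lib.MP_bda2fe_al.Flat

/-!
# Finite generation and flat extensions of scalars
-/

set_option linter.unusedSectionVars false

namespace Pool.Agent.Lib.MP_bda2fe_al

open TensorProduct

section
variable {R A : Type} [CommRing R] [NonUnitalNonAssocRing A] [Module R A] [SMulCommClass R A A] [IsScalarTower R A A]

/-- `a ↦ (a, b, c)` -/
def asL (R : Type) {A : Type} [CommRing R] [NonUnitalNonAssocRing A] [Module R A] [SMulCommClass R A A] [IsScalarTower R A A]
    (b c : A) : A →ₗ[R] A where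
  toFun a := a * b * c - a * (b * c)
  map_add' a a' := by
    simp only [add_mul]
    abel
  map_smul' r a := by
    simp only [smul_mul_assoc, smul_sub, RingHom.id_apply]

/-- `a ↦ [a, b]` -/
def coL (R : Type) {A : Type} [CommRing R] [NonUnitalNonAssocRing A] [Module R A] [SMulCommClass R A A] [IsScalarTower R A A]
    (b : A) : A →ₗ[R] A where
  toFun a := a * b - b * a
  map_add' a a' := by
    simp only [add_mul, mul_add]
    abel
  map_smul' r a := by
    simp only [smul_mul_assoc, mul_smul_comm, smul_sub, RingHom.id_apply]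

/-- `a ↦ a b` -/
def muL (R : Type) {A : Type} [CommRing R] [NonUnitalNonAssocRing A] [Module R A] [SMulCommClass R A A] [IsScalarTower R A A]
    (b : A) : A →ₗ[R] A where
  toFun a := a * b
  map_add' _ _ := add_mul _ _ _
  map_smul' _ _ := smul_mul_assoc _ _ _

theorem nucleus_of_W {x : ℕ → A} (hA : IsFreeAlt R A x) {r : ℕ} {a : A} (ha : a ∈ W R x r)
    (h : asL R (x r) (x (r + 1)) a = 0) : a ∈ nucleus R A := by
  refine (mem_nucleus hA.alt).2 fun b c => ?_
  obtain ⟨ψ, h1, h2⟩ := W_fresh hA ha fun i => if i = 0 then b else c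
  have h3 : ψ (x r) = b := h2 0
  have h4 : ψ (x (r + 1)) = c := h2 1
  change a * x r * x (r + 1) - a * (x r * x (r + 1)) = 0 at h
  have h5 := congrArg ψ h
  simp only [map_sub, map_mul, h1, h3, h4, map_zero] at h5
  exact sub_eq_zero.1 h5

theorem cent_of_W {x : ℕ → A} (hA : IsFreeAlt R A x) {r : ℕ} {a : A} (ha : a ∈ W R x r)
    (h : coL R (x r) a = 0) (b : A) : a * b = b * a := by
  obtain ⟨ψ, h1, h2⟩ := W_fresh hA ha fun _ => b
  have h3 : ψ (x r) = b := h2 0
  change a * x r - x r * a = 0 at h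
  have h5 := congrArg ψ h
  simp only [map_sub, map_mul, h1, h3, map_zero] at h5
  exact sub_eq_zero.1 h5

theorem V_of_W {x : ℕ → A} (hA : IsFreeAlt R A x) {r : ℕ} {a : A} (ha : a ∈ W R x r)
    (h : muL R (x r * x (r + 1) * x (r + 2) - x r * (x (r + 1) * x (r + 2))) a = 0) (b c d : A) :
    a * (b * c * d - b * (c * d)) = 0 := by
  obtain ⟨ψ, h1, h2⟩ := W_fresh hA ha fun i => if i = 0 then b else if i = 1 then c else d
  have h3 : ψ (x r) = b := h2 0
  have h4 : ψ (x (r + 1)) = c := h2 1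
  have h4' : ψ (x (r + 2)) = d := h2 2
  change a * (x r * x (r + 1) * x (r + 2) - x r * (x (r + 1) * x (r + 2))) = 0 at h
  have h5 := congrArg ψ h
  simp only [map_sub, map_mul, h1, h3, h4, h4', map_zero] at h5
  exact h5

end

variable {R Φ A A' : Type} [CommRing R] [CommRing Φ] [Algebra R Φ]
  [NonUnitalNonAssocRing A] [Module R A] [SMulCommClass R A A] [IsScalarTower R A A]
  [NonUnitalNonAssocRing A'] [Module Φ A'] [SMulCommClass Φ A' A'] [IsScalarTower Φ A' A'] {j : A → A'}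
  {x : ℕ → A} {x' : ℕ → A'}

namespace EX

variable {α : A' → Φ ⊗[R] A} (h : EX R Φ A A' j α)
include h

/-- The preimage of a submodule. -/
def pre (M : Submodule Φ A') : Submodule R A where
  carrier := {a | j a ∈ M}
  add_mem' := fun ha hb => by
    change j _ ∈ M
    rw [h.hom.add]
    exact add_mem ha hb
  zero_mem' := by
    change j 0 ∈ M
    rw [h.j0]
    exact zero_mem M
  smul_mem' := fun r a ha => by
    change j _ ∈ M
    rw [h.hom.smul]
    exact M.smul_mem _ ha

theorem mem_pre {M : Submodule Φ A'} {a : A} : a ∈ h.pre M ↔ j a ∈ M := Iff.rfl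

theorem im_le {B : Submodule R A} {M : Submodule Φ A'} (hB : B ≤ h.pre M) : h.im B ≤ M :=
  Submodule.span_le.2 (by
    rintro _ ⟨a, ha, rfl⟩
    exact hB ha)

theorem pre_sub {M : Submodule Φ A'} (hM : IsSub M) : IsSub (h.pre M) := by
  intro a ha b hb
  rw [mem_pre, h.hom.mul]
  exact hM _ ha _ hb

theorem pre_id {M : Submodule Φ A'} (hM : IsId M) : IsId (h.pre M) := by
  intro a ha b
  rw [mem_pre, mem_pre, h.hom.mul, h.hom.mul]
  exact hM _ ha _

theorem pre_stable (hj : ∀ i, j (x i) = x' i) (hA : IsFreeAlt R A x) (hA' : IsFreeAlt Φ A' x')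
    {M : Submodule Φ A'} (hM : Stable M) : Stable (h.pre M) := by
  intro φ a ha
  obtain ⟨φ', hφ', _⟩ := hA'.lift A' hA'.alt fun i => j (φ (x i))
  have h1 : (fun a => φ' (j a)) = fun a => j (φ a) := by
    refine hom_eq (Φ := Φ) hA hA'.alt ⟨fun a b => ?_, fun a b => ?_, fun r a => ?_⟩ ⟨fun a b => ?_, fun a b => ?_, fun r a => ?_⟩ fun i => ?_
    · rw [h.hom.add, map_add]
    · rw [h.hom.mul, map_mul]
    · rw [h.hom.smul, map_smul]
    · rw [map_add, h.hom.add]
    · rw [map_mul, h.hom.mul]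
    · rw [map_smul, h.hom.smul]
    · rw [hj, hφ']
  have h2 : φ' (j a) = j (φ a) := congrFun h1 a
  rw [h.mem_pre, ← h2]
  exact hM φ' _ ha

theorem up {Pk : Submodule R A → Prop} {PΦ : Submodule Φ A' → Prop} (h2 : ∀ M, PΦ M → Pk (h.pre M))
    (hs2 : ∀ M, Stable M → Stable (h.pre M)) {B : Submodule R A} {B' : Submodule Φ A'} (hB1 : ∀ a ∈ B, j a ∈ B')
    (hB2 : B' ≤ h.im B) (h1 : PΦ B') (hs1 : Stable B') :
    (∃ T : Finset A, IsLeast {C : Submodule R A | Pk C ∧ Stable C ∧ ∀ s ∈ T, s ∈ C} B) →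
      ∃ T : Finset A', IsLeast {C : Submodule Φ A' | PΦ C ∧ Stable C ∧ ∀ s ∈ T, s ∈ C} B' := by
  classical
  rintro ⟨T, ⟨hP, hSt, hT⟩, hmin⟩
  refine ⟨T.image j, ⟨h1, hs1, ?_⟩, ?_⟩
  · intro u hu
    obtain ⟨s, hs, rfl⟩ := Finset.mem_image.1 hu
    exact hB1 _ (hT s hs)
  · rintro M ⟨hM1, hM2, hM3⟩
    have h5 : B ≤ h.pre M := hmin ⟨h2 M hM1, hs2 M hM2, fun s hs => hM3 _ (Finset.mem_image.2 ⟨s, hs, rfl⟩)⟩
    exact hB2.trans (h.im_le h5)

theorem im_id {B : Submodule R A} (hB : IsId B) : IsId (h.im B) := by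
  intro u hu v
  refine Submodule.span_induction (p := fun u _ => v * u ∈ h.im B ∧ u * v ∈ h.im B) ?_ ?_ ?_ ?_ hu
  · rintro _ ⟨a, ha, rfl⟩
    refine h.ind (fun v => v * j a ∈ h.im B ∧ j a * v ∈ h.im B) ?_ ?_ ?_ v
    · rw [mul_zero, zero_mul]
      exact ⟨zero_mem _, zero_mem _⟩
    · rintro v w ⟨h1, h2⟩ ⟨h3, h4⟩
      rw [mul_add, add_mul]
      exact ⟨add_mem h1 h3, add_mem h2 h4⟩
    · intro f b
      rw [mul_smul_comm, smul_mul_assoc, ← h.hom.mul, ← h.hom.mul]
      exact ⟨Submodule.smul_mem _ f (h.mem_im (hB a ha b).1), Submodule.smul_mem _ f (h.mem_im (hB a ha b).2)⟩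
  · rw [mul_zero, zero_mul]
    exact ⟨zero_mem _, zero_mem _⟩
  · rintro u w _ _ ⟨h1, h2⟩ ⟨h3, h4⟩
    rw [mul_add, add_mul]
    exact ⟨add_mem h1 h3, add_mem h2 h4⟩
  · rintro r u _ ⟨h1, h2⟩
    rw [mul_smul_comm, smul_mul_assoc]
    exact ⟨Submodule.smul_mem _ r h1, Submodule.smul_mem _ r h2⟩

theorem nucleus_j (hA' : IsAlt A') {n : A} (hn : n ∈ nucleus R A) : j n ∈ nucleus Φ A' := by
  refine (mem_nucleus hA').2 fun u v => ?_
  refine h.ind (fun u => j n * u * v = j n * (u * v)) ?_ ?_ ?_ u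
  · rw [mul_zero, zero_mul, mul_zero]
  · intro u u' hu hu'
    rw [mul_add, add_mul, hu, hu', add_mul, mul_add]
  · intro f a
    refine h.ind (fun v => j n * f • j a * v = j n * (f • j a * v)) ?_ ?_ ?_ v
    · rw [mul_zero, mul_zero, mul_zero]
    · intro u u' hu hu'
      rw [mul_add, hu, hu', mul_add, mul_add]
    · intro g b
      simp only [mul_smul_comm, smul_mul_assoc, ← h.hom.mul]
      rw [(hn a b).1]

theorem cent_j (hA' : IsAlt A') {n : A} (hn : n ∈ cent R A) : j n ∈ cent Φ A' := by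
  refine ⟨h.nucleus_j hA' hn.1, fun u => ?_⟩
  refine h.ind (fun u => j n * u = u * j n) ?_ ?_ ?_ u
  · rw [mul_zero, zero_mul]
  · intro u v hu hv
    rw [mul_add, add_mul, hu, hv]
  · intro f a
    rw [mul_smul_comm, smul_mul_assoc, ← h.hom.mul, ← h.hom.mul, hn.2]

theorem ZN_j (hA' : IsAlt A') {n : A} (hn : n ∈ ZN R A) : j n ∈ ZN Φ A' := by
  have h1 : ZN R A ≤ h.pre (ZN Φ A') := by
    refine ZN_le (h.pre_id ZN_id) ?_
    intro n hn b
    rw [mem_pre, h.jsub, h.hom.mul, h.hom.mul]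
    exact ZN_mem (h.nucleus_j hA' hn) _
  exact h1 hn

theorem V_j (hA' : IsAlt A') {n : A} (hn : n ∈ V R A) : j n ∈ V Φ A' := by
  refine ⟨h.nucleus_j hA' hn.1, fun u v w => ?_⟩
  refine h.ind (fun u => j n * (u * v * w - u * (v * w)) = 0) ?_ ?_ ?_ u
  · simp only [zero_mul, sub_self, mul_zero]
  · intro u u' hu hu'
    have h1 : (u + u') * v * w - (u + u') * (v * w) = (u * v * w - u * (v * w)) + (u' * v * w - u' * (v * w)) := by
      simp only [add_mul]
      abel
    rw [h1, mul_add, hu, hu', add_zero]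
  · intro f a
    refine h.ind (fun v => j n * (f • j a * v * w - f • j a * (v * w)) = 0) ?_ ?_ ?_ v
    · simp only [zero_mul, sub_self, mul_zero]
    · intro u u' hu hu'
      have h1 : f • j a * (u + u') * w - f • j a * ((u + u') * w) = (f • j a * u * w - f • j a * (u * w)) +
          (f • j a * u' * w - f • j a * (u' * w)) := by
        simp only [add_mul, mul_add]
        abel
      rw [h1, mul_add, hu, hu', add_zero]
    · intro g b
      refine h.ind (fun w => j n * (f • j a * g • j b * w - f • j a * (g • j b * w)) = 0) ?_ ?_ ?_ w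
      · simp only [mul_zero, sub_self]
      · intro u u' hu hu'
        have h1 : f • j a * g • j b * (u + u') - f • j a * (g • j b * (u + u')) = (f • j a * g • j b * u - f • j a * (g • j b * u)) +
            (f • j a * g • j b * u' - f • j a * (g • j b * u')) := by
          simp only [mul_add]
          abel
        rw [h1, mul_add, hu, hu', add_zero]
      · intro e c
        simp only [mul_smul_comm, smul_mul_assoc, ← h.hom.mul, ← smul_sub, ← h.jsub]
        rw [hn.2, h.j0]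
        simp only [smul_zero]

variable [Module.Flat R Φ]

theorem step1 (hA : IsFreeAlt R A x) (u : A') (hu : u ∈ nucleus Φ A') :
    ∃ r, u ∈ h.im (W R x r ⊓ LinearMap.ker (asL R (x r) (x (r + 1)))) := by
  obtain ⟨r, hr⟩ := h.mem_W u hA
  refine ⟨r, h.ker_im (W R x r) (asL R (x r) (x (r + 1))) (fun u => u * j (x r) * j (x (r + 1)) - u * (j (x r) * j (x (r + 1)))) ?_ ?_ hr ?_⟩
  · intro u v
    simp only [add_mul]
    abel
  · intro f a
    change _ = f • j (a * x r * x (r + 1) - a * (x r * x (r + 1)))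
    rw [h.jsub]
    simp only [h.hom.mul, smul_mul_assoc, smul_sub]
  · rw [(hu _ _).1, sub_self]

theorem nucleus_im (hA : IsFreeAlt R A x) : nucleus Φ A' ≤ h.im (nucleus R A) := by
  intro u hu
  obtain ⟨r, hr⟩ := h.step1 hA u hu
  refine h.im_mono ?_ hr
  rintro a ⟨h1, h2⟩
  exact nucleus_of_W hA h1 h2

theorem cent_im (hA : IsFreeAlt R A x) : cent Φ A' ≤ h.im (cent R A) := by
  intro u hu
  obtain ⟨r, hr⟩ := h.step1 hA u hu.1
  have h1 := h.ker_im _ (coL R (x r)) (fun u => u * j (x r) - j (x r) * u) ?_ ?_ hr ?_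
  · refine h.im_mono ?_ h1
    rintro a ⟨⟨h2, h3⟩, h4⟩
    exact ⟨nucleus_of_W hA h2 h3, cent_of_W hA h2 h4⟩
  · intro u v
    simp only [add_mul, mul_add]
    abel
  · intro f a
    change _ = f • j (a * x r - x r * a)
    rw [h.jsub]
    simp only [h.hom.mul, smul_mul_assoc, mul_smul_comm, smul_sub]
  · rw [hu.2, sub_self]

theorem V_im (hA : IsFreeAlt R A x) : V Φ A' ≤ h.im (V R A) := by
  intro u hu
  obtain ⟨r, hr⟩ := h.step1 hA u hu.1
  have h1 := h.ker_im _ (muL R (x r * x (r + 1) * x (r + 2) - x r * (x (r + 1) * x (r + 2))))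
    (fun u => u * j (x r * x (r + 1) * x (r + 2) - x r * (x (r + 1) * x (r + 2)))) ?_ ?_ hr ?_
  · refine h.im_mono ?_ h1
    rintro a ⟨⟨h2, h3⟩, h4⟩
    exact ⟨nucleus_of_W hA h2 h3, V_of_W hA h2 h4⟩
  · intro u v
    exact add_mul _ _ _
  · intro f a
    change _ = f • j (a * (x r * x (r + 1) * x (r + 2) - x r * (x (r + 1) * x (r + 2))))
    rw [smul_mul_assoc, ← h.hom.mul]
  · rw [h.jsub]
    simp only [h.hom.mul]
    exact hu.2 _ _ _

theorem ZN_im (hA : IsFreeAlt R A x) : ZN Φ A' ≤ h.im (ZN R A) := by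
  refine ZN_le (h.im_id ZN_id) ?_
  intro n hn v
  have hn' := h.nucleus_im hA hn
  refine Submodule.span_induction (p := fun n _ => n * v - v * n ∈ h.im (ZN R A)) ?_ ?_ ?_ ?_ hn'
  · rintro _ ⟨a, ha, rfl⟩
    refine h.ind (fun v => j a * v - v * j a ∈ h.im (ZN R A)) ?_ ?_ ?_ v
    · rw [mul_zero, zero_mul, sub_zero]
      exact zero_mem _
    · intro u w hu hw
      have h1 : j a * (u + w) - (u + w) * j a = (j a * u - u * j a) + (j a * w - w * j a) := by
        rw [mul_add, add_mul]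
        abel
      rw [h1]
      exact add_mem hu hw
    · intro f b
      rw [mul_smul_comm, smul_mul_assoc, ← smul_sub, ← h.hom.mul, ← h.hom.mul, ← h.jsub]
      exact Submodule.smul_mem _ f (h.mem_im (ZN_mem ha b))
  · rw [mul_zero, zero_mul, sub_zero]
    exact zero_mem _
  · intro u w _ _ hu hw
    have h1 : (u + w) * v - v * (u + w) = (u * v - v * u) + (w * v - v * w) := by
      rw [mul_add, add_mul]
      abel
    rw [h1]
    exact add_mem hu hw
  · intro r u _ hu
    rw [mul_smul_comm, smul_mul_assoc, ← smul_sub]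
    exact Submodule.smul_mem _ r hu

end EX

/-- Flat extension of scalars. -/
theorem flat_up [Module.Flat R Φ] (hA : IsFreeAlt R A x) (hA' : IsFreeAlt Φ A' x') :
    (FinGenSub (nucleus R A) → FinGenSub (nucleus Φ A')) ∧ (FinGenSub (cent R A) → FinGenSub (cent Φ A')) ∧
      (FinGenIdeal (ZN R A) → FinGenIdeal (ZN Φ A')) ∧ (FinGenIdeal (U R A) → FinGenIdeal (U Φ A')) := by
  obtain ⟨j, α, h, hj⟩ := exists_ex hA hA'
  refine ⟨?_, ?_, ?_, ?_⟩
  · exact h.up (fun _ hM => h.pre_sub hM) (fun _ hM => h.pre_stable hj hA hA' hM) (fun _ ha => h.nucleus_j hA'.alt ha)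
      (h.nucleus_im hA) nucleus_sub (nucleus_stable hA')
  · exact h.up (fun _ hM => h.pre_sub hM) (fun _ hM => h.pre_stable hj hA hA' hM) (fun _ ha => h.cent_j hA'.alt ha)
      (h.cent_im hA) cent_sub (cent_stable hA')
  · exact h.up (fun _ hM => h.pre_id hM) (fun _ hM => h.pre_stable hj hA hA' hM) (fun _ ha => h.ZN_j hA'.alt ha)
      (h.ZN_im hA) ZN_id (ZN_stable hA')
  · have hst := U_stable hA'
    rw [U_eq_V hA.alt, U_eq_V hA'.alt] at *
    exact h.up (fun _ hM => h.pre_id hM) (fun _ hM => h.pre_stable hj hA hA' hM) (fun _ ha => h.V_j hA'.alt ha)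
      (h.V_im hA) (V_id hA'.alt) hst

end Pool.Agent.Lib.MP_bda2fe_al
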