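import Pool.Agent.Lib.MP_bda2fe_al.Defs

/-!
# The element `ν d`: reduction of its associators

`as a b c = (a b) c - a (b c)`, `cm a b = a b - b a`, `jm a b = a b + b a`,
`nu x y w = [y, x] ∘ [w, x ^ 2] - [w, x] ∘ [y, x ^ 2]`.
-/

namespace Pool.Agent.Lib.MP_bda2fe_al.NU

section
variable {C : Type} [NonUnitalNonAssocRing C]

/-- the associator -/
def as (a b c : C) : C := a * b * c - a * (b * c)

/-- the commutator -/
def cm (a b : C) : C := a * b - b * a

/-- the Jordan product -/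
def jm (a b : C) : C := a * b + b * a

/-- `[y, x] ∘ [w, x ^ 2] - [w, x] ∘ [y, x ^ 2]` -/
def nu (x y w : C) : C := jm (cm y x) (cm w (x * x)) - jm (cm w x) (cm y (x * x))

theorem as_mul (n d s t : C) : as (n * d) s t = n * as d s t + as n d s * t + as n (d * s) t - as n d (s * t) := by
  simp only [as, mul_sub, sub_mul]
  abel

end

/-- `120 ν(a; b, c) d` -/
def PP (C : Type) [NonUnitalNonAssocRing C] (a b c d : C) : C := (120 : ℤ) • (nu a b c * d)

theorem PP_hom (C D : Type) [NonUnitalNonAssocRing C] [NonUnitalNonAssocRing D] (φ : C →ₙ+* D) (a b c d : C) :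
    φ (PP C a b c d) = PP D (φ a) (φ b) (φ c) (φ d) := by
  simp only [PP, nu, jm, cm, map_zsmul, map_mul, map_sub, map_add]

/-- The associators of `120 ν(a; b, c) d` are multiples of `9`, from those of `ν` and from `120 ν (d, s, t)`. -/
theorem hid_of (C : Type) [NonUnitalNonAssocRing C]
    (h1 : ∀ a b c u v : C, ∃ w : C, as (nu a b c) u v = (9 : ℤ) • w)
    (h2 : ∀ a b c d s t : C, ∃ w : C, (120 : ℤ) • (nu a b c * as d s t) = (9 : ℤ) • w) (a b c d s t : C) :
    ∃ w : C, PP C a b c d * s * t - PP C a b c d * (s * t) = (9 : ℤ) • w := by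
  obtain ⟨w0, h0⟩ := h2 a b c d s t
  obtain ⟨w1, h3⟩ := h1 a b c d s
  obtain ⟨w2, h4⟩ := h1 a b c (d * s) t
  obtain ⟨w3, h5⟩ := h1 a b c d (s * t)
  refine ⟨w0 + (120 : ℤ) • (w1 * t + w2 - w3), ?_⟩
  have h6 : PP C a b c d * s * t - PP C a b c d * (s * t) = (120 : ℤ) • as (nu a b c * d) s t := by
    simp only [PP, as, smul_mul_assoc, smul_sub]
  rw [h6, as_mul, h3, h4, h5, smul_sub, smul_add, smul_add, h0, smul_add, smul_mul_assoc]
  rw [smul_sub (120 : ℤ), smul_sub (9 : ℤ), smul_add (120 : ℤ), smul_add (9 : ℤ), smul_comm (9 : ℤ) (120 : ℤ), smul_comm (9 : ℤ) (120 : ℤ),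
    smul_comm (9 : ℤ) (120 : ℤ)]
  abel

end Pool.Agent.Lib.MP_bda2fe_al.NU
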