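import Pool.Agent.Lib.MP_bda2fe_al.Final
import Pool.Agent.Lib.MP_bda2fe_al.Free
import Pool.Agent.Lib.MP_bda2fe_al.NuHid

/-!
# The frame of the negative answer

Let `E = k[t_i : i ∈ ι] / (t_i t_j, r t_i : r ∈ J i)` with `J i = m k` for infinitely many `i`. If the object over `E` is finitely
generated, then its elements over `k / m` come from elements over `k`.

`Q a b c` is a nonassociative polynomial such that `(Q a b c, u, v)` and `(Q a b c) (d, s, t)` are multiples of `m` in every alternative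
ring. If some alternative `k`-algebra has elements such that `((Q a b c) d, s, t)` is not of the form `m (β, s, t)`, then neither the
nucleus nor the largest nuclear ideal of the free alternative algebra over `E` is finitely generated.
-/

set_option linter.unusedSectionVars false

namespace Pool.Agent.Lib.MP_bda2fe_al

open TensorProduct

theorem smul_char (k : Type) [CommRing k] (m : ℤ) {I : Ideal k} (hI : I = Ideal.span {(m : k)}) {A : Type}
    [NonUnitalNonAssocRing A] [Module k A] [SMulCommClass k A A] [IsScalarTower k A A] (u : (k ⧸ I) ⊗[k] A) : m • u = 0 := by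
  induction u using TensorProduct.induction_on with
  | zero => exact smul_zero _
  | add u v hu hv => rw [smul_add, hu, hv, add_zero]
  | tmul p a =>
    rw [TensorProduct.smul_tmul']
    have h3 : m • p = 0 := by
      obtain ⟨n, rfl⟩ := Ideal.Quotient.mk_surjective p
      rw [zsmul_eq_mul]
      have h4 : ((m : ℤ) : k ⧸ I) = Ideal.Quotient.mk I (m : k) := (map_intCast (Ideal.Quotient.mk I) m).symm
      have h5 : Ideal.Quotient.mk I (m : k) = 0 :=
        Ideal.Quotient.eq_zero_iff_mem.2 (by rw [hI]; exact Ideal.mem_span_singleton_self _)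
      rw [h4, h5, zero_mul]
    rw [h3, TensorProduct.zero_tmul]

/-- `a ↦ 1 ⊗ a` -/
noncomputable def jhom (k : Type) [CommRing k] (Φ : Type) [CommRing Φ] [Algebra k Φ] (A : Type)
    [NonUnitalNonAssocRing A] [Module k A] [SMulCommClass k A A] [IsScalarTower k A A] : A →ₙ+* (Φ ⊗[k] A) where
  toFun := fun a => (1 : Φ) ⊗ₜ[k] a
  map_mul' := fun a b => by rw [Algebra.TensorProduct.tmul_mul_tmul, one_mul]
  map_zero' := TensorProduct.tmul_zero _ _
  map_add' := TensorProduct.tmul_add _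

/-- The elements over `k / m` lift modulo `m`. -/
theorem lift_elem {bo : Bool} {O : ∀ (Φ A : Type) [CommRing Φ] [NonUnitalNonAssocRing A] [Module Φ A] [SMulCommClass Φ A A]
    [IsScalarTower Φ A A], Submodule Φ A} (hO : Good bo O) (k : Type) [CommRing k] (m : ℤ) (ι : Type) (J : ι → Ideal k)
    (hJ : {i | J i = Ideal.span {(m : k)}}.Infinite) {B : Type} [NonUnitalNonAssocRing B] [Module (TR k ι J) B]
    [SMulCommClass (TR k ι J) B B] [IsScalarTower (TR k ι J) B B] {y : ℕ → B} (hB : IsFreeAlt (TR k ι J) B y)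
    (hfg : FG bo (O (TR k ι J) B)) {A : Type} [NonUnitalNonAssocRing A] [Module k A] [SMulCommClass k A A] [IsScalarTower k A A]
    {x : ℕ → A} (hA : IsFreeAlt k A x) {I : Ideal k} (hI : I = Ideal.span {(m : k)}) (p : A)
    (hp : jhom k (k ⧸ I) A p ∈ O (k ⧸ I) ((k ⧸ I) ⊗[k] A)) : ∃ u ∈ O k A, ∃ β : A, p = u + m • β := by
  classical
  have h1 : FG (Φ := TR k ι J) (A := TR k ι J ⊗[k] A) bo (O (TR k ι J) (TR k ι J ⊗[k] A)) :=
    fg_iso hO hB (free_tensor (TR k ι J) hA) hfg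
  obtain ⟨S, hS⟩ := h1
  choose V hV using fun s : TR k ι J ⊗[k] A => unseen (A := A) s
  obtain ⟨i, hiJ, hi⟩ := hJ.exists_notMem_finset (S.biUnion V)
  have h2 : O (k ⧸ J i) ((k ⧸ J i) ⊗[k] A) ≤ im' _ (O k A) :=
    lift_TR hO hA S hS i fun s hs => hV s i fun h => hi (Finset.mem_biUnion.2 ⟨s, hs, h⟩)
  have hIi : J i = I := by
    rw [hI]
    exact hiJ
  rw [hIi] at h2
  have hn' := h2 hp
  have hspan : ∀ w ∈ Submodule.span (k ⧸ I) ((fun a => (1 : k ⧸ I) ⊗ₜ[k] a) '' (O k A : Set A)),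
      ∃ u ∈ O k A, w = (1 : k ⧸ I) ⊗ₜ[k] u := by
    intro w hw
    refine Submodule.span_induction (p := fun w _ => ∃ u ∈ O k A, w = (1 : k ⧸ I) ⊗ₜ[k] u) ?_ ?_ ?_ ?_ hw
    · rintro _ ⟨u, hu, rfl⟩
      exact ⟨u, hu, rfl⟩
    · exact ⟨0, zero_mem _, (TensorProduct.tmul_zero _ _).symm⟩
    · rintro _ _ _ _ ⟨u, hu, rfl⟩ ⟨v, hv, rfl⟩
      exact ⟨u + v, add_mem hu hv, (TensorProduct.tmul_add _ _ _).symm⟩
    · rintro r _ _ ⟨u, hu, rfl⟩
      obtain ⟨n, rfl⟩ := Ideal.Quotient.mk_surjective r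
      refine ⟨n • u, Submodule.smul_mem _ n hu, ?_⟩
      have h4 : (Ideal.Quotient.mk I n : k ⧸ I) = n • (1 : k ⧸ I) := by
        rw [Algebra.smul_def, mul_one]
        rfl
      rw [TensorProduct.smul_tmul', smul_eq_mul, mul_one, h4, TensorProduct.smul_tmul]
  obtain ⟨u, hu, hju⟩ := hspan _ hn'
  refine ⟨u, hu, ?_⟩
  have h3 : (1 : k ⧸ I) ⊗ₜ[k] (p - u) = 0 := by
    rw [TensorProduct.tmul_sub, sub_eq_zero]
    exact hju
  have h4 := congrArg (quotTensorEquivQuotSMul A I) h3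
  rw [map_zero, quotTensorEquivQuotSMul_mk_one_tmul, Submodule.Quotient.mk_eq_zero, hI, Submodule.ideal_span_singleton_smul] at h4
  obtain ⟨β, _, hβ⟩ := (Submodule.mem_smul_pointwise_iff_exists _ _ _).1 h4
  refine ⟨β, ?_⟩
  have h5 : m • β = (m : k) • β := (Int.cast_smul_eq_zsmul k m β).symm
  rw [h5, hβ]
  abel

open NU in
theorem frameK (k : Type) [CommRing k] (m : ℤ)
    (Q : ∀ (C : Type) [NonUnitalNonAssocRing C], C → C → C → C)
    (hQ : ∀ (C D : Type) [NonUnitalNonAssocRing C] [NonUnitalNonAssocRing D] (φ : C →ₙ+* D) (a b c : C),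
      φ (Q C a b c) = Q D (φ a) (φ b) (φ c))
    (h1 : ∀ (C : Type) [NonUnitalNonAssocRing C], IsAlt C → ∀ a b c u v : C, ∃ w : C, as (Q C a b c) u v = m • w)
    (h2 : ∀ (C : Type) [NonUnitalNonAssocRing C], IsAlt C → ∀ a b c d s t : C, ∃ w : C, Q C a b c * as d s t = m • w)
    (R : Type) [NonUnitalNonAssocRing R] [Module k R] [SMulCommClass k R R] [IsScalarTower k R R] (hR : IsAlt R) (a b c d s t : R)
    (hno : ∀ β : R, as (Q R a b c * d) s t ≠ m • as β s t)
    (ι : Type) (J : ι → Ideal k) (hJ : {i | J i = Ideal.span {(m : k)}}.Infinite)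
    (B : Type) [NonUnitalNonAssocRing B] [Module (TR k ι J) B] [SMulCommClass (TR k ι J) B B]
    [IsScalarTower (TR k ι J) B B] (y : ℕ → B) (hB : IsFreeAlt (TR k ι J) B y) :
    ¬ FinGenSub (nucleus (TR k ι J) B) ∧ ¬ FinGenIdeal (U (TR k ι J) B) := by
  obtain ⟨A, _, _, _, _, x, hA⟩ := exists_free k
  obtain ⟨I, hI⟩ : ∃ I : Ideal k, I = Ideal.span {(m : k)} := ⟨_, rfl⟩
  have hCalt : IsAlt ((k ⧸ I) ⊗[k] A) := alt_tensor hA.alt
  let j := jhom k (k ⧸ I) A
  -- to the algebra `R`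
  let f : ℕ → R := fun i => if i = 0 then a else if i = 1 then b else if i = 2 then c else if i = 3 then d else if i = 4 then s else t
  obtain ⟨φ, hφ, _⟩ := hA.lift R hR f
  let φ' : A →ₙ+* R := { toFun := φ, map_mul' := map_mul φ, map_zero' := map_zero φ, map_add' := map_add φ }
  have hφ' : ∀ v, φ' v = φ v := fun _ => rfl
  have e0 : φ' (x 0) = a := by rw [hφ', hφ]; rfl
  have e1 : φ' (x 1) = b := by rw [hφ', hφ]; rfl
  have e2 : φ' (x 2) = c := by rw [hφ', hφ]; rfl
  have e3 : φ' (x 3) = d := by rw [hφ', hφ]; rfl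
  have e4 : φ' (x 4) = s := by rw [hφ', hφ]; rfl
  have e5 : φ' (x 5) = t := by rw [hφ', hφ]; rfl
  have hlast : ∀ u β : A, as u (x 4) (x 5) = 0 → Q A (x 0) (x 1) (x 2) * x 3 = u + m • β → False := by
    intro u β h5 hβ
    have h7 : Q R a b c * d = φ' u + m • φ' β := by
      have := congrArg φ' hβ
      rwa [map_mul, hQ, e0, e1, e2, e3, map_add, map_zsmul] at this
    have h8 : as (φ' u) s t = 0 := by
      have := congrArg φ' h5
      simp only [as, map_sub, map_mul, e4, e5, map_zero] at this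
      exact this
    refine hno (φ' β) ?_
    rw [h7]
    have h9 : as (φ' u + m • φ' β) s t = as (φ' u) s t + m • as (φ' β) s t := by
      simp only [as, add_mul, smul_mul_assoc, smul_sub]
      abel
    rw [h9, h8, zero_add]
  have hnuc : j (Q A (x 0) (x 1) (x 2)) ∈ nucleus (k ⧸ I) ((k ⧸ I) ⊗[k] A) := by
    rw [mem_nucleus hCalt, hQ]
    intro u v
    obtain ⟨w, h3⟩ := h1 _ hCalt (j (x 0)) (j (x 1)) (j (x 2)) u v
    rw [smul_char k m hI] at h3
    exact sub_eq_zero.1 h3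
  have hV : j (Q A (x 0) (x 1) (x 2)) ∈ V (k ⧸ I) ((k ⧸ I) ⊗[k] A) := by
    refine ⟨hnuc, fun d s t => ?_⟩
    rw [hQ]
    obtain ⟨w, h3⟩ := h2 _ hCalt (j (x 0)) (j (x 1)) (j (x 2)) d s t
    rw [smul_char k m hI] at h3
    exact h3
  constructor
  · intro hfg
    have hfg' : FG false (nucleus (TR k ι J) B) := hfg
    obtain ⟨u, hu, β, hβ⟩ := lift_elem good_nucleus k m ι J hJ hB hfg' hA hI (Q A (x 0) (x 1) (x 2) * x 3) (by
      rw [map_mul]
      have h3 := ((V_id hCalt) _ hV (j (x 3))).2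
      exact h3.1)
    exact hlast u β (sub_eq_zero.2 ((mem_nucleus hA.alt).1 hu (x 4) (x 5))) hβ
  · intro hfg
    have hfg' : FG true (V (TR k ι J) B) := by
      rw [U_eq_V hB.alt] at hfg
      exact hfg
    obtain ⟨u, hu, β, hβ⟩ := lift_elem good_V k m ι J hJ hB hfg' hA hI (Q A (x 0) (x 1) (x 2)) hV
    refine hlast (u * x 3) (β * x 3) ?_ (by rw [hβ, add_mul, smul_mul_assoc])
    exact sub_eq_zero.2 ((mem_nucleus hA.alt).1 ((V_id hA.alt) _ hu (x 3)).2.1 (x 4) (x 5))

end Pool.Agent.Lib.MP_bda2fe_al
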