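import Pool.Agent.Lib.MP_bda2fe_al.Flat2

/-!
# Extension of scalars by the tensor product
-/

set_option linter.unusedSectionVars false

namespace Pool.Agent.Lib.MP_bda2fe_al

open TensorProduct

section
variable {R A : Type} [CommRing R] [NonUnitalNonAssocRing A] [Module R A] [SMulCommClass R A A] [IsScalarTower R A A] {x : ℕ → A}

theorem free_tensor (P : Type) [CommRing P] [Algebra R P] (hA : IsFreeAlt R A x) :
    IsFreeAlt P (P ⊗[R] A) fun i => (1 : P) ⊗ₜ[R] x i := by
  refine ⟨alt_tensor hA.alt, ?_⟩
  intro B _ _ _ _ hB f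
  obtain ⟨F, hF, hFx, _⟩ := exists_unique_hom (Φ := P) hA hB f
  have hF0 : F 0 = 0 := by
    have h1 := hF.smul 0 0
    rwa [zero_smul, map_zero, zero_smul] at h1
  let L : P ⊗[R] A →+ B := TensorProduct.liftAddHom
    { toFun := fun p =>
        { toFun := fun a => p • F a
          map_zero' := by rw [hF0, smul_zero]
          map_add' := fun a b => by rw [hF.add, smul_add] }
      map_zero' := by
        ext a
        simp
      map_add' := fun p q => by
        ext a
        simp [add_smul] }
    (fun r p a => by
      change (r • p) • F a = p • F (r • a)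
      rw [hF.smul, Algebra.smul_def, mul_comm, mul_smul])
  have hL : ∀ (p : P) (a : A), L (p ⊗ₜ[R] a) = p • F a := fun p a => rfl
  let φ : P ⊗[R] A →ₙₐ[P] B :=
    { toFun := L
      map_smul' := fun r u => by
        change L (r • u) = r • L u
        induction u using TensorProduct.induction_on with
        | zero => rw [smul_zero, map_zero, smul_zero]
        | add u v hu hv => rw [smul_add, map_add, hu, hv, map_add, smul_add]
        | tmul p a => rw [TensorProduct.smul_tmul', hL, hL, smul_eq_mul, mul_smul]
      map_zero' := map_zero L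
      map_add' := fun u v => map_add L u v
      map_mul' := fun u v => by
        change L (u * v) = L u * L v
        induction u using TensorProduct.induction_on with
        | zero => simp only [zero_mul, map_zero]
        | add u u' hu hu' => simp only [add_mul, map_add, hu, hu']
        | tmul p a =>
          induction v using TensorProduct.induction_on with
          | zero => simp only [mul_zero, map_zero]
          | add v v' hv hv' => simp only [mul_add, map_add, hv, hv']
          | tmul q b => rw [Algebra.TensorProduct.tmul_mul_tmul, hL, hL, hL, hF.mul, smul_mul_smul_comm] }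
  refine ⟨φ, fun i => ?_, fun ψ hψ => ?_⟩
  · change L ((1 : P) ⊗ₜ[R] x i) = f i
    rw [hL, one_smul, hFx]
  · have h1 : (fun a => ψ ((1 : P) ⊗ₜ[R] a)) = F := by
      refine hom_eq (Φ := P) hA hB ⟨fun a b => ?_, fun a b => ?_, fun r a => ?_⟩ hF fun i => ?_
      · rw [TensorProduct.tmul_add, map_add]
      · rw [← map_mul, Algebra.TensorProduct.tmul_mul_tmul, one_mul]
      · rw [TensorProduct.tmul_smul, ← map_smul, algebraMap_smul]
      · rw [hψ, hFx]
    ext u
    change ψ u = L u
    induction u using TensorProduct.induction_on with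
    | zero => rw [map_zero, map_zero]
    | add u v hu hv => rw [map_add, map_add, hu, hv]
    | tmul p a =>
      have h2 : p ⊗ₜ[R] a = p • ((1 : P) ⊗ₜ[R] a) := by rw [TensorProduct.smul_tmul', smul_eq_mul, mul_one]
      have h3 : ψ ((1 : P) ⊗ₜ[R] a) = F a := congrFun h1 a
      rw [hL, h2, map_smul, h3]

end

variable {k A P : Type} [Field k] [NonUnitalNonAssocRing A] [Module k A] [SMulCommClass k A A] [IsScalarTower k A A]
  [CommRing P] [Algebra k P]

/-- `p ⊗ a ↦ l p • a` -/
noncomputable def kap (l : P →ₗ[k] k) : P ⊗[k] A →ₗ[k] A := (TensorProduct.lid k A).toLinearMap ∘ₗ LinearMap.rTensor A l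

theorem kap_tmul (l : P →ₗ[k] k) (p : P) (a : A) : kap l (p ⊗ₜ[k] a) = l p • a := by
  unfold kap
  rw [LinearMap.comp_apply, LinearMap.rTensor_tmul]
  exact TensorProduct.lid_tmul _ _

theorem bc_tensor : BC k P A (P ⊗[k] A) (fun a => (1 : P) ⊗ₜ[k] a) fun l w => kap l w where
  jadd _ _ := TensorProduct.tmul_add _ _ _
  jmul a b := by rw [Algebra.TensorProduct.tmul_mul_tmul, one_mul]
  jsmul r a := by rw [algebraMap_smul, TensorProduct.tmul_smul]
  ind p h0 hadd hgen u := by
    induction u using TensorProduct.induction_on with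
    | zero => exact h0
    | add u v hu hv => exact hadd u v hu hv
    | tmul q a =>
      have h1 := hgen q a
      rwa [TensorProduct.smul_tmul', smul_eq_mul, mul_one] at h1
  cadd l u v := map_add _ _ _
  cgen l f a := by rw [TensorProduct.smul_tmul', smul_eq_mul, mul_one, kap_tmul]

/-- Expansion with respect to a basis of `P`. -/
theorem exp_basis {ι : Type} (b : Module.Basis ι k P) (w : P ⊗[k] A) : ∃ s : Finset ι,
    (∀ i, i ∉ s → kap (b.coord i) w = 0) ∧ w = ∑ i ∈ s, b i ⊗ₜ[k] kap (b.coord i) w := by
  classical
  have ext : ∀ (u : P ⊗[k] A) (s t : Finset ι), s ⊆ t → (∀ i, i ∉ s → kap (b.coord i) u = 0) →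
      u = ∑ i ∈ s, b i ⊗ₜ[k] kap (b.coord i) u → u = ∑ i ∈ t, b i ⊗ₜ[k] kap (b.coord i) u := by
    intro u s t hst h0 hu
    rw [← Finset.sum_subset hst]
    · exact hu
    · intro i _ hi
      rw [h0 i hi, TensorProduct.tmul_zero]
  induction w using TensorProduct.induction_on with
  | zero => exact ⟨∅, fun i _ => map_zero _, by simp⟩
  | add u v hu hv =>
    obtain ⟨s, hs0, hs⟩ := hu
    obtain ⟨t, ht0, ht⟩ := hv
    refine ⟨s ∪ t, fun i hi => ?_, ?_⟩
    · rw [Finset.mem_union, not_or] at hi
      rw [map_add, hs0 i hi.1, ht0 i hi.2, add_zero]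
    · have h1 := ext u s (s ∪ t) Finset.subset_union_left hs0 hs
      have h2 := ext v t (s ∪ t) Finset.subset_union_right ht0 ht
      simp only [map_add, TensorProduct.tmul_add, Finset.sum_add_distrib]
      rw [← h1, ← h2]
  | tmul f a =>
    refine ⟨(b.repr f).support, fun i hi => ?_, ?_⟩
    · rw [kap_tmul, Module.Basis.coord_apply, Finsupp.notMem_support_iff.1 hi, zero_smul]
    · have h1 : (b.repr f).sum (fun i r => r • b i) = f := by
        have h2 := b.linearCombination_repr f
        rwa [Finsupp.linearCombination_apply] at h2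
      conv_lhs => rw [← h1]
      rw [Finsupp.sum, TensorProduct.sum_tmul]
      refine Finset.sum_congr rfl fun i _ => ?_
      rw [kap_tmul, Module.Basis.coord_apply, TensorProduct.tmul_smul, TensorProduct.smul_tmul']

end Pool.Agent.Lib.MP_bda2fe_al
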