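import Pool.Agent.Lib.MP_bda2fe_al.Obj

/-!
# Finite generation over square-zero extensions and the lifting of elements

`E` is a ring with homomorphisms to `R` (flat over `k`), to `F` (through `R`) and to `D`, and `τ : F → E` is `E`-linear. If `O (E ⊗ A)` is
generated by elements which are not moved by the difference of the two maps `E → D`, then the elements of `O (F ⊗ A)` come from `O A`.
-/

set_option linter.unusedSectionVars false

namespace Pool.Agent.Lib.MP_bda2fe_al

open TensorProduct

variable {b : Bool} {O : ∀ (Φ A : Type) [CommRing Φ] [NonUnitalNonAssocRing A] [Module Φ A] [SMulCommClass Φ A A]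
    [IsScalarTower Φ A A], Submodule Φ A}
  {k A R E F D : Type} [CommRing k] [NonUnitalNonAssocRing A] [Module k A] [SMulCommClass k A A] [IsScalarTower k A A]
  [CommRing R] [Algebra k R] [CommRing E] [Algebra k E] [CommRing F] [Algebra k F] [CommRing D] [Algebra k D] {x : ℕ → A}

theorem tm_comp (f : E →ₗ[k] F) (g : F →ₗ[k] D) (u : E ⊗[k] A) : tm A (g ∘ₗ f) u = tm A g (tm A f u) :=
  LinearMap.rTensor_comp_apply _ _ _ _

theorem tm_id (u : E ⊗[k] A) : tm A (LinearMap.id : E →ₗ[k] E) u = u := by
  unfold tm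
  rw [LinearMap.rTensor_id, LinearMap.id_apply]

theorem lifting (hO : Good b O) (hA : IsFreeAlt k A x) [Module.Flat k R] (π : E →ₐ[k] R) (hπ : Function.Surjective π)
    (ρ : R →ₐ[k] F) (hρ : Function.Surjective ρ) (S : Finset (E ⊗[k] A))
    (hS : IsLeast {C : Submodule E (E ⊗[k] A) | Kind b C ∧ Stable C ∧ ∀ s ∈ S, s ∈ C} (O E (E ⊗[k] A)))
    (g : E →ₐ[k] D) (i : R →ₐ[k] D) (hSg : ∀ s ∈ S, tm A g.toLinearMap s = tm A (i.comp π).toLinearMap s)
    (τ : F →ₗ[k] E) (hτ : ∀ e f, τ (ρ (π e) * f) = e * τ f) (l : D →ₗ[k] F) (hl : ∀ f, l (g (τ f)) = f) :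
    O F (F ⊗[k] A) ≤ im' F (O k A) := by
  intro y hy
  -- the submodule
  let C : Submodule E (E ⊗[k] A) := (tm_hom (A := A) g).pre (im' D (O k A))
  have hC1 : Kind b C := (tm_hom (A := A) g).pre_kind b ((ex_tensor (k := k) (Φ := D) (A := A)).im_kind b (hO.kind k A hA.alt))
  have hC2 : Stable C := by
    intro ψ u hu
    change tm A g.toLinearMap (ψ u) ∈ im' D (O k A)
    obtain ⟨ψ', hψ', _⟩ := (free_tensor D hA).lift (D ⊗[k] A) (alt_tensor hA.alt) fun m => tm A g.toLinearMap (ψ ((1 : E) ⊗ₜ[k] x m))
    have h1 : (fun a => tm A g.toLinearMap (ψ ((1 : E) ⊗ₜ[k] a))) = fun a => ψ' ((1 : D) ⊗ₜ[k] a) := by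
      refine hom_eq (Φ := D) hA (alt_tensor hA.alt) ⟨fun a b => ?_, fun a b => ?_, fun r a => ?_⟩
        ⟨fun a b => ?_, fun a b => ?_, fun r a => ?_⟩ fun m => ?_
      · rw [TensorProduct.tmul_add, map_add, map_add]
      · rw [← (tm_hom g).mul, ← map_mul, Algebra.TensorProduct.tmul_mul_tmul, one_mul]
      · have e1 : (1 : E) ⊗ₜ[k] (r • a) = algebraMap k E r • ((1 : E) ⊗ₜ[k] a) := by
          rw [algebraMap_smul, TensorProduct.tmul_smul]
        rw [e1, map_smul, (tm_hom g).smul]
        congr 1
        exact g.commutes r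
      · rw [TensorProduct.tmul_add, map_add]
      · rw [← map_mul, Algebra.TensorProduct.tmul_mul_tmul, one_mul]
      · rw [TensorProduct.tmul_smul, ← map_smul, algebraMap_smul]
      · rw [hψ']
    have h2 : ∀ u, tm A g.toLinearMap (ψ u) = ψ' (tm A g.toLinearMap u) := by
      intro u
      induction u using TensorProduct.induction_on with
      | zero => simp only [map_zero]
      | add u v hu hv => simp only [map_add, hu, hv]
      | tmul e a =>
        have h3 : e ⊗ₜ[k] a = e • ((1 : E) ⊗ₜ[k] a) := by rw [TensorProduct.smul_tmul', smul_eq_mul, mul_one]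
        have h4 : tm A g.toLinearMap (ψ ((1 : E) ⊗ₜ[k] a)) = ψ' ((1 : D) ⊗ₜ[k] a) := congrFun h1 a
        have h5 : tm A g.toLinearMap ((1 : E) ⊗ₜ[k] a) = (1 : D) ⊗ₜ[k] a := by
          rw [tm_tmul]
          congr 1
          exact map_one g
        rw [h3, map_smul, (tm_hom g).smul, (tm_hom g).smul, map_smul, h4, h5]
    rw [h2]
    exact im_stable hO hA D ψ' _ hu
  have hC3 : ∀ s ∈ S, s ∈ C := by
    intro s hs
    change tm A g.toLinearMap s ∈ im' D (O k A)
    rw [hSg s hs]
    have h1 : tm A (i.comp π).toLinearMap s = tm A i.toLinearMap (tm A π.toLinearMap s) := by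
      rw [AlgHom.comp_toLinearMap, tm_comp]
    rw [h1]
    refine tm_im _ ?_
    have h2 : tm A π.toLinearMap s ∈ O R (R ⊗[k] A) :=
      hO.surj (Φ := E) (Ψ := R) (A := E ⊗[k] A) (B := R ⊗[k] A) (g := fun e => π e) (p := fun u => tm A π.toLinearMap u)
        (tm_hom π) (tm_surj _ hπ) (alt_tensor hA.alt) (n := s) (hS.1.2.2 s hs)
    exact hO.flat (ex_tensor (k := k) (Φ := R) (A := A)) hA h2
  have hC4 : O E (E ⊗[k] A) ≤ C := hS.2 ⟨hC1, hC2, hC3⟩
  -- the test elements
  have hg : GHom (Φ := E) (Ψ := F) (A := E ⊗[k] A) (B := F ⊗[k] A) (ρ.comp π) (tm A (ρ.comp π).toLinearMap) := tm_hom (ρ.comp π)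
  have hmu : MuHom (E := E) (F := F) (A := E ⊗[k] A) (B := F ⊗[k] A) (ρ.comp π) (tm A (ρ.comp π).toLinearMap) (tm A τ) := by
    refine ⟨fun u v => map_add _ _ _, fun y v => ?_, fun y v => ?_, fun r y => ?_⟩
    · induction y using TensorProduct.induction_on with
      | zero => simp only [zero_mul, map_zero]
      | add u u' hu hu' => simp only [add_mul, map_add, hu, hu']
      | tmul f a =>
        induction v using TensorProduct.induction_on with
        | zero => simp only [mul_zero, map_zero]
        | add v v' hv hv' => simp only [mul_add, map_add, hv, hv']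
        | tmul e b =>
          rw [tm_tmul, Algebra.TensorProduct.tmul_mul_tmul, tm_tmul, tm_tmul, Algebra.TensorProduct.tmul_mul_tmul]
          congr 1
          rw [mul_comm f, mul_comm (τ f)]
          exact hτ e f
    · induction y using TensorProduct.induction_on with
      | zero => simp only [mul_zero, map_zero]
      | add u u' hu hu' => simp only [mul_add, map_add, hu, hu']
      | tmul f a =>
        induction v using TensorProduct.induction_on with
        | zero => simp only [zero_mul, map_zero]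
        | add v v' hv hv' => simp only [add_mul, map_add, hv, hv']
        | tmul e b =>
          rw [tm_tmul, Algebra.TensorProduct.tmul_mul_tmul, tm_tmul, tm_tmul, Algebra.TensorProduct.tmul_mul_tmul]
          congr 1
          exact hτ e f
    · induction y using TensorProduct.induction_on with
      | zero => simp only [smul_zero, map_zero]
      | add u u' hu hu' => simp only [smul_add, map_add, hu, hu']
      | tmul f a =>
        rw [TensorProduct.smul_tmul', tm_tmul, tm_tmul, TensorProduct.smul_tmul', smul_eq_mul, smul_eq_mul]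
        congr 1
        exact hτ r f
  have h1 : tm A τ y ∈ O E (E ⊗[k] A) :=
    hO.mu (E := E) (F := F) (A := E ⊗[k] A) (B := F ⊗[k] A) hg hmu (hρ.comp hπ) (tm_surj _ (hρ.comp hπ)) (alt_tensor hA.alt) hy
  have h2 : tm A g.toLinearMap (tm A τ y) ∈ im' D (O k A) := hC4 h1
  have h3 := tm_im l h2
  have h4 : tm A l (tm A g.toLinearMap (tm A τ y)) = y := by
    rw [← tm_comp, ← tm_comp]
    have h5 : (l ∘ₗ g.toLinearMap) ∘ₗ τ = LinearMap.id := by
      ext f
      exact hl f
    rw [h5, tm_id]
  rwa [h4] at h3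

end Pool.Agent.Lib.MP_bda2fe_al
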