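import Pool.Agent.Lib.MP_bda2fe_al.BC

/-!
# Endomorphisms and extension of scalars

If `k` is infinite, the extension of scalars of a completely characteristic subspace is completely characteristic.
-/

set_option linter.unusedSectionVars false

namespace Pool.Agent.Lib.MP_bda2fe_al

open TensorProduct

section tensor
variable {k A P : Type} [CommRing k] [NonUnitalNonAssocRing A] [Module k A] [SMulCommClass k A A] [IsScalarTower k A A]
  [CommRing P] [Algebra k P]

theorem IsAlt.left_lin (hA : IsAlt A) (a b c : A) : a * b * c + b * a * c = a * (b * c) + b * (a * c) := by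
  have h1 := hA.left (a + b) c
  have h2 := hA.left a c
  have h3 := hA.left b c
  simp only [add_mul, mul_add] at h1
  rw [h2, h3] at h1
  have h4 : a * b * c + b * a * c = (a * (a * c) + b * a * c + (a * b * c + b * (b * c))) - a * (a * c) - b * (b * c) := by abel
  rw [h4, h1]
  abel

theorem IsAlt.right_lin (hA : IsAlt A) (a b c : A) : c * a * b + c * b * a = c * (a * b) + c * (b * a) := by
  have h1 := hA.right (a + b) c
  have h2 := hA.right a c
  have h3 := hA.right b c
  simp only [add_mul, mul_add] at h1
  rw [h2, h3] at h1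
  have h4 : c * a * b + c * b * a = (c * (a * a) + c * b * a + (c * a * b + c * (b * b))) - c * (a * a) - c * (b * b) := by abel
  rw [h4, h1]
  abel

theorem alt_tensor (hA : IsAlt A) : IsAlt (P ⊗[k] A) := by
  have L : ∀ u v w : P ⊗[k] A, u * v * w + v * u * w = u * (v * w) + v * (u * w) := by
    intro u v w
    induction u using TensorProduct.induction_on with
    | zero => simp only [zero_mul, mul_zero]
    | add u u' hu hu' =>
      simp only [add_mul, mul_add]
      have h4 : u * v * w + u' * v * w + (v * u * w + v * u' * w) = (u * v * w + v * u * w) + (u' * v * w + v * u' * w) := by abel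
      rw [h4, hu, hu']
      abel
    | tmul p a =>
      induction v using TensorProduct.induction_on with
      | zero => simp only [zero_mul, mul_zero]
      | add v v' hv hv' =>
        simp only [add_mul, mul_add]
        have h4 : p ⊗ₜ[k] a * v * w + p ⊗ₜ[k] a * v' * w + (v * p ⊗ₜ[k] a * w + v' * p ⊗ₜ[k] a * w) =
          (p ⊗ₜ[k] a * v * w + v * p ⊗ₜ[k] a * w) + (p ⊗ₜ[k] a * v' * w + v' * p ⊗ₜ[k] a * w) := by abel
        rw [h4, hv, hv']
        abel
      | tmul q b =>
        induction w using TensorProduct.induction_on with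
        | zero => simp only [mul_zero]
        | add w w' hw hw' =>
          simp only [mul_add]
          have h4 : p ⊗ₜ[k] a * q ⊗ₜ[k] b * w + p ⊗ₜ[k] a * q ⊗ₜ[k] b * w' + (q ⊗ₜ[k] b * p ⊗ₜ[k] a * w + q ⊗ₜ[k] b * p ⊗ₜ[k] a * w') =
            (p ⊗ₜ[k] a * q ⊗ₜ[k] b * w + q ⊗ₜ[k] b * p ⊗ₜ[k] a * w) + (p ⊗ₜ[k] a * q ⊗ₜ[k] b * w' + q ⊗ₜ[k] b * p ⊗ₜ[k] a * w') := by
            abel
          rw [h4, hw, hw']
          abel
        | tmul r c =>
          simp only [Algebra.TensorProduct.tmul_mul_tmul]
          have h1 : q * p * r = p * q * r := by ring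
          have h2 : p * (q * r) = p * q * r := by ring
          have h3 : q * (p * r) = p * q * r := by ring
          rw [h1, h2, h3, ← TensorProduct.tmul_add, ← TensorProduct.tmul_add, hA.left_lin]
  have R : ∀ u v w : P ⊗[k] A, w * u * v + w * v * u = w * (u * v) + w * (v * u) := by
    intro u v w
    induction u using TensorProduct.induction_on with
    | zero => simp only [zero_mul, mul_zero]
    | add u u' hu hu' =>
      simp only [add_mul, mul_add]
      have h4 : w * u * v + w * u' * v + (w * v * u + w * v * u') = (w * u * v + w * v * u) + (w * u' * v + w * v * u') := by abel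
      rw [h4, hu, hu']
      abel
    | tmul p a =>
      induction v using TensorProduct.induction_on with
      | zero => simp only [zero_mul, mul_zero]
      | add v v' hv hv' =>
        simp only [add_mul, mul_add]
        have h4 : w * p ⊗ₜ[k] a * v + w * p ⊗ₜ[k] a * v' + (w * v * p ⊗ₜ[k] a + w * v' * p ⊗ₜ[k] a) =
          (w * p ⊗ₜ[k] a * v + w * v * p ⊗ₜ[k] a) + (w * p ⊗ₜ[k] a * v' + w * v' * p ⊗ₜ[k] a) := by abel
        rw [h4, hv, hv']
        abel
      | tmul q b =>
        induction w using TensorProduct.induction_on with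
        | zero => simp only [zero_mul]
        | add w w' hw hw' =>
          simp only [add_mul]
          have h4 : w * p ⊗ₜ[k] a * q ⊗ₜ[k] b + w' * p ⊗ₜ[k] a * q ⊗ₜ[k] b + (w * q ⊗ₜ[k] b * p ⊗ₜ[k] a + w' * q ⊗ₜ[k] b * p ⊗ₜ[k] a) =
            (w * p ⊗ₜ[k] a * q ⊗ₜ[k] b + w * q ⊗ₜ[k] b * p ⊗ₜ[k] a) + (w' * p ⊗ₜ[k] a * q ⊗ₜ[k] b + w' * q ⊗ₜ[k] b * p ⊗ₜ[k] a) := by
            abel
          rw [h4, hw, hw']
          abel
        | tmul r c =>
          simp only [Algebra.TensorProduct.tmul_mul_tmul]
          have h1 : r * q * p = r * p * q := by ring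
          have h2 : r * (p * q) = r * p * q := by ring
          have h3 : r * (q * p) = r * p * q := by ring
          rw [h1, h2, h3, ← TensorProduct.tmul_add, ← TensorProduct.tmul_add, hA.right_lin]
  constructor
  · intro u w
    induction u using TensorProduct.induction_on with
    | zero => simp only [zero_mul]
    | add u v hu hv =>
      have h1 := L u v w
      simp only [add_mul, mul_add]
      have h4 : u * u * w + v * u * w + (u * v * w + v * v * w) = u * u * w + v * v * w + (u * v * w + v * u * w) := by abel
      rw [h4, hu, hv, h1]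
      abel
    | tmul p a =>
      induction w using TensorProduct.induction_on with
      | zero => simp only [mul_zero]
      | add w w' hw hw' => simp only [mul_add, hw, hw']
      | tmul r c =>
        simp only [Algebra.TensorProduct.tmul_mul_tmul]
        rw [mul_assoc, hA.left]
  · intro u w
    induction u using TensorProduct.induction_on with
    | zero => simp only [mul_zero]
    | add u v hu hv =>
      have h1 := R u v w
      simp only [add_mul, mul_add]
      have h4 : w * u * u + w * v * u + (w * u * v + w * v * v) = w * u * u + w * v * v + (w * u * v + w * v * u) := by abel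
      rw [h4, hu, hv, h1]
      abel
    | tmul p a =>
      induction w using TensorProduct.induction_on with
      | zero => simp only [zero_mul]
      | add w w' hw hw' => simp only [add_mul, hw, hw']
      | tmul r c =>
        simp only [Algebra.TensorProduct.tmul_mul_tmul]
        rw [mul_assoc, hA.right]

end tensor

section
variable (k Φ A A' : Type) [CommRing k] [CommRing Φ] [Algebra k Φ]
  [NonUnitalNonAssocRing A] [Module k A] [SMulCommClass k A A] [IsScalarTower k A A]
  [NonUnitalNonAssocRing A'] [Module Φ A'] [SMulCommClass Φ A' A'] [IsScalarTower Φ A' A']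

/-- A homomorphism from the `k`-algebra `A` to the `Φ`-algebra `A'`. -/
structure SHom (F : A → A') : Prop where
  add : ∀ a b, F (a + b) = F a + F b
  mul : ∀ a b, F (a * b) = F a * F b
  smul : ∀ (r : k) a, F (r • a) = algebraMap k Φ r • F a

end

section
variable {k Φ A A' : Type} [CommRing k] [CommRing Φ] [Algebra k Φ]
  [NonUnitalNonAssocRing A] [Module k A] [SMulCommClass k A A] [IsScalarTower k A A]
  [NonUnitalNonAssocRing A'] [Module Φ A'] [SMulCommClass Φ A' A'] [IsScalarTower Φ A' A'] {x : ℕ → A}

theorem exists_unique_hom (hA : IsFreeAlt k A x) (hA' : IsAlt A') (f : ℕ → A') :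
    ∃ F : A → A', SHom k Φ A A' F ∧ (∀ i, F (x i) = f i) ∧ ∀ G : A → A', SHom k Φ A A' G → (∀ i, G (x i) = f i) → G = F := by
  let _ : Module k A' := Module.compHom A' (algebraMap k Φ)
  have : SMulCommClass k A' A' := ⟨fun r a b => (mul_smul_comm (algebraMap k Φ r) a b).symm⟩
  have : IsScalarTower k A' A' := ⟨fun r a b => smul_mul_assoc (algebraMap k Φ r) a b⟩
  obtain ⟨φ, hφ, hu⟩ := hA.lift A' hA' f
  refine ⟨φ, ⟨fun a b => map_add φ a b, fun a b => map_mul φ a b, fun r a => map_smul φ r a⟩, hφ, ?_⟩
  intro G hG hGf
  let γ : A →ₙₐ[k] A' :=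
    { toFun := G
      map_smul' := fun r a => hG.smul r a
      map_zero' := by
        have h1 := hG.smul 0 0
        rwa [zero_smul, map_zero, zero_smul] at h1
      map_add' := hG.add
      map_mul' := hG.mul }
  have h1 : γ = φ := hu γ hGf
  rw [← h1]
  rfl

theorem hom_eq (hA : IsFreeAlt k A x) (hA' : IsAlt A') {F G : A → A'} (hF : SHom k Φ A A' F) (hG : SHom k Φ A A' G)
    (h : ∀ i, F (x i) = G (x i)) : F = G := by
  obtain ⟨E, _, _, hu⟩ := exists_unique_hom (Φ := Φ) hA hA' fun i => G (x i)
  rw [hu F hF h, hu G hG fun _ => rfl]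

end

end Pool.Agent.Lib.MP_bda2fe_al
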