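import Pool.Agent.Lib.MP_bda2fe_al.Defs

/-!
# Superrings and the Grassmann doubling

`SRing S`: a ring with an even part, an odd part and the parity automorphism `sg`. `IsSAlt S`: `S` is super-alternative.
`Dbl S = S ⊕ S e` with `e e = 0`, `e a = sg a e`: `(a, b) (c, d) = (a c, a d + b sg c)`. The doubling of a super-alternative
ring is super-alternative, and the even part of a super-alternative ring is alternative.
-/

namespace Pool.Agent.Lib.MP_bda2fe_al

/-- The associator. -/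
def as {S : Type*} [NonUnitalNonAssocRing S] (a b c : S) : S := a * b * c - a * (b * c)

/-- Super-alternativity for a parity predicate `H p a` (`a` has parity `p`, `false` = even). -/
structure SAlt {S : Type*} [NonUnitalNonAssocRing S] (H : Bool → S → Prop) : Prop where
  mul : ∀ {p q : Bool} {a b : S}, H p a → H q b → H (xor p q) (a * b)
  L : ∀ {p q r : Bool} {a b c : S}, H p a → H q b → H r c →
    if p && q then as a b c = as b a c else as a b c = -as b a c
  R : ∀ {p q r : Bool} {a b c : S}, H p a → H q b → H r c →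
    if q && r then as a b c = as a c b else as a b c = -as a c b
  EL : ∀ {r : Bool} {a c : S}, H false a → H r c → as a a c = 0
  ER : ∀ {p : Bool} {a b : S}, H p a → H false b → as a b b = 0

/-- A superring. -/
class SRing (S : Type) extends NonUnitalNonAssocRing S where
  /-- the even elements -/
  ev : AddSubgroup S
  /-- the odd elements -/
  od : AddSubgroup S
  /-- the parity automorphism -/
  sg : S →+ S
  sg_ev : ∀ a ∈ ev, sg a = a
  sg_od : ∀ a ∈ od, sg a = -a
  dec : ∀ a : S, ∃ b ∈ ev, ∃ c ∈ od, a = b + c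
  ee : ∀ a ∈ ev, ∀ b ∈ ev, a * b ∈ ev
  eo : ∀ a ∈ ev, ∀ b ∈ od, a * b ∈ od
  oe : ∀ a ∈ od, ∀ b ∈ ev, a * b ∈ od
  oo : ∀ a ∈ od, ∀ b ∈ od, a * b ∈ ev

open SRing

/-- `S` is super-alternative. -/
structure IsSAlt (S : Type) [SRing S] : Prop where
  sql : ∀ a ∈ ev (S := S), ∀ c : S, as a a c = 0
  leo : ∀ a ∈ ev (S := S), ∀ b ∈ od (S := S), ∀ c : S, as a b c + as b a c = 0
  loo : ∀ a ∈ od (S := S), ∀ b ∈ od (S := S), ∀ c : S, as a b c - as b a c = 0
  sqr : ∀ a ∈ ev (S := S), ∀ c : S, as c a a = 0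
  reo : ∀ a ∈ ev (S := S), ∀ b ∈ od (S := S), ∀ c : S, as c a b + as c b a = 0
  roo : ∀ a ∈ od (S := S), ∀ b ∈ od (S := S), ∀ c : S, as c a b - as c b a = 0

section
variable {S : Type} [SRing S]

theorem as_add_left (a b c d : S) : as (a + b) c d = as a c d + as b c d := by
  unfold as; simp only [add_mul]; abel

theorem as_add_mid (a b c d : S) : as a (b + c) d = as a b d + as a c d := by
  unfold as; simp only [add_mul, mul_add]; abel

theorem as_add_right (a b c d : S) : as a b (c + d) = as a b c + as a b d := by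
  unfold as; simp only [mul_add]; abel

theorem as_neg_left (a b c : S) : as (-a) b c = -as a b c := by
  unfold as; simp only [neg_mul]; abel

theorem as_neg_mid (a b c : S) : as a (-b) c = -as a b c := by
  unfold as; simp only [neg_mul, mul_neg]; abel

theorem as_neg_right (a b c : S) : as a b (-c) = -as a b c := by
  unfold as; simp only [mul_neg]; abel

@[simp] theorem as_zero_left (b c : S) : as 0 b c = 0 := by simp [as]
@[simp] theorem as_zero_mid (a c : S) : as a 0 c = 0 := by simp [as]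
@[simp] theorem as_zero_right (a b : S) : as a b 0 = 0 := by simp [as]

theorem sg_sg (a : S) : sg (sg a) = a := by
  obtain ⟨b, hb, c, hc, rfl⟩ := dec a
  rw [map_add, sg_ev b hb, sg_od c hc, map_add, map_neg, sg_ev b hb, sg_od c hc, neg_neg]

theorem sg_mul (x y : S) : sg (x * y) = sg x * sg y := by
  obtain ⟨a, ha, b, hb, rfl⟩ := dec x
  obtain ⟨c, hc, d, hd, rfl⟩ := dec y
  simp only [add_mul, mul_add, map_add, sg_ev a ha, sg_od b hb, sg_ev c hc, sg_od d hd, sg_ev _ (ee a ha c hc),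
    sg_od _ (eo a ha d hd), sg_od _ (oe b hb c hc), sg_ev _ (oo b hb d hd), neg_mul, mul_neg]
  abel

theorem sg_as (x y z : S) : sg (as x y z) = as (sg x) (sg y) (sg z) := by
  unfold as; simp only [map_sub, sg_mul]

/-- Linearised left law for two even elements. -/
theorem IsSAlt.lee (h : IsSAlt S) (a : S) (ha : a ∈ ev (S := S)) (b : S) (hb : b ∈ ev (S := S)) (c : S) :
    as a b c + as b a c = 0 := by
  have h1 := h.sql (a + b) (add_mem ha hb) c
  rw [as_add_left, as_add_mid, as_add_mid, h.sql a ha, h.sql b hb, zero_add, add_zero] at h1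
  exact h1

/-- Linearised right law for two even elements. -/
theorem IsSAlt.ree (h : IsSAlt S) (a : S) (ha : a ∈ ev (S := S)) (b : S) (hb : b ∈ ev (S := S)) (c : S) :
    as c a b + as c b a = 0 := by
  have h1 := h.sqr (a + b) (add_mem ha hb) c
  rw [as_add_mid, as_add_right, as_add_right, h.sqr a ha, h.sqr b hb, zero_add, add_zero] at h1
  exact h1

end

/-- The parity predicate of a superring. -/
def hm {S : Type} [SRing S] (p : Bool) (a : S) : Prop := if p then a ∈ od (S := S) else a ∈ ev (S := S)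

theorem IsSAlt.toH {S : Type} [SRing S] (h : IsSAlt S) : SAlt (hm (S := S)) where
  mul := by
    intro p q a b ha hb
    cases p <;> cases q <;> simp only [hm, Bool.false_eq_true, if_false, if_true, Bool.xor_false, Bool.xor_true, Bool.false_xor,
      Bool.not_true, Bool.not_false, Bool.xor_self] at ha hb ⊢
    · exact ee a ha b hb
    · exact eo a ha b hb
    · exact oe a ha b hb
    · exact oo a ha b hb
  L := by
    intro p q r a b c ha hb _
    cases p <;> cases q <;> simp only [hm, Bool.false_eq_true, if_false, if_true, Bool.and_true, Bool.and_false] at ha hb ⊢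
    · exact eq_neg_of_add_eq_zero_left (h.lee a ha b hb c)
    · exact eq_neg_of_add_eq_zero_left (h.leo a ha b hb c)
    · exact eq_neg_of_add_eq_zero_left (by rw [add_comm]; exact h.leo b hb a ha c)
    · exact sub_eq_zero.1 (h.loo a ha b hb c)
  R := by
    intro p q r a b c _ hb hc
    cases q <;> cases r <;> simp only [hm, Bool.false_eq_true, if_false, if_true, Bool.and_true, Bool.and_false] at hb hc ⊢
    · exact eq_neg_of_add_eq_zero_left (h.ree b hb c hc a)
    · exact eq_neg_of_add_eq_zero_left (h.reo b hb c hc a)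
    · exact eq_neg_of_add_eq_zero_left (by rw [add_comm]; exact h.reo c hc b hb a)
    · exact sub_eq_zero.1 (h.roo b hb c hc a)
  EL := fun {r a c} ha _ => h.sql a ha c
  ER := fun {p a b} _ hb => h.sqr b hb a

theorem IsSAlt.ofH {S : Type} [SRing S] (h : SAlt (hm (S := S))) : IsSAlt S where
  sql := by
    intro a ha c
    obtain ⟨c0, h0, c1, h1, rfl⟩ := dec c
    rw [as_add_right, h.EL (r := false) ha h0, h.EL (r := true) ha h1, add_zero]
  leo := by
    intro a ha b hb c
    obtain ⟨c0, h0, c1, h1, rfl⟩ := dec c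
    have e0 : as a b c0 = -as b a c0 := h.L (p := false) (q := true) (r := false) ha hb h0
    have e1 : as a b c1 = -as b a c1 := h.L (p := false) (q := true) (r := true) ha hb h1
    rw [as_add_right, as_add_right, e0, e1]; abel
  loo := by
    intro a ha b hb c
    obtain ⟨c0, h0, c1, h1, rfl⟩ := dec c
    have e0 : as a b c0 = as b a c0 := h.L (p := true) (q := true) (r := false) ha hb h0
    have e1 : as a b c1 = as b a c1 := h.L (p := true) (q := true) (r := true) ha hb h1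
    rw [as_add_right, as_add_right, e0, e1]; abel
  sqr := by
    intro a ha c
    obtain ⟨c0, h0, c1, h1, rfl⟩ := dec c
    rw [as_add_left, h.ER (p := false) h0 ha, h.ER (p := true) h1 ha, add_zero]
  reo := by
    intro a ha b hb c
    obtain ⟨c0, h0, c1, h1, rfl⟩ := dec c
    have e0 : as c0 a b = -as c0 b a := h.R (p := false) (q := false) (r := true) h0 ha hb
    have e1 : as c1 a b = -as c1 b a := h.R (p := true) (q := false) (r := true) h1 ha hb
    rw [as_add_left, as_add_left, e0, e1]; abel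
  roo := by
    intro a ha b hb c
    obtain ⟨c0, h0, c1, h1, rfl⟩ := dec c
    have e0 : as c0 a b = as c0 b a := h.R (p := false) (q := true) (r := true) h0 ha hb
    have e1 : as c1 a b = as c1 b a := h.R (p := true) (q := true) (r := true) h1 ha hb
    rw [as_add_left, as_add_left, e0, e1]; abel

/-! ## The doubling -/

/-- `S ⊕ S e`. -/
def Dbl (S : Type) : Type := S × S

section
variable {S : Type} [SRing S]

instance : AddCommGroup (Dbl S) := inferInstanceAs (AddCommGroup (S × S))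

instance : Mul (Dbl S) := ⟨fun x y => (x.1 * y.1, x.1 * y.2 + x.2 * sg y.1)⟩

omit [SRing S] in
theorem Dbl.ext' {x y : Dbl S} (h1 : x.1 = y.1) (h2 : x.2 = y.2) : x = y := Prod.ext h1 h2

@[simp] theorem Dbl.mul_fst (x y : Dbl S) : (x * y).1 = x.1 * y.1 := rfl
@[simp] theorem Dbl.mul_snd (x y : Dbl S) : (x * y).2 = x.1 * y.2 + x.2 * sg y.1 := rfl
@[simp] theorem Dbl.add_fst (x y : Dbl S) : (x + y).1 = x.1 + y.1 := rfl
@[simp] theorem Dbl.add_snd (x y : Dbl S) : (x + y).2 = x.2 + y.2 := rfl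
@[simp] theorem Dbl.sub_fst (x y : Dbl S) : (x - y).1 = x.1 - y.1 := rfl
@[simp] theorem Dbl.sub_snd (x y : Dbl S) : (x - y).2 = x.2 - y.2 := rfl
@[simp] theorem Dbl.neg_fst (x : Dbl S) : (-x).1 = -x.1 := rfl
@[simp] theorem Dbl.neg_snd (x : Dbl S) : (-x).2 = -x.2 := rfl
@[simp] theorem Dbl.zero_fst : (0 : Dbl S).1 = 0 := rfl
@[simp] theorem Dbl.zero_snd : (0 : Dbl S).2 = 0 := rfl

instance : NonUnitalNonAssocRing (Dbl S) :=
  { (inferInstance : AddCommGroup (Dbl S)), (inferInstance : Mul (Dbl S)) with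
    left_distrib := by
      intro a b c
      refine Dbl.ext' ?_ ?_
      · simp only [Dbl.mul_fst, Dbl.add_fst, mul_add]
      · simp only [Dbl.mul_snd, Dbl.add_fst, Dbl.add_snd, mul_add, map_add]; abel
    right_distrib := by
      intro a b c
      refine Dbl.ext' ?_ ?_
      · simp only [Dbl.mul_fst, Dbl.add_fst, add_mul]
      · simp only [Dbl.mul_snd, Dbl.add_fst, Dbl.add_snd, add_mul]; abel
    zero_mul := by
      intro a
      refine Dbl.ext' ?_ ?_
      · simp only [Dbl.mul_fst, Dbl.zero_fst, zero_mul]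
      · simp only [Dbl.mul_snd, Dbl.zero_fst, Dbl.zero_snd, zero_mul, add_zero]
    mul_zero := by
      intro a
      refine Dbl.ext' ?_ ?_
      · simp only [Dbl.mul_fst, Dbl.zero_fst, mul_zero]
      · simp only [Dbl.mul_snd, Dbl.zero_fst, Dbl.zero_snd, mul_zero, map_zero, add_zero] }

/-- `Dbl S` is a superring, `e` is odd. -/
instance : SRing (Dbl S) :=
  { (inferInstance : NonUnitalNonAssocRing (Dbl S)) with
    ev :=
      { carrier := {x | x.1 ∈ ev (S := S) ∧ x.2 ∈ od (S := S)}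
        add_mem' := fun h1 h2 => ⟨add_mem h1.1 h2.1, add_mem h1.2 h2.2⟩
        zero_mem' := ⟨zero_mem _, zero_mem _⟩
        neg_mem' := fun h => ⟨neg_mem h.1, neg_mem h.2⟩ }
    od :=
      { carrier := {x | x.1 ∈ od (S := S) ∧ x.2 ∈ ev (S := S)}
        add_mem' := fun h1 h2 => ⟨add_mem h1.1 h2.1, add_mem h1.2 h2.2⟩
        zero_mem' := ⟨zero_mem _, zero_mem _⟩
        neg_mem' := fun h => ⟨neg_mem h.1, neg_mem h.2⟩ }
    sg :=
      { toFun := fun x => ((sg x.1, -sg x.2) : S × S)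
        map_zero' := Dbl.ext' (map_zero _) (by change -sg (0 : S) = 0; rw [map_zero, neg_zero])
        map_add' := fun x y => Dbl.ext' (map_add _ _ _) (by
          change -sg (x.2 + y.2) = -sg x.2 + -sg y.2; rw [map_add, neg_add]) }
    sg_ev := fun a h => Dbl.ext' (sg_ev _ h.1) (by change -sg a.2 = a.2; rw [sg_od _ h.2, neg_neg])
    sg_od := fun a h => Dbl.ext' (sg_od _ h.1) (by change -sg a.2 = -a.2; rw [sg_ev _ h.2])
    dec := by
      rintro ⟨a, b⟩
      obtain ⟨a0, h1, a1, h2, rfl⟩ := dec a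
      obtain ⟨b0, h3, b1, h4, rfl⟩ := dec b
      exact ⟨(a0, b1), ⟨h1, h4⟩, (a1, b0), ⟨h2, h3⟩, Dbl.ext' rfl (add_comm _ _)⟩
    ee := fun a ha b hb => ⟨ee _ ha.1 _ hb.1, add_mem (eo _ ha.1 _ hb.2) (by
      rw [sg_ev _ hb.1]; exact oe _ ha.2 _ hb.1)⟩
    eo := fun a ha b hb => ⟨eo _ ha.1 _ hb.1, add_mem (ee _ ha.1 _ hb.2) (by
      rw [sg_od _ hb.1, mul_neg]; exact neg_mem (oo _ ha.2 _ hb.1))⟩
    oe := fun a ha b hb => ⟨oe _ ha.1 _ hb.1, add_mem (oo _ ha.1 _ hb.2) (by
      rw [sg_ev _ hb.1]; exact ee _ ha.2 _ hb.1)⟩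
    oo := fun a ha b hb => ⟨oo _ ha.1 _ hb.1, add_mem (oe _ ha.1 _ hb.2) (by
      rw [sg_od _ hb.1, mul_neg]; exact neg_mem (eo _ ha.2 _ hb.1))⟩ }

theorem Dbl.mem_ev {x : Dbl S} : x ∈ ev (S := Dbl S) ↔ x.1 ∈ ev (S := S) ∧ x.2 ∈ od (S := S) := Iff.rfl
theorem Dbl.mem_od {x : Dbl S} : x ∈ od (S := Dbl S) ↔ x.1 ∈ od (S := S) ∧ x.2 ∈ ev (S := S) := Iff.rfl
@[simp] theorem Dbl.sg_fst (x : Dbl S) : (sg x).1 = sg x.1 := rfl
@[simp] theorem Dbl.sg_snd (x : Dbl S) : (sg x).2 = -sg x.2 := rfl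

theorem Dbl.as_fst (x y z : Dbl S) : (as x y z).1 = as x.1 y.1 z.1 := rfl

theorem Dbl.as_snd (x y z : Dbl S) :
    (as x y z).2 = as x.2 (sg y.1) (sg z.1) + as x.1 y.2 (sg z.1) + as x.1 y.1 z.2 := by
  unfold as
  simp only [Dbl.sub_snd, Dbl.mul_fst, Dbl.mul_snd, mul_add, add_mul, sg_mul]
  abel

/-- The doubling of a super-alternative ring is super-alternative. -/
theorem IsSAlt.dbl (h : IsSAlt S) : IsSAlt (Dbl S) where
  sql := by
    intro x hx z
    rw [Dbl.mem_ev] at hx
    refine Dbl.ext' ?_ ?_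
    · rw [Dbl.as_fst, h.sql _ hx.1]; rfl
    · rw [Dbl.as_snd, sg_ev _ hx.1, h.sql _ hx.1, add_zero, add_comm, h.leo _ hx.1 _ hx.2]; rfl
  leo := by
    intro x hx y hy z
    rw [Dbl.mem_ev] at hx
    rw [Dbl.mem_od] at hy
    refine Dbl.ext' ?_ ?_
    · rw [Dbl.add_fst, Dbl.as_fst, Dbl.as_fst, h.leo _ hx.1 _ hy.1]; rfl
    · rw [Dbl.add_snd, Dbl.as_snd, Dbl.as_snd, sg_ev _ hx.1, sg_od _ hy.1, as_neg_mid]
      have h1 := h.loo _ hx.2 _ hy.1 (sg z.1)
      have h2 := h.lee _ hx.1 _ hy.2 (sg z.1)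
      have h3 := h.leo _ hx.1 _ hy.1 z.2
      calc _ = -(as x.2 y.1 (sg z.1) - as y.1 x.2 (sg z.1)) + (as x.1 y.2 (sg z.1) + as y.2 x.1 (sg z.1)) +
            (as x.1 y.1 z.2 + as y.1 x.1 z.2) := by abel
        _ = 0 := by rw [h1, h2, h3, neg_zero, add_zero, add_zero]
  loo := by
    intro x hx y hy z
    rw [Dbl.mem_od] at hx hy
    refine Dbl.ext' ?_ ?_
    · rw [Dbl.sub_fst, Dbl.as_fst, Dbl.as_fst, h.loo _ hx.1 _ hy.1]; rfl
    · rw [Dbl.sub_snd, Dbl.as_snd, Dbl.as_snd, sg_od _ hx.1, sg_od _ hy.1, as_neg_mid, as_neg_mid]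
      have h1 := h.leo _ hx.2 _ hy.1 (sg z.1)
      have h2 := h.leo _ hy.2 _ hx.1 (sg z.1)
      have h3 := h.loo _ hx.1 _ hy.1 z.2
      calc _ = -(as x.2 y.1 (sg z.1) + as y.1 x.2 (sg z.1)) + (as y.2 x.1 (sg z.1) + as x.1 y.2 (sg z.1)) +
            (as x.1 y.1 z.2 - as y.1 x.1 z.2) := by abel
        _ = 0 := by rw [h1, h2, h3, neg_zero, add_zero, add_zero]
  sqr := by
    intro x hx z
    rw [Dbl.mem_ev] at hx
    refine Dbl.ext' ?_ ?_
    · rw [Dbl.as_fst, h.sqr _ hx.1]; rfl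
    · rw [Dbl.as_snd, sg_ev _ hx.1, h.sqr _ hx.1, zero_add, add_comm, h.reo _ hx.1 _ hx.2]; rfl
  reo := by
    intro x hx y hy z
    rw [Dbl.mem_ev] at hx
    rw [Dbl.mem_od] at hy
    refine Dbl.ext' ?_ ?_
    · rw [Dbl.add_fst, Dbl.as_fst, Dbl.as_fst, h.reo _ hx.1 _ hy.1]; rfl
    · rw [Dbl.add_snd, Dbl.as_snd, Dbl.as_snd, sg_ev _ hx.1, sg_od _ hy.1]
      simp only [as_neg_mid, as_neg_right]
      have h1 := h.reo _ hx.1 _ hy.1 z.2
      have h2 := h.roo _ hx.2 _ hy.1 z.1
      have h3 := h.ree _ hx.1 _ hy.2 z.1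
      calc _ = -(as z.2 x.1 y.1 + as z.2 y.1 x.1) - (as z.1 x.2 y.1 - as z.1 y.1 x.2) +
            (as z.1 x.1 y.2 + as z.1 y.2 x.1) := by abel
        _ = 0 := by rw [h1, h2, h3, neg_zero, sub_zero, add_zero]
  roo := by
    intro x hx y hy z
    rw [Dbl.mem_od] at hx hy
    refine Dbl.ext' ?_ ?_
    · rw [Dbl.sub_fst, Dbl.as_fst, Dbl.as_fst, h.roo _ hx.1 _ hy.1]; rfl
    · rw [Dbl.sub_snd, Dbl.as_snd, Dbl.as_snd, sg_od _ hx.1, sg_od _ hy.1]
      simp only [as_neg_mid, as_neg_right, neg_neg]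
      have h1 := h.roo _ hx.1 _ hy.1 z.2
      have h2 := h.reo _ hx.2 _ hy.1 z.1
      have h3 := h.reo _ hy.2 _ hx.1 z.1
      calc _ = (as z.2 x.1 y.1 - as z.2 y.1 x.1) - (as z.1 x.2 y.1 + as z.1 y.1 x.2) +
            (as z.1 y.2 x.1 + as z.1 x.1 y.2) := by abel
        _ = 0 := by rw [h1, h2, h3, sub_zero, add_zero]

/-- `S → Dbl S`, `a ↦ a`. -/
def inl : S →ₙ+* Dbl S where
  toFun a := ((a, 0) : S × S)
  map_mul' a b := Dbl.ext' rfl (by
    change (0 : S) = a * 0 + 0 * sg b; rw [mul_zero, zero_mul, add_zero])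
  map_zero' := rfl
  map_add' a b := Dbl.ext' rfl (by change (0 : S) = 0 + 0; rw [add_zero])

/-- `S → Dbl S`, `a ↦ a e`. -/
def inr : S →+ Dbl S where
  toFun a := ((0, a) : S × S)
  map_zero' := rfl
  map_add' a b := Dbl.ext' (by change (0 : S) = 0 + 0; rw [add_zero]) rfl

@[simp] theorem inl_fst (a : S) : (inl a).1 = a := rfl
@[simp] theorem inl_snd (a : S) : (inl a).2 = 0 := rfl
@[simp] theorem inr_fst (a : S) : (inr a).1 = 0 := rfl
@[simp] theorem inr_snd (a : S) : (inr a).2 = a := rfl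

theorem inl_ev {a : S} (h : a ∈ ev (S := S)) : inl a ∈ ev (S := Dbl S) := ⟨h, zero_mem _⟩
theorem inl_od {a : S} (h : a ∈ od (S := S)) : inl a ∈ od (S := Dbl S) := ⟨h, zero_mem _⟩
theorem inr_od {a : S} (h : a ∈ ev (S := S)) : inr a ∈ od (S := Dbl S) := ⟨zero_mem _, h⟩
theorem inr_ev {a : S} (h : a ∈ od (S := S)) : inr a ∈ ev (S := Dbl S) := ⟨zero_mem _, h⟩

/-- The even part of a superring, as a ring. -/
def evRing (S : Type) [SRing S] : NonUnitalSubring S :=
  { ev (S := S) with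
    mul_mem' := fun {a b} ha hb => ee a ha b hb }

theorem mem_evRing {a : S} : a ∈ evRing S ↔ a ∈ ev (S := S) := Iff.rfl

/-- The even part of a super-alternative ring is alternative. -/
theorem IsSAlt.alt_ev (h : IsSAlt S) : IsAlt (evRing S) where
  left := by
    rintro ⟨a, ha⟩ ⟨b, hb⟩
    exact Subtype.ext (sub_eq_zero.1 (h.sql a ha b))
  right := by
    rintro ⟨a, ha⟩ ⟨b, hb⟩
    exact Subtype.ext (sub_eq_zero.1 (h.sqr a ha b))

end

/-! ## The trivial superring -/

/-- `C` as a superring without odd part. -/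
def Triv (C : Type) : Type := C

instance (C : Type) [NonUnitalNonAssocRing C] : NonUnitalNonAssocRing (Triv C) := inferInstanceAs (NonUnitalNonAssocRing C)

instance (C : Type) [NonUnitalNonAssocRing C] : SRing (Triv C) :=
  { (inferInstance : NonUnitalNonAssocRing (Triv C)) with
    ev := ⊤
    od := ⊥
    sg := AddMonoidHom.id _
    sg_ev := fun _ _ => rfl
    sg_od := fun a h => by
      rw [AddSubgroup.mem_bot] at h
      rw [h]
      exact neg_zero.symm
    dec := fun a => ⟨a, AddSubgroup.mem_top _, 0, zero_mem _, (add_zero a).symm⟩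
    ee := fun _ _ _ _ => AddSubgroup.mem_top _
    eo := fun a _ b h => by
      rw [AddSubgroup.mem_bot] at h ⊢
      rw [h]
      exact mul_zero a
    oe := fun a h b _ => by
      rw [AddSubgroup.mem_bot] at h ⊢
      rw [h]
      exact zero_mul b
    oo := fun _ _ _ _ => AddSubgroup.mem_top _ }

theorem Triv.salt {C : Type} [NonUnitalNonAssocRing C] (h : IsAlt C) : IsSAlt (Triv C) where
  sql := fun a _ c => sub_eq_zero.2 (h.left a c)
  leo := fun a _ b hb c => by
    have hb' : b = 0 := (AddSubgroup.mem_bot).1 hb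
    rw [hb', as_zero_mid, as_zero_left, add_zero]
  loo := fun a ha b hb c => by
    have hb' : b = 0 := (AddSubgroup.mem_bot).1 hb
    rw [hb', as_zero_mid, as_zero_left, sub_zero]
  sqr := fun a _ c => sub_eq_zero.2 (h.right a c)
  reo := fun a _ b hb c => by
    have hb' : b = 0 := (AddSubgroup.mem_bot).1 hb
    rw [hb', as_zero_right, as_zero_mid, add_zero]
  roo := fun a ha b hb c => by
    have hb' : b = 0 := (AddSubgroup.mem_bot).1 hb
    rw [hb', as_zero_right, as_zero_mid, sub_zero]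

/-- `S[e₁, …, e₅]`. -/
abbrev D5 (S : Type) : Type := Dbl (Dbl (Dbl (Dbl (Dbl S))))

theorem IsSAlt.d5 {S : Type} [SRing S] (h : IsSAlt S) : IsSAlt (D5 S) := h.dbl.dbl.dbl.dbl.dbl

end Pool.Agent.Lib.MP_bda2fe_al
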