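import Pool.Agent.Lib.MP_bda2fe_al.NTabChk
import Pool.Agent.Lib.MP_bda2fe_al.Super

/-! # The super-alternative ring of the table -/

set_option maxHeartbeats 1000000

namespace Pool.Agent.Lib.MP_bda2fe_al.NT

/-- the free module on the basis elements -/
def B : Type := ℕ →₀ ZMod 27

noncomputable instance : AddCommGroup B := inferInstanceAs (AddCommGroup (ℕ →₀ ZMod 27))
noncomputable instance : Module (ZMod 27) B := inferInstanceAs (Module (ZMod 27) (ℕ →₀ ZMod 27))

noncomputable def E (i : ℕ) : B := (Finsupp.single i (1 : ZMod 27) : ℕ →₀ ZMod 27)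

/-- linear map with given values -/
noncomputable def lc {M : Type} [AddCommGroup M] [Module (ZMod 27) M] (v : ℕ → M) : B →ₗ[ZMod 27] M :=
  (Finsupp.linearCombination (ZMod 27) v : (ℕ →₀ ZMod 27) →ₗ[ZMod 27] M)

theorem lc_E {M : Type} [AddCommGroup M] [Module (ZMod 27) M] (v : ℕ → M) (i : ℕ) : lc v (E i) = v i := by
  have := Finsupp.linearCombination_single (ZMod 27) (v := v) (1 : ZMod 27) i
  rw [one_smul] at this
  exact this

noncomputable def val (l : List (ℕ × ℕ)) : B := (l.map fun t => t.2 • E t.1).sum

theorem val_nil : val [] = 0 := rfl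

theorem val_cons (t : ℕ × ℕ) (l : List (ℕ × ℕ)) : val (t :: l) = t.2 • E t.1 + val l := by
  simp [val]

theorem val_append (a b : List (ℕ × ℕ)) : val (a ++ b) = val a + val b := by
  simp [val]

noncomputable instance : NonUnitalNonAssocRing B :=
  { (inferInstance : AddCommGroup B) with
    mul := fun a b => lc (fun i => lc fun j => val (tab i j)) a b
    left_distrib := fun a b c => map_add (lc (fun i => lc fun j => val (tab i j)) a) b c
    right_distrib := fun a b c => by
      change lc (fun i => lc fun j => val (tab i j)) (a + b) c = _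
      rw [map_add]; rfl
    zero_mul := fun a => by
      change lc (fun i => lc fun j => val (tab i j)) 0 a = _
      rw [map_zero]; rfl
    mul_zero := fun a => map_zero (lc (fun i => lc fun j => val (tab i j)) a) }

theorem E_mul (i j : ℕ) : E i * E j = val (tab i j) := by
  change lc (fun i => lc fun j => val (tab i j)) (E i) (E j) = _
  rw [lc_E, lc_E]

theorem s27 (a : B) : (27 : ℕ) • a = 0 := by
  have h : (27 : ℕ) • a = ((27 : ℕ) : ZMod 27) • a := (Nat.cast_smul_eq_nsmul (ZMod 27) 27 a).symm
  rw [h, show ((27 : ℕ) : ZMod 27) = 0 from rfl, zero_smul]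

theorem mod27 (n : ℕ) (a : B) : (n % 27) • a = n • a := by
  conv_rhs => rw [← Nat.div_add_mod n 27, add_smul, mul_comm, mul_smul, s27, smul_zero, zero_add]

theorem val_le (i : ℕ) : val (le i) = E i := by simp [val, le]

theorem val_ln (a : List (ℕ × ℕ)) : val (ln a) = - val a := by
  induction a with
  | nil => simp [ln, val]
  | cons t a ih =>
    change val ((t.1, 26 * t.2) :: ln a) = _
    rw [val_cons, val_cons, ih, neg_add]
    congr 1
    rw [eq_neg_iff_add_eq_zero, ← add_smul]
    have : 26 * t.2 + t.2 = t.2 * 27 := by ring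
    rw [this, mul_smul, s27, smul_zero]

theorem val_lm1 (c : ℕ) (l : List (ℕ × ℕ)) : val (l.map fun r => (r.1, c * r.2)) = c • val l := by
  induction l with
  | nil => simp [val]
  | cons t a ih => rw [List.map_cons, val_cons, val_cons, ih, smul_add, mul_smul]

theorem val_lm (a b : List (ℕ × ℕ)) : val (lm a b) = val a * val b := by
  have h1 : ∀ (s : ℕ × ℕ) (b : List (ℕ × ℕ)), val (b.flatMap fun t => (tab s.1 t.1).map fun r => (r.1, s.2 * t.2 * r.2))
      = (s.2 • E s.1) * val b := by
    intro s b
    induction b with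
    | nil => simp [val]
    | cons t b ih =>
      rw [List.flatMap_cons, val_append, ih, val_cons, mul_add, val_lm1, smul_mul_smul_comm, E_mul]
  induction a with
  | nil => simp [lm, val]
  | cons s a ih =>
    have h2 : lm (s :: a) b = (b.flatMap fun t => (tab s.1 t.1).map fun r => (r.1, s.2 * t.2 * r.2)) ++ lm a b := rfl
    rw [h2, val_append, h1, ih, val_cons, add_mul]

theorem val_la (a b c : List (ℕ × ℕ)) : val (la a b c) = as (val a) (val b) (val c) := by
  rw [la, val_append, val_ln, val_lm, val_lm, val_lm, val_lm, as, sub_eq_add_neg]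

theorem val_ins (k c : ℕ) (l : List (ℕ × ℕ)) : val (ins k c l) = c • E k + val l := by
  induction l with
  | nil => simp [ins, val]
  | cons t l ih =>
    unfold ins
    cases h : Nat.beq t.1 k
    · rw [cond_false, val_cons, val_cons, ih]; abel
    · have h1 : t.1 = k := Nat.eq_of_beq_eq_true h
      rw [cond_true, val_cons, val_cons, mod27, add_smul, h1]; abel

theorem val_nrm (l : List (ℕ × ℕ)) : val (nrm l) = val l := by
  induction l with
  | nil => rfl
  | cons t l ih => rw [nrm, val_ins, ih, val_cons]

theorem isz_val {l : List (ℕ × ℕ)} (h : isz l = true) : val l = 0 := by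
  rw [← val_nrm]
  have h1 := List.all_eq_true.1 h
  unfold val
  apply List.sum_eq_zero
  intro x hx
  obtain ⟨t, ht, rfl⟩ := List.mem_map.1 hx
  have h2 : t.2 % 27 = 0 := Nat.eq_of_beq_eq_true (h1 t ht)
  change t.2 • E t.1 = 0
  rw [← mod27, h2, zero_smul]

theorem as_a1 {S : Type} [NonUnitalNonAssocRing S] (a b c d : S) : as (a + b) c d = as a c d + as b c d := by
  simp only [as, add_mul]; abel

theorem as_a2 {S : Type} [NonUnitalNonAssocRing S] (a b c d : S) : as a (b + c) d = as a b d + as a c d := by
  simp only [as, add_mul, mul_add]; abel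

theorem as_a3 {S : Type} [NonUnitalNonAssocRing S] (a b c d : S) : as a b (c + d) = as a b c + as a b d := by
  simp only [as, mul_add]; abel

theorem as_n1 {S : Type} [NonUnitalNonAssocRing S] (a c d : S) : as (-a) c d = - as a c d := by
  simp only [as, neg_mul]; abel

/-! ### degrees -/

theorem tab_out {i j : ℕ} (h : ¬ (i < 94 ∧ j < 94)) : tab i j = [] := by
  have h0 : (rows.getD i []).getD j 0 = 0 := by
    by_cases hi : i < 94
    · have hj : 94 ≤ j := by
        by_contra hj
        exact h ⟨hi, by omega⟩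
      have h1 : rows.getD i [] ∈ rows := by
        rw [List.getD_eq_getElem _ _ (by rw [rows_len]; exact hi)]
        exact List.getElem_mem _
      have h2 := List.all_eq_true.1 row_len _ h1
      have h3 : (rows.getD i []).length ≤ 94 := Nat.le_of_ble_eq_true h2
      exact List.getD_eq_default _ _ (by omega)
    · rw [List.getD_eq_default rows [] (by rw [rows_len]; omega)]
      rfl
  unfold tab
  rw [h0]
  rfl

theorem mem_idx {i : ℕ} (h : i < 94) : (i, dx i, dy i) ∈ idx := by
  rw [idx_eq]
  exact List.mem_map.2 ⟨i, List.mem_range.2 h, rfl⟩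

theorem tab_deg {i j : ℕ} {t : ℕ × ℕ} (h : t ∈ tab i j) :
    dx t.1 = dx i + dx j ∧ dy t.1 = dy i + dy j ∧ dx t.1 ≤ 3 ∧ dy t.1 ≤ 5 := by
  by_cases hij : i < 94 ∧ j < 94
  · have h1 := List.all_eq_true.1 (List.all_eq_true.1 (List.all_eq_true.1 chkdeg0 _ (mem_idx hij.1)) _ (mem_idx hij.2)) t h
    simp only [Bool.and_eq_true] at h1
    exact ⟨Nat.eq_of_beq_eq_true h1.1.1.1, Nat.eq_of_beq_eq_true h1.1.1.2, Nat.le_of_ble_eq_true h1.1.2,
      Nat.le_of_ble_eq_true h1.2⟩
  · rw [tab_out hij] at h
    exact absurd h List.not_mem_nil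

theorem tab_nil {i j : ℕ} (h : ¬ (dx i + dx j ≤ 3 ∧ dy i + dy j ≤ 5)) : tab i j = [] := by
  apply List.eq_nil_iff_forall_not_mem.2
  intro t ht
  have h1 := tab_deg ht
  exact h ⟨by omega, by omega⟩

theorem val_mul_E {l : List (ℕ × ℕ)} {k : ℕ} (h : ∀ t ∈ l, tab t.1 k = []) : val l * E k = 0 := by
  induction l with
  | nil => rw [val_nil, zero_mul]
  | cons t l ih =>
    rw [val_cons, add_mul, ih fun s hs => h s (List.mem_cons_of_mem _ hs), smul_mul_assoc, E_mul, h t List.mem_cons_self,
      val_nil, smul_zero, add_zero]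

theorem E_mul_val {l : List (ℕ × ℕ)} {k : ℕ} (h : ∀ t ∈ l, tab k t.1 = []) : E k * val l = 0 := by
  induction l with
  | nil => rw [val_nil, mul_zero]
  | cons t l ih =>
    rw [val_cons, mul_add, ih fun s hs => h s (List.mem_cons_of_mem _ hs), mul_smul_comm, E_mul, h t List.mem_cons_self,
      val_nil, smul_zero, add_zero]

theorem as_zero {i j k : ℕ} (h : ¬ (dx i + dx j + dx k ≤ 3 ∧ dy i + dy j + dy k ≤ 5)) : as (E i) (E j) (E k) = 0 := by
  unfold as
  rw [E_mul, E_mul, val_mul_E, E_mul_val, sub_zero]
  · intro t ht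
    apply tab_nil
    have h1 := tab_deg ht
    intro h2
    exact h ⟨by omega, by omega⟩
  · intro t ht
    apply tab_nil
    have h1 := tab_deg ht
    intro h2
    exact h ⟨by omega, by omega⟩

theorem lt_of_dx {i : ℕ} (h : dx i ≤ 3) : i < 94 := by
  by_contra h1
  have h2 : dx i = 9 := List.getD_eq_default _ _ (by
    have : dxs.length = 94 := by decide +kernel
    omega)
  omega

theorem law_all {i j k : ℕ} (h : dx i + dx j + dx k ≤ 3 ∧ dy i + dy j + dy k ≤ 5) : law i j k (par i) (par j) (par k) = true := by
  have h1 := List.all_eq_true.1 (List.all_eq_true.1 chk0 _ (mem_idx (lt_of_dx (i := i) (by omega)))) _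
    (mem_idx (lt_of_dx (i := j) (by omega)))
  have e1 : (Nat.ble (dx i + dx j) 3 && Nat.ble (dy i + dy j) 5) = true := by
    rw [Bool.and_eq_true]
    exact ⟨Nat.ble_eq_true_of_le (by omega), Nat.ble_eq_true_of_le (by omega)⟩
  simp only [e1, cond_true] at h1
  have h2 := List.all_eq_true.1 h1 _ (mem_idx (lt_of_dx (i := k) (by omega)))
  have e2 : (Nat.ble (dx i + dx j + dx k) 3 && Nat.ble (dy i + dy j + dy k) 5) = true := by
    rw [Bool.and_eq_true]
    exact ⟨Nat.ble_eq_true_of_le (by omega), Nat.ble_eq_true_of_le (by omega)⟩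
  simp only [e2, cond_true] at h2
  exact h2

/-- the sign -/
def si (p q : Bool) : ℤ := if (p && q) = true then -1 else 1

theorem lawL (i j k : ℕ) : as (E i) (E j) (E k) + si (par i) (par j) • as (E j) (E i) (E k) = 0 := by
  by_cases h : dx i + dx j + dx k ≤ 3 ∧ dy i + dy j + dy k ≤ 5
  · have h1 := law_all h
    unfold law at h1
    rw [Bool.and_eq_true] at h1
    have h2 := isz_val h1.1
    rw [val_append] at h2
    cases hp : (par i && par j)
    · rw [hp, cond_false] at h2
      simp only [val_la, val_le] at h2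
      simpa [si, hp] using h2
    · rw [hp, cond_true, val_ln] at h2
      simp only [val_la, val_le] at h2
      simpa [si, hp] using h2
  · rw [as_zero h, as_zero (by intro h1; exact h ⟨by omega, by omega⟩), smul_zero, add_zero]

theorem lawR (i j k : ℕ) : as (E i) (E j) (E k) + si (par j) (par k) • as (E i) (E k) (E j) = 0 := by
  by_cases h : dx i + dx j + dx k ≤ 3 ∧ dy i + dy j + dy k ≤ 5
  · have h1 := law_all h
    unfold law at h1
    rw [Bool.and_eq_true] at h1
    have h2 := isz_val h1.2
    rw [val_append] at h2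
    cases hp : (par j && par k)
    · rw [hp, cond_false] at h2
      simp only [val_la, val_le] at h2
      simpa [si, hp] using h2
    · rw [hp, cond_true, val_ln] at h2
      simp only [val_la, val_le] at h2
      simpa [si, hp] using h2
  · rw [as_zero h, as_zero (by intro h1; exact h ⟨by omega, by omega⟩), smul_zero, add_zero]

/-! ### homogeneous elements -/

/-- the homogeneous elements -/
noncomputable def Hg (p : Bool) : AddSubgroup B := AddSubgroup.closure (E '' {i | par i = p})

theorem E_mem (i : ℕ) : E i ∈ Hg (par i) := AddSubgroup.subset_closure ⟨i, rfl, rfl⟩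

theorem ind1 (f : B →+ B) {p : Bool} (h : ∀ i, par i = p → f (E i) = 0) : ∀ a ∈ Hg p, f a = 0 := by
  have : Hg p ≤ f.ker := by
    rw [Hg, AddSubgroup.closure_le]
    rintro _ ⟨i, hi, rfl⟩
    exact h i hi
  exact this

theorem ind3 (F : B → B → B → B) (h1 : ∀ a a' b c, F (a + a') b c = F a b c + F a' b c)
    (h2 : ∀ a b b' c, F a (b + b') c = F a b c + F a b' c) (h3 : ∀ a b c c', F a b (c + c') = F a b c + F a b c')
    {p q r : Bool} (h : ∀ i j k, par i = p → par j = q → par k = r → F (E i) (E j) (E k) = 0) {a b c : B}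
    (ha : a ∈ Hg p) (hb : b ∈ Hg q) (hc : c ∈ Hg r) : F a b c = 0 := by
  refine ind1 (AddMonoidHom.mk' (fun a => F a b c) fun a a' => h1 a a' b c) (fun i hi => ?_) a ha
  refine ind1 (AddMonoidHom.mk' (fun b => F (E i) b c) fun b b' => h2 (E i) b b' c) (fun j hj => ?_) b hb
  refine ind1 (AddMonoidHom.mk' (fun c => F (E i) (E j) c) fun c c' => h3 (E i) (E j) c c') (fun k hk => ?_) c hc
  exact h i j k hi hj hk

theorem HL {p q r : Bool} {a b c : B} (ha : a ∈ Hg p) (hb : b ∈ Hg q) (hc : c ∈ Hg r) :
    as a b c + si p q • as b a c = 0 := by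
  refine ind3 (fun a b c => as a b c + si p q • as b a c) ?_ ?_ ?_ ?_ ha hb hc
  · intro a a' b c
    simp only [as_a1, as_a2, smul_add]; abel
  · intro a a' b c
    simp only [as_a1, as_a2, smul_add]; abel
  · intro a a' b c
    simp only [as_a3, smul_add]; abel
  · rintro i j k rfl rfl rfl
    exact lawL i j k

theorem HR {p q r : Bool} {a b c : B} (ha : a ∈ Hg p) (hb : b ∈ Hg q) (hc : c ∈ Hg r) :
    as a b c + si q r • as a c b = 0 := by
  refine ind3 (fun a b c => as a b c + si q r • as a c b) ?_ ?_ ?_ ?_ ha hb hc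
  · intro a a' b c
    simp only [as_a1, smul_add]; abel
  · intro a a' b c
    simp only [as_a3, as_a2, smul_add]; abel
  · intro a a' b c
    simp only [as_a3, as_a2, smul_add]; abel
  · rintro i j k rfl rfl rfl
    exact lawR i j k

theorem single_eq (i : ℕ) (r : ZMod 27) : (Finsupp.single i r : ℕ →₀ ZMod 27) = r.val • (Finsupp.single i (1 : ZMod 27)) := by
  rw [Finsupp.smul_single, nsmul_eq_mul, mul_one, ZMod.natCast_zmod_val]

theorem closure_E (a : B) : a ∈ AddSubgroup.closure (Set.range E) := by
  have h0 : ∀ (i : ℕ) (r : ZMod 27), ((Finsupp.single i r : ℕ →₀ ZMod 27) : B) ∈ AddSubgroup.closure (Set.range E) := by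
    intro i r
    have h1 : ((Finsupp.single i r : ℕ →₀ ZMod 27) : B) = r.val • E i := single_eq i r
    rw [h1]
    exact AddSubgroup.nsmul_mem _ (AddSubgroup.subset_closure (Set.mem_range_self i)) _
  have h : ∀ f : ℕ →₀ ZMod 27, (f : B) ∈ AddSubgroup.closure (Set.range E) := by
    intro f
    induction f using Finsupp.induction with
    | zero => exact AddSubgroup.zero_mem (AddSubgroup.closure (Set.range E))
    | single_add i r f _ _ ih => exact AddSubgroup.add_mem (AddSubgroup.closure (Set.range E)) (h0 i r) ih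
  exact h a

theorem dec_H (a : B) : ∃ b ∈ Hg false, ∃ c ∈ Hg true, a = b + c := by
  have h := closure_E a
  induction h using AddSubgroup.closure_induction with
  | mem x hx =>
    obtain ⟨i, rfl⟩ := hx
    cases hp : par i
    · exact ⟨E i, hp ▸ E_mem i, 0, zero_mem _, (add_zero _).symm⟩
    · exact ⟨0, zero_mem _, E i, hp ▸ E_mem i, (zero_add _).symm⟩
  | zero => exact ⟨0, zero_mem _, 0, zero_mem _, (add_zero _).symm⟩
  | add x y _ _ hx hy =>
    obtain ⟨b, hb, c, hc, rfl⟩ := hx
    obtain ⟨b', hb', c', hc', rfl⟩ := hy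
    exact ⟨b + b', add_mem hb hb', c + c', add_mem hc hc', by abel⟩
  | neg x _ hx =>
    obtain ⟨b, hb, c, hc, rfl⟩ := hx
    exact ⟨-b, neg_mem hb, -c, neg_mem hc, by abel⟩

theorem par_tab {i j : ℕ} {t : ℕ × ℕ} (h : t ∈ tab i j) : par t.1 = xor (par i) (par j) := by
  have h1 := (tab_deg h).2.1
  unfold par
  rw [h1]
  rcases Nat.mod_two_eq_zero_or_one (dy i) with h2 | h2 <;> rcases Nat.mod_two_eq_zero_or_one (dy j) with h3 | h3 <;>
    rw [Nat.add_mod, h2, h3] <;> rfl

theorem val_mem {l : List (ℕ × ℕ)} {p : Bool} (h : ∀ t ∈ l, par t.1 = p) : val l ∈ Hg p := by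
  induction l with
  | nil => exact zero_mem _
  | cons t l ih =>
    rw [val_cons]
    refine add_mem (nsmul_mem ?_ _) (ih fun s hs => h s (List.mem_cons_of_mem _ hs))
    have := E_mem t.1
    rwa [h t List.mem_cons_self] at this

theorem mul_mem_H {p q : Bool} {a b : B} (ha : a ∈ Hg p) (hb : b ∈ Hg q) : a * b ∈ Hg (xor p q) := by
  have h1 : ∀ i, par i = p → ∀ b ∈ Hg q, E i * b ∈ Hg (xor p q) := by
    intro i hi b hb
    refine AddSubgroup.closure_induction (p := fun b _ => E i * b ∈ Hg (xor p q)) ?_ ?_ ?_ ?_ hb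
    · rintro _ ⟨j, hj, rfl⟩
      rw [E_mul]
      refine val_mem fun t ht => ?_
      rw [par_tab ht, hi, hj]
    · rw [mul_zero]; exact zero_mem _
    · intro x y _ _ hx hy
      rw [mul_add]; exact add_mem hx hy
    · intro x _ hx
      rw [mul_neg]; exact neg_mem hx
  refine AddSubgroup.closure_induction (p := fun a _ => a * b ∈ Hg (xor p q)) ?_ ?_ ?_ ?_ ha
  · rintro _ ⟨i, hi, rfl⟩
    exact h1 i hi b hb
  · rw [zero_mul]; exact zero_mem _
  · intro x y _ _ hx hy
    rw [add_mul]; exact add_mem hx hy
  · intro x _ hx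
    rw [neg_mul]; exact neg_mem hx

/-- the parity automorphism -/
noncomputable def sgB : B →+ B := (lc fun i => if par i = true then - E i else E i).toAddMonoidHom

theorem sgB_E (i : ℕ) : sgB (E i) = if par i = true then - E i else E i := lc_E _ i

noncomputable instance : SRing B where
  toNonUnitalNonAssocRing := inferInstance
  ev := Hg false
  od := Hg true
  sg := sgB
  sg_ev := by
    intro a ha
    have := ind1 (sgB - AddMonoidHom.id B) (p := false) (fun i hi => by
      rw [AddMonoidHom.sub_apply, sgB_E, hi]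
      simp) a ha
    exact sub_eq_zero.1 this
  sg_od := by
    intro a ha
    have := ind1 (sgB + AddMonoidHom.id B) (p := true) (fun i hi => by
      rw [AddMonoidHom.add_apply, sgB_E, hi]
      simp) a ha
    exact eq_neg_of_add_eq_zero_left this
  dec := dec_H
  ee := fun a ha b hb => by
    have h := mul_mem_H ha hb
    rw [show xor false false = false from rfl] at h
    exact h
  eo := fun a ha b hb => by
    have h := mul_mem_H ha hb
    rw [show xor false true = true from rfl] at h
    exact h
  oe := fun a ha b hb => by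
    have h := mul_mem_H ha hb
    rw [show xor true false = true from rfl] at h
    exact h
  oo := fun a ha b hb => by
    have h := mul_mem_H ha hb
    rw [show xor true true = false from rfl] at h
    exact h

theorem two_tor {a : B} (h : a + a = 0) : a = 0 := by
  have h1 : (28 : ℕ) • a = 0 := by
    rw [show (28 : ℕ) = 14 * 2 from rfl, mul_smul, two_smul, h, smul_zero]
  rw [show (28 : ℕ) = 27 + 1 from rfl, add_smul, s27, zero_add, one_smul] at h1
  exact h1

theorem saltB : IsSAlt B where
  sql := by
    intro a ha c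
    obtain ⟨b, hb, d, hd, rfl⟩ := dec_H c
    rw [as_a3]
    have h1 := HL ha ha hb
    have h2 := HL ha ha hd
    simp only [si, Bool.false_and, Bool.false_eq_true, if_false, one_smul] at h1 h2
    rw [two_tor h1, two_tor h2, add_zero]
  leo := by
    intro a ha b hb c
    obtain ⟨d, hd, e, he, rfl⟩ := dec_H c
    have h1 := HL ha hb hd
    have h2 := HL ha hb he
    simp only [si, Bool.false_and, Bool.false_eq_true, if_false, one_smul] at h1 h2
    rw [as_a3, as_a3, add_add_add_comm, h1, h2, add_zero]
  loo := by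
    intro a ha b hb c
    obtain ⟨d, hd, e, he, rfl⟩ := dec_H c
    have h1 := HL ha hb hd
    have h2 := HL ha hb he
    simp only [si, Bool.and_self, if_true, neg_one_zsmul, ← sub_eq_add_neg] at h1 h2
    rw [as_a3, as_a3, add_sub_add_comm, h1, h2, add_zero]
  sqr := by
    intro a ha c
    obtain ⟨b, hb, d, hd, rfl⟩ := dec_H c
    rw [as_a1]
    have h1 := HR hb ha ha
    have h2 := HR hd ha ha
    simp only [si, Bool.false_and, Bool.false_eq_true, if_false, one_smul] at h1 h2
    rw [two_tor h1, two_tor h2, add_zero]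
  reo := by
    intro a ha b hb c
    obtain ⟨d, hd, e, he, rfl⟩ := dec_H c
    have h1 := HR hd ha hb
    have h2 := HR he ha hb
    simp only [si, Bool.false_and, Bool.false_eq_true, if_false, one_smul] at h1 h2
    rw [as_a1, as_a1, add_add_add_comm, h1, h2, add_zero]
  roo := by
    intro a ha b hb c
    obtain ⟨d, hd, e, he, rfl⟩ := dec_H c
    have h1 := HR hd ha hb
    have h2 := HR he ha hb
    simp only [si, Bool.and_self, if_true, neg_one_zsmul, ← sub_eq_add_neg] at h1 h2
    rw [as_a1, as_a1, add_sub_add_comm, h1, h2, add_zero]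

/-! ### the values at the top -/

/-- the coefficient of the top element -/
noncomputable def psi0 : B →+ ZMod 27 := (lc fun i => if i = 93 then (1 : ZMod 27) else 0).toAddMonoidHom

theorem psi0_E (i : ℕ) : psi0 (E i) = if i = 93 then 1 else 0 := lc_E _ i

theorem psi0_val (l : List (ℕ × ℕ)) : psi0 (val l) = (cf l : ZMod 27) := by
  have h : psi0 (val l) = ((l.foldr (fun t s => (bif Nat.beq t.1 93 then t.2 else 0) + s) 0 : ℕ) : ZMod 27) := by
    induction l with
    | nil => simp [val]
    | cons t l ih =>
      rw [val_cons, map_add, ih, map_nsmul, psi0_E, List.foldr_cons]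
      push_cast
      congr 1
      cases h : Nat.beq t.1 93
      · have h1 : t.1 ≠ 93 := fun h1 => by rw [h1] at h; exact absurd h (by decide)
        simp [h1]
      · have h1 : t.1 = 93 := Nat.eq_of_beq_eq_true h
        simp [h1]
  rw [h, cf, ZMod.natCast_mod]

noncomputable def x : B := E 1
noncomputable def y : B := E 0

theorem hx : x ∈ SRing.ev (S := B) := by
  have h := E_mem 1
  have h1 : par 1 = false := by decide +kernel
  rw [h1] at h
  exact h

theorem hy : y ∈ SRing.od (S := B) := by
  have h := E_mem 0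
  have h1 : par 0 = true := by decide +kernel
  rw [h1] at h
  exact h

theorem hF : psi0 (((y * x - x * y) * ((y * x - x * y) * x + x * (y * x - x * y))
    - ((y * x - x * y) * x + x * (y * x - x * y)) * (y * x - x * y)) * as y y y) = -3 := by
  have h : ((y * x - x * y) * ((y * x - x * y) * x + x * (y * x - x * y))
    - ((y * x - x * y) * x + x * (y * x - x * y)) * (y * x - x * y)) * as y y y = val lF := by
    simp only [lF, lad, val_lm, val_nrm, val_append, val_ln, val_la, val_le, x, y, sub_eq_add_neg]
  rw [h, psi0_val, cfF]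
  decide

theorem hU (b : B) : 9 * psi0 (as b y y) = 0 := by
  have h : ∀ i : ℕ, 9 * psi0 (as (E i) y y) = 0 := by
    intro i
    by_cases hi : i < 94
    · have h1 := List.all_eq_true.1 cfU i (List.mem_range.2 hi)
      have h2 := Nat.eq_of_beq_eq_true h1
      have h3 : as (E i) y y = val (la (le i) (le 0) (le 0)) := by rw [val_la, val_le, val_le]; rfl
      rw [h3, psi0_val]
      have h4 : ((9 * cf (la (le i) (le 0) (le 0)) : ℕ) : ZMod 27) = 0 := by
        rw [← ZMod.natCast_mod, h2]; rfl
      push_cast at h4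
      exact h4
    · have h1 : as (E i) y y = 0 := by
        apply as_zero
        intro h2
        exact hi (lt_of_dx (by omega))
      rw [h1, map_zero, mul_zero]
  have hb := closure_E b
  induction hb using AddSubgroup.closure_induction with
  | mem u hu =>
    obtain ⟨i, rfl⟩ := hu
    exact h i
  | zero => simp [as]
  | add u w _ _ hu hw => rw [as_a1, map_add, mul_add, hu, hw, add_zero]
  | neg u _ hu => rw [as_n1, map_neg, mul_neg, hu, neg_zero]

end Pool.Agent.Lib.MP_bda2fe_al.NT
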