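import Pool.Agent.Lib.MP_bda2fe_al.NPar

/-! certificate data, see `NPar` -/

namespace Pool.Agent.Lib.MP_bda2fe_al.NC

def dV0 : List ℕ := [
  0x131712704, 0x381127104, 0x191321707, 0x381921104, 0x113721707, 0x281137105, 0x192131702, 0x193172115, 0x193117204,
  0x281913105, 0x112731702, 0x211317706, 0x121713705, 0x192171314, 0x391117203, 0x192117305, 0x191132704, 0x191123705,
  0x291131703, 0x291911304, 0x281113704, 0x283171112, 0x381811204, 0x291113705, 0x111237704, 0x281131704, 0x281911305,
  0x381911204, 0x381112705, 0x281811305, 0x111327705, 0x381821112, 0x391911208, 0x391112701, 0x381121705, 0x281831117,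
  0x392811103, 0x382171117, 0x391217108, 0x131721702, 0x131271707, 0x291317101, 0x121731707, 0x121371715, 0x192131715,
  0x193921107, 0x117913205, 0x192317104, 0x127171314, 0x193217105, 0x312117712, 0x217117307, 0x312717105, 0x213717108,
  0x137172111, 0x391172113, 0x317912117, 0x391127107, 0x217811312, 0x111727305, 0x291137108, 0x127117305, 0x192913105,
  0x121173714, 0x131177207, 0x137921102, 0x117317202, 0x217913108, 0x317812117, 0x211713714, 0x123117712, 0x211371711,
  0x117921304, 0x113717204, 0x311271714, 0x127913104, 0x193121714, 0x321177107, 0x213711705, 0x211771312, 0x117312718,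
  0x117372114, 0x293171118, 0x281371118, 0x211737105, 0x213117708, 0x192831114, 0x117321716, 0x131172705, 0x193821115,
  0x381921115, 0x291811311, 0x391921118, 0x381271111, 0x132117708, 0x281931114, 0x117231713, 0x391812118, 0x392171111,
  0x211173714, 0x137211714, 0x127811314, 0x137821105, 0x291931111, 0x117213715, 0x192931113, 0x137921117, 0x317911207,
  0x211713701, 0x391271112, 0x217811305, 0x291811307, 0x112317707, 0x193921113, 0x127931115, 0x311721706, 0x311712704,
  0x317811204, 0x127811305, 0x291371111, 0x391811208, 0x211731703, 0x317821112, 0x217911304, 0x217831117, 0x137821118,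
  0x127831115, 0x217931111, 0x113217702]

def dVAll : List (List ℕ) := [dV0]

end Pool.Agent.Lib.MP_bda2fe_al.NC
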