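import Pool.Agent.Lib.MP_bda2fe_al.Defs

/-!
# A nuclear element of degree 5 in alternative rings

In an alternative ring `A`, if `(u, x, A) = 0` then `[u, x]` is in the nucleus; the element
`u = [c, x] (b x) - ([c, x] x) b` is such an element. So `[u, x]` is nuclear, with all its linearizations.
-/

namespace Pool.Agent.Lib.MP_bda2fe_al.NuE

variable {A : Type} [NonUnitalNonAssocRing A]

/-- The associator. -/
def as (a b c : A) : A := a * b * c - a * (b * c)

theorem as_add1 (a a' b c : A) : as (a + a') b c = as a b c + as a' b c := by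
  simp only [as, add_mul]; abel
theorem as_add2 (a b b' c : A) : as a (b + b') c = as a b c + as a b' c := by
  simp only [as, add_mul, mul_add]; abel
theorem as_add3 (a b c c' : A) : as a b (c + c') = as a b c + as a b c' := by
  simp only [as, mul_add]; abel
theorem as_sub1 (a a' b c : A) : as (a - a') b c = as a b c - as a' b c := by
  simp only [as, sub_mul]; abel
theorem as_sub2 (a b b' c : A) : as a (b - b') c = as a b c - as a b' c := by
  simp only [as, sub_mul, mul_sub]; abel
theorem as_sub3 (a b c c' : A) : as a b (c - c') = as a b c - as a b c' := by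
  simp only [as, mul_sub]; abel
theorem as_neg1 (a b c : A) : as (-a) b c = -as a b c := by
  simp only [as, neg_mul]; abel
theorem as_neg2 (a b c : A) : as a (-b) c = -as a b c := by
  simp only [as, neg_mul, mul_neg]; abel
theorem as_neg3 (a b c : A) : as a b (-c) = -as a b c := by
  simp only [as, mul_neg]; abel

theorem as12 (hA : IsAlt A) (a b : A) : as a a b = 0 := by
  rw [as, hA.left, sub_self]
theorem as23 (hA : IsAlt A) (a b : A) : as b a a = 0 := by
  rw [as, hA.right, sub_self]
theorem sw12 (hA : IsAlt A) (a b c : A) : as b a c = -as a b c := by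
  have h := as12 hA (a + b) c
  rw [as_add1, as_add2, as_add2, as12 hA, as12 hA, zero_add, add_zero] at h
  exact (neg_eq_of_add_eq_zero_right h).symm
theorem sw23 (hA : IsAlt A) (a b c : A) : as a c b = -as a b c := by
  have h := as23 hA (b + c) a
  rw [as_add3, as_add2, as_add2, as23 hA, as23 hA, zero_add, add_zero] at h
  have h' : as a b c + as a c b = 0 := by rw [add_comm]; exact h
  exact (neg_eq_of_add_eq_zero_right h').symm
theorem cyc1 (hA : IsAlt A) (a b c : A) : as b c a = as a b c := by
  rw [sw23 hA, sw12 hA, neg_neg]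
theorem cyc2 (hA : IsAlt A) (a b c : A) : as c a b = as a b c := by
  rw [cyc1 hA c a b]
theorem sw13 (hA : IsAlt A) (a b c : A) : as c b a = -as a b c := by
  rw [sw23 hA, cyc2 hA]

/-- Kleinfeld's function. -/
def kf (w x y z : A) : A := as (w * x) y z - x * as w y z - as x y z * w

theorem teich (w x y z : A) : as (w * x) y z - as w (x * y) z + as w x (y * z) = w * as x y z + as w x y * z := by
  simp only [as, mul_sub, sub_mul]; abel

theorem kf34 (hA : IsAlt A) (w x y z : A) : kf w x z y = -kf w x y z := by
  simp only [kf, sw23 hA _ y z, mul_neg, neg_mul]; abel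

theorem kfcyc (hA : IsAlt A) (w x y z : A) : kf z w x y = -kf w x y z := by
  have h1 := teich w x y z
  have h2 := teich x y z w
  rw [← cyc1 hA w (x * y) z, ← cyc2 hA w x (y * z)] at h1
  rw [← cyc1 hA x (y * z) w, ← cyc2 hA x y (z * w)] at h2
  have h4 : as (z * w) x y = w * as x y z + as w x y * z + (x * as y z w + as x y z * w) - as (w * x) y z := by
    rw [← h1, ← h2]; abel
  simp only [kf]
  rw [h4, cyc2 hA x y z, cyc1 hA w y z]
  abel

theorem kfcc (hA : IsAlt A) (w x y z : A) : kf y z w x = kf w x y z := by
  rw [kfcyc hA z w x y, kfcyc hA w x y z, neg_neg]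

theorem kf12 (hA : IsAlt A) (w x y z : A) : kf x w y z = -kf w x y z := by
  rw [← kfcc hA x w y z, kf34 hA y z w x, kfcc hA]

theorem kf_eq (hA : IsAlt A) (w x y z : A) :
    kf w x y z = as (w * x - x * w) y z + as w x (y * z - z * y) := by
  have e1 : as (w * x) y z = kf w x y z + x * as w y z + as x y z * w := by simp only [kf]; abel
  have e2 : as (x * w) y z = kf x w y z + w * as x y z + as w y z * x := by simp only [kf]; abel
  have e3 : as (y * z) w x = kf y z w x + z * as y w x + as z w x * y := by simp only [kf]; abel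
  have e4 : as (z * y) w x = kf z y w x + y * as z w x + as y w x * z := by simp only [kf]; abel
  have e5 : as (x * y) z w = kf x y z w + y * as x z w + as y z w * x := by simp only [kf]; abel
  have T := teich w x y z
  rw [← cyc1 hA w (x * y) z, ← cyc2 hA w x (y * z)] at T
  have e6 : kf x y z w = -kf w x y z := by rw [kfcyc hA x y z w, neg_neg]
  rw [kf12 hA] at e2
  rw [kfcc hA] at e3
  rw [kf12 hA, kfcc hA] at e4
  rw [e6] at e5
  rw [e1, e3, e5, cyc2 hA z w x, cyc1 hA w y z, cyc2 hA w x y] at T
  rw [as_sub1, as_sub3, ← cyc2 hA w x (y * z), ← cyc2 hA w x (z * y), e1, e2, e3, e4, cyc2 hA w x y]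
  linear_combination (norm := abel) -T

/-- `(u, x, A) = 0` gives `[u, x]` nuclear. -/
theorem comm_nuc (hA : IsAlt A) {u x : A} (h : ∀ t, as u x t = 0) (y z : A) : as (u * x - x * u) y z = 0 := by
  have h1 := kf_eq hA u x y z
  rw [h, add_zero, ← kfcc hA u x y z] at h1
  rw [← h1]
  simp only [kf]
  rw [cyc2 hA u x (y * z), h, cyc2 hA u x y, h, cyc2 hA u x z, h, mul_zero, zero_mul, sub_zero, sub_zero]

/-! ### Moufang identities -/

theorem kf34_0 (hA : IsAlt A) (w x y : A) : kf w x y y = 0 := by
  simp only [kf, as23 hA, mul_zero, zero_mul, sub_zero]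

theorem m1 (hA : IsAlt A) (x y z : A) : as (x * y) x z = as y x z * x := by
  have h : kf x y x z = 0 := by
    have h1 : kf x y x z = kf x x y z := by rw [kf34 hA x y z x, kfcyc hA x y z x]
    rw [h1, ← kfcc hA x x y z, kf34_0 hA]
  simp only [kf, as12 hA, mul_zero] at h
  rw [sub_zero] at h
  exact sub_eq_zero.1 h

theorem m2 (hA : IsAlt A) (x y z : A) : as (y * x) x z = x * as y x z := by
  have h : kf y x x z = 0 := by
    have h1 : kf z y x x = -kf y x x z := kfcyc hA y x x z
    rw [kf34_0 hA] at h1
    rw [← neg_neg (kf y x x z), ← h1, neg_zero]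
  simp only [kf, as12 hA, zero_mul] at h
  rw [sub_zero] at h
  exact sub_eq_zero.1 h

theorem m1' (hA : IsAlt A) (x y z : A) : as z x (x * y) = as z x y * x := by
  rw [sw13 hA (x * y) x z, m1 hA, sw13 hA y x z, neg_mul]

theorem m2' (hA : IsAlt A) (x y z : A) : as z x (y * x) = x * as z x y := by
  rw [sw13 hA (y * x) x z, m2 hA, sw13 hA y x z, mul_neg]

theorem kf23 (hA : IsAlt A) (w x y z : A) : kf w y x z = -kf w x y z := by
  have h1 := kfcyc hA w x y z
  have h2 := kfcyc hA w y x z
  have h3 := kf34 hA z w x y
  rw [h2, h1, neg_neg] at h3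
  rw [← h3, neg_neg]

theorem kf24 (hA : IsAlt A) (w x y z : A) : kf w z y x = -kf w x y z := by
  rw [kf34 hA w z x y, kf23 hA w x z y, neg_neg, kf34 hA w x y z]

theorem kf14 (hA : IsAlt A) (w x y z : A) : kf z x y w = -kf w x y z := by
  rw [kf34 hA z x w y, kf23 hA z w x y, neg_neg, kfcyc hA w x y z]

/-- `(a (b x) - (a x) b, x, t) = x (d a) - d (a x)`, `d = (b, x, t)`. -/
theorem psi (hA : IsAlt A) (a b x t : A) :
    as (a * (b * x) - a * x * b) x t = x * (as b x t * a) - as b x t * (a * x) := by
  have e1 : as (a * (b * x)) x t = kf a (b * x) x t + (b * x) * as a x t + as (b * x) x t * a := by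
    simp only [kf]; abel
  have e2 : as (a * x * b) x t = kf (a * x) b x t + b * as (a * x) x t + as b x t * (a * x) := by
    simp only [kf]; abel
  have e3 : kf a (b * x) x t = -(x * as (a * t) x b - t * (x * as a x b) - x * as t x b * a) := by
    rw [kf24 hA a t x (b * x)]
    simp only [kf, m2' hA]
  have e4 : kf (a * x) b x t = x * as (b * t) x a - t * (x * as b x a) - x * as t x a * b := by
    rw [← neg_neg (kf (a * x) b x t), ← kf24 hA (a * x) b x t, ← kf14 hA (a * x) t x b]
    simp only [kf, m2' hA]
  have e5 : as (a * t) x b + as (b * t) x a = as t x b * a + as t x a * b := by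
    have h := kf14 hA a t x b
    simp only [kf] at h
    rw [sw13 hA a x b, mul_neg] at h
    linear_combination (norm := abel) h
  have e6 : x * as (a * t) x b + x * as (b * t) x a = x * (as t x b * a) + x * (as t x a * b) := by
    rw [← mul_add, e5, mul_add]
  rw [sw13 hA b x t, sw13 hA a x t] at e6
  have e7 : as x (as a x t) b = as b x (as a x t) := by rw [cyc1 hA]
  have e8 : as b x (as a x t) = b * x * as a x t - b * (x * as a x t) := rfl
  have e9 : as x (as a x t) b = x * as a x t * b - x * (as a x t * b) := rfl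
  rw [e8, e9] at e7
  rw [as_sub1, e1, e2, e3, e4, m2 hA, m2 hA, sw13 hA b x t, sw13 hA a x t, sw13 hA a x b]
  simp only [mul_neg, neg_mul] at e6 ⊢
  linear_combination (norm := abel) -e6 - e7

theorem flex (hA : IsAlt A) (a b : A) : a * b * a = a * (b * a) := by
  have h : as a b a = 0 := by rw [sw23 hA a a b, as12 hA, neg_zero]
  exact sub_eq_zero.1 h

/-- Left Moufang identity. -/
theorem mouL (hA : IsAlt A) (a q b : A) : a * (q * a) * b = a * (q * (a * b)) := by
  have h1 := m2 hA a q b
  rw [sw12 hA a (q * a) b] at h1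
  simp only [as, mul_sub] at h1
  linear_combination (norm := abel) -h1

/-- Middle Moufang identity. -/
theorem mouM (hA : IsAlt A) (a q b : A) : a * q * (b * a) = a * (q * b * a) := by
  have h1 := m2' hA a b q
  rw [sw12 hA a q (b * a), sw23 hA q b a] at h1
  simp only [as, mul_sub, mul_neg] at h1
  linear_combination (norm := abel) -h1

/-- `v (x y) = (v y) x` for `v = (x, y, z)`. -/
theorem jj (hA : IsAlt A) (x y z : A) : as x y z * (x * y) = as x y z * y * x := by
  have h1 : as x y (x * (y * z)) = as x y z * y * x := by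
    rw [sw12 hA y x (x * (y * z)), m1' hA x (y * z) y, sw12 hA x y (y * z), m1' hA y z x]
    simp only [neg_mul, neg_neg]
  have h2 : as x y (x * y * z) = as y (as x y z) x + as x y z * (x * y) := by
    have e1 : kf (x * y) z x y = as (x * y * z) x y - z * as (x * y) x y - as z x y * (x * y) := rfl
    have e2 : as (x * y) x y = 0 := by rw [m1 hA x y y, sw12 hA x y y, as23 hA, neg_zero, zero_mul]
    have e3 : kf (x * y) z x y = kf x y (x * y) z := kfcc hA x y (x * y) z
    have e4 : kf x y (x * y) z = as (x * y) (x * y) z - y * as x (x * y) z - as y (x * y) z * x := rfl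
    rw [as12 hA, sw12 hA (x * y) x z, m1 hA x y z, sw12 hA x y z, sw12 hA (x * y) y z, m2 hA y x z] at e4
    rw [e3, e4, e2, cyc2 hA x y z, cyc2 hA x y (x * y * z)] at e1
    have e5 : as y (as x y z) x = y * as x y z * x - y * (as x y z * x) := rfl
    rw [e5]
    simp only [neg_mul, mul_neg, mul_zero] at e1
    linear_combination (norm := abel) -e1
  have h3 : as x y (as x y z) = as x y (x * y * z) - as x y (x * (y * z)) := by
    rw [← as_sub3]; rfl
  rw [h1, h2, cyc1 hA x y (as x y z)] at h3
  linear_combination (norm := abel) -h3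

theorem jj' (hA : IsAlt A) (x a b t : A) :
    as b x t * (a * x - x * a) + as a x t * (b * x - x * b) = as (as b x t) x a + as (as a x t) x b := by
  have h := jj hA (a + b) x t
  rw [as_add1] at h
  simp only [add_mul, mul_add, jj hA] at h
  have e1 : as (as b x t) x a = as b x t * x * a - as b x t * (x * a) := rfl
  have e2 : as (as a x t) x b = as a x t * x * b - as a x t * (x * b) := rfl
  rw [e1, e2]
  simp only [mul_sub]
  linear_combination (norm := abel) h

/-- `d (x ∘ q) = (x ∘ d) q` for `d = (b, x, t)`, `q = [c, x]`. -/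
theorem i6 (hA : IsAlt A) (x b c t : A) :
    as b x t * (x * (c * x - x * c) + (c * x - x * c) * x) = (x * as b x t + as b x t * x) * (c * x - x * c) := by
  have h1 := jj' hA x (c * x + x * c) b t
  have h2 := jj' hA x c b (t * x + x * t)
  have e1 : as (c * x + x * c) x t = x * as c x t + as c x t * x := by rw [as_add1, m1 hA, m2 hA]
  have e2 : as b x (t * x + x * t) = x * as b x t + as b x t * x := by rw [as_add3, m1' hA, m2' hA]
  have e3 : as c x (t * x + x * t) = x * as c x t + as c x t * x := by rw [as_add3, m1' hA, m2' hA]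
  have e4 : as (as b x t) x (c * x + x * c) = x * as (as b x t) x c + as (as b x t) x c * x := by
    rw [as_add3, m1' hA, m2' hA]
  have e5 : as (x * as b x t + as b x t * x) x c = as (as b x t) x c * x + x * as (as b x t) x c := by
    rw [as_add1, m1 hA, m2 hA]
  have e6 : (c * x + x * c) * x - x * (c * x + x * c) = x * (c * x - x * c) + (c * x - x * c) * x := by
    simp only [mul_add, add_mul, mul_sub, sub_mul, flex hA]; abel
  rw [e1, e6, e4] at h1
  rw [e2, e3, e5] at h2
  linear_combination (norm := abel) h1 - h2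

theorem i6' (hA : IsAlt A) (x b c t : A) :
    x * (as b x t * (c * x - x * c)) = as b x t * ((c * x - x * c) * x) := by
  have h := i6 hA x b c t
  generalize as b x t = d at *
  generalize c * x - x * c = q at *
  have h1 : as x d q + as d x q = 0 := by rw [sw12 hA x d q]; abel
  simp only [as, mul_add, add_mul] at h h1
  linear_combination (norm := abel) -h1 - h

/-- The element `u` with `(u, x, A) = 0`. -/
def uu (x c b : A) : A := (c * x - x * c) * (b * x) - (c * x - x * c) * x * b

theorem uu_as (hA : IsAlt A) (x c b t : A) : as (uu x c b) x t = 0 := by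
  rw [uu, psi hA, i6' hA, sub_self]

/-- The nuclear element of degree 5. -/
def EE (a b c : A) : A :=
  c * a * b * (a * a) - a * c * b * (a * a) - c * a * (a * (b * a)) + a * (a * c) * b * a + a * (c * (a * a)) * b -
    a * (a * (c * a)) * b

theorem EE_eq (hA : IsAlt A) (a b c : A) : EE a b c = uu a c b * a - a * uu a c b := by
  have t1 : as (a * (a * c)) b a + as (c * a) (a * b) a - as (a * c) (a * b) a + as (a * c) a (b * a) = 0 := by
    rw [sw23 hA (a * (a * c)) a b, m1 hA a (a * c) b, m1 hA a c b, sw23 hA (c * a) a (a * b), m1' hA a b (c * a),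
      m2 hA a c b, sw23 hA (a * c) a (a * b), m1' hA a b (a * c), m2' hA a b (a * c), m1 hA a c b, flex hA]
    abel
  have t2 : a * (c * a * b * a) = a * (c * a) * (b * a) := (mouM hA a (c * a) b).symm
  have t3 : a * (a * c * b * a) = a * (a * c) * (b * a) := (mouM hA a (a * c) b).symm
  have t4 := mouL hA a (c * a - a * c) b
  have t5 : a * as (c * a - a * c) b a + a * as (c * a - a * c) a b = 0 := by
    rw [sw23 hA (c * a - a * c) a b, mul_neg]; abel
  have t6 : as (c * a - a * c) b a * a + as (c * a - a * c) a b * a = 0 := by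
    rw [sw23 hA (c * a - a * c) a b, neg_mul]; abel
  simp only [EE, uu, as, mul_sub, sub_mul, flex hA, hA.right] at *
  linear_combination (norm := abel) t1 + t2 - t3 + t4 - t5 + t6

theorem EE_nuc (hA : IsAlt A) (a b c u v : A) : as (EE a b c) u v = 0 := by
  rw [EE_eq hA, comm_nuc hA (fun t => uu_as hA a c b t)]

/-- The full linearization of `EE` in the first letter. -/
def EL (a1 a2 a3 b c : A) : A :=
  EE (a1 + a2 + a3) b c - EE (a1 + a2) b c - EE (a1 + a3) b c - EE (a2 + a3) b c + EE a1 b c + EE a2 b c + EE a3 b c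

theorem EL_nuc (hA : IsAlt A) (a1 a2 a3 b c u v : A) : as (EL a1 a2 a3 b c) u v = 0 := by
  simp only [EL, as_add1, as_sub1, EE_nuc hA]; abel

end Pool.Agent.Lib.MP_bda2fe_al.NuE
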