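import Pool.Agent.Lib.MP_bda2fe_al.NDatA
import Pool.Agent.Lib.MP_bda2fe_al.NDatV
import Pool.Agent.Lib.MP_bda2fe_al.NuHid
import Pool.Agent.Lib.MP_bda2fe_al.NuE

/-! # Two identities of alternative rings, modulo 9 -/

namespace Pool.Agent.Lib.MP_bda2fe_al.NC

open NU (cm jm nu)

/-- `E(a; b, c)` with the five places of `a` and ... separated: `e1 a1 a2 a3 b c` is linear in each of `a1, a2, a3` -/
def e0 {C : Type} [NonUnitalNonAssocRing C] (a1 a2 a3 b c : C) : C :=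
  c * a1 * b * (a2 * a3) - a1 * c * b * (a2 * a3) - c * a1 * (a2 * (b * a3)) + a1 * (a2 * c) * b * a3
    + a1 * (c * (a2 * a3)) * b - a1 * (a2 * (c * a3)) * b

/-- the full linearization of `E(a; b, c) = e0 a a a b c` in `a` -/
def eL {C : Type} [NonUnitalNonAssocRing C] (a1 a2 a3 b c : C) : C :=
  e0 a1 a2 a3 b c + e0 a1 a3 a2 b c + e0 a2 a1 a3 b c + e0 a2 a3 a1 b c + e0 a3 a1 a2 b c + e0 a3 a2 a1 b c

def pe0 (a1 a2 a3 b c : Pol) : Pol :=
  pd (pa (pa (pd (pd (pm (pm (pm c a1) b) (pm a2 a3)) (pm (pm (pm a1 c) b) (pm a2 a3))) (pm (pm c a1) (pm a2 (pm b a3))))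
    (pm (pm (pm a1 (pm a2 c)) b) a3)) (pm (pm a1 (pm c (pm a2 a3))) b)) (pm (pm a1 (pm a2 (pm c a3))) b)

def peL (a1 a2 a3 b c : Pol) : Pol :=
  pa (pa (pa (pa (pa (pe0 a1 a2 a3 b c) (pe0 a1 a3 a2 b c)) (pe0 a2 a1 a3 b c)) (pe0 a2 a3 a1 b c)) (pe0 a3 a1 a2 b c))
    (pe0 a3 a2 a1 b c)

def pnu (x y w : Pol) : Pol := pd (pjm (pcm y x) (pcm w (pm x x))) (pjm (pcm w x) (pcm y (pm x x)))

theorem evt_pe0 {C : Type} [NonUnitalNonAssocRing C] (v : ℕ → C) (a1 a2 a3 b c : Pol) :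
    evt v (pe0 a1 a2 a3 b c) = e0 (evt v a1) (evt v a2) (evt v a3) (evt v b) (evt v c) := by
  simp only [pe0, evt_pd, evt_pa, evt_pm, e0]

theorem evt_peL {C : Type} [NonUnitalNonAssocRing C] (v : ℕ → C) (a1 a2 a3 b c : Pol) :
    evt v (peL a1 a2 a3 b c) = eL (evt v a1) (evt v a2) (evt v a3) (evt v b) (evt v c) := by
  simp only [peL, evt_pa, evt_pe0, eL]

theorem evt_pnu {C : Type} [NonUnitalNonAssocRing C] (v : ℕ → C) (x y w : Pol) :
    evt v (pnu x y w) = nu (evt v x) (evt v y) (evt v w) := by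
  simp only [pnu, evt_pd, evt_pm, evt_pjm, evt_pcm, nu, cm, jm]

/-- `ν(x; y, w) y + E(xy, x, y; w, x) + E(w, x, y; y, xx) + E(xy, w, y; x, x)` -/
def tA : Pol :=
  let x := px 0
  let y := px 1
  let w := px 2
  pa (pa (pa (pm (pnu x y w) y) (peL (pm x y) x y w x)) (peL w x y y (pm x x))) (peL (pm x y) w y x x)

theorem okA : chk 10 (fun _ => false) ((dAAll.flatten).map pR) (ps (-1) tA) = true := by decide +kernel

/-- `ν(x; y, w) - E(x; w, y) + E(x; y, w)` -/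
def tV : Pol :=
  let x := px 0
  let y := px 1
  let w := px 2
  pa (pd (pnu x y w) (pe0 x x x w y)) (pe0 x x x y w)

theorem okV : chk 8 (fun _ => false) ((dVAll.flatten).map pR) (ps (-1) tV) = true := by decide +kernel

theorem salt_of_alt {C : Type} [NonUnitalNonAssocRing C] (hC : IsAlt C) :
    SAlt (fun (p : Bool) (_ : C) => p = false) where
  mul := by rintro p q a b rfl rfl; rfl
  L := by
    rintro p q r a b c rfl rfl rfl
    rw [if_neg (by simp)]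
    exact NuE.sw12 hC b a c
  R := by
    rintro p q r a b c rfl rfl rfl
    rw [if_neg (by simp)]
    exact NuE.sw23 hC a c b
  EL := by
    rintro r a c _ _
    exact sub_eq_zero.2 (hC.left a c)
  ER := by
    rintro p a b _ _
    exact sub_eq_zero.2 (hC.right b a)

section

variable {C : Type} [NonUnitalNonAssocRing C]

theorem e0_EE (a b c : C) : e0 a a a b c = NuE.EE a b c := rfl

theorem eL_EL (a1 a2 a3 b c : C) : eL a1 a2 a3 b c = NuE.EL a1 a2 a3 b c := by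
  simp only [eL, e0, NuE.EL, NuE.EE, mul_add, add_mul]
  abel

/-- the letters `x, y, w` -/
def v3 (x y w : C) (n : ℕ) : C := if n = 0 then x else if n = 1 then y else w

theorem cert_V (hC : IsAlt C) (x y w : C) : ∃ u : C, nu x y w - NuE.EE x w y + NuE.EE x y w = (9 : ℤ) • u := by
  obtain ⟨u, hu⟩ := chk_sound (salt_of_alt hC) (π := fun _ => false) (v := v3 x y w) (fun _ => rfl) okV
  refine ⟨-u, ?_⟩
  rw [evt_ps, neg_one_zsmul, neg_eq_iff_eq_neg] at hu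
  rw [smul_neg, ← hu]
  simp only [tV, evt_pa, evt_pd, evt_pnu, evt_pe0, evt_px, v3, if_true, one_ne_zero, if_false, OfNat.ofNat_ne_zero,
    OfNat.ofNat_ne_one, e0_EE]

theorem cert_A (hC : IsAlt C) (x y w : C) : ∃ u : C, nu x y w * y + NuE.EL (x * y) x y w x + NuE.EL w x y y (x * x)
    + NuE.EL (x * y) w y x x = (9 : ℤ) • u := by
  obtain ⟨u, hu⟩ := chk_sound (salt_of_alt hC) (π := fun _ => false) (v := v3 x y w) (fun _ => rfl) okA
  refine ⟨-u, ?_⟩
  rw [evt_ps, neg_one_zsmul, neg_eq_iff_eq_neg] at hu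
  rw [smul_neg, ← hu]
  simp only [tA, evt_pa, evt_pm, evt_pnu, evt_peL, evt_px, v3, if_true, one_ne_zero, if_false, OfNat.ofNat_ne_zero,
    OfNat.ofNat_ne_one, eL_EL]

theorem as_zsmul1 (n : ℤ) (a b c : C) : NuE.as (n • a) b c = n • NuE.as a b c := by
  simp only [NuE.as, smul_mul_assoc, smul_sub]

/-- `ν` is nuclear modulo 9 -/
theorem nu_nuc (hC : IsAlt C) (x y w s t : C) : ∃ u : C, NU.as (nu x y w) s t = (9 : ℤ) • u := by
  obtain ⟨u, hu⟩ := cert_V hC x y w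
  refine ⟨NuE.as u s t, ?_⟩
  have h1 : nu x y w = (9 : ℤ) • u + NuE.EE x w y - NuE.EE x y w := by rw [← hu]; abel
  change NuE.as (nu x y w) s t = _
  rw [h1, NuE.as_sub1, NuE.as_add1, as_zsmul1, NuE.EE_nuc hC, NuE.EE_nuc hC]
  abel

/-- `ν(x; y, w) y` is nuclear modulo 9 -/
theorem nuy_nuc (hC : IsAlt C) (x y w s t : C) : ∃ u : C, NU.as (nu x y w * y) s t = (9 : ℤ) • u := by
  obtain ⟨u, hu⟩ := cert_A hC x y w
  refine ⟨NuE.as u s t, ?_⟩
  have h1 : nu x y w * y = (9 : ℤ) • u - NuE.EL (x * y) x y w x - NuE.EL w x y y (x * x) - NuE.EL (x * y) w y x x := by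
    rw [← hu]; abel
  change NuE.as (nu x y w * y) s t = _
  rw [h1, NuE.as_sub1, NuE.as_sub1, NuE.as_sub1, as_zsmul1, NuE.EL_nuc hC, NuE.EL_nuc hC, NuE.EL_nuc hC]
  abel

end

end Pool.Agent.Lib.MP_bda2fe_al.NC
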