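import Pool.Agent.Lib.MP_bda2fe_al.NDatC

/-! # The superalgebra identity, modulo 9 -/

namespace Pool.Agent.Lib.MP_bda2fe_al.NC

/-- `Q k - 3 (p g + g p)` with `q = [y, x]`, `r = q x + x q`, `Q = q r - r q`, `p = (y, y, x)`, `k = (y, y, y)`, `g = (y, x, p)` -/
def tC : Pol :=
  let x := px 0
  let y := px 1
  let q := pcm y x
  let r := pjm q x
  let p := pas y y x
  let g := pas y x p
  pd (pm (pcm q r) (pas y y y)) (ps 3 (pjm p g))

theorem okC : chk 13 (fun n => Nat.beq n 1) ((dCAll.flatten).map pR) (ps (-1) tC) = true := by decide +kernel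

/-- In every alternative superring, for `x` even and `y` odd. -/
theorem cert_C {S : Type*} [NonUnitalNonAssocRing S] {H : Bool → S → Prop} (h : SAlt H) {x y : S} (hx : H false x)
    (hy : H true y) :
    ∃ w : S, ((y * x - x * y) * ((y * x - x * y) * x + x * (y * x - x * y))
        - ((y * x - x * y) * x + x * (y * x - x * y)) * (y * x - x * y)) * as y y y
      - (3 : ℤ) • (as y y x * as y x (as y y x) + as y x (as y y x) * as y y x) = (9 : ℤ) • w := by
  have hv : ∀ n : ℕ, H (Nat.beq n 1) ((fun n : ℕ => if n = 1 then y else x) n) := by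
    intro n
    by_cases h1 : n = 1
    · subst h1
      simpa using hy
    · have h2 : Nat.beq n 1 = false := by
        cases h3 : Nat.beq n 1
        · rfl
        · exact absurd (Nat.eq_of_beq_eq_true h3) h1
      rw [h2]
      simpa [h1] using hx
  obtain ⟨w, hw⟩ := chk_sound h hv okC
  refine ⟨-w, ?_⟩
  rw [evt_ps, neg_one_zsmul, neg_eq_iff_eq_neg] at hw
  rw [smul_neg, ← hw]
  simp only [tC, evt_pd, evt_pm, evt_ps, evt_pas, evt_pcm, evt_pjm, evt_px]
  simp

end Pool.Agent.Lib.MP_bda2fe_al.NC
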