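import Pool.Agent.Lib.MP_bda2fe_al.Super

/-!
# A checker for identities modulo 9 in alternative superrings

Words are coded by natural numbers (letters `2 n`, products `2 pair a b + 1`). A certificate is a list of instances of the
super-alternative laws inside contexts, with coefficients mod 9; if the signed sum of the codes cancels mod 9, then the target
element is a multiple of 9.
-/

namespace Pool.Agent.Lib.MP_bda2fe_al.NC

/-- words -/
inductive W
  | l (n : ℕ)
  | m (a b : W)

def W.ev {S : Type*} [NonUnitalNonAssocRing S] (v : ℕ → S) : W → S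
  | .l n => v n
  | .m a b => a.ev v * b.ev v

def W.par (π : ℕ → Bool) : W → Bool
  | .l n => π n
  | .m a b => xor (a.par π) (b.par π)

/-- pairing -/
def pr (a b : ℕ) : ℕ := bif Nat.ble b a then a * a + a + b else b * b + a

theorem pr_eq (a b : ℕ) : pr a b = Nat.pair a b := by
  unfold pr Nat.pair
  by_cases h : b ≤ a
  · have h1 : Nat.ble b a = true := by simpa using h
    rw [h1, if_neg (by omega)]; rfl
  · have h1 : Nat.ble b a = false := by
      cases h2 : Nat.ble b a
      · rfl
      · exact absurd (Nat.le_of_ble_eq_true h2) h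
    rw [h1, if_pos (by omega)]; rfl

def mk (a b : ℕ) : ℕ := 2 * pr a b + 1

def W.cd : W → ℕ
  | .l n => 2 * n
  | .m a b => mk a.cd b.cd

section

variable {S : Type*} [NonUnitalNonAssocRing S] (v : ℕ → S)

noncomputable def evc (c : ℕ) : S :=
  if h : c % 2 = 0 then v (c / 2)
  else evc (Nat.unpair (c / 2)).1 * evc (Nat.unpair (c / 2)).2
termination_by c
decreasing_by
  · have := Nat.unpair_left_le (c / 2)
    omega
  · have := Nat.unpair_right_le (c / 2)
    omega

theorem evc_l (n : ℕ) : evc v (2 * n) = v n := by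
  rw [evc, dif_pos (by omega)]
  congr 1
  omega

theorem evc_mk (a b : ℕ) : evc v (mk a b) = evc v a * evc v b := by
  rw [evc, dif_neg (by unfold mk; omega)]
  have h : mk a b / 2 = Nat.pair a b := by
    unfold mk
    rw [pr_eq]
    omega
  rw [h, Nat.unpair_pair]

theorem evc_cd (w : W) : evc v w.cd = w.ev v := by
  induction w with
  | l n => exact evc_l v n
  | m a b ha hb =>
    change evc v (mk a.cd b.cd) = _
    rw [evc_mk, ha, hb]
    rfl

theorem par_ev {H : Bool → S → Prop} (h : SAlt H) {π : ℕ → Bool} (hv : ∀ n, H (π n) (v n)) (w : W) :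
    H (w.par π) (w.ev v) := by
  induction w with
  | l n => exact hv n
  | m a b ha hb => exact h.mul ha hb

/-- contexts: from the inside to the outside, `(true, w)`: multiply by `w` on the left -/
def ap (c : List (Bool × ℕ)) (h : ℕ) : ℕ :=
  c.foldl (fun h t => bif t.1 then mk t.2 h else mk h t.2) h

noncomputable def apS : List (Bool × ℕ) → S →+ S
  | [] => AddMonoidHom.id S
  | t :: c => (apS c).comp (if t.1 = true then AddMonoidHom.mulLeft (evc v t.2) else AddMonoidHom.mulRight (evc v t.2))

theorem evc_ap (c : List (Bool × ℕ)) (h : ℕ) : evc v (ap c h) = apS v c (evc v h) := by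
  induction c generalizing h with
  | nil => rfl
  | cons t c ih =>
    change evc v (ap c (bif t.1 then mk t.2 h else mk h t.2)) = _
    rw [ih]
    cases ht : t.1
    · simp [apS, ht, evc_mk]
    · simp [apS, ht, evc_mk]

end

/-- a relation of the certificate: coefficient, type (`true` = left law), context, three words -/
structure Rel where
  k : ℕ
  t : Bool
  c : List (Bool × W)
  u : W
  v : W
  w : W

def neg9 (k : ℕ) : ℕ := (9 - k % 9) % 9

/-- two terms: `k ((ab)c)` and `-k (a(bc))` in the context -/
def two (c : List (Bool × ℕ)) (k : ℕ) (a b d : ℕ) : List (ℕ × ℕ) :=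
  [(ap c (mk (mk a b) d), k), (ap c (mk a (mk b d)), neg9 k)]

/-- the terms of a relation -/
def Rel.ex (π : ℕ → Bool) (r : Rel) : List (ℕ × ℕ) :=
  let c := r.c.map fun t => (t.1, t.2.cd)
  let a := r.u.cd
  let b := r.v.cd
  let d := r.w.cd
  bif r.t then
    bif Nat.beq a b then
      bif r.u.par π || r.v.par π then [] else two c r.k a b d
    else two c r.k a b d ++ two c (bif (r.u.par π && r.v.par π) then neg9 r.k else r.k) b a d
  else
    bif Nat.beq b d then
      bif r.v.par π || r.w.par π then [] else two c r.k a b d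
    else two c r.k a b d ++ two c (bif (r.v.par π && r.w.par π) then neg9 r.k else r.k) a d b

/-- merge of two sorted lists of terms, coefficients mod 9 -/
def mg : ℕ → List (ℕ × ℕ) → List (ℕ × ℕ) → List (ℕ × ℕ)
  | 0, a, b => a ++ b
  | _ + 1, [], b => b
  | _ + 1, t :: a, [] => t :: a
  | n + 1, t :: a, s :: b =>
    bif Nat.beq t.1 s.1 then
      (bif Nat.beq ((t.2 + s.2) % 9) 0 then mg n a b else (t.1, (t.2 + s.2) % 9) :: mg n a b)
    else bif Nat.ble t.1 s.1 then t :: mg n a (s :: b)
    else s :: mg n (t :: a) b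

def pairUp : List (List (ℕ × ℕ)) → List (List (ℕ × ℕ))
  | a :: b :: t => mg 1000000 a b :: pairUp t
  | l => l

def msum : ℕ → List (List (ℕ × ℕ)) → List (ℕ × ℕ)
  | 0, ls => ls.flatten
  | n + 1, ls => msum n (pairUp ls)

section

variable {S Q : Type*} [NonUnitalNonAssocRing S] [AddCommGroup Q] (v : ℕ → S) (q : S →+ Q)

noncomputable def qe (l : List (ℕ × ℕ)) : Q := (l.map fun t => t.2 • q (evc v t.1)).sum

theorem qe_nil : qe v q [] = 0 := rfl

theorem qe_cons (t : ℕ × ℕ) (l : List (ℕ × ℕ)) : qe v q (t :: l) = t.2 • q (evc v t.1) + qe v q l := by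
  simp [qe]

theorem qe_append (a b : List (ℕ × ℕ)) : qe v q (a ++ b) = qe v q a + qe v q b := by
  simp [qe]

variable (h9 : ∀ s, (9 : ℕ) • q s = 0)

include h9

theorem mod9 (n : ℕ) (s : S) : (n % 9) • q s = n • q s := by
  conv_rhs => rw [← Nat.div_add_mod n 9, add_smul, mul_comm, mul_smul, h9, smul_zero, zero_add]

theorem neg9_smul (n : ℕ) (s : S) : neg9 n • q s = - (n • q s) := by
  unfold neg9
  rw [mod9 q h9, eq_neg_iff_add_eq_zero, ← mod9 q h9 n, ← add_smul]
  have : 9 - n % 9 + n % 9 = 9 := by omega
  rw [this, h9]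

theorem qe_mg (n : ℕ) (a b : List (ℕ × ℕ)) : qe v q (mg n a b) = qe v q a + qe v q b := by
  induction n generalizing a b with
  | zero => exact qe_append v q a b
  | succ n ih =>
    match a, b with
    | [], b => simp [mg, qe_nil]
    | t :: a, [] => simp [mg, qe_nil]
    | t :: a, s :: b =>
      unfold mg
      cases h1 : Nat.beq t.1 s.1
      · cases h2 : Nat.ble t.1 s.1
        · simp only [cond_false, qe_cons, ih]
          abel
        · simp only [cond_false, cond_true, qe_cons, ih]
          abel
      · have h3 : t.1 = s.1 := Nat.eq_of_beq_eq_true h1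
        cases h2 : Nat.beq ((t.2 + s.2) % 9) 0
        · simp only [cond_false, cond_true, qe_cons, ih]
          rw [mod9 q h9, h3, add_smul]
          abel
        · have h4 : (t.2 + s.2) % 9 = 0 := Nat.eq_of_beq_eq_true h2
          have h5 : (t.2 + s.2) • q (evc v s.1) = 0 := by rw [← mod9 q h9, h4, zero_smul]
          simp only [cond_true, qe_cons, ih]
          rw [h3]
          have : t.2 • q (evc v s.1) + qe v q a + (s.2 • q (evc v s.1) + qe v q b)
            = (t.2 + s.2) • q (evc v s.1) + (qe v q a + qe v q b) := by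
            rw [add_smul]; abel
          rw [this, h5, zero_add]

theorem qe_pairUp (l : List (List (ℕ × ℕ))) : ((pairUp l).map (qe v q)).sum = (l.map (qe v q)).sum := by
  induction l using pairUp.induct with
  | case1 a b t ih =>
    simp only [pairUp, List.map_cons, List.sum_cons, ih, qe_mg v q h9, add_assoc]
  | case2 l h =>
    unfold pairUp
    split
    · exact absurd rfl (h _ _ _)
    · rfl

theorem qe_msum (n : ℕ) (l : List (List (ℕ × ℕ))) : qe v q (msum n l) = (l.map (qe v q)).sum := by
  induction n generalizing l with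
  | zero =>
    change qe v q l.flatten = _
    induction l with
    | nil => rfl
    | cons a l ih => rw [List.flatten_cons, qe_append, ih]; rfl
  | succ n ih => exact (ih (pairUp l)).trans (qe_pairUp v q h9 l)

theorem qe_two (c : List (Bool × ℕ)) (k : ℕ) (a b d : ℕ) :
    qe v q (two c k a b d) = k • q (apS v c (as (evc v a) (evc v b) (evc v d))) := by
  unfold two as
  rw [qe_cons, qe_cons, qe_nil, add_zero, neg9_smul q h9]
  simp only [evc_ap, evc_mk, map_sub, smul_sub]
  abel

theorem qe_rel {H : Bool → S → Prop} (h : SAlt H) {π : ℕ → Bool} (hv : ∀ n, H (π n) (v n)) (r : Rel) :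
    qe v q (r.ex π) = 0 := by
  have hu := par_ev v h hv r.u
  have hv' := par_ev v h hv r.v
  have hw := par_ev v h hv r.w
  unfold Rel.ex
  cases ht : r.t
  · simp only [cond_false]
    cases he : Nat.beq r.v.cd r.w.cd
    · simp only [cond_false, qe_append, qe_two v q h9, evc_cd]
      have h1 := h.R hu hv' hw
      cases hb : (r.v.par π && r.w.par π)
      · rw [hb] at h1
        simp only [Bool.false_eq_true, if_false] at h1
        simp only [cond_false]
        rw [h1]
        simp
      · rw [hb] at h1
        simp only [if_true] at h1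
        simp only [cond_true]
        rw [h1, neg9_smul q h9]
        simp
    · simp only [cond_true]
      cases hb : (r.v.par π || r.w.par π)
      · simp only [cond_false, qe_two v q h9, evc_cd]
        have h3 : r.v.cd = r.w.cd := Nat.eq_of_beq_eq_true he
        have h4 : r.v.ev v = r.w.ev v := by rw [← evc_cd, h3, evc_cd]
        rw [Bool.or_eq_false_iff] at hb
        rw [hb.1] at hv'
        rw [← h4, h.ER hu hv']
        simp
      · rfl
  · simp only [cond_true]
    cases he : Nat.beq r.u.cd r.v.cd
    · simp only [cond_false, qe_append, qe_two v q h9, evc_cd]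
      have h1 := h.L hu hv' hw
      cases hb : (r.u.par π && r.v.par π)
      · rw [hb] at h1
        simp only [Bool.false_eq_true, if_false] at h1
        simp only [cond_false]
        rw [h1]
        simp
      · rw [hb] at h1
        simp only [if_true] at h1
        simp only [cond_true]
        rw [h1, neg9_smul q h9]
        simp
    · simp only [cond_true]
      cases hb : (r.u.par π || r.v.par π)
      · simp only [cond_false, qe_two v q h9, evc_cd]
        have h3 : r.u.cd = r.v.cd := Nat.eq_of_beq_eq_true he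
        have h4 : r.u.ev v = r.v.ev v := by rw [← evc_cd, h3, evc_cd]
        rw [Bool.or_eq_false_iff] at hb
        rw [hb.1] at hu
        rw [← h4, h.EL hu hw]
        simp
      · rfl

end

/-- polynomials -/
abbrev Pol : Type := List (ℤ × W)

def px (n : ℕ) : Pol := [(1, W.l n)]
def pm (a b : Pol) : Pol := a.flatMap fun s => b.map fun t => (s.1 * t.1, W.m s.2 t.2)
def ps (n : ℤ) (a : Pol) : Pol := a.map fun s => (n * s.1, s.2)
def pa (a b : Pol) : Pol := a ++ b
def pd (a b : Pol) : Pol := a ++ ps (-1) b
def pas (a b c : Pol) : Pol := pd (pm (pm a b) c) (pm a (pm b c))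
def pcm (a b : Pol) : Pol := pd (pm a b) (pm b a)
def pjm (a b : Pol) : Pol := pa (pm a b) (pm b a)

section

variable {S : Type*} [NonUnitalNonAssocRing S] (v : ℕ → S)

/-- the value of a polynomial -/
def evt (l : Pol) : S := (l.map fun t => t.1 • t.2.ev v).sum

theorem evt_nil : evt v [] = 0 := rfl

theorem evt_cons (t : ℤ × W) (l : Pol) : evt v (t :: l) = t.1 • t.2.ev v + evt v l := by
  simp [evt]

theorem evt_px (n : ℕ) : evt v (px n) = v n := by
  simp [px, evt, W.ev]

theorem evt_append (a b : Pol) : evt v (a ++ b) = evt v a + evt v b := by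
  simp [evt]

theorem evt_pa (a b : Pol) : evt v (pa a b) = evt v a + evt v b := evt_append v a b

theorem evt_ps (n : ℤ) (a : Pol) : evt v (ps n a) = n • evt v a := by
  induction a with
  | nil => simp [ps, evt]
  | cons t a ih =>
    change evt v ((n * t.1, t.2) :: ps n a) = _
    rw [evt_cons, evt_cons, ih, smul_add, mul_smul]

theorem evt_pd (a b : Pol) : evt v (pd a b) = evt v a - evt v b := by
  rw [pd, evt_append, evt_ps, neg_one_zsmul, sub_eq_add_neg]

theorem evt_pm (a b : Pol) : evt v (pm a b) = evt v a * evt v b := by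
  induction a with
  | nil => simp [pm, evt]
  | cons s a ih =>
    have h1 : pm (s :: a) b = (b.map fun t => (s.1 * t.1, W.m s.2 t.2)) ++ pm a b := rfl
    have h2 : ∀ b : Pol, evt v (b.map fun t => (s.1 * t.1, W.m s.2 t.2)) = (s.1 • s.2.ev v) * evt v b := by
      intro b
      induction b with
      | nil => simp [evt]
      | cons t b ihb =>
        rw [List.map_cons, evt_cons, evt_cons, ihb, mul_add, smul_mul_smul_comm]
        rfl
    rw [h1, evt_append, h2, ih, evt_cons, add_mul]

theorem evt_pas (a b c : Pol) : evt v (pas a b c) = as (evt v a) (evt v b) (evt v c) := by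
  rw [pas, evt_pd, evt_pm, evt_pm, evt_pm, evt_pm]; rfl

theorem evt_pcm (a b : Pol) : evt v (pcm a b) = evt v a * evt v b - evt v b * evt v a := by
  rw [pcm, evt_pd, evt_pm, evt_pm]

theorem evt_pjm (a b : Pol) : evt v (pjm a b) = evt v a * evt v b + evt v b * evt v a := by
  rw [pjm, evt_pa, evt_pm, evt_pm]

end

/-- sorting of at most four terms -/
def srt (l : List (ℕ × ℕ)) : List (ℕ × ℕ) := msum 2 (l.map fun t => [t])

/-- the check: the sum of the relations and of the target is zero mod 9 -/
def chk (n : ℕ) (π : ℕ → Bool) (rs : List Rel) (t : Pol) : Bool :=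
  (msum n ((t.map fun s => [(s.2.cd, (s.1 % 9).toNat)]) ++ rs.map fun r => srt (r.ex π))).isEmpty

theorem qe_srt {S Q : Type*} [NonUnitalNonAssocRing S] [AddCommGroup Q] (v : ℕ → S) (q : S →+ Q)
    (h9 : ∀ s, (9 : ℕ) • q s = 0) (l : List (ℕ × ℕ)) : qe v q (srt l) = qe v q l := by
  unfold srt
  rw [qe_msum v q h9, List.map_map]
  induction l with
  | nil => rfl
  | cons a l ih => rw [List.map_cons, List.sum_cons, ih, qe_cons]; simp [qe]

theorem chk_sound {S : Type*} [NonUnitalNonAssocRing S] {H : Bool → S → Prop} (h : SAlt H) {π : ℕ → Bool} {v : ℕ → S}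
    (hv : ∀ n, H (π n) (v n)) {n : ℕ} {rs : List Rel} {t : Pol} (hc : chk n π rs t = true) :
    ∃ w : S, evt v t = (9 : ℤ) • w := by
  let I : AddSubgroup S := (zsmulAddGroupHom (9 : ℤ) : S →+ S).range
  let q : S →+ S ⧸ I := QuotientAddGroup.mk' I
  have h9 : ∀ s, (9 : ℕ) • q s = 0 := by
    intro s
    rw [← map_nsmul]
    refine (QuotientAddGroup.eq_zero_iff _).2 ⟨s, ?_⟩
    change (9 : ℤ) • s = (9 : ℕ) • s
    rw [← natCast_zsmul]; rfl
  have h9z : ∀ s, (9 : ℤ) • q s = 0 := by
    intro s
    have := h9 s
    rw [← natCast_zsmul] at this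
    exact this
  have h1 : qe v q (msum n ((t.map fun s => [(s.2.cd, (s.1 % 9).toNat)]) ++ rs.map fun r => srt (r.ex π))) = 0 := by
    have : msum n ((t.map fun s => [(s.2.cd, (s.1 % 9).toNat)]) ++ rs.map fun r => srt (r.ex π)) = [] := by
      simpa [chk] using hc
    rw [this]; rfl
  rw [qe_msum v q h9, List.map_append, List.sum_append, List.map_map, List.map_map] at h1
  have h2 : (List.map (qe v q ∘ fun r => srt (r.ex π)) rs).sum = 0 := by
    apply List.sum_eq_zero
    intro x hx
    obtain ⟨r, _, rfl⟩ := List.mem_map.1 hx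
    exact (qe_srt v q h9 _).trans (qe_rel v q h9 h hv r)
  have h4 : ∀ (z : ℤ) (s : S), (z % 9).toNat • q s = z • q s := by
    intro z s
    have h5 : 0 ≤ z % 9 := Int.emod_nonneg _ (by norm_num)
    rw [← natCast_zsmul, Int.toNat_of_nonneg h5]
    conv_rhs => rw [← Int.mul_ediv_add_emod z 9, add_smul, mul_comm, mul_smul, h9z, smul_zero, zero_add]
  have h3 : (List.map (qe v q ∘ fun s : ℤ × W => [(s.2.cd, (s.1 % 9).toNat)]) t).sum = q (evt v t) := by
    unfold evt
    rw [map_list_sum, List.map_map]
    congr 1
    apply List.map_congr_left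
    intro s _
    simp only [Function.comp, qe, List.map_cons, List.map_nil, List.sum_cons, List.sum_nil, add_zero, evc_cd, h4, map_zsmul]
  rw [h2, add_zero, h3] at h1
  obtain ⟨w, hw⟩ := (QuotientAddGroup.eq_zero_iff _).1 h1
  exact ⟨w, hw.symm⟩

end Pool.Agent.Lib.MP_bda2fe_al.NC
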