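import Pool.Agent.Lib.MP_bda2fe_al.NuV
import Pool.Agent.Lib.MP_bda2fe_al.Super

/-!
# `ν(x; a, b) (b, d, e)` is a multiple of nine
-/

namespace Pool.Agent.Lib.MP_bda2fe_al

/-- From the certificate `A`. -/
theorem hz_of {C : Type} [NonUnitalNonAssocRing C] (h : IsAlt C)
    (hA : ∀ x y w : C, ∃ v : C, NU.nu x y w * y + NuE.EL (x * y) x y w x + NuE.EL w x y y (x * x) + NuE.EL (x * y) w y x x =
      (9 : ℤ) • v) (x a b d e : C) : ∃ w : C, NU.nu x a b * as b d e = (9 : ℤ) • w := by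
  obtain ⟨v, hv⟩ := hA x b a
  have n0 : NU.nu x a b = -NU.nu x b a := by simp only [NU.nu]; abel
  have n1 : NuE.as (NU.nu x b a * b) d e = (9 : ℤ) • NuE.as v d e := by
    have e1 : NU.nu x b a * b = (9 : ℤ) • v - NuE.EL (x * b) x b a x - NuE.EL a x b b (x * x) - NuE.EL (x * b) a b x x := by
      rw [← hv]; abel
    rw [e1, NuE.as_sub1, NuE.as_sub1, NuE.as_sub1, NuE.EL_nuc h, NuE.EL_nuc h, NuE.EL_nuc h, sub_zero, sub_zero, sub_zero]
    simp only [NuE.as, smul_mul_assoc, smul_sub]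
  have n2 := NU.as_mul (NU.nu x b a) b d e
  have m1 : NU.as (NU.nu x b a) b d = 0 := NuE.nu_nuc h x b a b d
  have m2 : NU.as (NU.nu x b a) (b * d) e = 0 := NuE.nu_nuc h x b a (b * d) e
  have m3 : NU.as (NU.nu x b a) b (d * e) = 0 := NuE.nu_nuc h x b a b (d * e)
  rw [m1, m2, m3, zero_mul, add_zero, add_zero, sub_zero] at n2
  have n3 : NU.as (NU.nu x b a * b) d e = (9 : ℤ) • NuE.as v d e := n1
  refine ⟨-NuE.as v d e, ?_⟩
  have n4 : NU.nu x b a * as b d e = (9 : ℤ) • NuE.as v d e := n2.symm.trans n3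
  rw [n0, neg_mul, n4, smul_neg]

end Pool.Agent.Lib.MP_bda2fe_al
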