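import Pool.Agent.Lib.MP_bda2fe_al.NuE

/-!
# Two alternating functions in alternative rings

`Theta (y, z, a) = [y, X] ∘ (z, X, a)` and `U' (y, z, a) = [[y, X], (z, X, a)] - 2 (y, X, (z, X, a))` are alternating in `y, z, a`.
-/

set_option autoImplicit false

namespace Pool.Agent.Lib.MP_bda2fe_al.NuE

variable {A : Type} [NonUnitalNonAssocRing A]

/-- `(x y) w = y (x w)` for `w = (x, y, z)`. -/
theorem jjL (hA : IsAlt A) (x y z : A) : x * y * as x y z = y * (x * as x y z) := by
  have e0 : kf (x * y) z x y = as y (as x y z) x := by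
    have e3 : kf (x * y) z x y = kf x y (x * y) z := kfcc hA x y (x * y) z
    have e4 : kf x y (x * y) z = as (x * y) (x * y) z - y * as x (x * y) z - as y (x * y) z * x := rfl
    rw [as12 hA, sw12 hA (x * y) x z, m1 hA x y z, sw12 hA x y z, sw12 hA (x * y) y z, m2 hA y x z] at e4
    rw [e3, e4]
    simp only [as, neg_mul, mul_neg]
    abel
  have e1 : kf z (x * y) x y = -kf (x * y) z x y := kf12 hA (x * y) z x y
  have e2 : as (x * y) x y = 0 := by rw [m1 hA x y y, sw12 hA x y y, as23 hA, neg_zero, zero_mul]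
  have e5 : kf z (x * y) x y = as (z * (x * y)) x y - x * y * as z x y - as (x * y) x y * z := rfl
  rw [e1, e0, e2, zero_mul, sub_zero, cyc2 hA x y z] at e5
  have e6 : as (z * (x * y)) x y = as (z * x * y) x y - as (as x y z) x y := by
    rw [← as_sub1, ← cyc2 hA x y z]; congr 1; simp only [as]; abel
  have e7 : as (z * x * y) x y = y * (x * as x y z) := by
    rw [sw23 hA (z * x * y) y x, m2 hA y (z * x) x, sw23 hA (z * x) x y, m2 hA x z y, cyc2 hA x y z, mul_neg, neg_neg]
  have e8 : as y (as x y z) x = as (as x y z) x y := (cyc1 hA y (as x y z) x).symm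
  rw [e6, e7, e8] at e5
  linear_combination (norm := abel) e5

/-- `w [x, y] = - (x, y, w)` for `w = (x, y, z)`. -/
theorem jjc (hA : IsAlt A) (x y z : A) : as x y z * (x * y - y * x) = -as x y (as x y z) := by
  have h1 := jj hA x y z
  have h2 : as x y (as x y z) = -(as x y z * y * x - as x y z * (y * x)) := by
    have e : as (as x y z) y x = as x y z * y * x - as x y z * (y * x) := rfl
    rw [← e, ← sw23 hA (as x y z) y x, cyc2 hA x y (as x y z)]
  rw [h2, mul_sub, h1]
  abel

/-- `[x, y] w = (x, y, w)` for `w = (x, y, z)`. -/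
theorem jjcL (hA : IsAlt A) (x y z : A) : (x * y - y * x) * as x y z = as x y (as x y z) := by
  have h1 := jjL hA x y z
  have h2 : as x y (as x y z) = -(y * x * as x y z - y * (x * as x y z)) := by
    have e : as y x (as x y z) = y * x * as x y z - y * (x * as x y z) := rfl
    rw [← e, sw12 hA x y (as x y z), neg_neg]
  rw [h2, sub_mul, h1]
  abel

/-- `[y, X] ∘ (z, X, a)` -/
def Th (X y z a : A) : A := (y * X - X * y) * as z X a + as z X a * (y * X - X * y)

/-- `[[y, X], (z, X, a)] - 2 (y, X, (z, X, a))` -/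
def Up (X y z a : A) : A :=
  ((y * X - X * y) * as z X a - as z X a * (y * X - X * y)) - (2 : ℤ) • as y X (as z X a)

theorem Th_self (hA : IsAlt A) (X y a : A) : Th X y y a = 0 := by
  rw [Th, jjcL hA, jjc hA, add_neg_cancel]

theorem Up_self (hA : IsAlt A) (X y a : A) : Up X y y a = 0 := by
  rw [Up, jjcL hA, jjc hA, sub_neg_eq_add, two_smul, sub_self]

theorem Th_23 (hA : IsAlt A) (X y z a : A) : Th X y a z = -Th X y z a := by
  rw [Th, Th, sw13 hA z X a, mul_neg, neg_mul]; abel

theorem Up_23 (hA : IsAlt A) (X y z a : A) : Up X y a z = -Up X y z a := by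
  rw [Up, Up, sw13 hA z X a, mul_neg, neg_mul, as_neg3, smul_neg]; abel

theorem Th_add1 (X y z b a : A) : Th X (y + z) b a = Th X y b a + Th X z b a := by
  simp only [Th, add_mul, mul_add, sub_mul, mul_sub]; abel

theorem Th_add2 (X y z b a : A) : Th X b (y + z) a = Th X b y a + Th X b z a := by
  simp only [Th, as_add1, add_mul, mul_add]; abel

theorem Up_add1 (X y z b a : A) : Up X (y + z) b a = Up X y b a + Up X z b a := by
  simp only [Up, as_add1, add_mul, mul_add, sub_mul, mul_sub, smul_add]; abel

theorem Up_add2 (X y z b a : A) : Up X b (y + z) a = Up X b y a + Up X b z a := by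
  simp only [Up, as_add1, as_add3, add_mul, mul_add, smul_add]; abel

theorem Th_12 (hA : IsAlt A) (X y z a : A) : Th X z y a = -Th X y z a := by
  have h := Th_self hA X (y + z) a
  rw [Th_add1, Th_add2, Th_add2, Th_self hA, Th_self hA, zero_add, add_zero] at h
  exact eq_neg_of_add_eq_zero_right h

theorem Up_12 (hA : IsAlt A) (X y z a : A) : Up X z y a = -Up X y z a := by
  have h := Up_self hA X (y + z) a
  rw [Up_add1, Up_add2, Up_add2, Up_self hA, Up_self hA, zero_add, add_zero] at h
  exact eq_neg_of_add_eq_zero_right h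

/-- `p ∘ [q, r] + r ∘ [q, p] = [q ∘ p, r] + [q ∘ r, p]` -/
theorem jord (hA : IsAlt A) (p q r : A) :
    (p * (q * r - r * q) + (q * r - r * q) * p) + (r * (q * p - p * q) + (q * p - p * q) * r) =
      ((q * p + p * q) * r - r * (q * p + p * q)) + ((q * r + r * q) * p - p * (q * r + r * q)) := by
  have h1 : as p q r + as r q p = 0 := by rw [sw13 hA p q r]; abel
  simp only [as] at h1
  simp only [mul_add, add_mul, mul_sub, sub_mul]
  linear_combination (norm := abel) (-2 : ℤ) • h1

end Pool.Agent.Lib.MP_bda2fe_al.NuE
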