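import Pool.Agent.Lib.MP_bda2fe_al.S6
import Pool.Agent.Lib.MP_bda2fe_al.NuHz
import Pool.Agent.Lib.MP_bda2fe_al.NuS5

/-!
# `120 ν(a; b, c) (d, s, t)` is a multiple of nine, from the two certificates
-/

namespace Pool.Agent.Lib.MP_bda2fe_al

theorem S6_fin (hId : SuperId)
    (hA : ∀ (C : Type) [NonUnitalNonAssocRing C], IsAlt C → ∀ x y w : C, ∃ v : C,
      NU.nu x y w * y + NuE.EL (x * y) x y w x + NuE.EL w x y y (x * x) + NuE.EL (x * y) w y x x = (9 : ℤ) • v)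
    (C : Type) [NonUnitalNonAssocRing C] (h : IsAlt C) (a b c d s t : C) :
    ∃ w : C, (120 : ℤ) • (NU.nu a b c * NU.as d s t) = (9 : ℤ) • w :=
  S6 hId C h (fun x a b c => NuE.Up_12 h x a b c) (fun x a b c => NuE.Th_12 h x a b c) (hz_of h (hA C h)) a b c d s t

end Pool.Agent.Lib.MP_bda2fe_al
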