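import Pool.Agent.Lib.MP_bda2fe_al.NCertA
import Pool.Agent.Lib.MP_bda2fe_al.NCertC
import Pool.Agent.Lib.MP_bda2fe_al.S6Fin

/-! # The two checked identities in the form used by `S6Fin` -/

namespace Pool.Agent.Lib.MP_bda2fe_al.NC

theorem superId : SuperId := fun _ _ _ h _ _ hx hy => cert_C h hx hy

theorem certA (C : Type) [NonUnitalNonAssocRing C] (hC : IsAlt C) (x y w : C) :
    ∃ v : C, NU.nu x y w * y + NuE.EL (x * y) x y w x + NuE.EL w x y y (x * x) + NuE.EL (x * y) w y x x = (9 : ℤ) • v :=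
  cert_A hC x y w

/-- `120 ν(a; b, c) (d, s, t)` is a multiple of 9 in every alternative ring -/
theorem h2 (C : Type) [NonUnitalNonAssocRing C] (hC : IsAlt C) (a b c d s t : C) :
    ∃ w : C, (120 : ℤ) • (NU.nu a b c * NU.as d s t) = (9 : ℤ) • w :=
  S6_fin superId certA C hC a b c d s t

end Pool.Agent.Lib.MP_bda2fe_al.NC
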