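import Pool.Agent.Lib.MP_bda2fe_al.NChk

/-!
# Reading certificates from numbers

A relation is a number in base 16 (lowest digit first): coefficient, type, the three words in prefix notation (letters `n + 1`,
product 7), then the context from the inside to the outside (8: multiply by the word on the left, 9: on the right).
-/

namespace Pool.Agent.Lib.MP_bda2fe_al.NC

def pW : ℕ → ℕ → W × ℕ
  | 0, n => (W.l 0, n)
  | f + 1, n =>
    bif Nat.beq (n % 16) 7 then
      match pW f (n / 16) with
      | (a, n1) => match pW f n1 with
        | (b, n2) => (W.m a b, n2)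
    else (W.l (n % 16 - 1), n / 16)

def pC : ℕ → ℕ → List (Bool × W)
  | 0, _ => []
  | f + 1, n =>
    bif Nat.beq n 0 then []
    else match pW 20 (n / 16) with
      | (a, n1) => (Nat.beq (n % 16) 8, a) :: pC f n1

def pR (n : ℕ) : Rel :=
  match pW 20 (n / 256) with
  | (a, n1) => match pW 20 n1 with
    | (b, n2) => match pW 20 n2 with
      | (c, n3) => ⟨n % 16, Nat.beq (n / 16 % 16) 1, pC 20 n3, a, b, c⟩

end Pool.Agent.Lib.MP_bda2fe_al.NC
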