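import Pool.Agent.Lib.MP_bda2fe_al.NTab

/-! # The kernel check of the multiplication table -/

namespace Pool.Agent.Lib.MP_bda2fe_al.NT

/-- terms `(k, c)`, meaning `c e_k` -/
def dec : ℕ → ℕ → List (ℕ × ℕ)
  | 0, _ => []
  | f + 1, n => bif Nat.beq n 0 then [] else (n % 128, n / 128 % 32) :: dec f (n / 4096)

/-- the product of `e_i` and `e_j` -/
def tab (i j : ℕ) : List (ℕ × ℕ) := dec 20 ((rows.getD i []).getD j 0)

def dx (i : ℕ) : ℕ := dxs.getD i 9
def dy (i : ℕ) : ℕ := dys.getD i 9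

/-- the parity -/
def par (i : ℕ) : Bool := Nat.beq (dy i % 2) 1

/-- product of formal sums -/
def lm (a b : List (ℕ × ℕ)) : List (ℕ × ℕ) :=
  a.flatMap fun s => b.flatMap fun t => (tab s.1 t.1).map fun r => (r.1, s.2 * t.2 * r.2)

/-- negative -/
def ln (a : List (ℕ × ℕ)) : List (ℕ × ℕ) := a.map fun t => (t.1, 26 * t.2)

/-- associator -/
def la (a b c : List (ℕ × ℕ)) : List (ℕ × ℕ) := lm (lm a b) c ++ ln (lm a (lm b c))

/-- basis element -/
def le (i : ℕ) : List (ℕ × ℕ) := [(i, 1)]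

def ins (k c : ℕ) : List (ℕ × ℕ) → List (ℕ × ℕ)
  | [] => [(k, c)]
  | t :: l => bif Nat.beq t.1 k then (k, (t.2 + c) % 27) :: l else t :: ins k c l

def nrm : List (ℕ × ℕ) → List (ℕ × ℕ)
  | [] => []
  | t :: l => ins t.1 t.2 (nrm l)

def isz (l : List (ℕ × ℕ)) : Bool := (nrm l).all fun t => Nat.beq (t.2 % 27) 0

/-- both laws on a triple -/
def law (i j k : ℕ) (oi oj ok : Bool) : Bool :=
  isz (la (le i) (le j) (le k) ++ bif (oi && oj) then ln (la (le j) (le i) (le k)) else la (le j) (le i) (le k))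
  && isz (la (le i) (le j) (le k) ++ bif (oj && ok) then ln (la (le i) (le k) (le j)) else la (le i) (le k) (le j))

def odd (n : ℕ) : Bool := Nat.beq (n % 2) 1

/-- the check of all triples of total degree at most `(3, 5)` -/
def chk (l : List (ℕ × ℕ × ℕ)) : Bool :=
  l.all fun a => idx.all fun b => bif Nat.ble (a.2.1 + b.2.1) 3 && Nat.ble (a.2.2 + b.2.2) 5 then
    (idx.all fun c => bif Nat.ble (a.2.1 + b.2.1 + c.2.1) 3 && Nat.ble (a.2.2 + b.2.2 + c.2.2) 5 then
      law a.1 b.1 c.1 (odd a.2.2) (odd b.2.2) (odd c.2.2) else true) else true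

theorem chk0 : chk idx = true := by decide +kernel

theorem idx_eq : idx = (List.range 94).map fun i => (i, dx i, dy i) := by decide +kernel

theorem rows_len : rows.length = 94 := by decide +kernel

theorem row_len : (rows.all fun r => Nat.ble r.length 94) = true := by decide +kernel

def chkdeg : Bool :=
  idx.all fun a => idx.all fun b => (tab a.1 b.1).all fun t =>
    Nat.beq (dx t.1) (a.2.1 + b.2.1) && Nat.beq (dy t.1) (a.2.2 + b.2.2) && Nat.ble (dx t.1) 3 && Nat.ble (dy t.1) 5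

theorem chkdeg0 : chkdeg = true := by decide +kernel

/-- the coefficient of the top element -/
def cf (l : List (ℕ × ℕ)) : ℕ := (l.foldr (fun t s => (bif Nat.beq t.1 93 then t.2 else 0) + s) 0) % 27

def lad (a b : List (ℕ × ℕ)) : List (ℕ × ℕ) := a ++ b

/-- `(q r - r q) (y, y, y)`, `q = [y, x]`, `r = q x + x q` -/
def lF : List (ℕ × ℕ) :=
  let x := le 1
  let y := le 0
  let q := lad (lm y x) (ln (lm x y))
  let r := lad (lm q x) (lm x q)
  lm (nrm (lad (lm (nrm q) (nrm r)) (ln (lm (nrm r) (nrm q))))) (nrm (la y y y))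

theorem cfF : cf lF = 24 := by decide +kernel

theorem cfU : ((List.range 94).all fun i => Nat.beq ((9 * cf (la (le i) (le 0) (le 0))) % 27) 0) = true := by decide +kernel

end Pool.Agent.Lib.MP_bda2fe_al.NT
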