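import Pool.Agent.Lib.MP_bda2fe_al.Tower
import Pool.Agent.Lib.MP_bda2fe_al.NuHid

/-!
# From the superidentity to alternative rings

`Q k - 3 (p g + g p) = 9 w` in super-alternative rings gives `120 ν(x; a, b) (c, d, e) ∈ 9 C` in alternative rings `C`.
-/

set_option linter.unusedSectionVars false

namespace Pool.Agent.Lib.MP_bda2fe_al

open SRing

/-- `{q, {q, x}}` for odd `q = [y, x]`. -/
def QQs {S : Type*} [NonUnitalNonAssocRing S] (x y : S) : S :=
  (y * x - x * y) * ((y * x - x * y) * x + x * (y * x - x * y)) - ((y * x - x * y) * x + x * (y * x - x * y)) * (y * x - x * y)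

/-- The superidentity. -/
def SuperId : Prop := ∀ (S : Type) [NonUnitalNonAssocRing S] (H : Bool → S → Prop), SAlt H → ∀ x y : S, H false x → H true y →
  ∃ w : S, QQs x y * as y y y - (3 : ℤ) • (as y y x * as y x (as y y x) + as y x (as y y x) * as y y x) = (9 : ℤ) • w

section
variable {C : Type} [NonUnitalNonAssocRing C]

theorem alt_sw12 (h : IsAlt C) (a b c : C) : as b a c = -as a b c := by
  have h1 := h.left (a + b) c
  have h2 := h.left a c
  have h3 := h.left b c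
  simp only [add_mul, mul_add] at h1
  rw [h2, h3] at h1
  unfold as
  rw [eq_neg_iff_add_eq_zero]
  have h4 : a * (a * c) + b * a * c + (a * b * c + b * (b * c)) - (a * (a * c) + b * (a * c) + (a * (b * c) + b * (b * c))) = 0 :=
    sub_eq_zero.2 (by rw [h1]; try abel)
  rw [← h4]; abel

theorem alt_sw23 (h : IsAlt C) (a b c : C) : as a c b = -as a b c := by
  have h1 := h.right (b + c) a
  have h2 := h.right b a
  have h3 := h.right c a
  simp only [add_mul, mul_add] at h1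
  rw [h2, h3] at h1
  unfold as
  rw [eq_neg_iff_add_eq_zero]
  have h4 : a * (b * b) + a * c * b + (a * b * c + a * (c * c)) - (a * (b * b) + a * (c * b) + (a * (b * c) + a * (c * c))) = 0 :=
    sub_eq_zero.2 (by rw [h1]; try abel)
  rw [← h4]; abel

theorem alt_flex (h : IsAlt C) (a b : C) : a * b * a = a * (b * a) := by
  have h1 := alt_sw23 h a a b
  have h2 : as a a b = 0 := sub_eq_zero.2 (h.left a b)
  rw [h2, neg_zero] at h1
  exact sub_eq_zero.1 h1

/-- `Θ(a, b, c) = [a, x] ∘ (b, x, c)` -/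
def Th (x a b c : C) : C := (a * x - x * a) * as b x c + as b x c * (a * x - x * a)

/-- `U'(a, b, c) = [[a, x], (b, x, c)] - 2 (a, x, (b, x, c))` -/
def Up (x a b c : C) : C := (a * x - x * a) * as b x c - as b x c * (a * x - x * a) - (2 : ℤ) • as a x (as b x c)

theorem as_neg_right' (a b c : C) : as a b (-c) = -as a b c := by
  unfold as; simp only [mul_neg]; abel

variable {S : Type} [SRing S] (T : Lev C S)

theorem lev_q (x : C) (y : ℕ → C) : T.L y * T.i x - T.i x * T.L y = T.L (fun j => y j * x - x * y j) := by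
  rw [T.Li, T.iL, ← map_sub]; rfl

theorem lev_r (x : C) (q : ℕ → C) : T.L q * T.i x + T.i x * T.L q = T.L (fun j => q j * x + x * q j) := by
  rw [T.Li, T.iL, ← map_add]; rfl

theorem lev_Q (h : IsAlt C) (x : C) (y : ℕ → C) : QQs (T.i x) (T.L y) = T.Q (fun j k => NU.nu x (y j) (y k)) := by
  unfold QQs
  rw [lev_q, lev_r, T.LL, T.LL, ← map_sub]
  congr 1
  funext j k
  simp only [Pi.sub_apply]
  have hr : ∀ z : C, (z * x - x * z) * x + x * (z * x - x * z) = z * (x * x) - x * x * z := by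
    intro z
    rw [sub_mul, mul_sub, h.right, ← h.left, alt_flex h]
    abel
  rw [hr, hr]
  simp only [NU.nu, NU.jm, NU.cm]
  abel

theorem lev_k (h : IsAlt C) (y : ℕ → C) : as (T.L y) (T.L y) (T.L y) = (6 : ℤ) • T.K (fun j k l => as (y j) (y k) (y l)) := by
  unfold as
  rw [T.LL, T.QL, T.LQ, ← map_sub, ← map_zsmul]
  congr 1
  funext j k l
  simp only [Pi.sub_apply, Pi.smul_apply]
  have e1 := alt_sw12 h (y j) (y k) (y l)
  have e2 := alt_sw23 h (y j) (y k) (y l)
  have e3 : as (y l) (y j) (y k) = as (y j) (y k) (y l) := by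
    rw [alt_sw12 h (y j) (y l) (y k), alt_sw23 h (y j) (y k) (y l), neg_neg]
  have e4 : as (y k) (y l) (y j) = as (y j) (y k) (y l) := by
    rw [alt_sw23 h (y k) (y j) (y l), alt_sw12 h (y j) (y k) (y l), neg_neg]
  have e5 : as (y l) (y k) (y j) = -as (y j) (y k) (y l) := by
    rw [alt_sw12 h (y k) (y l) (y j), e4]
  have e6 : (6 : ℤ) • as (y j) (y k) (y l) = as (y j) (y k) (y l) - as (y k) (y j) (y l) - as (y j) (y l) (y k) +
      as (y l) (y j) (y k) + as (y k) (y l) (y j) - as (y l) (y k) (y j) := by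
    rw [e1, e2, e3, e4, e5]; abel
  rw [show (y j * y k * y l - y j * (y k * y l)) = as (y j) (y k) (y l) from rfl, e6]
  unfold as
  simp only [mul_sub, sub_mul]
  abel

theorem lev_p (h : IsAlt C) (x : C) (y : ℕ → C) :
    as (T.L y) (T.L y) (T.i x) = (2 : ℤ) • T.Q (fun j k => as (y j) (y k) x) := by
  unfold as
  rw [T.LL, T.Qi, T.Li, T.LL, ← map_sub, ← map_zsmul]
  congr 1
  funext j k
  simp only [Pi.sub_apply, Pi.smul_apply]
  have e1 := alt_sw12 h (y j) (y k) x
  have e6 : (2 : ℤ) • as (y j) (y k) x = as (y j) (y k) x - as (y k) (y j) x := by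
    rw [e1]; abel
  rw [show (y j * y k * x - y j * (y k * x)) = as (y j) (y k) x from rfl, e6]
  unfold as
  simp only [sub_mul]
  abel

theorem lev_V (h : IsAlt C) (hU : ∀ x a b c : C, Up x b a c = -Up x a b c) (x : C) (y : ℕ → C) :
    (2 : ℤ) • as (T.L y) (T.i x) (T.Q (fun j k => as (y j) (y k) x)) -
      ((T.L y * T.i x - T.i x * T.L y) * T.Q (fun j k => as (y j) (y k) x) -
        T.Q (fun j k => as (y j) (y k) x) * (T.L y * T.i x - T.i x * T.L y)) =
      (3 : ℤ) • T.K (fun j k l => Up x (y j) (y k) (y l)) := by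
  rw [lev_q]
  unfold as
  rw [T.Li, T.LQ, T.iQ, T.LQ, T.LQ, T.QL, ← map_sub, ← map_sub, ← map_zsmul, ← map_sub, ← map_zsmul]
  congr 1
  funext j k l
  simp only [Pi.sub_apply, Pi.smul_apply]
  have hsw : ∀ a b c : C, Up x a c b = -Up x a b c := by
    intro a b c
    have e : as c x b = -as b x c := by
      rw [alt_sw12 h x c b, alt_sw23 h x b c, alt_sw12 h b x c]
      simp only [neg_neg]
    simp only [Up, e, mul_neg, neg_mul, as_neg_right']
    abel
  have hv : ∀ a b c : C, Up x a b c = (2 : ℤ) • as a x (as b c x) - ((a * x - x * a) * as b c x - as b c x * (a * x - x * a)) := by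
    intro a b c
    have e : as b x c = -as b c x := alt_sw23 h b c x
    simp only [Up, e, mul_neg, neg_mul, as_neg_right']
    abel
  have e6 : (3 : ℤ) • Up x (y j) (y k) (y l) = Up x (y j) (y k) (y l) - Up x (y k) (y j) (y l) + Up x (y l) (y j) (y k) := by
    rw [hU x (y j) (y k) (y l), hU x (y j) (y l) (y k), hsw (y j) (y k) (y l)]
    abel
  rw [e6, hv, hv, hv]
  unfold as
  simp only [mul_sub, sub_mul, smul_sub, smul_add]
  abel

theorem lev_W (h : IsAlt C) (hT : ∀ x a b c : C, Th x b a c = -Th x a b c) (x : C) (y : ℕ → C) :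
    (T.L y * T.i x - T.i x * T.L y) * T.Q (fun j k => as (y j) (y k) x) +
        T.Q (fun j k => as (y j) (y k) x) * (T.L y * T.i x - T.i x * T.L y) =
      -((3 : ℤ) • T.K (fun j k l => Th x (y j) (y k) (y l))) := by
  rw [lev_q]
  rw [T.LQ, T.QL, ← map_add, ← map_zsmul, ← map_neg]
  congr 1
  funext j k l
  simp only [Pi.add_apply, Pi.smul_apply, Pi.neg_apply]
  have hsw : ∀ a b c : C, Th x a c b = -Th x a b c := by
    intro a b c
    have e : as c x b = -as b x c := by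
      rw [alt_sw12 h x c b, alt_sw23 h x b c, alt_sw12 h b x c]
      simp only [neg_neg]
    simp only [Th, e, mul_neg, neg_mul]
    abel
  have hv : ∀ a b c : C, Th x a b c = -((a * x - x * a) * as b c x + as b c x * (a * x - x * a)) := by
    intro a b c
    have e : as b x c = -as b c x := alt_sw23 h b c x
    simp only [Th, e, mul_neg, neg_mul]
    abel
  have e6 : (3 : ℤ) • Th x (y j) (y k) (y l) = Th x (y j) (y k) (y l) - Th x (y k) (y j) (y l) + Th x (y l) (y j) (y k) := by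
    rw [hT x (y j) (y k) (y l), hT x (y j) (y l) (y k), hsw (y j) (y k) (y l)]
    abel
  rw [e6, hv, hv, hv]
  abel

/-- `2 (p g + g p)` is `12` times something. -/
theorem lev_pg (h : IsAlt C) (hS : IsSAlt S) (hU : ∀ x a b c : C, Up x b a c = -Up x a b c)
    (hT : ∀ x a b c : C, Th x b a c = -Th x a b c) (x : C) (y : ℕ → C) : ∃ Z : S,
    (2 : ℤ) • (as (T.L y) (T.L y) (T.i x) * as (T.L y) (T.i x) (as (T.L y) (T.L y) (T.i x)) +
      as (T.L y) (T.i x) (as (T.L y) (T.L y) (T.i x)) * as (T.L y) (T.L y) (T.i x)) = (12 : ℤ) • Z := by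
  set q : S := T.L y * T.i x - T.i x * T.L y with hq
  set p : S := T.Q (fun j k => as (y j) (y k) x) with hp
  set V : S := T.K (fun j k l => Up x (y j) (y k) (y l)) with hV
  set W : S := T.K (fun j k l => Th x (y j) (y k) (y l)) with hW
  have e1 := lev_p T h x y
  have e2 := lev_V T h hU x y
  have e3 := lev_W T h hT x y
  rw [← hp] at e1 e2 e3
  rw [← hV] at e2
  rw [← hW] at e3
  have e4 : as (T.L y) (T.i x) (as (T.L y) (T.L y) (T.i x)) = (2 : ℤ) • as (T.L y) (T.i x) p := by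
    rw [e1]
    unfold as
    simp only [mul_smul_comm, smul_sub]
  rw [e4, e1]
  set g : S := as (T.L y) (T.i x) p with hg
  -- the flexible law for the even element `p` and the odd element `q`
  have hqo : q ∈ od (S := S) := by
    rw [hq, lev_q]
    exact T.L_od _
  have hpe : p ∈ ev (S := S) := T.Q_ev _
  have hfl : p * q * p = p * (q * p) := by
    have h1 := hS.leo p hpe q hqo p
    rw [hS.sqr p hpe q, add_zero] at h1
    exact sub_eq_zero.1 h1
  have hql : p * p * q = p * (p * q) := sub_eq_zero.1 (hS.sql p hpe q)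
  have hqr : q * p * p = q * (p * p) := sub_eq_zero.1 (hS.sqr p hpe q)
  rw [← hq] at e2 e3
  -- `2 (p g + g p) = p (2 g - [q, p]) + (2 g - [q, p]) p + [q p + p q, p]`
  have key : (2 : ℤ) • (p * g + g * p) = (p * ((2 : ℤ) • g - (q * p - p * q)) + ((2 : ℤ) • g - (q * p - p * q)) * p) +
      ((q * p + p * q) * p - p * (q * p + p * q)) := by
    simp only [mul_sub, sub_mul, mul_add, add_mul, mul_smul_comm, smul_mul_assoc, smul_add]
    rw [hfl, ← hql, hqr]
    abel
  rw [e2, e3] at key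
  refine ⟨p * V + V * p - (W * p - p * W), ?_⟩
  have e5 : (2 : ℤ) • ((2 : ℤ) • p * (2 : ℤ) • g + (2 : ℤ) • g * (2 : ℤ) • p) = (4 : ℤ) • ((2 : ℤ) • (p * g + g * p)) := by
    simp only [mul_smul_comm, smul_mul_assoc, smul_add, smul_smul]
    norm_num
  rw [e5, key]
  simp only [mul_smul_comm, smul_mul_assoc, smul_add, smul_sub, smul_smul, neg_mul, mul_neg, smul_neg, sub_neg_eq_add]
  norm_num
  abel

/-- `Q k` in coordinates. -/
theorem lev_Qk (h : IsAlt C) (x : C) (y : ℕ → C) : QQs (T.i x) (T.L y) * as (T.L y) (T.L y) (T.L y) =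
    (6 : ℤ) • (T.Q (fun j k => NU.nu x (y j) (y k)) * T.K (fun j k l => as (y j) (y k) (y l))) := by
  rw [lev_Q T h, lev_k T h, mul_smul_comm]

end

theorem S6_arith {M : Type} [AddCommGroup M] (F t W Z w02 w03 w04 w12 w13 w14 w23 w24 w34 : M)
    (h1 : (2 : ℤ) • ((6 : ℤ) • (F - (-F + (9 : ℤ) • w02) + (F + (9 : ℤ) • w03) + (F + (9 : ℤ) • w12) - (-F + (9 : ℤ) • w13) +
      (-(-F + (9 : ℤ) • w02) + (9 : ℤ) • w23) - (-F + (9 : ℤ) • w04) + (F + (9 : ℤ) • w14) -
      (-F + (9 : ℤ) • w02 + (9 : ℤ) • w24) + (F + (9 : ℤ) • w03 + (9 : ℤ) • w34)) - (3 : ℤ) • t) = (2 : ℤ) • ((9 : ℤ) • W))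
    (h2 : (3 : ℤ) • ((2 : ℤ) • t) = (3 : ℤ) • ((12 : ℤ) • Z)) : (120 : ℤ) • F = (9 : ℤ) • ((4 : ℤ) • Z + (2 : ℤ) • W -
      (12 : ℤ) • (-(3 : ℤ) • w02 + (2 : ℤ) • w03 + w12 - w13 + w23 - w04 + w14 - w24 + w34)) := by
  have h3 : (120 : ℤ) • F = (2 : ℤ) • ((6 : ℤ) • (F - (-F + (9 : ℤ) • w02) + (F + (9 : ℤ) • w03) + (F + (9 : ℤ) • w12) -
      (-F + (9 : ℤ) • w13) + (-(-F + (9 : ℤ) • w02) + (9 : ℤ) • w23) - (-F + (9 : ℤ) • w04) + (F + (9 : ℤ) • w14) -
      (-F + (9 : ℤ) • w02 + (9 : ℤ) • w24) + (F + (9 : ℤ) • w03 + (9 : ℤ) • w34)) - (3 : ℤ) • t) + (3 : ℤ) • ((2 : ℤ) • t) -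
      (108 : ℤ) • (-(3 : ℤ) • w02 + (2 : ℤ) • w03 + w12 - w13 + w23 - w04 + w14 - w24 + w34) := by
    module
  rw [h3, h1, h2]
  module

/-- `120 ν(x; a, b) (c, d, e)` is a multiple of `9`. -/
theorem S6 (hId : SuperId) (C : Type) [NonUnitalNonAssocRing C] (h : IsAlt C)
    (hU : ∀ x a b c : C, Up x b a c = -Up x a b c) (hT : ∀ x a b c : C, Th x b a c = -Th x a b c)
    (hz : ∀ x a b d e : C, ∃ w : C, NU.nu x a b * as b d e = (9 : ℤ) • w) (x a b c d e : C) :
    ∃ w : C, (120 : ℤ) • (NU.nu x a b * as c d e) = (9 : ℤ) • w := by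
  let y : ℕ → C := fun j => if j = 0 then a else if j = 1 then b else if j = 2 then c else if j = 3 then d else e
  have hS : IsSAlt (D5 (Triv C)) := (Triv.salt h).d5
  obtain ⟨w, hw⟩ := hId (D5 (Triv C)) hm hS.toH ((lev5 C).i x) ((lev5 C).L y) ((lev5 C).i_ev x) ((lev5 C).L_od y)
  obtain ⟨Z, hZ⟩ := lev_pg (lev5 C) h hS hU hT x y
  rw [lev_Qk (lev5 C) h x y, (lev5 C).QK] at hw
  -- the coefficient of `e 0 e 1 e 2 e 3 e 4`
  have h1 := congrArg (fun z => (2 : ℤ) • top5 z) hw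
  have h2 := congrArg (fun z => (3 : ℤ) • top5 z) hZ
  simp only [map_sub, map_zsmul, top5_P] at h1 h2
  -- skew symmetry of `F`
  have n12 : ∀ u v : C, NU.nu x v u = -NU.nu x u v := by
    intro u v; simp only [NU.nu]; abel
  have hz' : ∀ u v s t r : C, ∃ w : C, NU.nu x u v * as s t r = -(NU.nu x u s * as v t r) + (9 : ℤ) • w := by
    intro u v s t r
    obtain ⟨w1, e1⟩ := hz x u (v + s) t r
    obtain ⟨w2, e2⟩ := hz x u v t r
    obtain ⟨w3, e3⟩ := hz x u s t r
    have e4 : NU.nu x u (v + s) = NU.nu x u v + NU.nu x u s := by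
      simp only [NU.nu, NU.jm, NU.cm, mul_add, add_mul, mul_sub, sub_mul]
      abel
    have e5 : as (v + s) t r = as v t r + as s t r := by
      unfold as; simp only [add_mul]; abel
    rw [e4, e5, add_mul, mul_add, mul_add, e2, e3] at e1
    refine ⟨w1 - w2 - w3, ?_⟩
    rw [smul_sub, smul_sub, ← e1]
    abel
  obtain ⟨w02, e02⟩ := hz' a c b d e
  obtain ⟨w03, e03⟩ := hz' a d b c e
  rw [alt_sw12 h c d e, mul_neg, neg_neg] at e03
  obtain ⟨w04, e04⟩ := hz' a e b c d
  rw [alt_sw12 h c e d, alt_sw23 h c d e, neg_neg] at e04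
  obtain ⟨w12, e12⟩ := hz' b c a d e
  rw [n12 a b, neg_mul, neg_neg] at e12
  obtain ⟨w13, e13⟩ := hz' b d a c e
  rw [n12 a b, alt_sw12 h c d e, neg_mul_neg] at e13
  obtain ⟨w14, e14⟩ := hz' b e a c d
  rw [n12 a b, alt_sw12 h c e d, alt_sw23 h c d e, neg_neg, neg_mul, neg_neg] at e14
  obtain ⟨w23, e23⟩ := hz' c d a b e
  rw [n12 a c, alt_sw12 h b d e, neg_mul_neg, e02] at e23
  obtain ⟨w24, e24⟩ := hz' c e a b d
  rw [n12 a c, alt_sw12 h b e d, alt_sw23 h b d e, neg_neg, neg_mul, neg_neg, e02] at e24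
  obtain ⟨w34, e34⟩ := hz' d e a b c
  rw [n12 a d, alt_sw12 h b e c, alt_sw23 h b c e, neg_neg, neg_mul, neg_neg, e03] at e34
  have y0 : y 0 = a := rfl
  have y1 : y 1 = b := rfl
  have y2 : y 2 = c := rfl
  have y3 : y 3 = d := rfl
  have y4 : y 4 = e := rfl
  rw [y0, y1, y2, y3, y4, e02, e03, e04, e12, e13, e14, e23, e24, e34] at h1
  exact ⟨_, S6_arith (M := C) _ _ _ _ _ _ _ _ _ _ _ _ _ h1 h2⟩

end Pool.Agent.Lib.MP_bda2fe_al
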