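import Pool.Agent.Lib.MP_bda2fe_al.NB27
import Pool.Agent.Lib.MP_bda2fe_al.S6

/-! # The super-alternative ring of the table: the existence statement -/

namespace Pool.Agent.Lib.MP_bda2fe_al

theorem table : ∃ (S : Type) (_ : SRing S) (_ : IsSAlt S) (x y : S) (_ : x ∈ SRing.ev (S := S)) (_ : y ∈ SRing.od (S := S))
    (psi : S →+ ZMod 27), (psi (QQs x y * as y y y) = 3 ∨ psi (QQs x y * as y y y) = -3) ∧ ∀ b : S, 9 * psi (as b y y) = 0 :=
  ⟨NT.B, inferInstance, NT.saltB, NT.x, NT.y, NT.hx, NT.hy, NT.psi0, Or.inr NT.hF, NT.hU⟩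

end Pool.Agent.Lib.MP_bda2fe_al
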