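import Pool.Agent.Lib.MP_bda2fe_al.NuE
import Pool.Agent.Lib.MP_bda2fe_al.NuHid

/-!
# The nuclear element `ν`

`nu x y w = EE x w y - EE x y w`, so `nu x y w` is nuclear in every alternative ring.
-/

namespace Pool.Agent.Lib.MP_bda2fe_al.NuE

variable {A : Type} [NonUnitalNonAssocRing A]

theorem qrx (hA : IsAlt A) (x y w : A) :
    as (y * x - x * y) (w * x - x * w) x =
      (x * as y x w - as y x w * x) * x - x * (x * as y x w - as y x w * x) := by
  rw [sw23 hA (y * x - x * y) x (w * x - x * w), as_sub3, m1' hA x w (y * x - x * y), m2' hA x w (y * x - x * y),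
    as_sub1, m1 hA x y w, m2 hA x y w]
  abel

theorem nu_eq (hA : IsAlt A) (x y w : A) : NU.nu x y w = EE x w y - EE x y w := by
  rw [EE_eq hA, EE_eq hA]
  have h1 : uu x y w = (y * x - x * y) * (w * x - x * w) - (x * as y x w - as y x w * x) := by
    have e : as (y * x - x * y) x w = x * as y x w - as y x w * x := by
      rw [as_sub1, m1 hA x y w, m2 hA x y w]
    rw [← e]
    simp only [uu, as, mul_sub]; abel
  have h2 : uu x w y = (w * x - x * w) * (y * x - x * y) + (x * as y x w - as y x w * x) := by
    have e : as (w * x - x * w) x y = -(x * as y x w - as y x w * x) := by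
      rw [as_sub1, m1 hA x w y, m2 hA x w y, sw13 hA y x w, neg_mul, mul_neg]; abel
    rw [← neg_neg (x * as y x w - as y x w * x), ← e]
    simp only [uu, as, mul_sub]; abel
  have h3 := qrx hA x y w
  have h4 : as (y * x - x * y) x (w * x - x * w) = -as (y * x - x * y) (w * x - x * w) x := sw23 hA _ _ _
  have h5 : as (w * x - x * w) x (y * x - x * y) = as (y * x - x * y) (w * x - x * w) x := cyc1 hA _ _ _
  have h6 : as x (w * x - x * w) (y * x - x * y) = -as (y * x - x * y) (w * x - x * w) x := sw13 hA _ _ _
  have h7 : as (w * x - x * w) (y * x - x * y) x = -as (y * x - x * y) (w * x - x * w) x := sw12 hA _ _ _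
  have h8 : as x (y * x - x * y) (w * x - x * w) = as (y * x - x * y) (w * x - x * w) x := cyc2 hA _ _ _
  have h9 : ∀ z : A, z * (x * x) - x * x * z = x * (z * x - x * z) + (z * x - x * z) * x := by
    intro z
    rw [← hA.right x z, hA.left x z]
    simp only [mul_sub, sub_mul, flex hA]; abel
  rw [h1, h2]
  simp only [NU.nu, NU.jm, NU.cm]
  rw [h9, h9]
  generalize as y x w = π at *
  generalize y * x - x * y = q at *
  generalize w * x - x * w = r at *
  clear h1 h2 h9
  simp only [as, mul_add, add_mul, mul_sub, sub_mul] at *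
  linear_combination (norm := abel) -h4 + h5 + h6 + h7 - h8 - h3 - h3

theorem nu_nuc (hA : IsAlt A) (x y w u v : A) : as (NU.nu x y w) u v = 0 := by
  rw [nu_eq hA, as_sub1, EE_nuc hA, EE_nuc hA, sub_zero]

end Pool.Agent.Lib.MP_bda2fe_al.NuE
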