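import Pool.Agent.Lib.MP_bda2fe_al.Gen

/-!
# The four objects and changes of rings
-/

set_option linter.unusedSectionVars false

namespace Pool.Agent.Lib.MP_bda2fe_al

open TensorProduct

/-- `IsId` for `true`, `IsSub` for `false` -/
def Kind (b : Bool) {Φ A : Type} [CommRing Φ] [NonUnitalNonAssocRing A] [Module Φ A] (C : Submodule Φ A) : Prop :=
  if b then IsId C else IsSub C

section maps

variable {Φ Ψ A B : Type} [CommRing Φ] [CommRing Ψ]
  [NonUnitalNonAssocRing A] [Module Φ A] [SMulCommClass Φ A A] [IsScalarTower Φ A A]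
  [NonUnitalNonAssocRing B] [Module Ψ B] [SMulCommClass Ψ B B] [IsScalarTower Ψ B B]

/-- A homomorphism along a homomorphism of rings. -/
structure GHom (g : Φ → Ψ) (p : A → B) : Prop where
  add : ∀ a b, p (a + b) = p a + p b
  mul : ∀ a b, p (a * b) = p a * p b
  smul : ∀ (r : Φ) a, p (r • a) = g r • p a

variable {g : Φ → Ψ} {p : A → B}

theorem GHom.zero (h : GHom g p) : p 0 = 0 := by
  have h1 := h.add 0 0
  rw [add_zero] at h1
  exact left_eq_add.1 h1

theorem GHom.sub (h : GHom g p) (a b : A) : p (a - b) = p a - p b := by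
  have h3 := h.add (a - b) b
  rw [sub_add_cancel] at h3
  rw [h3, add_sub_cancel_right]

/-- The preimage of a submodule. -/
def GHom.pre (h : GHom g p) (M : Submodule Ψ B) : Submodule Φ A where
  carrier := {a | p a ∈ M}
  add_mem' := fun ha hb => by
    change p _ ∈ M
    rw [h.add]
    exact add_mem ha hb
  zero_mem' := by
    change p 0 ∈ M
    rw [h.zero]
    exact zero_mem M
  smul_mem' := fun r a ha => by
    change p _ ∈ M
    rw [h.smul]
    exact M.smul_mem _ ha

theorem GHom.pre_kind (h : GHom g p) (b : Bool) {M : Submodule Ψ B} (hM : Kind b M) : Kind b (h.pre M) := by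
  cases b
  · intro u hu v hv
    change p (u * v) ∈ M
    rw [h.mul]
    exact hM _ hu _ hv
  · intro u hu v
    refine ⟨?_, ?_⟩
    · change p (v * u) ∈ M
      rw [h.mul]
      exact (hM _ hu _).1
    · change p (u * v) ∈ M
      rw [h.mul]
      exact (hM _ hu _).2

variable (h : GHom g p) (hs : Function.Surjective p)
include h hs

theorem surj_nucleus (hB : IsAlt B) {n : A} (hn : n ∈ nucleus Φ A) : p n ∈ nucleus Ψ B := by
  refine (mem_nucleus hB).2 fun u v => ?_
  obtain ⟨u, rfl⟩ := hs u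
  obtain ⟨v, rfl⟩ := hs v
  rw [← h.mul, ← h.mul, ← h.mul, ← h.mul, (hn u v).1]

theorem surj_cent (hB : IsAlt B) {n : A} (hn : n ∈ cent Φ A) : p n ∈ cent Ψ B := by
  refine ⟨surj_nucleus h hs hB hn.1, fun u => ?_⟩
  obtain ⟨u, rfl⟩ := hs u
  rw [← h.mul, ← h.mul, hn.2]

theorem surj_V (hB : IsAlt B) {n : A} (hn : n ∈ V Φ A) : p n ∈ V Ψ B := by
  refine ⟨surj_nucleus h hs hB hn.1, fun u v w => ?_⟩
  obtain ⟨u, rfl⟩ := hs u
  obtain ⟨v, rfl⟩ := hs v
  obtain ⟨w, rfl⟩ := hs w
  rw [← h.mul, ← h.mul, ← h.mul, ← h.mul, ← h.sub, ← h.mul, hn.2, h.zero]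

theorem surj_ZN (hB : IsAlt B) {n : A} (hn : n ∈ ZN Φ A) : p n ∈ ZN Ψ B := by
  have h1 : ZN Φ A ≤ h.pre (ZN Ψ B) := by
    refine ZN_le (h.pre_kind true ZN_id) ?_
    intro n hn a
    change p _ ∈ ZN Ψ B
    rw [h.sub, h.mul, h.mul]
    exact ZN_mem (surj_nucleus h hs hB hn) _
  exact h1 hn

end maps

section mu

variable {E F A B : Type} [CommRing E] [CommRing F]
  [NonUnitalNonAssocRing A] [Module E A] [SMulCommClass E A A] [IsScalarTower E A A]
  [NonUnitalNonAssocRing B] [Module F B] [SMulCommClass F B B] [IsScalarTower F B B]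

/-- `μ : B → A` is linear with respect to `p : A → B` in the sense of bimodules. -/
structure MuHom (g : E → F) (p : A → B) (μ : B → A) : Prop where
  add : ∀ a b, μ (a + b) = μ a + μ b
  mulr : ∀ y v, μ (y * p v) = μ y * v
  mull : ∀ y v, μ (p v * y) = v * μ y
  smul : ∀ (r : E) y, μ (g r • y) = r • μ y

variable {g : E → F} {p : A → B} {μ : B → A} (h : GHom g p) (hm : MuHom g p μ)
include h hm

theorem mu_zero : μ 0 = 0 := by
  have h1 := hm.add 0 0
  rw [add_zero] at h1
  exact left_eq_add.1 h1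

theorem mu_nucleus (hA : IsAlt A) {y : B} (hy : y ∈ nucleus F B) : μ y ∈ nucleus E A := by
  refine (mem_nucleus hA).2 fun u v => ?_
  rw [← hm.mulr, ← hm.mulr, ← hm.mulr, h.mul, (hy _ _).1]

theorem mu_cent (hA : IsAlt A) {y : B} (hy : y ∈ cent F B) : μ y ∈ cent E A := by
  refine ⟨mu_nucleus h hm hA hy.1, fun u => ?_⟩
  rw [← hm.mulr, ← hm.mull, hy.2]

theorem mu_V (hA : IsAlt A) {y : B} (hy : y ∈ V F B) : μ y ∈ V E A := by
  refine ⟨mu_nucleus h hm hA hy.1, fun u v w => ?_⟩
  rw [← hm.mulr, h.sub, h.mul, h.mul, h.mul, h.mul, hy.2, mu_zero h hm]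

theorem mu_ZN (hg : Function.Surjective g) (hs : Function.Surjective p) (hA : IsAlt A) {y : B} (hy : y ∈ ZN F B) : μ y ∈ ZN E A := by
  let I : Submodule F B :=
    { carrier := {y | μ y ∈ ZN E A}
      add_mem' := fun {a b} ha hb => by
        change μ (a + b) ∈ ZN E A
        rw [hm.add]
        exact add_mem ha hb
      zero_mem' := by
        change μ 0 ∈ ZN E A
        rw [mu_zero h hm]
        exact zero_mem _
      smul_mem' := fun f a ha => by
        obtain ⟨r, rfl⟩ := hg f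
        change μ (g r • a) ∈ ZN E A
        rw [hm.smul]
        exact Submodule.smul_mem _ r ha }
  have h1 : ZN F B ≤ I := by
    refine ZN_le ?_ ?_
    · intro y hy w
      obtain ⟨v, rfl⟩ := hs w
      refine ⟨?_, ?_⟩
      · change μ (p v * y) ∈ ZN E A
        rw [hm.mull]
        exact (ZN_id _ hy _).1
      · change μ (y * p v) ∈ ZN E A
        rw [hm.mulr]
        exact (ZN_id _ hy _).2
    · intro n hn w
      obtain ⟨v, rfl⟩ := hs w
      change μ (n * p v - p v * n) ∈ ZN E A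
      have h2 : μ (n * p v - p v * n) = μ n * v - v * μ n := by
        have h3 := hm.add (n * p v - p v * n) (p v * n)
        rw [sub_add_cancel, hm.mulr, hm.mull] at h3
        rw [h3, add_sub_cancel_right]
      rw [h2]
      exact ZN_mem (mu_nucleus h hm hA hn) _
  exact h1 hy

end mu

/-- The properties of the four objects which are used. -/
structure Good (b : Bool) (O : ∀ (Φ A : Type) [CommRing Φ] [NonUnitalNonAssocRing A] [Module Φ A] [SMulCommClass Φ A A]
    [IsScalarTower Φ A A], Submodule Φ A) : Prop where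
  kind : ∀ (Φ A : Type) [CommRing Φ] [NonUnitalNonAssocRing A] [Module Φ A] [SMulCommClass Φ A A] [IsScalarTower Φ A A],
    IsAlt A → Kind b (O Φ A)
  stable : ∀ {Φ A : Type} [CommRing Φ] [NonUnitalNonAssocRing A] [Module Φ A] [SMulCommClass Φ A A] [IsScalarTower Φ A A] {x : ℕ → A},
    IsFreeAlt Φ A x → Stable (O Φ A)
  jm : ∀ {R Φ A A' : Type} [CommRing R] [CommRing Φ] [Algebra R Φ]
    [NonUnitalNonAssocRing A] [Module R A] [SMulCommClass R A A] [IsScalarTower R A A]
    [NonUnitalNonAssocRing A'] [Module Φ A'] [SMulCommClass Φ A' A'] [IsScalarTower Φ A' A'] {j : A → A'} {α : A' → Φ ⊗[R] A}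
    (_ : EX R Φ A A' j α) (_ : IsAlt A') {n : A}, n ∈ O R A → j n ∈ O Φ A'
  flat : ∀ {R Φ A A' : Type} [CommRing R] [CommRing Φ] [Algebra R Φ]
    [NonUnitalNonAssocRing A] [Module R A] [SMulCommClass R A A] [IsScalarTower R A A]
    [NonUnitalNonAssocRing A'] [Module Φ A'] [SMulCommClass Φ A' A'] [IsScalarTower Φ A' A'] {j : A → A'} {α : A' → Φ ⊗[R] A}
    {x : ℕ → A} (h : EX R Φ A A' j α) [Module.Flat R Φ] (_ : IsFreeAlt R A x), O Φ A' ≤ h.im (O R A)
  surj : ∀ {Φ Ψ A B : Type} [CommRing Φ] [CommRing Ψ]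
    [NonUnitalNonAssocRing A] [Module Φ A] [SMulCommClass Φ A A] [IsScalarTower Φ A A]
    [NonUnitalNonAssocRing B] [Module Ψ B] [SMulCommClass Ψ B B] [IsScalarTower Ψ B B] {g : Φ → Ψ} {p : A → B}
    (_ : GHom g p) (_ : Function.Surjective p) (_ : IsAlt B) {n : A}, n ∈ O Φ A → p n ∈ O Ψ B
  mu : ∀ {E F A B : Type} [CommRing E] [CommRing F]
    [NonUnitalNonAssocRing A] [Module E A] [SMulCommClass E A A] [IsScalarTower E A A]
    [NonUnitalNonAssocRing B] [Module F B] [SMulCommClass F B B] [IsScalarTower F B B] {g : E → F} {p : A → B} {μ : B → A}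
    (_ : GHom g p) (_ : MuHom g p μ) (_ : Function.Surjective g) (_ : Function.Surjective p) (_ : IsAlt A) {y : B},
    y ∈ O F B → μ y ∈ O E A

theorem good_nucleus : Good false nucleus where
  kind _ _ _ _ _ _ _ _ := nucleus_sub
  stable hA := nucleus_stable hA
  jm h hA _ hn := h.nucleus_j hA hn
  flat h _ hA := h.nucleus_im hA
  surj h hs hB _ hn := surj_nucleus h hs hB hn
  mu h hm _ _ hA _ hy := mu_nucleus h hm hA hy

theorem good_cent : Good false cent where
  kind _ _ _ _ _ _ _ _ := cent_sub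
  stable hA := cent_stable hA
  jm h hA _ hn := h.cent_j hA hn
  flat h _ hA := h.cent_im hA
  surj h hs hB _ hn := surj_cent h hs hB hn
  mu h hm _ _ hA _ hy := mu_cent h hm hA hy

theorem good_ZN : Good true ZN where
  kind _ _ _ _ _ _ _ _ := ZN_id
  stable hA := ZN_stable hA
  jm h hA _ hn := h.ZN_j hA hn
  flat h _ hA := h.ZN_im hA
  surj h hs hB _ hn := surj_ZN h hs hB hn
  mu h hm hg hs hA _ hy := mu_ZN h hm hg hs hA hy

theorem good_V : Good true V where
  kind _ _ _ _ _ _ _ hA := V_id hA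
  stable hA := by
    rw [← U_eq_V hA.alt]
    exact U_stable hA
  jm h hA _ hn := h.V_j hA hn
  flat h _ hA := h.V_im hA
  surj h hs hB _ hn := surj_V h hs hB hn
  mu h hm _ _ hA _ hy := mu_V h hm hA hy

theorem EX.im_sub {R Φ A A' : Type} [CommRing R] [CommRing Φ] [Algebra R Φ]
    [NonUnitalNonAssocRing A] [Module R A] [SMulCommClass R A A] [IsScalarTower R A A]
    [NonUnitalNonAssocRing A'] [Module Φ A'] [SMulCommClass Φ A' A'] [IsScalarTower Φ A' A'] {j : A → A'} {α : A' → Φ ⊗[R] A}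
    (h : EX R Φ A A' j α) {B : Submodule R A} (hB : IsSub B) : IsSub (h.im B) := by
  intro u hu v hv
  refine Submodule.span_induction (p := fun u _ => u * v ∈ h.im B) ?_ ?_ ?_ ?_ hu
  · rintro _ ⟨a, ha, rfl⟩
    refine Submodule.span_induction (p := fun v _ => j a * v ∈ h.im B) ?_ ?_ ?_ ?_ hv
    · rintro _ ⟨b, hb, rfl⟩
      rw [← h.hom.mul]
      exact h.mem_im (hB _ ha _ hb)
    · rw [mul_zero]
      exact zero_mem _
    · intro u w _ _ h1 h2
      rw [mul_add]
      exact add_mem h1 h2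
    · intro r u _ h1
      rw [mul_smul_comm]
      exact Submodule.smul_mem _ r h1
  · rw [zero_mul]
    exact zero_mem _
  · intro u w _ _ h1 h2
    rw [add_mul]
    exact add_mem h1 h2
  · intro r u _ h1
    rw [smul_mul_assoc]
    exact Submodule.smul_mem _ r h1

theorem EX.im_kind {R Φ A A' : Type} [CommRing R] [CommRing Φ] [Algebra R Φ]
    [NonUnitalNonAssocRing A] [Module R A] [SMulCommClass R A A] [IsScalarTower R A A]
    [NonUnitalNonAssocRing A'] [Module Φ A'] [SMulCommClass Φ A' A'] [IsScalarTower Φ A' A'] {j : A → A'} {α : A' → Φ ⊗[R] A}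
    (h : EX R Φ A A' j α) (b : Bool) {B : Submodule R A} (hB : Kind b B) : Kind b (h.im B) := by
  cases b
  · exact h.im_sub hB
  · exact h.im_id hB

section tensor

variable {k A Φ Ψ : Type} [CommRing k] [NonUnitalNonAssocRing A] [Module k A] [SMulCommClass k A A] [IsScalarTower k A A]
  [CommRing Φ] [Algebra k Φ] [CommRing Ψ] [Algebra k Ψ] {x : ℕ → A}

theorem ex_tensor : EX k Φ A (Φ ⊗[k] A) (fun a => (1 : Φ) ⊗ₜ[k] a) (fun u => u) where
  hom :=
    { add := fun _ _ => TensorProduct.tmul_add _ _ _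
      mul := fun a b => by rw [Algebra.TensorProduct.tmul_mul_tmul, one_mul]
      smul := fun r a => by rw [algebraMap_smul, TensorProduct.tmul_smul] }
  ind p h0 hadd hgen u := by
    induction u using TensorProduct.induction_on with
    | zero => exact h0
    | add u v hu hv => exact hadd u v hu hv
    | tmul q a =>
      have h1 := hgen q a
      rwa [TensorProduct.smul_tmul', smul_eq_mul, mul_one] at h1
  αadd _ _ := rfl
  αgen f a := by rw [TensorProduct.smul_tmul', smul_eq_mul, mul_one]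

/-- The `Φ`-submodule of `Φ ⊗ A` generated by `1 ⊗ B`. -/
def im' (Φ : Type) [CommRing Φ] [Algebra k Φ] (B : Submodule k A) : Submodule Φ (Φ ⊗[k] A) :=
  (ex_tensor (k := k) (Φ := Φ) (A := A)).im B

theorem mem_im' {B : Submodule k A} {a : A} (ha : a ∈ B) : (1 : Φ) ⊗ₜ[k] a ∈ im' Φ B :=
  (ex_tensor (k := k) (Φ := Φ) (A := A)).mem_im ha

/-- `p ⊗ a ↦ g p ⊗ a` -/
noncomputable def tm (A : Type) [NonUnitalNonAssocRing A] [Module k A] (g : Φ →ₗ[k] Ψ) : Φ ⊗[k] A →ₗ[k] Ψ ⊗[k] A :=
  LinearMap.rTensor A g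

theorem tm_tmul (g : Φ →ₗ[k] Ψ) (p : Φ) (a : A) : tm A g (p ⊗ₜ[k] a) = g p ⊗ₜ[k] a := LinearMap.rTensor_tmul _ _ _ _

theorem tm_hom (g : Φ →ₐ[k] Ψ) : GHom (Φ := Φ) (Ψ := Ψ) (A := Φ ⊗[k] A) (B := Ψ ⊗[k] A) g (tm A g.toLinearMap) where
  add u v := map_add _ _ _
  mul u v := by
    induction u using TensorProduct.induction_on with
    | zero => simp only [zero_mul, map_zero]
    | add u u' hu hu' => simp only [add_mul, map_add, hu, hu']
    | tmul p a =>
      induction v using TensorProduct.induction_on with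
      | zero => simp only [mul_zero, map_zero]
      | add v v' hv hv' => simp only [mul_add, map_add, hv, hv']
      | tmul q b =>
        rw [Algebra.TensorProduct.tmul_mul_tmul, tm_tmul, tm_tmul, tm_tmul, Algebra.TensorProduct.tmul_mul_tmul]
        congr 1
        exact map_mul g p q
  smul r u := by
    induction u using TensorProduct.induction_on with
    | zero => simp only [smul_zero, map_zero]
    | add u u' hu hu' => simp only [smul_add, map_add, hu, hu']
    | tmul p a =>
      rw [TensorProduct.smul_tmul', tm_tmul, tm_tmul, TensorProduct.smul_tmul', smul_eq_mul, smul_eq_mul]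
      congr 1
      exact map_mul g r p

theorem tm_surj (g : Φ →ₗ[k] Ψ) (hg : Function.Surjective g) : Function.Surjective (tm A g) := LinearMap.rTensor_surjective A hg

theorem tm_im (g : Φ →ₗ[k] Ψ) {B : Submodule k A} {u : Φ ⊗[k] A} (hu : u ∈ im' Φ B) : tm A g u ∈ im' Ψ B := by
  have key : ∀ f : Φ, tm A g (f • u) ∈ im' Ψ B := by
    refine Submodule.span_induction (p := fun u _ => ∀ f : Φ, tm A g (f • u) ∈ im' Ψ B) ?_ ?_ ?_ ?_ hu
    · rintro _ ⟨a, ha, rfl⟩ f
      rw [TensorProduct.smul_tmul', tm_tmul]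
      have h1 : g (f • (1 : Φ)) ⊗ₜ[k] a = g (f • (1 : Φ)) • ((1 : Ψ) ⊗ₜ[k] a) := by
        rw [TensorProduct.smul_tmul', smul_eq_mul (g (f • (1 : Φ))), mul_one]
      rw [h1]
      exact Submodule.smul_mem _ _ (mem_im' ha)
    · intro f
      rw [smul_zero, map_zero]
      exact zero_mem _
    · intro u v _ _ hu hv f
      rw [smul_add, map_add]
      exact add_mem (hu f) (hv f)
    · intro r u _ hu f
      rw [smul_smul]
      exact hu _
  have h1 := key 1
  rwa [one_smul] at h1

/-- The images of the objects are completely characteristic over all rings. -/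
theorem im_stable {b : Bool} {O : ∀ (Φ A : Type) [CommRing Φ] [NonUnitalNonAssocRing A] [Module Φ A] [SMulCommClass Φ A A]
    [IsScalarTower Φ A A], Submodule Φ A} (hO : Good b O) (hA : IsFreeAlt k A x) (D : Type) [CommRing D] [Algebra k D] :
    Stable (im' D (O k A)) := by
  intro φ c hc
  let P : Type := MvPolynomial D k
  let g : P →ₐ[k] D := MvPolynomial.aeval fun d => d
  have hg : Function.Surjective g := fun d => ⟨MvPolynomial.X d, MvPolynomial.aeval_X _ d⟩
  have hs := tm_surj (A := A) g.toLinearMap hg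
  choose w hw using fun i : ℕ => hs (φ ((1 : D) ⊗ₜ[k] x i))
  obtain ⟨ψ, hψ, _⟩ := (free_tensor P hA).lift (P ⊗[k] A) (alt_tensor hA.alt) w
  have h1 : (fun a => tm A g.toLinearMap (ψ ((1 : P) ⊗ₜ[k] a))) = fun a => φ ((1 : D) ⊗ₜ[k] a) := by
    refine hom_eq (Φ := D) hA (alt_tensor hA.alt) ⟨fun a b => ?_, fun a b => ?_, fun r a => ?_⟩ ⟨fun a b => ?_, fun a b => ?_, fun r a => ?_⟩
      fun m => ?_
    · rw [TensorProduct.tmul_add, map_add, map_add]
    · rw [← (tm_hom g).mul, ← map_mul, Algebra.TensorProduct.tmul_mul_tmul, one_mul]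
    · have e1 : (1 : P) ⊗ₜ[k] (r • a) = algebraMap k P r • ((1 : P) ⊗ₜ[k] a) := by
        rw [algebraMap_smul, TensorProduct.tmul_smul]
      rw [e1, map_smul, (tm_hom g).smul]
      congr 1
      exact g.commutes r
    · rw [TensorProduct.tmul_add, map_add]
    · rw [← map_mul, Algebra.TensorProduct.tmul_mul_tmul, one_mul]
    · rw [TensorProduct.tmul_smul, ← map_smul, algebraMap_smul]
    · rw [hψ, hw]
  refine Submodule.span_induction (p := fun c _ => φ c ∈ im' D (O k A)) ?_ ?_ ?_ ?_ hc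
  · rintro _ ⟨a, ha, rfl⟩
    have h2 : tm A g.toLinearMap (ψ ((1 : P) ⊗ₜ[k] a)) = φ ((1 : D) ⊗ₜ[k] a) := congrFun h1 a
    rw [← h2]
    refine tm_im _ ?_
    have h3 : (1 : P) ⊗ₜ[k] a ∈ O P (P ⊗[k] A) := hO.jm ex_tensor (alt_tensor hA.alt) ha
    exact hO.flat (ex_tensor (k := k) (Φ := P) (A := A)) hA (hO.stable (free_tensor P hA) ψ _ h3)
  · rw [map_zero]
    exact zero_mem _
  · intro u v _ _ hu hv
    rw [map_add]
    exact add_mem hu hv
  · intro r u _ hu
    rw [map_smul]
    exact Submodule.smul_mem _ r hu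

end tensor

end Pool.Agent.Lib.MP_bda2fe_al
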