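import Pool.Agent.Lib.MP_bda2fe_al.Gen

/-!
# The coefficients of generic substitutions

`T J` is the substitution `x m ↦ ∑ i ∈ J m, t (m, i) ⊗ x (m, i)`.
-/

set_option linter.unusedSectionVars false

namespace Pool.Agent.Lib.MP_bda2fe_al

open TensorProduct MvPolynomial

/-- polynomials in `t (m, i)` -/
abbrev PV (k : Type) [Field k] : Type := MvPolynomial (ℕ × ℕ) k

variable {k A : Type} [Field k] [NonUnitalNonAssocRing A] [Module k A] [SMulCommClass k A A] [IsScalarTower k A A] {x : ℕ → A}

/-- the coefficient of a monomial -/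
noncomputable def cf (k : Type) [Field k] (μ : ℕ × ℕ →₀ ℕ) : PV k →ₗ[k] k := (basisMonomials (ℕ × ℕ) k).coord μ

theorem cf_apply (μ : ℕ × ℕ →₀ ℕ) (p : PV k) : cf k μ p = coeff μ p := rfl

theorem exp_mon (w : PV k ⊗[k] A) : ∃ s : Finset (ℕ × ℕ →₀ ℕ),
    (∀ μ, μ ∉ s → kap (cf k μ) w = 0) ∧ w = ∑ μ ∈ s, (monomial μ 1 : PV k) ⊗ₜ[k] kap (cf k μ) w :=
  exp_basis (basisMonomials (ℕ × ℕ) k) w

theorem exists_T (hA : IsFreeAlt k A x) (J : ℕ → Finset ℕ) : ∃ T : A →ₙₐ[k] PV k ⊗[k] A,
    ∀ m, T (x m) = ∑ i ∈ J m, (X (m, i) : PV k) ⊗ₜ[k] x (Nat.pair m i) := by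
  obtain ⟨T, hT, _⟩ := hA.lift (PV k ⊗[k] A) (alt_tensor hA.alt) fun m => ∑ i ∈ J m, (X (m, i) : PV k) ⊗ₜ[k] x (Nat.pair m i)
  exact ⟨T, hT⟩

/-- The generic substitution. -/
noncomputable def T (hA : IsFreeAlt k A x) (J : ℕ → Finset ℕ) : A →ₙₐ[k] PV k ⊗[k] A := (exists_T hA J).choose

theorem T_x (hA : IsFreeAlt k A x) (J : ℕ → Finset ℕ) (m : ℕ) :
    T hA J (x m) = ∑ i ∈ J m, (X (m, i) : PV k) ⊗ₜ[k] x (Nat.pair m i) := (exists_T hA J).choose_spec m

/-- the degree of a monomial -/
def dg (μ : ℕ × ℕ →₀ ℕ) : ℕ := μ.sum fun _ n => n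

theorem dg_add (μ ν : ℕ × ℕ →₀ ℕ) : dg (μ + ν) = dg μ + dg ν :=
  Finsupp.sum_add_index' (fun _ => rfl) fun _ _ _ => rfl

/-- The degree is at most `d`. -/
def DegLe (d : ℕ) (w : PV k ⊗[k] A) : Prop := ∀ μ, d < dg μ → kap (cf k μ) w = 0

theorem DegLe.mono {d e : ℕ} (hde : d ≤ e) {w : PV k ⊗[k] A} (h : DegLe d w) : DegLe e w := fun μ hμ => h μ (lt_of_le_of_lt hde hμ)

theorem DegLe.mul {d e : ℕ} {w v : PV k ⊗[k] A} (hw : DegLe d w) (hv : DegLe e v) : DegLe (d + e) (w * v) := by
  classical
  intro ρ hρ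
  obtain ⟨s, _, hs⟩ := exp_mon w
  obtain ⟨t, _, ht⟩ := exp_mon v
  rw [hs, ht, Finset.sum_mul_sum, map_sum]
  refine Finset.sum_eq_zero fun μ _ => ?_
  rw [map_sum]
  refine Finset.sum_eq_zero fun ν _ => ?_
  rw [Algebra.TensorProduct.tmul_mul_tmul, kap_tmul, monomial_mul, cf_apply, coeff_monomial]
  by_cases h1 : μ + ν = ρ
  · have h2 : d < dg μ ∨ e < dg ν := by
      rw [← h1, dg_add] at hρ
      omega
    rcases h2 with h2 | h2
    · rw [hw μ h2, zero_mul, smul_zero]
    · rw [hv ν h2, mul_zero, smul_zero]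
  · rw [if_neg h1, zero_smul]

theorem deg_bound (hA : IsFreeAlt k A x) (s : A) : ∃ d, ∀ J, DegLe d (T hA J s) := by
  classical
  let N : NonUnitalSubalgebra k A :=
    { carrier := {s | ∃ d, ∀ J, DegLe d (T hA J s)}
      add_mem' := by
        rintro u v ⟨d, hd⟩ ⟨e, he⟩
        refine ⟨max d e, fun J μ hμ => ?_⟩
        rw [map_add, map_add, (hd J).mono (le_max_left _ _) μ hμ, (he J).mono (le_max_right _ _) μ hμ, add_zero]
      zero_mem' := ⟨0, fun J μ _ => by rw [map_zero, map_zero]⟩
      mul_mem' := by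
        rintro u v ⟨d, hd⟩ ⟨e, he⟩
        refine ⟨d + e, fun J => ?_⟩
        rw [map_mul]
        exact (hd J).mul (he J)
      smul_mem' := by
        rintro c u ⟨d, hd⟩
        refine ⟨d, fun J μ hμ => ?_⟩
        rw [map_smul, map_smul, hd J μ hμ, smul_zero] }
  refine mem_of_gen hA N (fun m => ⟨1, fun J μ hμ => ?_⟩) s
  rw [T_x, map_sum]
  refine Finset.sum_eq_zero fun i _ => ?_
  rw [kap_tmul, cf_apply, coeff_X, if_neg, zero_smul]
  intro h1
  rw [← h1] at hμ
  have h2 : dg (Finsupp.single (m, i) 1) = 1 := by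
    unfold dg
    rw [Finsupp.sum_single_index rfl]
  omega

section red

variable (S : Finset (ℕ × ℕ)) (σ : ℕ × ℕ → ℕ)

open Classical in
/-- the substitution `t v ↦ t (v.1, σ v)` for `v ∈ S`, `t v ↦ 0` for `v ∉ S` -/
noncomputable def rho (k : Type) [Field k] : PV k →ₐ[k] PV k := aeval fun v => if v ∈ S then X (v.1, σ v) else 0

theorem coeff_rho (hσ : Set.InjOn σ S) {μ : ℕ × ℕ →₀ ℕ} (hμ : μ.support = S) (p : PV k) :
    coeff (μ.mapDomain fun v => (v.1, σ v)) (rho S σ k p) = coeff μ p := by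
  classical
  have hτ : Set.InjOn (fun v : ℕ × ℕ => (v.1, σ v)) (S : Set (ℕ × ℕ)) := fun v hv w hw h => hσ hv hw (congrArg Prod.snd h)
  induction p using MvPolynomial.induction_on' with
  | add p q hp hq => rw [map_add, coeff_add, coeff_add, hp, hq]
  | monomial ν r =>
    by_cases h1 : (ν.support : Set (ℕ × ℕ)) ⊆ S
    · have h2 : rho S σ k (monomial ν r) = monomial (ν.mapDomain fun v => (v.1, σ v)) r := by
        unfold rho
        rw [aeval_monomial, monomial_eq, Finsupp.prod_mapDomain_index (fun _ => pow_zero _) (fun _ _ _ => pow_add _ _ _)]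
        congr 1
        refine Finsupp.prod_congr fun v hv => ?_
        have hvS : v ∈ S := h1 hv
        rw [if_pos hvS]
      rw [h2, coeff_monomial, coeff_monomial]
      by_cases h3 : ν = μ
      · rw [h3, if_pos rfl, if_pos rfl]
      · rw [if_neg h3, if_neg]
        intro h4
        exact h3 (Finsupp.mapDomain_injOn _ hτ h1 (by
          change (μ.support : Set (ℕ × ℕ)) ⊆ S
          rw [hμ]) h4)
    · obtain ⟨v, hv, hvS⟩ := Set.not_subset.1 h1
      have h2 : rho S σ k (monomial ν r) = 0 := by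
        unfold rho
        rw [aeval_monomial, Finsupp.prod, Finset.prod_eq_zero hv, mul_zero]
        have hvS' : v ∉ S := fun h => hvS h
        rw [if_neg hvS', zero_pow]
        exact Finsupp.mem_support_iff.1 hv
      rw [h2, coeff_zero, coeff_monomial, if_neg]
      intro h3
      rw [h3, hμ] at hv
      exact hvS hv

end red

/-- All coefficients of the generic substitutions are images of those with `d` summands. -/
theorem reduce (hA : IsFreeAlt k A x) (s : A) {d : ℕ} (hd : ∀ J, DegLe d (T hA J s)) (J : ℕ → Finset ℕ) (μ : ℕ × ℕ →₀ ℕ) :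
    ∃ (θ : A →ₙₐ[k] A) (ν : ℕ × ℕ →₀ ℕ), kap (cf k μ) (T hA J s) = θ (kap (cf k ν) (T hA (fun _ => Finset.range d) s)) := by
  classical
  by_cases hμd : d < dg μ
  · exact ⟨0, μ, by rw [hd J μ hμd]; rfl⟩
  push Not at hμd
  -- an injection of the support
  have hcard : μ.support.card ≤ d := by
    refine le_trans ?_ hμd
    unfold dg
    rw [Finsupp.sum, Finset.card_eq_sum_ones]
    exact Finset.sum_le_sum fun v hv => Nat.one_le_iff_ne_zero.2 (Finsupp.mem_support_iff.1 hv)
  let σ : ℕ × ℕ → ℕ := fun v => if h : v ∈ μ.support then (μ.support.equivFin ⟨v, h⟩ : ℕ) else 0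
  have hσ : Set.InjOn σ μ.support := by
    intro v hv w hw h
    have hv' : v ∈ μ.support := hv
    have hw' : w ∈ μ.support := hw
    simp only [σ, dif_pos hv', dif_pos hw'] at h
    have h1 := μ.support.equivFin.injective (Fin.ext h)
    exact congrArg Subtype.val h1
  have hσd : ∀ v ∈ μ.support, σ v < d := by
    intro v hv
    simp only [σ, dif_pos hv]
    exact lt_of_lt_of_le (Fin.is_lt _) hcard
  -- the endomorphism of `A`
  let g : ℕ → A := fun n => if h : ∃ v ∈ μ.support, v.1 = n.unpair.1 ∧ v.2 ∈ J v.1 ∧ σ v = n.unpair.2 then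
    x (Nat.pair h.choose.1 h.choose.2) else 0
  obtain ⟨θ, hθ, _⟩ := hA.lift A hA.alt g
  have hg1 : ∀ m i, (m, i) ∈ μ.support → i ∈ J m → g (Nat.pair m (σ (m, i))) = x (Nat.pair m i) := by
    intro m i hmi hi
    have h1 : ∃ v ∈ μ.support, v.1 = (Nat.pair m (σ (m, i))).unpair.1 ∧ v.2 ∈ J v.1 ∧ σ v = (Nat.pair m (σ (m, i))).unpair.2 :=
      ⟨(m, i), hmi, by rw [Nat.unpair_pair], hi, by rw [Nat.unpair_pair]⟩
    simp only [g]
    rw [dif_pos h1]
    obtain ⟨h2, h3, h4, h5⟩ := h1.choose_spec
    have h6 : h1.choose = (m, i) := hσ h2 hmi (h5.trans (by rw [Nat.unpair_pair]))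
    rw [h6]
  have hg0 : ∀ m l, (¬ ∃ i ∈ J m, (m, i) ∈ μ.support ∧ σ (m, i) = l) → g (Nat.pair m l) = 0 := by
    intro m l h
    simp only [g]
    rw [dif_neg]
    rintro ⟨⟨m', i⟩, h2, h3, h4, h5⟩
    rw [Nat.unpair_pair] at h3 h5
    simp only at h3 h4 h5
    subst h3
    exact h ⟨i, h4, h2, h5⟩
  refine ⟨θ, μ.mapDomain fun v => (v.1, σ v), ?_⟩
  -- the two homomorphisms agree
  have key : (fun s => LinearMap.rTensor A (rho μ.support σ k).toLinearMap (T hA J s)) =
      fun s => LinearMap.lTensor (PV k) (θ : A →ₗ[k] A) (T hA (fun _ => Finset.range d) s) := by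
    have hm1 : ∀ u v : PV k ⊗[k] A, LinearMap.rTensor A (rho μ.support σ k).toLinearMap (u * v) =
        LinearMap.rTensor A (rho μ.support σ k).toLinearMap u * LinearMap.rTensor A (rho μ.support σ k).toLinearMap v := by
      intro u v
      induction u using TensorProduct.induction_on with
      | zero => simp only [zero_mul, map_zero]
      | add u u' hu hu' => simp only [add_mul, map_add, hu, hu']
      | tmul p a =>
        induction v using TensorProduct.induction_on with
        | zero => simp only [mul_zero, map_zero]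
        | add v v' hv hv' => simp only [mul_add, map_add, hv, hv']
        | tmul q b =>
          rw [Algebra.TensorProduct.tmul_mul_tmul, LinearMap.rTensor_tmul, LinearMap.rTensor_tmul, LinearMap.rTensor_tmul,
            Algebra.TensorProduct.tmul_mul_tmul]
          congr 1
          exact map_mul (rho μ.support σ k) p q
    have hm2 : ∀ u v : PV k ⊗[k] A, LinearMap.lTensor (PV k) (θ : A →ₗ[k] A) (u * v) =
        LinearMap.lTensor (PV k) (θ : A →ₗ[k] A) u * LinearMap.lTensor (PV k) (θ : A →ₗ[k] A) v := by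
      intro u v
      induction u using TensorProduct.induction_on with
      | zero => simp only [zero_mul, map_zero]
      | add u u' hu hu' => simp only [add_mul, map_add, hu, hu']
      | tmul p a =>
        induction v using TensorProduct.induction_on with
        | zero => simp only [mul_zero, map_zero]
        | add v v' hv hv' => simp only [mul_add, map_add, hv, hv']
        | tmul q b =>
          rw [Algebra.TensorProduct.tmul_mul_tmul, LinearMap.lTensor_tmul, LinearMap.lTensor_tmul, LinearMap.lTensor_tmul,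
            Algebra.TensorProduct.tmul_mul_tmul]
          congr 1
          exact map_mul θ a b
    refine hom_eq (Φ := PV k) hA (alt_tensor hA.alt) ⟨fun a b => ?_, fun a b => ?_, fun r a => ?_⟩ ⟨fun a b => ?_, fun a b => ?_, fun r a => ?_⟩
      fun m => ?_
    · rw [map_add, map_add]
    · rw [map_mul, hm1]
    · rw [map_smul, map_smul, algebraMap_smul]
    · rw [map_add, map_add]
    · rw [map_mul, hm2]
    · rw [map_smul, map_smul, algebraMap_smul]
    · rw [T_x, T_x, map_sum, map_sum]
      have e1 : ∀ i, LinearMap.rTensor A (rho μ.support σ k).toLinearMap ((X (m, i) : PV k) ⊗ₜ[k] x (Nat.pair m i)) =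
          if (m, i) ∈ μ.support then (X (m, σ (m, i)) : PV k) ⊗ₜ[k] x (Nat.pair m i) else 0 := by
        intro i
        rw [LinearMap.rTensor_tmul]
        have e2 : (rho μ.support σ k).toLinearMap (X (m, i)) = if (m, i) ∈ μ.support then X (m, σ (m, i)) else 0 := by
          change rho μ.support σ k (X (m, i)) = _
          unfold rho
          rw [aeval_X]
        rw [e2]
        split_ifs
        · rfl
        · exact TensorProduct.zero_tmul _ _
      have e3 : ∀ l, LinearMap.lTensor (PV k) (θ : A →ₗ[k] A) ((X (m, l) : PV k) ⊗ₜ[k] x (Nat.pair m l)) =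
          (X (m, l) : PV k) ⊗ₜ[k] g (Nat.pair m l) := by
        intro l
        rw [LinearMap.lTensor_tmul]
        congr 1
        exact hθ _
      simp only [e1, e3]
      rw [← Finset.sum_filter]
      have e4 : ((J m).filter fun i => (m, i) ∈ μ.support).image (fun i => σ (m, i)) ⊆ Finset.range d := by
        intro l hl
        obtain ⟨i, hi, rfl⟩ := Finset.mem_image.1 hl
        exact Finset.mem_range.2 (hσd _ (Finset.mem_filter.1 hi).2)
      rw [← Finset.sum_subset e4, Finset.sum_image]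
      · refine Finset.sum_congr rfl fun i hi => ?_
        rw [Finset.mem_filter] at hi
        rw [hg1 m i hi.2 hi.1]
      · intro i hi i' hi' h
        rw [Finset.coe_filter] at hi hi'
        exact congrArg Prod.snd (hσ hi.2 hi'.2 h)
      · intro l _ hl
        rw [hg0 m l, TensorProduct.tmul_zero]
        rintro ⟨i, hi, hi2, hi3⟩
        exact hl (Finset.mem_image.2 ⟨i, Finset.mem_filter.2 ⟨hi, hi2⟩, hi3⟩)
  have h1 : ∀ w : PV k ⊗[k] A, kap (cf k (μ.mapDomain fun v => (v.1, σ v))) (LinearMap.rTensor A (rho μ.support σ k).toLinearMap w) =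
      kap (cf k μ) w := by
    intro w
    induction w using TensorProduct.induction_on with
    | zero => simp only [map_zero]
    | add u v hu hv => simp only [map_add, hu, hv]
    | tmul p a =>
      rw [LinearMap.rTensor_tmul, kap_tmul, kap_tmul, cf_apply, cf_apply]
      congr 1
      exact coeff_rho μ.support σ hσ rfl p
  have h2 : ∀ (l : PV k →ₗ[k] k) (w : PV k ⊗[k] A), kap l (LinearMap.lTensor (PV k) (θ : A →ₗ[k] A) w) = θ (kap l w) := by
    intro l w
    induction w using TensorProduct.induction_on with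
    | zero => simp only [map_zero]
    | add u v hu hv => simp only [map_add, hu, hv]
    | tmul p a =>
      rw [LinearMap.lTensor_tmul, kap_tmul, kap_tmul, map_smul]
      rfl
  have h3 : LinearMap.rTensor A (rho μ.support σ k).toLinearMap (T hA J s) =
      LinearMap.lTensor (PV k) (θ : A →ₗ[k] A) (T hA (fun _ => Finset.range d) s) := congrFun key s
  rw [← h1, h3, h2]

end Pool.Agent.Lib.MP_bda2fe_al
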