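import Pool.Agent.Lib.MP_bda2fe_al.Lift

/-!
# The test ring

`TR R ι I` is the ring `R[t_i : i ∈ ι] / (t_i t_j, r t_i : r ∈ I i)`, that is `R ⊕ ⨁ (R / I i)` with square zero.
-/

set_option linter.unusedSectionVars false

namespace Pool.Agent.Lib.MP_bda2fe_al

open TensorProduct MvPolynomial

section
variable (R ι : Type) [CommRing R] (I : ι → Ideal R)

/-- the relations `t_i t_j = 0` and `r t_i = 0` for `r ∈ I i` -/
noncomputable def TRrel : Ideal (MvPolynomial ι R) :=
  Ideal.span ({p | ∃ i j, p = X i * X j} ∪ {p | ∃ i, ∃ r ∈ I i, p = C r * X i})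

/-- The ring `R[t_i : i ∈ ι] / (t_i t_j, r t_i : r ∈ I i)`. -/
abbrev TR : Type := MvPolynomial ι R ⧸ TRrel R ι I
end

variable {R ι : Type} [CommRing R] {I : ι → Ideal R}

theorem TR_mul (i j : ι) : Ideal.Quotient.mk (TRrel R ι I) (X i * X j) = 0 :=
  Ideal.Quotient.eq_zero_iff_mem.2 (Ideal.subset_span (Or.inl ⟨i, j, rfl⟩))

theorem TR_rel (i : ι) {r : R} (hr : r ∈ I i) : Ideal.Quotient.mk (TRrel R ι I) (C r * X i) = 0 :=
  Ideal.Quotient.eq_zero_iff_mem.2 (Ideal.subset_span (Or.inr ⟨i, r, hr, rfl⟩))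

/-- A homomorphism from the test ring. -/
noncomputable def TRlift {D : Type} [CommRing D] [Algebra R D] (f : ι → D) (h1 : ∀ i j, f i * f j = 0)
    (h2 : ∀ i, ∀ r ∈ I i, algebraMap R D r * f i = 0) : TR R ι I →ₐ[R] D :=
  Ideal.Quotient.liftₐ (TRrel R ι I) (aeval f) (by
    intro a ha
    have h3 : TRrel R ι I ≤ RingHom.ker (aeval f : MvPolynomial ι R →ₐ[R] D) := by
      refine Ideal.span_le.2 ?_
      rintro p (⟨i, j, rfl⟩ | ⟨i, r, hr, rfl⟩)
      · change aeval f (X i * X j) = 0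
        rw [map_mul, aeval_X, aeval_X, h1]
      · change aeval f (C r * X i) = 0
        rw [map_mul, aeval_X, aeval_C, h2 i r hr]
    exact h3 ha)

theorem TRlift_mk {D : Type} [CommRing D] [Algebra R D] (f : ι → D) (h1 : ∀ i j, f i * f j = 0)
    (h2 : ∀ i, ∀ r ∈ I i, algebraMap R D r * f i = 0) (p : MvPolynomial ι R) :
    TRlift (I := I) f h1 h2 (Ideal.Quotient.mk _ p) = aeval f p := rfl

/-- The projection to `R`. -/
noncomputable def TRpi : TR R ι I →ₐ[R] R := TRlift (fun _ => 0) (fun _ _ => mul_zero _) (fun _ _ _ => mul_zero _)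

theorem TRpi_surj : Function.Surjective (TRpi : TR R ι I →ₐ[R] R) := fun r => ⟨algebraMap R _ r, by
  rw [AlgHom.commutes]
  rfl⟩

open Classical in
/-- The homomorphism to `(R / I i)[ε]` with `t_i ↦ ε`. -/
noncomputable def TRg (i : ι) : TR R ι I →ₐ[R] DualNumber (R ⧸ I i) :=
  TRlift (fun j => if j = i then DualNumber.eps else 0)
    (fun j l => by
      split_ifs
      · exact DualNumber.eps_mul_eps
      · exact mul_zero _
      · exact zero_mul _
      · exact zero_mul _)
    (fun j r hr => by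
      split_ifs with h
      · subst h
        ext
        · simp [TrivSqZeroExt.algebraMap_eq_inl']
        · have h1 : (Ideal.Quotient.mk (I j)) r = 0 := Ideal.Quotient.eq_zero_iff_mem.2 hr
          simp [TrivSqZeroExt.algebraMap_eq_inl', h1]
      · exact mul_zero _)

theorem TR_smul (i : ι) (r : R) : r • (Ideal.Quotient.mk (TRrel R ι I) (X i)) = Ideal.Quotient.mk _ (C r * X i) := by
  rw [← MvPolynomial.smul_eq_C_mul]
  rfl

/-- `r ↦ r t_i` -/
noncomputable def TRtau (i : ι) : (R ⧸ I i) →ₗ[R] TR R ι I :=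
  Submodule.liftQ (I i) (LinearMap.toSpanSingleton R (TR R ι I) (Ideal.Quotient.mk _ (X i))) (by
    intro r hr
    rw [LinearMap.mem_ker, LinearMap.toSpanSingleton_apply]
    exact (TR_smul i r).trans (TR_rel (I := I) i hr))

theorem TRtau_mk (i : ι) (r : R) : TRtau (I := I) i (Ideal.Quotient.mk (I i) r) = Ideal.Quotient.mk _ (C r * X i) := by
  have h1 : TRtau (I := I) i (Ideal.Quotient.mk (I i) r) = r • (Ideal.Quotient.mk (TRrel R ι I) (X i)) := rfl
  exact h1.trans (TR_smul i r)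

theorem TRtau_mul (i : ι) (e : TR R ι I) (f : R ⧸ I i) :
    TRtau i (Ideal.Quotient.mk (I i) (TRpi e) * f) = e * TRtau i f := by
  obtain ⟨p, rfl⟩ := Ideal.Quotient.mk_surjective e
  obtain ⟨r, rfl⟩ := Ideal.Quotient.mk_surjective f
  rw [← map_mul, TRtau_mk, TRtau_mk, ← map_mul]
  have h0 : TRpi (I := I) (Ideal.Quotient.mk _ p) = aeval (fun _ => (0 : R)) p := rfl
  rw [h0]
  induction p using MvPolynomial.induction_on with
  | C a =>
    rw [aeval_C, ← mul_assoc, ← map_mul]
    rfl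
  | add p q hp hq =>
    rw [map_add, add_mul, add_mul, map_add, map_add, add_mul, map_add, hp rfl, hq rfl]
  | mul_X p j _ =>
    have h2 : aeval (fun _ => (0 : R)) (p * X j) = 0 := by rw [map_mul, aeval_X, mul_zero]
    rw [h2, zero_mul, map_zero, zero_mul, map_zero]
    have h1 : p * X j * (C r * X i) = p * C r * (X j * X i) := by ring
    rw [h1, map_mul, TR_mul, mul_zero]

theorem TRsnd (i : ι) (f : R ⧸ I i) : TrivSqZeroExt.snd (TRg (I := I) i (TRtau i f)) = f := by
  classical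
  obtain ⟨r, rfl⟩ := Ideal.Quotient.mk_surjective f
  rw [TRtau_mk]
  have h1 : TRg (I := I) i (Ideal.Quotient.mk _ (C r * X i)) =
      aeval (fun j => if j = i then (DualNumber.eps : DualNumber (R ⧸ I i)) else 0) (C r * X i) := rfl
  rw [h1, map_mul, aeval_X, aeval_C, if_pos rfl, TrivSqZeroExt.algebraMap_eq_inl']
  simp

/-- Almost all `TRg i` agree with the projection on a given element. -/
theorem TR_unseen (e : TR R ι I) : ∃ V : Finset ι, ∀ i, i ∉ V → TRg i e = algebraMap R _ (TRpi e) := by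
  classical
  obtain ⟨p, rfl⟩ := Ideal.Quotient.mk_surjective e
  have h0 : TRpi (I := I) (Ideal.Quotient.mk _ p) = aeval (fun _ => (0 : R)) p := rfl
  rw [h0]
  have h1 : ∀ i, TRg (I := I) i (Ideal.Quotient.mk _ p) =
      aeval (fun j => if j = i then (DualNumber.eps : DualNumber (R ⧸ I i)) else 0) p := fun i => rfl
  simp only [h1]
  clear h0 h1
  induction p using MvPolynomial.induction_on with
  | C a => exact ⟨∅, fun i _ => by rw [aeval_C, aeval_C]; rfl⟩
  | add p q hp hq =>
    obtain ⟨V, hV⟩ := hp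
    obtain ⟨W, hW⟩ := hq
    refine ⟨V ∪ W, fun i hi => ?_⟩
    rw [Finset.mem_union, not_or] at hi
    rw [map_add, map_add, hV i hi.1, hW i hi.2, map_add]
  | mul_X p j _ =>
    refine ⟨{j}, fun i hi => ?_⟩
    rw [Finset.mem_singleton] at hi
    rw [map_mul, map_mul, aeval_X, aeval_X, if_neg (fun h => hi h.symm), mul_zero, mul_zero, map_zero]

end Pool.Agent.Lib.MP_bda2fe_al
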