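import Pool.Agent.Lib.MP_bda2fe_al.Fg

/-!
# The four objects of a free alternative algebra are completely characteristic
-/

set_option linter.unusedSectionVars false

namespace Pool.Agent.Lib.MP_bda2fe_al

section
variable {R A : Type} [CommRing R] [NonUnitalNonAssocRing A] [Module R A] [SMulCommClass R A A] [IsScalarTower R A A] {x : ℕ → A}

/-- A subalgebra which contains the letters is everything. -/
theorem mem_of_gen (hA : IsFreeAlt R A x) (N : NonUnitalSubalgebra R A) (hx : ∀ i, x i ∈ N) (u : A) : u ∈ N := by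
  have haltN : IsAlt N := ⟨fun a b => Subtype.ext (hA.alt.left a.1 b.1), fun a b => Subtype.ext (hA.alt.right a.1 b.1)⟩
  obtain ⟨φ, hφ, _⟩ := hA.lift N haltN fun i => ⟨x i, hx i⟩
  obtain ⟨ι, hι, hu⟩ := hA.lift A hA.alt x
  have h1 : (NonUnitalSubalgebraClass.subtype N).comp φ = ι := hu _ fun i => by
    rw [NonUnitalAlgHom.comp_apply, hφ]
    rfl
  have h2 : NonUnitalAlgHom.id R A = ι := hu _ fun i => rfl
  have h3 : (φ u : A) = u := DFunLike.congr_fun (h1.trans h2.symm) u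
  rw [← h3]
  exact (φ u).2

/-- An element involves finitely many letters. -/
theorem fin_supp (hA : IsFreeAlt R A x) (u : A) :
    ∃ r : ℕ, ∀ φ ψ : A →ₙₐ[R] A, (∀ i < r, φ (x i) = ψ (x i)) → φ u = ψ u := by
  let N : NonUnitalSubalgebra R A :=
    { carrier := {u | ∃ r : ℕ, ∀ φ ψ : A →ₙₐ[R] A, (∀ i < r, φ (x i) = ψ (x i)) → φ u = ψ u}
      add_mem' := by
        rintro u v ⟨r, hr⟩ ⟨s, hs⟩
        refine ⟨max r s, fun φ ψ h => ?_⟩
        rw [map_add, map_add, hr φ ψ fun i hi => h i (lt_of_lt_of_le hi (le_max_left _ _)),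
          hs φ ψ fun i hi => h i (lt_of_lt_of_le hi (le_max_right _ _))]
      zero_mem' := ⟨0, fun φ ψ _ => by rw [map_zero, map_zero]⟩
      mul_mem' := by
        rintro u v ⟨r, hr⟩ ⟨s, hs⟩
        refine ⟨max r s, fun φ ψ h => ?_⟩
        rw [map_mul, map_mul, hr φ ψ fun i hi => h i (lt_of_lt_of_le hi (le_max_left _ _)),
          hs φ ψ fun i hi => h i (lt_of_lt_of_le hi (le_max_right _ _))]
      smul_mem' := by
        rintro c u ⟨r, hr⟩
        exact ⟨r, fun φ ψ h => by rw [map_smul, map_smul, hr φ ψ h]⟩ }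
  exact mem_of_gen hA N (fun i => ⟨i + 1, fun φ ψ h => h i (Nat.lt_succ_self i)⟩) u

/-- Substitution of `a`, `b` for two letters which do not occur in `u`. -/
theorem fresh (hA : IsFreeAlt R A x) (u : A) : ∃ r : ℕ, ∀ (φ : A →ₙₐ[R] A) (a b : A),
    ∃ ψ : A →ₙₐ[R] A, ψ u = φ u ∧ ψ (x r) = a ∧ ψ (x (r + 1)) = b := by
  obtain ⟨r, hr⟩ := fin_supp hA u
  refine ⟨r, fun φ a b => ?_⟩
  obtain ⟨ψ, hψ, _⟩ := hA.lift A hA.alt fun i => if i < r then φ (x i) else if i = r then a else b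
  refine ⟨ψ, hr ψ φ fun i hi => by rw [hψ, if_pos hi], ?_, ?_⟩
  · rw [hψ, if_neg (lt_irrefl r), if_pos rfl]
  · rw [hψ, if_neg (by omega), if_neg (by omega)]

theorem nucleus_stable (hA : IsFreeAlt R A x) : Stable (nucleus R A) := by
  intro φ n hn a b
  obtain ⟨r, hr⟩ := fresh hA n
  obtain ⟨ψ, h1, h2, h3⟩ := hr φ a b
  obtain ⟨e1, e2, e3⟩ := hn (x r) (x (r + 1))
  refine ⟨?_, ?_, ?_⟩
  · have h4 := congrArg ψ e1
    simpa only [map_mul, h1, h2, h3] using h4
  · have h4 := congrArg ψ e2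
    simpa only [map_mul, h1, h2, h3] using h4
  · have h4 := congrArg ψ e3
    simpa only [map_mul, h1, h2, h3] using h4

theorem cent_stable (hA : IsFreeAlt R A x) : Stable (cent R A) := by
  intro φ n hn
  refine ⟨nucleus_stable hA φ n hn.1, fun a => ?_⟩
  obtain ⟨r, hr⟩ := fresh hA n
  obtain ⟨ψ, h1, h2, _⟩ := hr φ a a
  have h4 := congrArg ψ (hn.2 (x r))
  simpa only [map_mul, h1, h2] using h4

theorem ZN_stable (hA : IsFreeAlt R A x) : Stable (ZN R A) := by
  intro φ c hc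
  let I : Submodule R A :=
    { carrier := {c | φ c ∈ ZN R A}
      add_mem' := fun {a b} ha hb => by
        change φ (a + b) ∈ ZN R A
        rw [map_add]
        exact add_mem ha hb
      zero_mem' := by
        change φ 0 ∈ ZN R A
        rw [map_zero]
        exact zero_mem _
      smul_mem' := fun r a ha => by
        change φ (r • a) ∈ ZN R A
        rw [map_smul]
        exact Submodule.smul_mem _ r ha }
  have hI : ZN R A ≤ I := by
    refine ZN_le ?_ ?_
    · intro a ha b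
      constructor
      · change φ (b * a) ∈ ZN R A
        rw [map_mul]
        exact (ZN_id _ ha _).1
      · change φ (a * b) ∈ ZN R A
        rw [map_mul]
        exact (ZN_id _ ha _).2
    · intro n hn a
      change φ (n * a - a * n) ∈ ZN R A
      rw [map_sub, map_mul, map_mul]
      exact ZN_mem (nucleus_stable hA φ n hn) _
  exact hI hc

theorem U_stable (hA : IsFreeAlt R A x) : Stable (U R A) := by
  intro φ u hu
  let J : Submodule R A := Submodule.span R {a | ∃ (φ : A →ₙₐ[R] A) (u : A), u ∈ U R A ∧ a = φ u}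
  have hJ : IsId J := by
    intro a ha b
    refine Submodule.span_induction (p := fun a _ => b * a ∈ J ∧ a * b ∈ J) ?_ ?_ ?_ ?_ ha
    · rintro a ⟨φ, u, hu, rfl⟩
      obtain ⟨r, hr⟩ := fresh hA u
      obtain ⟨ψ, h1, h2, _⟩ := hr φ b b
      refine ⟨Submodule.subset_span ⟨ψ, x r * u, (U_id u hu (x r)).1, ?_⟩,
        Submodule.subset_span ⟨ψ, u * x r, (U_id u hu (x r)).2, ?_⟩⟩
      · rw [map_mul, h1, h2]
      · rw [map_mul, h1, h2]
    · rw [mul_zero, zero_mul]
      exact ⟨zero_mem _, zero_mem _⟩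
    · intro x y _ _ hx hy
      rw [mul_add, add_mul]
      exact ⟨add_mem hx.1 hy.1, add_mem hx.2 hy.2⟩
    · intro r x _ hx
      rw [mul_smul_comm, smul_mul_assoc]
      exact ⟨J.smul_mem r hx.1, J.smul_mem r hx.2⟩
  have hJN : J ≤ nucleus R A := by
    refine Submodule.span_le.2 ?_
    rintro a ⟨φ, u, hu, rfl⟩
    exact nucleus_stable hA φ u (U_le hu)
  exact le_U hJ hJN (Submodule.subset_span ⟨φ, u, hu, rfl⟩)

theorem nucleus_sub : IsSub (nucleus R A) := by
  intro m hm n hn a b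
  obtain ⟨h1, h2, h3⟩ := hm n a
  obtain ⟨h4, h5, h6⟩ := hn a b
  refine ⟨?_, ?_, ?_⟩
  · rw [(hm n a).1, (hm (n * a) b).1, h4, ← (hm n (a * b)).1]
  · rw [← (hm a n).2.1]
    rw [(hn (a * m) b).2.1, (hm a (n * b)).2.1, ← (hm n b).1]
  · rw [← (hm (a * b) n).2.1, (hm a b).2.2, (hn a (b * m)).2.2, (hm b n).2.1]

theorem cent_sub : IsSub (cent R A) := by
  intro m hm n hn
  refine ⟨nucleus_sub _ hm.1 _ hn.1, fun a => ?_⟩
  rw [(hm.1 n a).1, hn.2, ← (hm.1 a n).1, hm.2, (hm.1 a n).2.1]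

end

end Pool.Agent.Lib.MP_bda2fe_al
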