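import Pool.Agent.Lib.MP_bda2fe_al.Ring
import Pool.Agent.Lib.MP_bda2fe_al.Dec

/-!
# Finite generation over the test ring
-/

set_option linter.unusedSectionVars false

namespace Pool.Agent.Lib.MP_bda2fe_al

open TensorProduct

/-- The test ring of `k`: the ring `k[t_(c,m) : c ∈ k, m ∈ ℕ]` modulo all products `t_(c,m) t_(c',m')` and all `c t_(c,m)`. -/
abbrev TestRing (k : Type) [CommRing k] : Type := TR k (k × ℕ) fun i => Ideal.span {i.1}

/-- For a family of submodules `O Φ C` of the `Φ`-algebras `C`: there is a finite set `S` in the free algebra `A` over `k` such that for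
every commutative `k`-algebra `Φ` the image of `S` in the free algebra `C` over `Φ` generates `O Φ C` as a completely characteristic
subalgebra (as a T-ideal for `b = true`); moreover `O Φ C` is the `Φ`-submodule generated by the image of `O k A`. -/
def Uniform (b : Bool) (O : ∀ (Φ A : Type) [CommRing Φ] [NonUnitalNonAssocRing A] [Module Φ A] [SMulCommClass Φ A A]
    [IsScalarTower Φ A A], Submodule Φ A) (k : Type) {A : Type} [CommRing k] [NonUnitalNonAssocRing A] [Module k A]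
    [SMulCommClass k A A] [IsScalarTower k A A] (x : ℕ → A) : Prop :=
  ∃ S : Finset A, ∀ (Φ C : Type) [CommRing Φ] [Algebra k Φ] [NonUnitalNonAssocRing C] [Module Φ C] [SMulCommClass Φ C C]
    [IsScalarTower Φ C C] (z : ℕ → C), IsFreeAlt Φ C z → ∀ j : A → C, SHom k Φ A C j → (∀ i, j (x i) = z i) →
      IsLeast {D : Submodule Φ C | Kind b D ∧ Stable D ∧ ∀ s ∈ S, j s ∈ D} (O Φ C) ∧
        O Φ C = Submodule.span Φ (j '' (O k A : Set A))

/-- `B` is generated by `S`. -/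
def GenBy (b : Bool) {Φ A : Type} [CommRing Φ] [NonUnitalNonAssocRing A] [Module Φ A] (S : Finset A) (B : Submodule Φ A) : Prop :=
  IsLeast {C : Submodule Φ A | Kind b C ∧ Stable C ∧ ∀ s ∈ S, s ∈ C} B

/-- `FinGenIdeal` for `true`, `FinGenSub` for `false` -/
def FG (b : Bool) {Φ A : Type} [CommRing Φ] [NonUnitalNonAssocRing A] [Module Φ A] (B : Submodule Φ A) : Prop :=
  ∃ S : Finset A, GenBy b S B

variable {b : Bool} {O : ∀ (Φ A : Type) [CommRing Φ] [NonUnitalNonAssocRing A] [Module Φ A] [SMulCommClass Φ A A]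
    [IsScalarTower Φ A A], Submodule Φ A}

/-- The objects over all rings come from the ground ring if they do over the cyclic rings. -/
def Cyclic (O : ∀ (Φ A : Type) [CommRing Φ] [NonUnitalNonAssocRing A] [Module Φ A] [SMulCommClass Φ A A]
    [IsScalarTower Φ A A], Submodule Φ A) : Prop :=
  ∀ (k A : Type) [CommRing k] [IsDomain k] [IsPrincipalIdealRing k] [NonUnitalNonAssocRing A] [Module k A] [SMulCommClass k A A]
    [IsScalarTower k A A] (x : ℕ → A), IsFreeAlt k A x →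
    (∀ c : k, O (k ⧸ Ideal.span {c}) ((k ⧸ Ideal.span {c}) ⊗[k] A) ≤ im' _ (O k A)) →
    ∀ (Φ : Type) [CommRing Φ] [Algebra k Φ], O Φ (Φ ⊗[k] A) ≤ im' Φ (O k A)

section cyclic

variable {k A : Type} [CommRing k] [IsDomain k] [IsPrincipalIdealRing k] [NonUnitalNonAssocRing A] [Module k A]
  [SMulCommClass k A A] [IsScalarTower k A A] {x : ℕ → A}

theorem mem_W' (hA : IsFreeAlt k A x) {Φ : Type} [CommRing Φ] [Algebra k Φ] (u : Φ ⊗[k] A) : ∃ r, u ∈ im' Φ (W k x r) :=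
  (ex_tensor (k := k) (Φ := Φ) (A := A)).mem_W u hA

theorem dec_nucleus (hA : IsFreeAlt k A x) {Φ : Type} [CommRing Φ] [Algebra k Φ] {u : Φ ⊗[k] A} (hu : u ∈ nucleus Φ (Φ ⊗[k] A)) :
    ∃ (T : Type) (_ : Fintype T) (c : T → k) (e : ∀ t, (k ⧸ Ideal.span {c t}) →ₗ[k] Φ) (w : ∀ t, (k ⧸ Ideal.span {c t}) ⊗[k] A),
      (∀ t, w t ∈ nucleus (k ⧸ Ideal.span {c t}) ((k ⧸ Ideal.span {c t}) ⊗[k] A)) ∧ u = ∑ t, tm A (e t) (w t) := by
  obtain ⟨r, hr⟩ := mem_W' hA u
  have h1 : LinearMap.lTensor Φ (asL k (x r) (x (r + 1))) u = 0 := by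
    rw [← asL_t]
    exact sub_eq_zero.2 (hu _ _).1
  obtain ⟨T, _, c, e, w, hw, h⟩ := dec1 _ _ hr h1 h1
  refine ⟨T, inferInstance, c, e, w, fun t => ?_, h⟩
  obtain ⟨h2, h3, _⟩ := hw t
  rw [← asL_t] at h3
  exact nucleus_of_W (free_tensor _ hA) (W_j hA h2) h3

end cyclic

theorem cyclic_nucleus : Cyclic nucleus := by
  intro k A _ _ _ _ _ _ _ x hA H Φ _ _ u hu
  obtain ⟨T, _, c, e, w, hw, rfl⟩ := dec_nucleus hA hu
  exact Submodule.sum_mem _ fun t _ => tm_im (e t) (H (c t) (hw t))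

theorem cyclic_cent : Cyclic cent := by
  intro k A _ _ _ _ _ _ _ x hA H Φ _ _ u hu
  obtain ⟨r, hr⟩ := mem_W' hA u
  have h1 : LinearMap.lTensor Φ (asL k (x r) (x (r + 1))) u = 0 := by
    rw [← asL_t]
    exact sub_eq_zero.2 (hu.1 _ _).1
  have h2 : LinearMap.lTensor Φ (coL k (x r)) u = 0 := by
    rw [← coL_t]
    exact sub_eq_zero.2 (hu.2 _)
  obtain ⟨T, _, c, e, w, hw, rfl⟩ := dec1 _ _ hr h1 h2
  refine Submodule.sum_mem _ fun t _ => tm_im (e t) (H (c t) ?_)
  obtain ⟨h3, h4, h5⟩ := hw t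
  rw [← asL_t] at h4
  rw [← coL_t] at h5
  exact ⟨nucleus_of_W (free_tensor _ hA) (W_j hA h3) h4, cent_of_W (free_tensor _ hA) (W_j hA h3) h5⟩

theorem cyclic_V : Cyclic V := by
  intro k A _ _ _ _ _ _ _ x hA H Φ _ _ u hu
  obtain ⟨r, hr⟩ := mem_W' hA u
  have h1 : LinearMap.lTensor Φ (asL k (x r) (x (r + 1))) u = 0 := by
    rw [← asL_t]
    exact sub_eq_zero.2 (hu.1 _ _).1
  have e1 : ∀ (Ψ : Type) [CommRing Ψ] [Algebra k Ψ], (1 : Ψ) ⊗ₜ[k] (x r * x (r + 1) * x (r + 2) - x r * (x (r + 1) * x (r + 2))) =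
      (1 : Ψ) ⊗ₜ[k] x r * (1 : Ψ) ⊗ₜ[k] x (r + 1) * (1 : Ψ) ⊗ₜ[k] x (r + 2) -
        (1 : Ψ) ⊗ₜ[k] x r * ((1 : Ψ) ⊗ₜ[k] x (r + 1) * (1 : Ψ) ⊗ₜ[k] x (r + 2)) := by
    intro Ψ _ _
    simp only [Algebra.TensorProduct.tmul_mul_tmul, mul_one, TensorProduct.tmul_sub]
  have h2 : LinearMap.lTensor Φ (muL k (x r * x (r + 1) * x (r + 2) - x r * (x (r + 1) * x (r + 2)))) u = 0 := by
    rw [← muL_t, e1]
    exact hu.2 _ _ _
  obtain ⟨T, _, c, e, w, hw, rfl⟩ := dec1 _ _ hr h1 h2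
  refine Submodule.sum_mem _ fun t _ => tm_im (e t) (H (c t) ?_)
  obtain ⟨h3, h4, h5⟩ := hw t
  rw [← asL_t] at h4
  rw [← muL_t, e1] at h5
  exact ⟨nucleus_of_W (free_tensor _ hA) (W_j hA h3) h4, V_of_W (free_tensor _ hA) (W_j hA h3) h5⟩

theorem cyclic_ZN : Cyclic ZN := by
  intro k A _ _ _ _ _ _ _ x hA H Φ _ _
  refine ZN_le ((ex_tensor (k := k) (Φ := Φ) (A := A)).im_id ZN_id) ?_
  intro n hn v
  change _ ∈ im' Φ (ZN k A)
  obtain ⟨T, _, c, e, w, hw, rfl⟩ := dec_nucleus hA hn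
  rw [Finset.sum_mul, Finset.mul_sum, ← Finset.sum_sub_distrib]
  refine Submodule.sum_mem _ fun t _ => ?_
  induction v using TensorProduct.induction_on with
  | zero =>
    rw [mul_zero, zero_mul, sub_zero]
    exact zero_mem _
  | add v v' hv hv' =>
    have h1 : tm A (e t) (w t) * (v + v') - (v + v') * tm A (e t) (w t) =
        (tm A (e t) (w t) * v - v * tm A (e t) (w t)) + (tm A (e t) (w t) * v' - v' * tm A (e t) (w t)) := by
      rw [mul_add, add_mul]
      abel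
    rw [h1]
    exact add_mem hv hv'
  | tmul f a =>
    have h1 : ∀ y : (k ⧸ Ideal.span {c t}) ⊗[k] A, tm A (e t) y * f ⊗ₜ[k] a - f ⊗ₜ[k] a * tm A (e t) y =
        tm A (LinearMap.mulLeft k f ∘ₗ e t) (y * (1 : k ⧸ Ideal.span {c t}) ⊗ₜ[k] a - (1 : k ⧸ Ideal.span {c t}) ⊗ₜ[k] a * y) := by
      intro y
      induction y using TensorProduct.induction_on with
      | zero => simp only [zero_mul, mul_zero, map_zero, sub_zero]
      | add y y' hy hy' =>
        have h2 : tm A (e t) (y + y') * f ⊗ₜ[k] a - f ⊗ₜ[k] a * tm A (e t) (y + y') =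
            (tm A (e t) y * f ⊗ₜ[k] a - f ⊗ₜ[k] a * tm A (e t) y) + (tm A (e t) y' * f ⊗ₜ[k] a - f ⊗ₜ[k] a * tm A (e t) y') := by
          rw [map_add, mul_add, add_mul]
          abel
        rw [h2, hy, hy', ← map_add]
        congr 1
        rw [mul_add, add_mul]
        abel
      | tmul p b =>
        simp only [tm_tmul, Algebra.TensorProduct.tmul_mul_tmul, map_sub, mul_one, one_mul, LinearMap.comp_apply,
          LinearMap.mulLeft_apply]
        rw [mul_comm (e t p) f]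
    rw [h1]
    exact tm_im _ (H (c t) (ZN_mem (hw t) _))

section test

variable {k A : Type} [CommRing k] [NonUnitalNonAssocRing A] [Module k A]
  [SMulCommClass k A A] [IsScalarTower k A A] {x : ℕ → A}

theorem unseen {ι : Type} {I : ι → Ideal k} (s : TR k ι I ⊗[k] A) : ∃ V : Finset ι, ∀ i, i ∉ V →
    tm A (TRg (I := I) i).toLinearMap s = tm A ((Algebra.ofId k (DualNumber (k ⧸ I i))).comp TRpi).toLinearMap s := by
  classical
  induction s using TensorProduct.induction_on with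
  | zero => exact ⟨∅, fun i _ => by rw [map_zero, map_zero]⟩
  | add u v hu hv =>
    obtain ⟨V, hV⟩ := hu
    obtain ⟨V', hV'⟩ := hv
    refine ⟨V ∪ V', fun i hi => ?_⟩
    rw [Finset.mem_union, not_or] at hi
    rw [map_add, map_add, hV i hi.1, hV' i hi.2]
  | tmul e a =>
    obtain ⟨V, hV⟩ := TR_unseen e
    refine ⟨V, fun i hi => ?_⟩
    rw [tm_tmul, tm_tmul]
    congr 1
    exact hV i hi

theorem lift_TR (hO : Good b O) (hA : IsFreeAlt k A x) {ι : Type} {I : ι → Ideal k} (S : Finset (TR k ι I ⊗[k] A))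
    (hS : GenBy (Φ := TR k ι I) (A := TR k ι I ⊗[k] A) b S (O (TR k ι I) (TR k ι I ⊗[k] A)))
    (i : ι) (hi : ∀ s ∈ S, tm A (TRg (I := I) i).toLinearMap s =
      tm A ((Algebra.ofId k (DualNumber (k ⧸ I i))).comp TRpi).toLinearMap s) :
    O (k ⧸ I i) ((k ⧸ I i) ⊗[k] A) ≤ im' _ (O k A) := by
  let l : DualNumber (k ⧸ I i) →ₗ[k] (k ⧸ I i) :=
    { toFun := TrivSqZeroExt.snd
      map_add' := fun _ _ => TrivSqZeroExt.snd_add _ _
      map_smul' := fun _ _ => TrivSqZeroExt.snd_smul _ _ }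
  exact lifting (R := k) (E := TR k ι I) (F := k ⧸ I i) (D := DualNumber (k ⧸ I i)) hO hA TRpi TRpi_surj
    (Ideal.Quotient.mkₐ k _) (Ideal.Quotient.mkₐ_surjective k _) S hS (TRg i) (Algebra.ofId k _) hi (TRtau i)
    (fun e f => TRtau_mul i e f) l (fun f => TRsnd i f)

theorem lift_test (hO : Good b O) (hA : IsFreeAlt k A x)
    (h : FG (Φ := TestRing k) (A := TestRing k ⊗[k] A) b (O (TestRing k) (TestRing k ⊗[k] A))) (c : k) :
    O (k ⧸ Ideal.span {c}) ((k ⧸ Ideal.span {c}) ⊗[k] A) ≤ im' _ (O k A) := by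
  classical
  obtain ⟨S, hS⟩ := h
  choose V hV using fun s : TestRing k ⊗[k] A => unseen (A := A) s
  obtain ⟨m, hm⟩ : ∃ m : ℕ, (c, m) ∉ S.biUnion V := by
    obtain ⟨m, hm⟩ := Infinite.exists_notMem_finset ((S.biUnion V).image Prod.snd)
    exact ⟨m, fun h => hm (Finset.mem_image.2 ⟨_, h, rfl⟩)⟩
  exact lift_TR hO hA S hS (c, m) fun s hs => hV s (c, m) fun h => hm (Finset.mem_biUnion.2 ⟨s, hs, h⟩)

/-- From the test ring to `k`. -/
theorem down_split (hO : Good b O) {E : Type} [CommRing E] [Algebra k E] (π : E →ₐ[k] k) (hA : IsFreeAlt k A x)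
    (h : FG (Φ := E) (A := E ⊗[k] A) b (O E (E ⊗[k] A))) : FG b (O k A) := by
  classical
  obtain ⟨S, hS⟩ := h
  let p : E ⊗[k] A → A := fun u => TensorProduct.lid k A (LinearMap.rTensor A π.toLinearMap u)
  have hp : ∀ (e : E) (a : A), p (e ⊗ₜ[k] a) = π e • a := fun e a => by
    change TensorProduct.lid k A (LinearMap.rTensor A π.toLinearMap (e ⊗ₜ[k] a)) = _
    rw [LinearMap.rTensor_tmul]
    exact TensorProduct.lid_tmul _ _
  have hp0 : p 0 = 0 := by
    change TensorProduct.lid k A (LinearMap.rTensor A π.toLinearMap 0) = 0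
    rw [map_zero, map_zero]
  have hpa : ∀ u v, p (u + v) = p u + p v := fun u v => by
    change TensorProduct.lid k A (LinearMap.rTensor A π.toLinearMap (u + v)) = _
    rw [map_add, map_add]
  have hph : GHom (Φ := E) (Ψ := k) (A := E ⊗[k] A) (B := A) (fun e => π e) p := by
    refine ⟨hpa, fun u v => ?_, fun r u => ?_⟩
    · induction u using TensorProduct.induction_on with
      | zero => simp only [zero_mul, hp0]
      | add u u' hu hu' => simp only [add_mul, hpa, hu, hu']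
      | tmul e a =>
        induction v using TensorProduct.induction_on with
        | zero => simp only [mul_zero, hp0]
        | add v v' hv hv' => simp only [mul_add, hpa, hv, hv']
        | tmul f b => rw [Algebra.TensorProduct.tmul_mul_tmul, hp, hp, hp, map_mul, smul_mul_smul_comm]
    · induction u using TensorProduct.induction_on with
      | zero => rw [smul_zero, hp0, smul_zero]
      | add u u' hu hu' => rw [smul_add, hpa, hu, hu', hpa, smul_add]
      | tmul e a => rw [TensorProduct.smul_tmul', hp, hp, smul_eq_mul, map_mul, mul_smul]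
  have hp1 : ∀ a, p ((1 : E) ⊗ₜ[k] a) = a := fun a => by rw [hp, map_one, one_smul]
  have hps : Function.Surjective p := fun a => ⟨_, hp1 a⟩
  refine ⟨S.image p, ⟨hO.kind k A hA.alt, hO.stable hA, ?_⟩, ?_⟩
  · intro a ha
    obtain ⟨s, hs, rfl⟩ := Finset.mem_image.1 ha
    exact hO.surj (Φ := E) (Ψ := k) (A := E ⊗[k] A) (B := A) hph hps hA.alt (hS.1.2.2 s hs)
  · rintro M ⟨hM1, hM2, hM3⟩ a ha
    have h1 : O E (E ⊗[k] A) ≤ hph.pre M := by
      refine hS.2 ⟨hph.pre_kind b hM1, ?_, fun s hs => hM3 _ (Finset.mem_image.2 ⟨s, hs, rfl⟩)⟩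
      intro ψ u hu
      obtain ⟨ψ', hψ', _⟩ := hA.lift A hA.alt fun m => p (ψ ((1 : E) ⊗ₜ[k] x m))
      have h1 : (fun a => p (ψ ((1 : E) ⊗ₜ[k] a))) = fun a => ψ' a := by
        refine hom_eq (Φ := k) hA hA.alt ⟨fun a b => ?_, fun a b => ?_, fun r a => ?_⟩
          ⟨fun a b => ?_, fun a b => ?_, fun r a => ?_⟩ fun m => ?_
        · rw [TensorProduct.tmul_add, map_add, hpa]
        · rw [← hph.mul, ← map_mul, Algebra.TensorProduct.tmul_mul_tmul, one_mul]
        · have e1 : (1 : E) ⊗ₜ[k] (r • a) = algebraMap k E r • ((1 : E) ⊗ₜ[k] a) := by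
            rw [algebraMap_smul, TensorProduct.tmul_smul]
          rw [e1, map_smul, hph.smul]
          congr 1
          exact π.commutes r
        · rw [map_add]
        · rw [map_mul]
        · rw [map_smul]
          rfl
        · rw [hψ']
      have h2 : ∀ u, p (ψ u) = ψ' (p u) := by
        intro u
        induction u using TensorProduct.induction_on with
        | zero => simp only [map_zero, hp0]
        | add u v hu hv => rw [map_add, hpa, hpa, map_add, hu, hv]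
        | tmul e a =>
          have h3 : e ⊗ₜ[k] a = e • ((1 : E) ⊗ₜ[k] a) := by rw [TensorProduct.smul_tmul', smul_eq_mul, mul_one]
          have h4 : p (ψ ((1 : E) ⊗ₜ[k] a)) = ψ' a := congrFun h1 a
          rw [h3, map_smul, hph.smul, hph.smul, map_smul, h4, hp1]
      change p (ψ u) ∈ M
      rw [h2]
      exact hM2 ψ' _ hu
    have h2 : p ((1 : E) ⊗ₜ[k] a) ∈ M := h1 (hO.jm ex_tensor (alt_tensor hA.alt) ha)
    rwa [hp1] at h2

/-- Transport between free algebras over the same ring. -/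
theorem fg_iso (hO : Good b O) {Φ B C : Type} [CommRing Φ] [NonUnitalNonAssocRing B] [Module Φ B] [SMulCommClass Φ B B]
    [IsScalarTower Φ B B] [NonUnitalNonAssocRing C] [Module Φ C] [SMulCommClass Φ C C] [IsScalarTower Φ C C] {y z : ℕ → _}
    (hB : IsFreeAlt Φ B y) (hC : IsFreeAlt Φ C z) (h : FG b (O Φ B)) : FG b (O Φ C) := by
  obtain ⟨j, α, e, hj⟩ := exists_ex hB hC
  refine e.up (Pk := fun M => Kind b M) (PΦ := fun M => Kind b M) (fun M hM => ?_) (fun _ hM => e.pre_stable hj hB hC hM)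
    (fun _ ha => hO.jm e hC.alt ha) (hO.flat e hB) (hO.kind Φ C hC.alt) (hO.stable hC) h
  cases b
  · exact e.pre_sub hM
  · exact e.pre_id hM

/-- From generators over `k` to generators over all rings. -/
theorem uniform_of (hO : Good b O) (hA : IsFreeAlt k A x) (h : FG b (O k A))
    (H : ∀ (Φ : Type) [CommRing Φ] [Algebra k Φ], O Φ (Φ ⊗[k] A) ≤ im' Φ (O k A)) : Uniform b O k x := by
  obtain ⟨S, hS⟩ := h
  refine ⟨S, ?_⟩
  intro Φ C _ _ _ _ _ _ z hC j hj hjx
  obtain ⟨j', α, e, hj'⟩ := exists_ex (Φ := Φ) hA hC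
  have hjj : j' = j := hom_eq (Φ := Φ) hA hC.alt e.hom hj fun i => by rw [hj', hjx]
  subst hjj
  obtain ⟨j2, α2, e2, hj2⟩ := exists_ex (Φ := Φ) (free_tensor Φ hA) hC
  have h1 : (fun a => j2 ((1 : Φ) ⊗ₜ[k] a)) = j' := by
    refine hom_eq (Φ := Φ) hA hC.alt ⟨fun a b => ?_, fun a b => ?_, fun r a => ?_⟩ e.hom fun i => ?_
    · rw [TensorProduct.tmul_add, e2.hom.add]
    · rw [← e2.hom.mul, Algebra.TensorProduct.tmul_mul_tmul, one_mul]
    · have e1 : (1 : Φ) ⊗ₜ[k] (r • a) = algebraMap k Φ r • ((1 : Φ) ⊗ₜ[k] a) := by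
        rw [algebraMap_smul, TensorProduct.tmul_smul]
      rw [e1, e2.hom.smul]
      rfl
    · rw [hj2, hj']
  have h2 : O Φ C ≤ e.im (O k A) := by
    refine (hO.flat e2 (free_tensor Φ hA)).trans (e2.im_le ((H Φ).trans ?_))
    refine Submodule.span_le.2 ?_
    rintro _ ⟨a, ha, rfl⟩
    change j2 ((1 : Φ) ⊗ₜ[k] a) ∈ e.im (O k A)
    have h3 : j2 ((1 : Φ) ⊗ₜ[k] a) = j' a := congrFun h1 a
    rw [h3]
    exact e.mem_im ha
  have h3 : e.im (O k A) ≤ O Φ C := Submodule.span_le.2 (by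
    rintro _ ⟨a, ha, rfl⟩
    exact hO.jm e hC.alt ha)
  refine ⟨⟨⟨hO.kind Φ C hC.alt, hO.stable hC, fun s hs => hO.jm e hC.alt (hS.1.2.2 s hs)⟩, ?_⟩, le_antisymm h2 h3⟩
  rintro M ⟨hM1, hM2, hM3⟩
  refine h2.trans (e.im_le (hS.2 ⟨?_, e.pre_stable hj' hA hC hM2, fun s hs => hM3 s hs⟩))
  cases b
  · exact e.pre_sub hM1
  · exact e.pre_id hM1

theorem of_uniform (hA : IsFreeAlt k A x) (h : Uniform b O k x) {Φ C : Type} [CommRing Φ] [Algebra k Φ] [NonUnitalNonAssocRing C]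
    [Module Φ C] [SMulCommClass Φ C C] [IsScalarTower Φ C C] {z : ℕ → C} (hC : IsFreeAlt Φ C z) : FG b (O Φ C) := by
  classical
  obtain ⟨S, hS⟩ := h
  obtain ⟨j, hj, hjx, _⟩ := exists_unique_hom (Φ := Φ) hA hC.alt z
  obtain ⟨⟨h1, h2⟩, _⟩ := hS Φ C z hC j hj hjx
  refine ⟨S.image j, ⟨h1.1, h1.2.1, ?_⟩, ?_⟩
  · intro u hu
    obtain ⟨s, hs, rfl⟩ := Finset.mem_image.1 hu
    exact h1.2.2 s hs
  · rintro M ⟨hM1, hM2, hM3⟩
    exact h2 ⟨hM1, hM2, fun s hs => hM3 _ (Finset.mem_image.2 ⟨s, hs, rfl⟩)⟩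

/-- One ring decides. -/
theorem test_iff [IsDomain k] [IsPrincipalIdealRing k] (hO : Good b O) (hc : Cyclic O) (hA : IsFreeAlt k A x) {B : Type}
    [NonUnitalNonAssocRing B] [Module (TestRing k) B] [SMulCommClass (TestRing k) B B] [IsScalarTower (TestRing k) B B] {y : ℕ → B}
    (hB : IsFreeAlt (TestRing k) B y) : FG b (O (TestRing k) B) ↔ Uniform b O k x := by
  refine ⟨fun h => ?_, fun h => of_uniform hA h hB⟩
  have h1 : FG (Φ := TestRing k) (A := TestRing k ⊗[k] A) b (O (TestRing k) (TestRing k ⊗[k] A)) :=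
    fg_iso hO hB (free_tensor (TestRing k) hA) h
  exact uniform_of hO hA (down_split hO TRpi hA h1) (hc k A x hA (lift_test hO hA h1))

end test

end Pool.Agent.Lib.MP_bda2fe_al
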