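import Pool.Agent.Lib.MP_bda2fe_al.Super

/-!
# The Grassmann tower

`Lev C S`: linear, quadratic, ... elements `∑ u i e i`, `∑ f i j e i e j` (`i < j`), ... of `S = C[e 0, …, e (n-1)]` and their
products.
-/

set_option linter.unusedSectionVars false

namespace Pool.Agent.Lib.MP_bda2fe_al

open SRing

/-- The elements of degree at most five of the Grassmann tower over `C`. -/
structure Lev (C : Type) [NonUnitalNonAssocRing C] (S : Type) [SRing S] where
  n : ℕ
  i : C →+ S
  L : (ℕ → C) →+ S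
  Q : (ℕ → ℕ → C) →+ S
  K : (ℕ → ℕ → ℕ → C) →+ S
  R : (ℕ → ℕ → ℕ → ℕ → C) →+ S
  P : (ℕ → ℕ → ℕ → ℕ → ℕ → C) →+ S
  i_ev : ∀ a, i a ∈ ev (S := S)
  L_od : ∀ u, L u ∈ od (S := S)
  Q_ev : ∀ f, Q f ∈ ev (S := S)
  K_od : ∀ f, K f ∈ od (S := S)
  ii : ∀ a b, i a * i b = i (a * b)
  iL : ∀ a u, i a * L u = L (fun j => a * u j)
  Li : ∀ a u, L u * i a = L (fun j => u j * a)
  iQ : ∀ a f, i a * Q f = Q (fun j k => a * f j k)
  Qi : ∀ a f, Q f * i a = Q (fun j k => f j k * a)
  iK : ∀ a f, i a * K f = K (fun j k l => a * f j k l)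
  Ki : ∀ a f, K f * i a = K (fun j k l => f j k l * a)
  LL : ∀ u v, L u * L v = Q (fun j k => u j * v k - u k * v j)
  QL : ∀ f v, Q f * L v = K (fun j k l => f j k * v l - f j l * v k + f k l * v j)
  LQ : ∀ v f, L v * Q f = K (fun j k l => v j * f k l - v k * f j l + v l * f j k)
  KL : ∀ f v, K f * L v = R (fun j k l m => f j k l * v m - f j k m * v l + f j l m * v k - f k l m * v j)
  LK : ∀ v f, L v * K f = R (fun j k l m => v j * f k l m - v k * f j l m + v l * f j k m - v m * f j k l)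
  QQ : ∀ f g, Q f * Q g = R (fun j k l m => f j k * g l m - f j l * g k m + f j m * g k l + f k l * g j m - f k m * g j l +
    f l m * g j k)
  QK : ∀ f g, Q f * K g = P (fun j k l m o => f j k * g l m o - f j l * g k m o + f j m * g k l o + f k l * g j m o -
    f k m * g j l o + f l m * g j k o - f j o * g k l m + f k o * g j l m - f l o * g j k m + f m o * g j k l)
  KQ : ∀ g f, K g * Q f = P (fun j k l m o => g l m o * f j k - g k m o * f j l + g k l o * f j m + g j m o * f k l -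
    g j l o * f k m + g j k o * f l m - g k l m * f j o + g j l m * f k o - g j k m * f l o + g j k l * f m o)

section
variable {C : Type} [NonUnitalNonAssocRing C]

/-- The bottom of the tower. -/
def lev0 (C : Type) [NonUnitalNonAssocRing C] : Lev C (Triv C) where
  n := 0
  i := AddMonoidHom.id C
  L := 0
  Q := 0
  K := 0
  R := 0
  P := 0
  i_ev a := AddSubgroup.mem_top _
  L_od u := zero_mem _
  Q_ev f := zero_mem _
  K_od f := zero_mem _
  ii a b := rfl
  iL a u := mul_zero _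
  Li a u := zero_mul _
  iQ a u := mul_zero _
  Qi a u := zero_mul _
  iK a u := mul_zero _
  Ki a u := zero_mul _
  LL _ _ := zero_mul _
  QL _ _ := zero_mul _
  LQ _ _ := zero_mul _
  KL _ _ := zero_mul _
  LK _ _ := zero_mul _
  QQ _ _ := zero_mul _
  QK _ _ := zero_mul _
  KQ _ _ := zero_mul _

variable {S : Type} [SRing S]

/-- The pairing of two additive maps to `S`. -/
def pr {M : Type} [AddCommGroup M] (f g : M →+ S) : M →+ Dbl S where
  toFun m := ((f m, g m) : S × S)
  map_zero' := Dbl.ext' (map_zero f) (map_zero g)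
  map_add' a b := Dbl.ext' (map_add f a b) (map_add g a b)

/-- The next level of the tower. -/
def Lev.succ (T : Lev C S) : Lev C (Dbl S) where
  n := T.n + 1
  i := pr T.i 0
  L := pr T.L (AddMonoidHom.mk' (fun u => T.i (u T.n)) fun a b => map_add T.i _ _)
  Q := pr T.Q (AddMonoidHom.mk' (fun f => T.L (fun j => f j T.n)) fun a b => map_add T.L _ _)
  K := pr T.K (AddMonoidHom.mk' (fun f => T.Q (fun j k => f j k T.n)) fun a b => map_add T.Q _ _)
  R := pr T.R (AddMonoidHom.mk' (fun f => T.K (fun j k l => f j k l T.n)) fun a b => map_add T.K _ _)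
  P := pr T.P (AddMonoidHom.mk' (fun f => T.R (fun j k l m => f j k l m T.n)) fun a b => map_add T.R _ _)
  i_ev a := ⟨T.i_ev a, zero_mem _⟩
  L_od u := ⟨T.L_od u, T.i_ev _⟩
  Q_ev f := ⟨T.Q_ev f, T.L_od _⟩
  K_od f := ⟨T.K_od f, T.Q_ev _⟩
  ii a b := Dbl.ext' (T.ii a b) (by
    change T.i a * 0 + 0 * sg (T.i b) = 0
    rw [mul_zero, zero_mul, add_zero])
  iL a u := Dbl.ext' (T.iL a u) (by
    change T.i a * T.i (u T.n) + 0 * sg (T.L u) = T.i (a * u T.n)
    rw [zero_mul, add_zero, T.ii])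
  Li a u := Dbl.ext' (T.Li a u) (by
    change T.L u * 0 + T.i (u T.n) * sg (T.i a) = T.i (u T.n * a)
    rw [mul_zero, zero_add, sg_ev _ (T.i_ev a), T.ii])
  iQ a f := Dbl.ext' (T.iQ a f) (by
    change T.i a * T.L (fun j => f j T.n) + 0 * sg (T.Q f) = T.L (fun j => a * f j T.n)
    rw [zero_mul, add_zero, T.iL])
  Qi a f := Dbl.ext' (T.Qi a f) (by
    change T.Q f * 0 + T.L (fun j => f j T.n) * sg (T.i a) = T.L (fun j => f j T.n * a)
    rw [mul_zero, zero_add, sg_ev _ (T.i_ev a), T.Li])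
  iK a f := Dbl.ext' (T.iK a f) (by
    change T.i a * T.Q (fun j k => f j k T.n) + 0 * sg (T.K f) = T.Q (fun j k => a * f j k T.n)
    rw [zero_mul, add_zero, T.iQ])
  Ki a f := Dbl.ext' (T.Ki a f) (by
    change T.K f * 0 + T.Q (fun j k => f j k T.n) * sg (T.i a) = T.Q (fun j k => f j k T.n * a)
    rw [mul_zero, zero_add, sg_ev _ (T.i_ev a), T.Qi])
  LL u v := Dbl.ext' (T.LL u v) (by
    change T.L u * T.i (v T.n) + T.i (u T.n) * sg (T.L v) = T.L (fun j => u j * v T.n - u T.n * v j)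
    rw [sg_od _ (T.L_od v), mul_neg, T.Li, T.iL, ← sub_eq_add_neg]
    exact (map_sub T.L _ _).symm)
  QL f v := Dbl.ext' (T.QL f v) (by
    change T.Q f * T.i (v T.n) + T.L (fun j => f j T.n) * sg (T.L v) =
      T.Q (fun j k => f j k * v T.n - f j T.n * v k + f k T.n * v j)
    rw [sg_od _ (T.L_od v), mul_neg, T.Qi, T.LL, ← sub_eq_add_neg, ← map_sub]
    congr 1; funext j k; simp only [Pi.sub_apply]; abel)
  LQ v f := Dbl.ext' (T.LQ v f) (by
    change T.L v * T.L (fun j => f j T.n) + T.i (v T.n) * sg (T.Q f) =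
      T.Q (fun j k => v j * f k T.n - v k * f j T.n + v T.n * f j k)
    rw [sg_ev _ (T.Q_ev f), T.LL, T.iQ, ← map_add]
    congr 1)
  KL f v := Dbl.ext' (T.KL f v) (by
    change T.K f * T.i (v T.n) + T.Q (fun j k => f j k T.n) * sg (T.L v) =
      T.K (fun j k l => f j k l * v T.n - f j k T.n * v l + f j l T.n * v k - f k l T.n * v j)
    rw [sg_od _ (T.L_od v), mul_neg, T.Ki, T.QL, ← sub_eq_add_neg, ← map_sub]
    congr 1; funext j k l; simp only [Pi.sub_apply]; abel)
  LK v f := Dbl.ext' (T.LK v f) (by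
    change T.L v * T.Q (fun j k => f j k T.n) + T.i (v T.n) * sg (T.K f) =
      T.K (fun j k l => v j * f k l T.n - v k * f j l T.n + v l * f j k T.n - v T.n * f j k l)
    rw [sg_od _ (T.K_od f), mul_neg, T.LQ, T.iK, ← sub_eq_add_neg, ← map_sub]
    congr 1)
  QQ f g := Dbl.ext' (T.QQ f g) (by
    change T.Q f * T.L (fun j => g j T.n) + T.L (fun j => f j T.n) * sg (T.Q g) =
      T.K (fun j k l => f j k * g l T.n - f j l * g k T.n + f j T.n * g k l + f k l * g j T.n - f k T.n * g j l +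
    f l T.n * g j k)
    rw [sg_ev _ (T.Q_ev g), T.QL, T.LQ, ← map_add]
    congr 1; funext j k l; simp only [Pi.add_apply]; abel)
  QK f g := Dbl.ext' (T.QK f g) (by
    change T.Q f * T.Q (fun j k => g j k T.n) + T.L (fun j => f j T.n) * sg (T.K g) =
      T.R (fun j k l m => f j k * g l m T.n - f j l * g k m T.n + f j m * g k l T.n + f k l * g j m T.n -
    f k m * g j l T.n + f l m * g j k T.n - f j T.n * g k l m + f k T.n * g j l m - f l T.n * g j k m + f m T.n * g j k l)
    rw [sg_od _ (T.K_od g), mul_neg, T.QQ, T.LK, ← sub_eq_add_neg, ← map_sub]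
    congr 1; funext j k l m; simp only [Pi.sub_apply]; abel)
  KQ g f := Dbl.ext' (T.KQ g f) (by
    change T.K g * T.L (fun j => f j T.n) + T.Q (fun j k => g j k T.n) * sg (T.Q f) =
      T.R (fun j k l m => g l m T.n * f j k - g k m T.n * f j l + g k l T.n * f j m + g j m T.n * f k l -
    g j l T.n * f k m + g j k T.n * f l m - g k l m * f j T.n + g j l m * f k T.n - g j k m * f l T.n + g j k l * f m T.n)
    rw [sg_ev _ (T.Q_ev f), T.KL, T.QQ, ← map_add]
    congr 1; funext j k l m; simp only [Pi.add_apply]; abel)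

/-- The fifth level. -/
def lev5 (C : Type) [NonUnitalNonAssocRing C] : Lev C (D5 (Triv C)) := (lev0 C).succ.succ.succ.succ.succ

/-- The coefficient of `e 0 e 1 e 2 e 3 e 4`. -/
def top5 : D5 S →+ S where
  toFun a := a.2.2.2.2.2
  map_zero' := rfl
  map_add' _ _ := rfl

theorem top5_P (h : ℕ → ℕ → ℕ → ℕ → ℕ → C) : top5 ((lev5 C).P h) = h 0 1 2 3 4 := rfl

end

end Pool.Agent.Lib.MP_bda2fe_al
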