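import Pool.Agent.Lib.MP_bda2fe_al.Stab

/-!
# The nucleus and the ideal `U` of an alternative algebra by equations
-/

set_option linter.unusedSectionVars false

namespace Pool.Agent.Lib.MP_bda2fe_al

variable {R A : Type} [CommRing R] [NonUnitalNonAssocRing A] [Module R A] [SMulCommClass R A A] [IsScalarTower R A A]

theorem mem_nucleus (hA : IsAlt A) {n : A} : n ∈ nucleus R A ↔ ∀ a b, n * a * b = n * (a * b) := by
  refine ⟨fun h a b => (h a b).1, fun h a b => ?_⟩
  have h2 : ∀ a b, a * n * b = a * (n * b) := by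
    intro a b
    have h3 := hA.left_lin a n b
    rw [h a b] at h3
    exact add_right_cancel h3
  refine ⟨h a b, h2 a b, ?_⟩
  have h3 := hA.right_lin n b a
  rw [h2 a b] at h3
  exact add_left_cancel h3

/-- The elements of the nucleus which annihilate the associators. -/
def V (R A : Type) [CommRing R] [NonUnitalNonAssocRing A] [Module R A] [SMulCommClass R A A] [IsScalarTower R A A] :
    Submodule R A where
  carrier := {u | u ∈ nucleus R A ∧ ∀ a b c, u * (a * b * c - a * (b * c)) = 0}
  add_mem' := fun {u v} hu hv => ⟨add_mem hu.1 hv.1, fun a b c => by rw [add_mul, hu.2, hv.2, add_zero]⟩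
  zero_mem' := ⟨zero_mem _, fun a b c => zero_mul _⟩
  smul_mem' := fun r u hu => ⟨Submodule.smul_mem _ r hu.1, fun a b c => by rw [smul_mul_assoc, hu.2, smul_zero]⟩

theorem V_id (hA : IsAlt A) : IsId (V R A) := by
  intro u hu b
  have hr : ∀ b, u * b ∈ nucleus R A := by
    intro b
    refine (mem_nucleus hA).2 fun a c => ?_
    rw [(hu.1 b a).1, (hu.1 (b * a) c).1, (hu.1 b (a * c)).1]
    have h1 := hu.2 b a c
    rw [mul_sub, sub_eq_zero] at h1
    exact h1
  have ht : ∀ c d e, u * (b * (c * d * e - c * (d * e))) = 0 := by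
    intro c d e
    have h1 : b * (c * d * e - c * (d * e)) = (b * c * d * e - b * c * (d * e)) - (b * (c * d) * e - b * (c * d * e)) +
        (b * c * (d * e) - b * (c * (d * e))) - (b * c * d - b * (c * d)) * e := by
      simp only [mul_sub, sub_mul]
      abel
    rw [h1, mul_sub, mul_add, mul_sub, hu.2, hu.2, hu.2, ← (hu.1 _ e).1, hu.2, zero_mul]
    simp
  refine ⟨⟨?_, ?_⟩, hr b, ?_⟩
  · refine (mem_nucleus hA).2 fun a c => ?_
    rw [(hu.1 b a).2.1, (hr a b c).2.1, (hu.1 a c).1, (hu.1 b (a * c)).2.1]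
  · intro c d e
    rw [(hu.1 b _).2.1, hu.2, mul_zero]
  · intro c d e
    rw [(hu.1 b _).1]
    exact ht c d e

theorem U_eq_V (hA : IsAlt A) : U R A = V R A := by
  refine le_antisymm ?_ (le_U (V_id hA) fun u hu => hu.1)
  intro u hu
  refine ⟨U_le hu, fun a b c => ?_⟩
  have h1 := U_le (U_id u hu a).2 b c
  have h2 := U_le hu
  rw [mul_sub, sub_eq_zero]
  have h3 := h1.1
  rw [(h2 a b).1, (h2 (a * b) c).1, (h2 a (b * c)).1] at h3
  exact h3

end Pool.Agent.Lib.MP_bda2fe_al
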