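import Pool.Agent.Lib.MP_bda2fe_al.S6
import Pool.Agent.Lib.MP_bda2fe_al.NuV

/-!
# The witness from a super-alternative ring
-/

namespace Pool.Agent.Lib.MP_bda2fe_al

open SRing

section
variable {S : Type} [SRing S]

theorem inl_as (a b c : S) : inl (as a b c) = as (inl a) (inl b) (inl c) := by
  simp only [as, map_sub, map_mul]

/-- The coefficient of `e 0 e 1 e 2 e 3 e 4` of `(β, y e 3, y e 4)`. -/
theorem top5_as (y : S) (hy : y ∈ od (S := S)) (β : D5 S) :
    top5 (as β (inl (inr (inl (inl (inl y))))) (inr (inl (inl (inl (inl y)))))) = -as β.1.1.2.2.2 y y := by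
  change (as β (inl (inr (inl (inl (inl y))))) (inr (inl (inl (inl (inl y)))))).2.2.2.2.2 = _
  have hy3 : inl (inl (inl y)) ∈ od (S := Dbl (Dbl (Dbl S))) := inl_od (inl_od (inl_od hy))
  rw [Dbl.as_snd]
  simp only [inl_fst, inl_snd, inr_fst, inr_snd, map_zero, as_zero_right, as_zero_mid, zero_add, add_zero]
  rw [Dbl.as_snd]
  simp only [inl_fst, inl_snd, inr_fst, inr_snd, map_zero, as_zero_right, as_zero_mid, zero_add, add_zero]
  rw [sg_od _ hy3, as_neg_right, Dbl.neg_snd, Dbl.neg_snd, Dbl.neg_snd]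
  rw [Dbl.as_snd]
  simp only [inl_fst, inl_snd, as_zero_right, as_zero_mid, add_zero]
  rw [sg_od _ (inl_od (inl_od hy)), as_neg_right, as_neg_mid, neg_neg, Dbl.as_snd]
  simp only [inl_fst, inl_snd, as_zero_right, as_zero_mid, add_zero]
  rw [sg_od _ (inl_od hy), as_neg_right, as_neg_mid, neg_neg, Dbl.as_snd]
  simp only [inl_fst, inl_snd, as_zero_right, as_zero_mid, add_zero]
  rw [sg_od _ hy, as_neg_right, as_neg_mid, neg_neg]

/-- The coefficient of `e 0 e 1` of `ν(x; y e 0, y e 1)`. -/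
theorem nu_snd (hS : IsSAlt S) (x y : S) (hx : x ∈ ev (S := S)) (hy : y ∈ od (S := S)) :
    (NU.nu (inl (inl x)) (inl (inr y)) (inr (inl y))).2.2 = -((2 : ℤ) • QQs x y) := by
  have h1 : as x y x = 0 := by
    have := hS.leo x hx y hy x
    rwa [hS.sqr x hx y, add_zero] at this
  have h2 : x * y * x = x * (y * x) := sub_eq_zero.1 h1
  have h3 : x * x * y = x * (x * y) := sub_eq_zero.1 (hS.sql x hx y)
  have h4 : y * x * x = y * (x * x) := sub_eq_zero.1 (hS.sqr x hx y)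
  have hr : (y * x - x * y) * x + x * (y * x - x * y) = y * (x * x) - x * x * y := by
    rw [sub_mul, mul_sub, h2, h3, h4]; abel
  have sx : sg x = x := sg_ev _ hx
  have sy : sg y = -y := sg_od _ hy
  unfold QQs
  rw [hr]
  simp only [NU.nu, NU.jm, NU.cm, Dbl.sub_snd, Dbl.add_snd, Dbl.mul_snd, Dbl.mul_fst, Dbl.sub_fst, Dbl.add_fst, Dbl.sg_fst,
    Dbl.sg_snd, inl_fst, inl_snd, inr_fst, inr_snd, map_zero, mul_zero, zero_mul, add_zero, zero_add, sub_zero, zero_sub,
    map_sub, map_add, map_neg, sg_mul, sx, sy, neg_zero, mul_neg, neg_mul, neg_neg, Dbl.zero_fst, Dbl.zero_snd, neg_sub]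
  simp only [mul_sub, sub_mul, mul_neg, neg_mul, neg_neg]
  abel

/-- The coefficient of `e 0 e 1 e 2 e 3 e 4` of `F`. -/
theorem top5_F (hS : IsSAlt S) (x y : S) (hx : x ∈ ev (S := S)) (hy : y ∈ od (S := S)) :
    top5 (NU.nu (inl (inl (inl (inl (inl x))))) (inl (inl (inl (inl (inr y))))) (inl (inl (inl (inr (inl y))))) *
      as (inl (inl (inr (inl (inl y))))) (inl (inr (inl (inl (inl y))))) (inr (inl (inl (inl (inl y)))))) =
      (2 : ℤ) • (QQs x y * as y y y) := by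
  have hy1 := inl_od hy
  have hy2 := inl_od hy1
  have hy3 := inl_od hy2
  set A : D5 S := as (inl (inl (inr (inl (inl y))))) (inl (inr (inl (inl (inl y))))) (inr (inl (inl (inl (inl y))))) with hA
  have hA2 : A.2.2.2 = -inl (inl (as y y y)) := by
    rw [hA, Dbl.as_snd]
    simp only [inl_fst, inl_snd, inr_fst, inr_snd, map_zero, as_zero_right, as_zero_mid, zero_add, add_zero]
    rw [Dbl.as_snd]
    simp only [inl_fst, inl_snd, inr_fst, inr_snd, map_zero, as_zero_right, as_zero_mid, zero_add, add_zero]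
    rw [sg_od _ hy3, as_neg_right, Dbl.neg_snd, Dbl.as_snd]
    simp only [inl_fst, inl_snd, inr_fst, inr_snd, as_zero_right, as_zero_mid, as_zero_left, add_zero, zero_add]
    rw [sg_od _ hy2, as_neg_right, as_neg_mid, neg_neg, inl_as, inl_as]
  have e1 : ∀ (U : Type) [SRing U] (a : U) (B : Dbl U), (inl a * B).2 = a * B.2 := by
    intro U _ a B
    rw [Dbl.mul_snd, inl_fst, inl_snd, zero_mul, add_zero]
  have e2 : ∀ (U : Type) [SRing U] (B : Dbl U) (a : U), (B * inl a).2 = B.2 * sg a := by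
    intro U _ B a
    rw [Dbl.mul_snd, inl_fst, inl_snd, mul_zero, zero_add]
  have e3 : NU.nu (inl (inl (inl (inl (inl x))))) (inl (inl (inl (inl (inr y))))) (inl (inl (inl (inr (inl y))))) =
      inl (inl (inl (NU.nu (inl (inl x)) (inl (inr y)) (inr (inl y))))) := by
    simp only [NU.nu, NU.jm, NU.cm, map_sub, map_add, map_mul]
  have hk : as y y y ∈ od (S := S) := sub_mem (eo _ (oo _ hy _ hy) _ hy) (oe _ hy _ (oo _ hy _ hy))
  change (NU.nu (inl (inl (inl (inl (inl x))))) (inl (inl (inl (inl (inr y))))) (inl (inl (inl (inr (inl y))))) * A).2.2.2.2.2 = _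
  rw [e3, e1, e1, e1, hA2, mul_neg, Dbl.neg_snd, Dbl.neg_snd, e2, sg_od _ (inl_od hk), mul_neg, Dbl.neg_snd, e2, sg_od _ hk,
    nu_snd hS x y hx hy]
  simp only [mul_neg, neg_mul, neg_neg, smul_mul_assoc]

end

/-- An alternative ring with a functional from a super-alternative ring with a functional. -/
theorem wit29 (S : Type) [SRing S] (hS : IsSAlt S) (x y : S) (hx : x ∈ ev (S := S)) (hy : y ∈ od (S := S)) (ψ0 : S →+ ZMod 27)
    (hF : ψ0 (QQs x y * as y y y) = 3 ∨ ψ0 (QQs x y * as y y y) = -3) (hU : ∀ b : S, 9 * ψ0 (as b y y) = 0) :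
    ∃ (R : Type) (_ : NonUnitalNonAssocRing R) (_ : IsAlt R) (a b c d s t : R) (ψ : R →+ ZMod 27),
      (ψ (NU.PP R a b c d * s * t - NU.PP R a b c d * (s * t)) = 9 ∨ ψ (NU.PP R a b c d * s * t - NU.PP R a b c d * (s * t)) = 18) ∧
      ∀ β : R, 9 * ψ (β * s * t - β * (s * t)) = 0 := by
  have hR : IsAlt (evRing (D5 S)) := hS.d5.alt_ev
  let X : evRing (D5 S) := ⟨inl (inl (inl (inl (inl x)))), inl_ev (inl_ev (inl_ev (inl_ev (inl_ev hx))))⟩
  let E1 : evRing (D5 S) := ⟨inl (inl (inl (inl (inr y)))), inl_ev (inl_ev (inl_ev (inl_ev (inr_ev hy))))⟩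
  let E2 : evRing (D5 S) := ⟨inl (inl (inl (inr (inl y)))), inl_ev (inl_ev (inl_ev (inr_ev (inl_od hy))))⟩
  let E3 : evRing (D5 S) := ⟨inl (inl (inr (inl (inl y)))), inl_ev (inl_ev (inr_ev (inl_od (inl_od hy))))⟩
  let E4 : evRing (D5 S) := ⟨inl (inr (inl (inl (inl y)))), inl_ev (inr_ev (inl_od (inl_od (inl_od hy))))⟩
  let E5 : evRing (D5 S) := ⟨inr (inl (inl (inl (inl y)))), inr_ev (inl_od (inl_od (inl_od (inl_od hy))))⟩
  let ψ : evRing (D5 S) →+ ZMod 27 :=
    { toFun := fun r => ψ0 (top5 (r : D5 S))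
      map_zero' := by
        change ψ0 (top5 (0 : D5 S)) = 0
        rw [map_zero, map_zero]
      map_add' := fun r r' => by
        change ψ0 (top5 ((r : D5 S) + (r' : D5 S))) = _
        rw [map_add, map_add] }
  let φ : evRing (D5 S) →ₙ+* D5 S := NonUnitalSubringClass.subtype _
  have hψ : ∀ r, ψ r = ψ0 (top5 (φ r)) := fun _ => rfl
  have hX : φ X = inl (inl (inl (inl (inl x)))) := rfl
  have hE1 : φ E1 = inl (inl (inl (inl (inr y)))) := rfl
  have hE2 : φ E2 = inl (inl (inl (inr (inl y)))) := rfl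
  have hE3 : φ E3 = inl (inl (inr (inl (inl y)))) := rfl
  have hE4 : φ E4 = inl (inr (inl (inl (inl y)))) := rfl
  have hE5 : φ E5 = inr (inl (inl (inl (inl y)))) := rfl
  clear_value X E1 E2 E3 E4 E5
  refine ⟨evRing (D5 S), inferInstance, hR, X, E1, E2, E3, E4, E5, ψ, ?_, ?_⟩
  · have h1 : NU.PP (evRing (D5 S)) X E1 E2 E3 * E4 * E5 - NU.PP (evRing (D5 S)) X E1 E2 E3 * (E4 * E5) =
        (120 : ℤ) • (NU.nu X E1 E2 * NU.as E3 E4 E5) := by
      have n2 := NU.as_mul (NU.nu X E1 E2) E3 E4 E5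
      have m1 : NU.as (NU.nu X E1 E2) E3 E4 = 0 := NuE.nu_nuc hR X E1 E2 E3 E4
      have m2 : NU.as (NU.nu X E1 E2) (E3 * E4) E5 = 0 := NuE.nu_nuc hR X E1 E2 (E3 * E4) E5
      have m3 : NU.as (NU.nu X E1 E2) E3 (E4 * E5) = 0 := NuE.nu_nuc hR X E1 E2 E3 (E4 * E5)
      rw [m1, m2, m3, zero_mul, add_zero, add_zero, sub_zero] at n2
      rw [← n2]
      simp only [NU.PP, NU.as, smul_mul_assoc, smul_sub]
    have h2 : ψ (NU.nu X E1 E2 * NU.as E3 E4 E5) = ψ0 ((2 : ℤ) • (QQs x y * as y y y)) := by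
      rw [← top5_F hS x y hx hy, hψ]
      have e1 : φ (NU.nu X E1 E2 * NU.as E3 E4 E5) = NU.nu (φ X) (φ E1) (φ E2) * as (φ E3) (φ E4) (φ E5) := by
        simp only [NU.nu, NU.jm, NU.cm, NU.as, as, map_sub, map_add, map_mul]
      rw [e1, hX, hE1, hE2, hE3, hE4, hE5]
    rw [h1, map_zsmul, h2, map_zsmul]
    rcases hF with hF | hF
    · right
      rw [hF, smul_smul, zsmul_eq_mul]
      reduce_mod_char
    · left
      rw [hF, smul_smul, zsmul_eq_mul]
      reduce_mod_char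
  · intro β
    have h1 : ψ (β * E4 * E5 - β * (E4 * E5)) = ψ0 (-as (β : D5 S).1.1.2.2.2 y y) := by
      rw [← top5_as y hy (β : D5 S), hψ]
      have e1 : φ (β * E4 * E5 - β * (E4 * E5)) = as (φ β) (φ E4) (φ E5) := by
        simp only [as, map_sub, map_mul]
      rw [e1, hE4, hE5]
      rfl
    rw [h1, map_neg, mul_neg, hU, neg_zero]

end Pool.Agent.Lib.MP_bda2fe_al
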