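import Pool.Agent.Lib.MP_bda2fe_al.FrameK

/-!
# The witness over an arbitrary ring

An alternative ring with an additive map to `ℤ / 27` which shows that `120 ν(a; b, c) d` has no nuclear lift gives such an
alternative `k`-algebra for each commutative ring `k` in which `9` is not a multiple of `27`.
-/

set_option linter.unusedSectionVars false

namespace Pool.Agent.Lib.MP_bda2fe_al.NU

open TensorProduct

/-- `120 ν(a; b, c)` -/
def QQ (C : Type) [NonUnitalNonAssocRing C] (a b c : C) : C := (120 : ℤ) • nu a b c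

theorem QQ_hom (C D : Type) [NonUnitalNonAssocRing C] [NonUnitalNonAssocRing D] (φ : C →ₙ+* D) (a b c : C) :
    φ (QQ C a b c) = QQ D (φ a) (φ b) (φ c) := by
  simp only [QQ, nu, jm, cm, map_zsmul, map_mul, map_sub, map_add]

/-- Extension of scalars of the witness. -/
theorem wit_aux (Z k : Type) [CommRing Z] [CommRing k] [Algebra Z k] (m : ℤ)
    (R : Type) [NonUnitalNonAssocRing R] [Module Z R] [SMulCommClass Z R R] [IsScalarTower Z R R] (hR : IsAlt R) (a b c d s t : R)
    (G : Type) [AddCommGroup G] [Module k G] [Module Z G] [IsScalarTower Z k G] (g : R →ₗ[Z] G)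
    (h1 : g (as (QQ R a b c * d) s t) ≠ 0) (h2 : ∀ β : R, m • g (as β s t) = 0) :
    ∃ (R' : Type) (_ : NonUnitalNonAssocRing R') (_ : Module k R') (_ : SMulCommClass k R' R') (_ : IsScalarTower k R' R'),
      IsAlt R' ∧ ∃ a b c d s t : R', ∀ β : R', as (QQ R' a b c * d) s t ≠ m • as β s t := by
  let Ψ : k ⊗[Z] R →+ G := TensorProduct.liftAddHom
    { toFun := fun r =>
        { toFun := fun v => r • g v
          map_zero' := by rw [map_zero, smul_zero]
          map_add' := fun u v => by rw [map_add, smul_add] }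
      map_zero' := by
        ext v
        change (0 : k) • g v = 0
        rw [zero_smul]
      map_add' := fun r r' => by
        ext v
        change (r + r') • g v = r • g v + r' • g v
        rw [add_smul] }
    (fun n r v => by
      change (n • r) • g v = r • g (n • v)
      rw [map_smul, ← algebraMap_smul k n (g v), smul_smul, Algebra.smul_def, mul_comm])
  have hΨ : ∀ (r : k) (v : R), Ψ (r ⊗ₜ[Z] v) = r • g v := fun r v => rfl
  let j : R →ₙ+* k ⊗[Z] R := jhom Z k R
  have hj : ∀ v, j v = (1 : k) ⊗ₜ[Z] v := fun _ => rfl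
  have hΨj : ∀ v, Ψ (j v) = g v := fun v => by rw [hj, hΨ, one_smul]
  have hβ : ∀ β : k ⊗[Z] R, m • Ψ (as β (j s) (j t)) = 0 := by
    intro β
    induction β using TensorProduct.induction_on with
    | zero => simp only [as, zero_mul, sub_zero, smul_zero, map_zero]
    | add u v hu hv =>
      have h3 : as (u + v) (j s) (j t) = as u (j s) (j t) + as v (j s) (j t) := by
        simp only [as, add_mul]
        abel
      rw [h3, map_add, smul_add, hu, hv, add_zero]
    | tmul r v =>
      have h3 : as (r ⊗ₜ[Z] v) (j s) (j t) = r ⊗ₜ[Z] (as v s t) := by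
        simp only [as, hj, Algebra.TensorProduct.tmul_mul_tmul, mul_one, TensorProduct.tmul_sub]
      rw [h3, hΨ, smul_comm m r, h2, smul_zero]
  refine ⟨k ⊗[Z] R, inferInstance, inferInstance, inferInstance, inferInstance, alt_tensor hR, j a, j b, j c, j d, j s, j t, ?_⟩
  intro β h
  have h3 := congrArg Ψ h
  rw [map_zsmul, hβ, ← QQ_hom] at h3
  have h4 : as (j (QQ R a b c) * j d) (j s) (j t) = j (as (QQ R a b c * d) s t) := by
    simp only [as, map_sub, map_mul]
  rw [h4, hΨj] at h3
  exact h1 h3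

/-- The nucleus and the largest nuclear ideal over the rings `TR k ι J`, from the identities modulo `9` and one alternative ring. -/
theorem no_lift (k : Type) [CommRing k] (h9 : (9 : k) ∉ Ideal.span {(27 : k)})
    (h1 : ∀ (C : Type) [NonUnitalNonAssocRing C], IsAlt C → ∀ a b c u v : C, ∃ w : C, as (nu a b c) u v = (9 : ℤ) • w)
    (h2 : ∀ (C : Type) [NonUnitalNonAssocRing C], IsAlt C → ∀ a b c d s t : C, ∃ w : C,
      (120 : ℤ) • (nu a b c * as d s t) = (9 : ℤ) • w)
    (R : Type) [NonUnitalNonAssocRing R] (hR : IsAlt R) (a b c d s t : R) (ψ : R →+ ZMod 27)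
    (h3 : ψ (PP R a b c d * s * t - PP R a b c d * (s * t)) = 9 ∨ ψ (PP R a b c d * s * t - PP R a b c d * (s * t)) = 18)
    (h4 : ∀ β : R, 9 * ψ (β * s * t - β * (s * t)) = 0)
    (ι : Type) (J : ι → Ideal k) (hJ : {i | J i = Ideal.span {(9 : k)}}.Infinite)
    (B : Type) [NonUnitalNonAssocRing B] [Module (TR k ι J) B] [SMulCommClass (TR k ι J) B B]
    [IsScalarTower (TR k ι J) B B] (y : ℕ → B) (hB : IsFreeAlt (TR k ι J) B y) :
    ¬ FinGenSub (nucleus (TR k ι J) B) ∧ ¬ FinGenIdeal (U (TR k ι J) B) := by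
  let I : Ideal k := Ideal.span {(27 : k)}
  have h27 : Int.castAddHom (k ⧸ I) 27 = 0 := by
    have h3 : Ideal.Quotient.mk I ((27 : ℤ) : k) = 0 :=
      Ideal.Quotient.eq_zero_iff_mem.2 (by rw [Int.cast_ofNat]; exact Ideal.mem_span_singleton_self _)
    rw [map_intCast] at h3
    exact h3
  let χ : ZMod 27 →+ k ⧸ I := ZMod.lift 27 ⟨Int.castAddHom (k ⧸ I), h27⟩
  have hχ : ∀ n : ℤ, χ (n : ZMod 27) = (n : k ⧸ I) := fun n => ZMod.lift_coe 27 _ n
  have hχ9 : χ 9 ≠ 0 := by
    intro h
    have h3 := hχ 9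
    rw [Int.cast_ofNat, h] at h3
    have h4 : Ideal.Quotient.mk I (9 : k) = 0 := by
      rw [h3, Int.cast_ofNat, map_ofNat]
    exact h9 (Ideal.Quotient.eq_zero_iff_mem.1 h4)
  have hχ18 : χ 18 ≠ 0 := by
    intro h
    apply hχ9
    have h3 : (9 : ZMod 27) = (14 : ℕ) • (18 : ZMod 27) := by decide
    rw [h3, map_nsmul, h, smul_zero]
  have e9 : ((9 : ℤ) : k) = 9 := Int.cast_ofNat 9
  have hPP : PP R a b c d * s * t - PP R a b c d * (s * t) = as (QQ R a b c * d) s t := by
    simp only [PP, QQ, as, smul_mul_assoc]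
  rw [hPP] at h3
  obtain ⟨R', _, _, _, _, hR', a', b', c', d', s', t', hno⟩ :=
    wit_aux ℤ k 9 R hR a b c d s t (k ⧸ I) (χ.comp ψ).toIntLinearMap
    (by
      change χ (ψ _) ≠ 0
      rcases h3 with h3 | h3
      · rw [h3]; exact hχ9
      · rw [h3]; exact hχ18)
    (fun β => by
      change (9 : ℤ) • χ (ψ _) = 0
      have h5 : (9 : ℤ) • ψ (as β s t) = 0 := by
        rw [zsmul_eq_mul]
        exact h4 β
      rw [← map_zsmul, h5, map_zero])
  have key := frameK k 9 QQ QQ_hom
    (fun C _ hC a b c u v => by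
      obtain ⟨w, hw⟩ := h1 C hC a b c u v
      refine ⟨(120 : ℤ) • w, ?_⟩
      have h5 : as (QQ C a b c) u v = (120 : ℤ) • as (nu a b c) u v := by
        simp only [QQ, as, smul_mul_assoc, smul_sub]
      rw [h5, hw, smul_comm])
    (fun C _ hC a b c d s t => by
      obtain ⟨w, hw⟩ := h2 C hC a b c d s t
      exact ⟨w, by rw [← hw, QQ, smul_mul_assoc]⟩)
    R' hR' a' b' c' d' s' t' hno
  rw [e9] at key
  exact key ι J hJ B y hB

end Pool.Agent.Lib.MP_bda2fe_al.NU
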