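import Pool.Agent.Lib.MP_bda2fe_al.Stab

/-!
# The ideal `ZN` is finitely generated if the nucleus is
-/

set_option linter.unusedSectionVars false

namespace Pool.Agent.Lib.MP_bda2fe_al

theorem zn_of_nucleus {R A : Type} [CommRing R] [NonUnitalNonAssocRing A] [Module R A] [SMulCommClass R A A] [IsScalarTower R A A]
    {x : ℕ → A} (hA : IsFreeAlt R A x) (h : FinGenSub (nucleus R A)) : FinGenIdeal (ZN R A) := by
  classical
  obtain ⟨S, ⟨_, _, hS⟩, hmin⟩ := h
  choose r hr using fun u : A => fresh hA u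
  refine ⟨S.image fun s => s * x (r s) - x (r s) * s, ⟨ZN_id, ZN_stable hA, ?_⟩, ?_⟩
  · intro u hu
    obtain ⟨s, hs, rfl⟩ := Finset.mem_image.1 hu
    exact ZN_mem (hS s hs) _
  · rintro M ⟨hM1, hM2, hM3⟩
    let C : Submodule R A :=
      { carrier := {n | n ∈ nucleus R A ∧ ∀ a, n * a - a * n ∈ M}
        add_mem' := by
          rintro m n ⟨hm, hm'⟩ ⟨hn, hn'⟩
          refine ⟨add_mem hm hn, fun a => ?_⟩
          have h1 : (m + n) * a - a * (m + n) = (m * a - a * m) + (n * a - a * n) := by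
            rw [add_mul, mul_add]
            abel
          rw [h1]
          exact add_mem (hm' a) (hn' a)
        zero_mem' := ⟨zero_mem _, fun a => by
          rw [zero_mul, mul_zero, sub_zero]
          exact zero_mem _⟩
        smul_mem' := by
          rintro c n ⟨hn, hn'⟩
          refine ⟨Submodule.smul_mem _ c hn, fun a => ?_⟩
          rw [smul_mul_assoc, mul_smul_comm, ← smul_sub]
          exact M.smul_mem c (hn' a) }
    have hC1 : IsSub C := by
      rintro m ⟨hm, hm'⟩ n ⟨hn, hn'⟩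
      refine ⟨nucleus_sub m hm n hn, fun a => ?_⟩
      have h1 : m * n * a - a * (m * n) = m * (n * a - a * n) + (m * a - a * m) * n := by
        rw [(hm n a).1, ← (hm a n).2.1, mul_sub, sub_mul, ← (hm a n).1]
        abel
      rw [h1]
      exact add_mem (hM1 _ (hn' a) m).1 (hM1 _ (hm' a) n).2
    have hC2 : Stable C := by
      rintro φ n ⟨hn, hn'⟩
      refine ⟨nucleus_stable hA φ n hn, fun a => ?_⟩
      obtain ⟨ψ, h1, h2, _⟩ := hr n φ a a
      have h3 := hM2 ψ _ (hn' (x (r n)))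
      rwa [map_sub, map_mul, map_mul, h1, h2] at h3
    have hC3 : ∀ s ∈ S, s ∈ C := by
      intro s hs
      refine ⟨hS s hs, fun a => ?_⟩
      obtain ⟨ψ, h1, h2, _⟩ := hr s (NonUnitalAlgHom.id R A) a a
      have h3 := hM2 ψ _ (hM3 _ (Finset.mem_image.2 ⟨s, hs, rfl⟩))
      rwa [map_sub, map_mul, map_mul, h1, h2] at h3
    have h4 : nucleus R A ≤ C := hmin ⟨hC1, hC2, hC3⟩
    exact ZN_le hM1 fun n hn a => (h4 hn).2 a

end Pool.Agent.Lib.MP_bda2fe_al
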